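import Pool.Agent.Work.MP_b44cb1_al.HH.Defs

/-!
# HH/ChMod (size M) : the module of a central elementary abelian factor

`V = Additive (↥K ⧸ L.subgroupOf K)`. It is commutative since `⁅a, b⁆ ∈ L` for `a, b ∈ K ≤ N`, and
killed by `p`, so it is a `ZMod p`-module (`AddCommGroup.zmodModule`). `ρ g` is induced by
`a ↦ g a g⁻¹` (additive maps between `ZMod p`-modules are linear, `AddMonoidHom.toZModLinearMap`).
`π` is the quotient map. `ρ g = 1` for `g ∈ N` since `g a g⁻¹ ≡ a` mod `L`.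
-/

set_option autoImplicit false

namespace Pool.Agent.Work.MP_b44cb1_al.HH

open Subgroup
open scoped commutatorElement

private theorem ch_aux0 {V G : Type} [AddCommGroup V] [Group G] {p : ℕ}
    (hV : ∀ x : V, p • x = 0) (F : G → V →+ V) (h1 : ∀ x, F 1 x = x)
    (hm : ∀ g h x, F (g * h) x = F g (F h x)) :
    ∃ (_ : Module (ZMod p) V) (ρ : G →* (V →ₗ[ZMod p] V)), ∀ g x, F g x = ρ g x := by
  obtain ⟨iM⟩ : Nonempty (Module (ZMod p) V) := ⟨AddCommGroup.zmodModule hV⟩
  let ρ : G →* (V →ₗ[ZMod p] V) :=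
    { toFun := fun g => (F g).toZModLinearMap p
      map_one' := LinearMap.ext fun x => by
        rw [AddMonoidHom.coe_toZModLinearMap, h1, Module.End.one_apply]
      map_mul' := fun g h => LinearMap.ext fun x => by
        rw [AddMonoidHom.coe_toZModLinearMap, hm, Module.End.mul_apply,
          AddMonoidHom.coe_toZModLinearMap, AddMonoidHom.coe_toZModLinearMap] }
  refine ⟨iM, ρ, fun g x => ?_⟩
  show _ = (F g).toZModLinearMap p x
  rw [AddMonoidHom.coe_toZModLinearMap]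

private theorem ch_aux {Q G : Type} [CommGroup Q] [Finite Q] [Group G] {p : ℕ}
    (hQ : ∀ x : Q, x ^ p = 1) (F : G → Q →* Q) (h1 : ∀ x, F 1 x = x)
    (hm : ∀ g h x, F (g * h) x = F g (F h x)) :
    ∃ (V : Type) (_ : AddCommGroup V) (_ : Module (ZMod p) V) (_ : Finite V)
      (ρ : G →* (V →ₗ[ZMod p] V)) (e : Q ≃* Multiplicative V),
      ∀ g x, Multiplicative.toAdd (e (F g x)) = ρ g (Multiplicative.toAdd (e x)) := by
  obtain ⟨iM, ρ, hρ⟩ := ch_aux0 (V := Additive Q) (p := p) (fun x => hQ (Additive.toMul x))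
    (fun g => MonoidHom.toAdditive (F g)) (fun x => h1 (Additive.toMul x))
    (fun g h x => hm g h (Additive.toMul x))
  let e : Q ≃* Multiplicative (Additive Q) :=
    { toFun := fun x => Multiplicative.ofAdd (Additive.ofMul x)
      invFun := fun x => Additive.toMul (Multiplicative.toAdd x)
      left_inv := fun _ => rfl
      right_inv := fun _ => rfl
      map_mul' := fun _ _ => rfl }
  exact ⟨Additive Q, inferInstance, iM, inferInstanceAs (Finite Q), ρ, e, fun g x =>
    hρ g (Additive.ofMul x)⟩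

theorem ch_mod {G : Type} [Group G] [Finite G] {p : ℕ} (hp : p.Prime) (K L N : Subgroup G)
    (hK : K.Normal) (hL : L.Normal) (hLK : L ≤ K) (hKN : K ≤ N)
    (hcom : ∀ a ∈ K, ∀ b ∈ N, ⁅a, b⁆ ∈ L) (hexp : ∀ a ∈ K, a ^ p ∈ L) :
    ∃ (V : Type) (_ : AddCommGroup V) (_ : Module (ZMod p) V) (_ : Finite V)
      (ρ : G →* (V →ₗ[ZMod p] V)) (π : K →* Multiplicative V),
      Function.Surjective π ∧ (∀ a : K, π a = 1 ↔ (a : G) ∈ L) ∧
      (∀ (g : G) (a b : K), (b : G) = g * a * g⁻¹ →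
        Multiplicative.toAdd (π b) = ρ g (Multiplicative.toAdd (π a))) ∧
      ∀ g ∈ N, ρ g = 1 := by
  have : Fact p.Prime := ⟨hp⟩
  have hL' : (L.subgroupOf K).Normal := hL.subgroupOf K
  have hcomm : ∀ a b : ↥K ⧸ L.subgroupOf K, a * b = b * a := by
    intro a b
    obtain ⟨x, rfl⟩ := QuotientGroup.mk_surjective a
    obtain ⟨y, rfl⟩ := QuotientGroup.mk_surjective b
    rw [← QuotientGroup.mk_mul, ← QuotientGroup.mk_mul, QuotientGroup.eq, mem_subgroupOf]
    have := hcom (y⁻¹ : K) (inv_mem y.2) (x⁻¹ : K) (hKN (inv_mem x.2))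
    simpa [commutatorElement_def, mul_assoc] using this
  let iQ : CommGroup (↥K ⧸ L.subgroupOf K) :=
    { (inferInstance : Group (↥K ⧸ L.subgroupOf K)) with mul_comm := hcomm }
  have hQ : ∀ x : ↥K ⧸ L.subgroupOf K, x ^ p = 1 := by
    intro x
    obtain ⟨a, rfl⟩ := QuotientGroup.mk_surjective x
    have h1 : (a : G) ^ p ∈ L := hexp a a.2
    show (QuotientGroup.mk (a ^ p) : ↥K ⧸ L.subgroupOf K) = 1
    rw [QuotientGroup.eq_one_iff, mem_subgroupOf]
    simpa using h1
  let f : G → (↥K ⧸ L.subgroupOf K) →* (↥K ⧸ L.subgroupOf K) := fun g =>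
    QuotientGroup.map _ _ (MulAut.conjNormal (H := K) g).toMonoidHom (by
      intro a ha
      rw [mem_subgroupOf] at ha
      rw [Subgroup.mem_comap, mem_subgroupOf]
      exact hL.conj_mem _ ha g)
  have hf : ∀ (g : G) (a b : K), (b : G) = g * a * g⁻¹ →
      f g (QuotientGroup.mk a) = QuotientGroup.mk b := by
    intro g a b hb
    have h1 : (MulAut.conjNormal (H := K) g) a = b := by
      ext
      rw [MulAut.conjNormal_apply, hb]
    show QuotientGroup.mk ((MulAut.conjNormal (H := K) g) a) = _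
    rw [h1]
  have hconj : ∀ (g : G) (a : K), g * a * g⁻¹ ∈ K := fun g a => hK.conj_mem a a.2 g
  have hf1 : ∀ x, f 1 x = x := by
    intro x
    obtain ⟨a, rfl⟩ := QuotientGroup.mk_surjective x
    rw [hf 1 a a (by simp)]
  have hfm : ∀ g h x, f (g * h) x = f g (f h x) := by
    intro g h x
    obtain ⟨a, rfl⟩ := QuotientGroup.mk_surjective x
    rw [hf (g * h) a ⟨g * (h * a * h⁻¹) * g⁻¹, hconj g ⟨_, hconj h a⟩⟩ (by simp [mul_assoc])]
    rw [hf h a ⟨_, hconj h a⟩ rfl, hf g ⟨_, hconj h a⟩ ⟨_, hconj g ⟨_, hconj h a⟩⟩ rfl]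
  obtain ⟨V, iV, iM, iF, ρ, e, he⟩ := ch_aux hQ f hf1 hfm
  refine ⟨V, iV, iM, iF, ρ, e.toMonoidHom.comp (QuotientGroup.mk' (L.subgroupOf K)), ?_, ?_, ?_, ?_⟩
  · exact e.surjective.comp (QuotientGroup.mk'_surjective _)
  · intro a
    rw [← mem_subgroupOf (H := L) (K := K), ← QuotientGroup.eq_one_iff]
    show e (QuotientGroup.mk a) = 1 ↔ _
    exact MulEquiv.map_eq_one_iff e
  · intro g a b hb
    show Multiplicative.toAdd (e (QuotientGroup.mk b)) =
      ρ g (Multiplicative.toAdd (e (QuotientGroup.mk a)))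
    rw [← he g, ← hf g a b hb]
  · intro g hg
    ext x
    obtain ⟨y, hy⟩ := e.surjective (Multiplicative.ofAdd x)
    obtain ⟨a, rfl⟩ := QuotientGroup.mk_surjective y
    have h1 : x = Multiplicative.toAdd (e (QuotientGroup.mk a)) := by rw [hy]; rfl
    rw [h1, ← he g]
    show Multiplicative.toAdd (e (f g (QuotientGroup.mk a))) = Multiplicative.toAdd (e _)
    rw [hf g a ⟨_, hconj g a⟩ rfl]
    congr 2
    rw [QuotientGroup.eq, mem_subgroupOf]
    have h3 := hcom a a.2 g hg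
    have h4 : (((⟨g * a * g⁻¹, hconj g a⟩ : K)⁻¹ * a : K) : G) =
        a⁻¹ * ⁅(a : G), g⁆ * a := by
      simp [commutatorElement_def, mul_assoc]
    rw [h4]
    have := hL.conj_mem _ h3 (a : G)⁻¹
    simpa using this

end Pool.Agent.Work.MP_b44cb1_al.HH
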