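import Pool.Agent.Work.MP_b44cb1_al.HH.Defs

/-!
# HH/Geo (size XS) : `(Y-1)^(p^k)` in characteristic `p`

In `F[X]`: `(X-1)^(p^k) = X^(p^k) - 1 = (X-1) ∑ X^i` (`sub_pow_char_pow`, `geom_sum_mul`); cancel
`X - 1` to get `(X-1)^(p^k-1) = ∑ X^i`; apply `Polynomial.aeval Y`.
-/

set_option autoImplicit false

namespace Pool.Agent.Work.MP_b44cb1_al.HH

theorem geo_pow {F E : Type*} [Field F] [Ring E] [Algebra F E] {p : ℕ} (hp : p.Prime) [CharP F p]
    (Y : E) (k : ℕ) : (Y - 1) ^ p ^ k = Y ^ p ^ k - 1 := by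
  have : Fact p.Prime := ⟨hp⟩
  have h1 : ((Polynomial.X : Polynomial F) - 1) ^ p ^ k = Polynomial.X ^ p ^ k - 1 ^ p ^ k :=
    sub_pow_char_pow _ _ k
  have h2 := congrArg (Polynomial.aeval Y) h1
  simpa using h2

theorem geo_sum {F E : Type*} [Field F] [Ring E] [Algebra F E] {p : ℕ} (hp : p.Prime) [CharP F p]
    (Y : E) (k : ℕ) : (Y - 1) ^ (p ^ k - 1) = ∑ i ∈ Finset.range (p ^ k), Y ^ i := by
  have : Fact p.Prime := ⟨hp⟩
  have h0 : ((Polynomial.X : Polynomial F) - 1) ≠ 0 := by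
    have := Polynomial.X_sub_C_ne_zero (1 : F)
    rwa [Polynomial.C_1] at this
  have h1 : ((Polynomial.X : Polynomial F) - 1) ^ (p ^ k - 1) =
      ∑ i ∈ Finset.range (p ^ k), Polynomial.X ^ i := by
    refine mul_right_cancel₀ h0 ?_
    rw [geom_sum_mul, ← pow_succ, Nat.sub_add_cancel (Nat.one_le_pow _ _ hp.pos), geo_pow (F := F) hp]
  have h2 := congrArg (Polynomial.aeval Y) h1
  simpa using h2

end Pool.Agent.Work.MP_b44cb1_al.HH
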