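import Pool.Agent.Work.MP_b44cb1_al.HH.Core

/-!
# HH/Lift (size S) : lifting `p`-subgroups and `p`-elements

* `lift_p`: `P'` is contained in a Sylow `p`-subgroup `S'` of `H` (`IsPGroup.exists_le_sylow`), and
  `S' = S.map f` for a Sylow `p`-subgroup `S` of `G` (`Sylow.mapSurjective_surjective`,
  `Sylow.coe_mapSurjective`). Take `P = S ⊓ P'.comap f`.
* `lift_el`: apply `lift_p` to `zpowers h`.
* `exp_map`, `eng_map`: pass to the image with `lift_el`, `lift_p` (`map_phi_iter`).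
* `comm_map`: if `⁅g^m, h^m⁆ ∈ N` for all `g, h` in a common `p`-subgroup of `G` and `f(N) = 1` then
  `⁅g^m, h^m⁆ = 1` for all `g, h` in a common `p`-subgroup of `H`.
-/

set_option autoImplicit false

namespace Pool.Agent.Work.MP_b44cb1_al.HH

open Subgroup
open scoped commutatorElement

theorem lift_p {G H : Type*} [Group G] [Group H] [Finite G] {p : ℕ} (hp : p.Prime) (f : G →* H)
    (hf : Function.Surjective f) (P' : Subgroup H) (hP' : IsPGroup p P') :
    ∃ P : Subgroup G, IsPGroup p P ∧ P.map f = P' := by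
  have : Fact p.Prime := ⟨hp⟩
  obtain ⟨S', hS'⟩ := hP'.exists_le_sylow
  obtain ⟨S, hS⟩ := Sylow.mapSurjective_surjective hf p S'
  have hSm : (S : Subgroup G).map f = (S' : Subgroup H) := by
    rw [← hS, Sylow.coe_mapSurjective]
  refine ⟨(S : Subgroup G) ⊓ P'.comap f, S.isPGroup'.to_le inf_le_left, ?_⟩
  apply le_antisymm
  · rintro _ ⟨x, hx, rfl⟩
    exact hx.2
  · intro y hy
    have h1 : y ∈ (S : Subgroup G).map f := by
      rw [hSm]
      exact hS' hy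
    obtain ⟨x, hx, rfl⟩ := h1
    exact ⟨x, ⟨hx, hy⟩, rfl⟩

private theorem pel_iff {G : Type*} [Group G] {p : ℕ} (g : G) :
    PEl p g ↔ IsPGroup p (zpowers g) := by
  constructor
  · rintro ⟨j, hj⟩ ⟨x, n, rfl⟩
    refine ⟨j, ?_⟩
    apply Subtype.ext
    show (g ^ n) ^ p ^ j = 1
    rw [← zpow_natCast, ← zpow_mul, mul_comm, zpow_mul, zpow_natCast, hj, one_zpow]
  · intro h
    obtain ⟨j, hj⟩ := h ⟨g, mem_zpowers g⟩
    exact ⟨j, congrArg Subtype.val hj⟩

theorem lift_el {G H : Type*} [Group G] [Group H] [Finite G] {p : ℕ} (hp : p.Prime) (f : G →* H)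
    (hf : Function.Surjective f) (h : H) (hh : PEl p h) : ∃ g : G, PEl p g ∧ f g = h := by
  obtain ⟨P, hP, hPm⟩ := lift_p hp f hf (zpowers h) ((pel_iff h).1 hh)
  have h1 : h ∈ P.map f := by
    rw [hPm]
    exact mem_zpowers h
  obtain ⟨g, hg, hgh⟩ := h1
  obtain ⟨j, hj⟩ := hP ⟨g, hg⟩
  exact ⟨g, ⟨j, congrArg Subtype.val hj⟩, hgh⟩

theorem exp_map {G H : Type*} [Group G] [Group H] [Finite G] {p e : ℕ} (hp : p.Prime) (f : G →* H)
    (hf : Function.Surjective f) (h : ExpP p e G) : ExpP p e H := by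
  intro y hy
  obtain ⟨g, hg, rfl⟩ := lift_el hp f hf y hy
  rw [← map_pow, h g hg, map_one]

theorem eng_map {G H : Type*} [Group G] [Group H] [Finite G] {p r : ℕ} (hp : p.Prime) (f : G →* H)
    (hf : Function.Surjective f) (h : EngP p r G) : EngP p r H := by
  intro P' hP' x hx y hy
  obtain ⟨P, hP, rfl⟩ := lift_p hp f hf P' hP'
  obtain ⟨a, ha, rfl⟩ := hx
  obtain ⟨b, hb, rfl⟩ := hy
  rw [← map_phi_iter, h P hP a ha b hb, map_one]

theorem comm_map {G H : Type*} [Group G] [Group H] [Finite G] {p m : ℕ} (hp : p.Prime)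
    (f : G →* H) (hf : Function.Surjective f) (N : Subgroup G) (hN : ∀ g ∈ N, f g = 1)
    (h : ∀ P : Subgroup G, IsPGroup p P → ∀ x ∈ P, ∀ y ∈ P, ⁅x ^ m, y ^ m⁆ ∈ N) :
    ∀ P : Subgroup H, IsPGroup p P → ∀ x ∈ P, ∀ y ∈ P, ⁅x ^ m, y ^ m⁆ = 1 := by
  intro P' hP' x hx y hy
  obtain ⟨P, hP, rfl⟩ := lift_p hp f hf P' hP'
  obtain ⟨a, ha, rfl⟩ := hx
  obtain ⟨b, hb, rfl⟩ := hy
  have h1 := hN _ (h P hP a ha b hb)
  rwa [map_commutatorElement, map_pow, map_pow] at h1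

/-- `⟨g⟩ ⊔ N` is a `p`-group if `g` is a `p`-element and `N` a normal `p`-subgroup. -/
theorem zp_sup {G : Type*} [Group G] {p : ℕ} (N : Subgroup G) [N.Normal]
    (hN : IsPGroup p N) (g : G) (hg : PEl p g) : IsPGroup p ↥(zpowers g ⊔ N) :=
  ((pel_iff g).1 hg).to_sup_of_normal_right hN

end Pool.Agent.Work.MP_b44cb1_al.HH
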