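import Pool.Agent.Work.MP_b44cb1_al.HH.Defs

/-!
# HH/Pw (size S) : computations in `K → V`

* `pw`: `(t g)^(m+1) = κ g^m t g = κ (g^m t g^{-m}) g^(m+1)`, induction on `m`.
* `engw`: `phi y t = t⁻¹ y⁻¹ t y` is in `K` (normal) and
  `π (phi y t) = -π t + ρ y⁻¹ (π t)`. So `π ((phi y)^[j] t) = (ρ y⁻¹ - 1)^j (π t)`. If
  `(phi y)^[r] t = 1` for all `t ∈ K` then `(ρ y⁻¹ - 1)^r = 0` by surjectivity of `π`.
-/

set_option autoImplicit false

namespace Pool.Agent.Work.MP_b44cb1_al.HH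

open Subgroup
open scoped commutatorElement

theorem pw {G V : Type*} [Group G] [AddCommGroup V] {p : ℕ} [Module (ZMod p) V]
    (ρ : G →* (V →ₗ[ZMod p] V)) (K : Subgroup G) (hK : K.Normal) (π : K →* Multiplicative V)
    (hπ : ∀ (g : G) (a b : K), (b : G) = g * a * g⁻¹ →
      Multiplicative.toAdd (π b) = ρ g (Multiplicative.toAdd (π a))) (t : K) (g : G) (m : ℕ) :
    ∃ κ : K, ((t : G) * g) ^ m = κ * g ^ m ∧
      Multiplicative.toAdd (π κ) = (∑ i ∈ Finset.range m, (ρ g) ^ i) (Multiplicative.toAdd (π t)) := by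
  induction m with
  | zero =>
    refine ⟨1, ?_, ?_⟩
    · simp
    · rw [map_one, Finset.range_zero, Finset.sum_empty, toAdd_one, LinearMap.zero_apply]
  | succ m ih =>
    obtain ⟨κ, h1, h2⟩ := ih
    let t' : K := ⟨g ^ m * t * (g ^ m)⁻¹, hK.conj_mem t t.2 (g ^ m)⟩
    refine ⟨κ * t', ?_, ?_⟩
    · rw [pow_succ, h1, Subgroup.coe_mul]
      change (κ : G) * g ^ m * (t * g) = κ * (g ^ m * t * (g ^ m)⁻¹) * g ^ (m + 1)
      rw [pow_succ]
      group
    · rw [map_mul, toAdd_mul, h2, hπ (g ^ m) t t' rfl, map_pow, Finset.sum_range_succ,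
        LinearMap.add_apply]

theorem engw {G V : Type*} [Group G] [AddCommGroup V] {p : ℕ} [Module (ZMod p) V]
    (ρ : G →* (V →ₗ[ZMod p] V)) (K : Subgroup G) (hK : K.Normal) (π : K →* Multiplicative V)
    (hsurj : Function.Surjective π)
    (hπ : ∀ (g : G) (a b : K), (b : G) = g * a * g⁻¹ →
      Multiplicative.toAdd (π b) = ρ g (Multiplicative.toAdd (π a))) (y : G) (r : ℕ)
    (h : ∀ t ∈ K, (phi y⁻¹)^[r] t = 1) : (ρ y - 1) ^ r = 0 := by
  have key : ∀ (j : ℕ) (t : K), ∃ s : K, (s : G) = (phi y⁻¹)^[j] t ∧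
      Multiplicative.toAdd (π s) = ((ρ y - 1) ^ j) (Multiplicative.toAdd (π t)) := by
    intro j
    induction j with
    | zero =>
      intro t
      exact ⟨t, rfl, by rw [pow_zero, Module.End.one_apply]⟩
    | succ j ih =>
      intro t
      obtain ⟨s, h1, h2⟩ := ih t
      let u : K := ⟨y * s * y⁻¹, hK.conj_mem s s.2 y⟩
      refine ⟨s⁻¹ * u, ?_, ?_⟩
      · rw [Function.iterate_succ_apply', ← h1]
        change (s : G)⁻¹ * (y * s * y⁻¹) = (s : G)⁻¹ * y⁻¹⁻¹ * s * y⁻¹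
        group
      · rw [map_mul, map_inv, toAdd_mul, toAdd_inv, hπ y s u rfl, h2, pow_succ',
          Module.End.mul_apply, LinearMap.sub_apply, Module.End.one_apply]
        abel
  ext v
  obtain ⟨t, ht⟩ := hsurj (Multiplicative.ofAdd v)
  obtain ⟨s, h1, h2⟩ := key r t
  rw [h t t.2] at h1
  have hs : s = 1 := Subtype.ext h1
  rw [hs, map_one, toAdd_one, ht, toAdd_ofAdd] at h2
  rw [← h2]
  rfl

end Pool.Agent.Work.MP_b44cb1_al.HH
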