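import Pool.Agent.Work.MP_b44cb1_al.HH.Chain
import Pool.Agent.Work.MP_b44cb1_al.HH.ChMod
import Pool.Agent.Work.MP_b44cb1_al.HH.Pw
import Pool.Agent.Work.MP_b44cb1_al.HH.Geo
import Pool.Agent.Work.MP_b44cb1_al.HH.Lift

/-!
# HH/Eng (size M) : `y^(p^k) ∈ O_p(G)` if the `p`-subgroups are `r`-Engel, `r ≤ p^k`

`N = core {p} G`. Let `D` be the set of all `g ∈ G` such that `⁅a, g⁆ ∈ L` for all `a ∈ K` and all pairs
of normal subgroups `L ≤ K ≤ N` of `G` with `⁅K, N⁆ ≤ L` and `a^p ∈ L` for `a ∈ K`. `D` is a normal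
subgroup of `G` (for fixed `K, L` it is the kernel of the action on `K/L`, e.g. of the `ρ` of `ch_mod`).
* `D` is a `p`-group: otherwise it contains an element `x ≠ 1` of prime order `q ≠ p` (Cauchy), and
  `chain` contradicts `x ∈ D`. So `D ≤ N` (`le_core_p`).
* `y^(p^k) ∈ D` for every `p`-element `y`: for `K, L` take `V, ρ, π` from `ch_mod`. For `t ∈ K ≤ N` both
  `t` and `y⁻¹` are in the `p`-group `⟨y⟩ ⊔ N` (`zp_sup`), so `(phi y⁻¹)^[r] t = 1`; by `engw`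
  `(ρ y - 1)^r = 0`, so `(ρ y - 1)^(p^k) = 0`, so `ρ y ^ (p^k) = 1` (`geo_pow`, `F = ZMod p`), i.e.
  `y^(p^k)` acts trivially on `K/L`.
-/

set_option autoImplicit false

namespace Pool.Agent.Work.MP_b44cb1_al.HH

open Subgroup
open scoped commutatorElement

/-- the pairs `(K, L)` of the definition of `D` -/
private def Pr {G : Type} [Group G] (p : ℕ) (K L : Subgroup G) : Prop :=
  K.Normal ∧ L.Normal ∧ L ≤ K ∧ K ≤ core {p} G ∧ (∀ a ∈ K, ∀ b ∈ core {p} G, ⁅a, b⁆ ∈ L) ∧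
    ∀ a ∈ K, a ^ p ∈ L

private def DD (p : ℕ) (G : Type) [Group G] : Subgroup G where
  carrier := {g | ∀ K L : Subgroup G, Pr p K L → ∀ a ∈ K, ⁅a, g⁆ ∈ L}
  one_mem' := by
    intro K L _ a _
    rw [commutatorElement_one_right]
    exact one_mem _
  mul_mem' := by
    intro g h hg hh K L hKL a ha
    have h1 : ⁅a, g * h⁆ = ⁅a, g⁆ * (g * ⁅a, h⁆ * g⁻¹) := by
      simp [commutatorElement_def, mul_assoc]
    rw [h1]
    exact mul_mem (hg K L hKL a ha) (hKL.2.1.conj_mem _ (hh K L hKL a ha) g)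
  inv_mem' := by
    intro g hg K L hKL a ha
    have h1 : ⁅a, g⁻¹⁆ = g⁻¹ * ⁅a, g⁆⁻¹ * g := by
      simp [commutatorElement_def, mul_assoc]
    rw [h1]
    have := hKL.2.1.conj_mem _ (inv_mem (hg K L hKL a ha)) g⁻¹
    simpa using this

private lemma mem_DD {G : Type} [Group G] {p : ℕ} {g : G} :
    g ∈ DD p G ↔ ∀ K L : Subgroup G, Pr p K L → ∀ a ∈ K, ⁅a, g⁆ ∈ L := Iff.rfl

private lemma DD_normal {G : Type} [Group G] {p : ℕ} : (DD p G).Normal := by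
  constructor
  intro g hg h K L hKL a ha
  have h1 : ⁅a, h * g * h⁻¹⁆ = h * ⁅h⁻¹ * a * h, g⁆ * h⁻¹ := by
    simp [commutatorElement_def, mul_assoc]
  rw [h1]
  refine hKL.2.1.conj_mem _ (hg K L hKL _ ?_) h
  have := hKL.1.conj_mem a ha h⁻¹
  simpa using this

theorem eng {G : Type} [Group G] [Finite G] (hs : Group.IsSolvable G) {p : ℕ} (hp : p.Prime)
    (hc : core {l | l ≠ p} G = ⊥) (r k : ℕ) (hk : r ≤ p ^ k) (hE : EngP p r G) :
    ∀ y : G, PEl p y → y ^ p ^ k ∈ core {p} G := by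
  have : Fact p.Prime := ⟨hp⟩
  have hNn : (core {p} G).Normal := core_normal _ _
  have hNp : IsPGroup p (core {p} G) := core_p hp
  have hDp : IsPGroup p (DD p G) := by
    rw [← piS_iff hp]
    intro l hl hld
    by_contra hlp
    have hlp' : l ≠ p := hlp
    have : Fact l.Prime := ⟨hl⟩
    obtain ⟨⟨x, hxD⟩, hx⟩ := exists_prime_orderOf_dvd_card' (G := DD p G) l hld
    rw [Subgroup.orderOf_mk] at hx
    have hx1 : x ≠ 1 := by
      rintro rfl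
      rw [orderOf_one] at hx
      exact hl.one_lt.ne hx
    have hxl : PEl l x := ⟨1, by rw [pow_one, ← hx, pow_orderOf_eq_one]⟩
    obtain ⟨K, L, hK, hL, hLK, hKN, h1, h2, a, ha, hax⟩ := chain hs hp hl hlp' hc x hx1 hxl
    exact hax (hxD K L ⟨hK, hL, hLK, hKN, h1, h2⟩ a ha)
  have hDN : DD p G ≤ core {p} G := le_core_p hp DD_normal hDp
  intro y hy
  apply hDN
  intro K L hKL a ha
  obtain ⟨hK, hL, hLK, hKN, hcom, hexp⟩ := hKL
  obtain ⟨V, iV, iM, iF, ρ, π, hsurj, hker, hπ, -⟩ :=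
    ch_mod hp K L (core {p} G) hK hL hLK hKN hcom hexp
  have hyr : ∀ t ∈ K, (phi y⁻¹)^[r] t = 1 := by
    intro t ht
    have h1 := zp_sup (core {p} G) hNp y hy
    exact hE _ h1 t (mem_sup_right (hKN ht)) y⁻¹ (inv_mem (mem_sup_left (mem_zpowers y)))
  have h1 := engw ρ K hK π hsurj hπ y r hyr
  have h2 : (ρ y - 1) ^ p ^ k = 0 := pow_eq_zero_of_le hk h1
  have h3 := geo_pow (F := ZMod p) hp (ρ y) k
  rw [h2] at h3
  have h4 : ρ (y ^ p ^ k) = 1 := by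
    rw [map_pow]
    exact (sub_eq_zero.1 h3.symm)
  obtain ⟨g, hg⟩ : ∃ g, g = y ^ p ^ k := ⟨_, rfl⟩
  rw [← hg] at h4 ⊢
  have hb : g * a * g⁻¹ ∈ K := hK.conj_mem a ha g
  have h5 := hπ g ⟨a, ha⟩ ⟨_, hb⟩ rfl
  rw [h4, Module.End.one_apply] at h5
  have h6 : π ⟨_, hb⟩ = π ⟨a, ha⟩ := h5
  have h7 : π (⟨a, ha⟩ * (⟨_, hb⟩ : K)⁻¹) = 1 := by
    rw [map_mul, map_inv, h6, mul_inv_cancel]
  rw [hker] at h7
  have h8 : ⁅a, g⁆ = (((⟨a, ha⟩ : K) * (⟨_, hb⟩ : K)⁻¹ : K) : G) := by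
    simp [commutatorElement_def, mul_assoc]
  rw [h8]
  exact h7

end Pool.Agent.Work.MP_b44cb1_al.HH
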