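import Pool.Agent.Work.MP_b44cb1_al.HH.Iter
import Pool.Agent.Work.MP_b44cb1_al.HH.Eng

/-!
# HH/Final (size S) : bounded `p`-length, `p` odd

`G₀ = G ⧸ core {l | l ≠ p} G`, `G₁ = G₀ ⧸ core {p} G₀`, `G₂ = G₁ ⧸ core {l | l ≠ p} G₁`. `G₀` is `EngP`
(`eng_map`), `core {l | l ≠ p} G₀ = ⊥`. Take `k = r` (`r ≤ p^r`). By `eng` (and `lift_el`)
`ExpP p (p^r) G₂`, `core {l | l ≠ p} G₂ = ⊥`; by `iter` `PL p (4 r) G₂`; three times `pl_step`.
-/

set_option autoImplicit false

namespace Pool.Agent.Work.MP_b44cb1_al.HH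

open Subgroup

private theorem core_p_el {G : Type*} [Group G] [Finite G] {p : ℕ} (hp : p.Prime) :
    ∀ g ∈ core {p} G, ∃ a : ℕ, g ^ p ^ a = 1 := by
  intro g hg
  obtain ⟨a, ha⟩ := core_p hp (G := G) ⟨g, hg⟩
  exact ⟨a, congrArg Subtype.val ha⟩

private theorem final_aux (r : ℕ) {p : ℕ} (hp : p.Prime) (hp2 : p ≠ 2) (G : Type) [Group G]
    [Finite G] (hs : Group.IsSolvable G) (hc : core {l | l ≠ p} G = ⊥) (hE : EngP p r G) :
    PL p (4 * r + 2) G := by
  refine pl_step (core {p} G) (Or.inl (core_p_el hp)) ?_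
  refine pl_step (core {l | l ≠ p} (G ⧸ core {p} G)) (Or.inr (core_p' hp)) ?_
  refine iter hp hp2 r _ inferInstance (core_quot _ _) ?_
  intro z hz
  obtain ⟨y, hy, rfl⟩ := lift_el hp ((QuotientGroup.mk' (core {l | l ≠ p} (G ⧸ core {p} G))).comp
    (QuotientGroup.mk' (core {p} G))) ((QuotientGroup.mk'_surjective _).comp
    (QuotientGroup.mk'_surjective _)) z hz
  have h1 := eng hs hp hc r r (Nat.lt_pow_self hp.one_lt).le hE y hy
  have h2 : QuotientGroup.mk' (core {p} G) (y ^ p ^ r) = 1 := (QuotientGroup.eq_one_iff _).2 h1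
  rw [← map_pow, MonoidHom.comp_apply, h2, map_one]

/-- A finite soluble group whose `p`-subgroups are `r`-Engel, `p` odd, has a normal series of length
`4 r + 3` whose factors are `p`-groups or `p'`-groups. -/
theorem hh_odd (r : ℕ) {p : ℕ} (hp : p.Prime) (hp2 : p ≠ 2) (G : Type) [Group G] [Finite G]
    (hs : Group.IsSolvable G) (hE : EngP p r G) : PL p (4 * r + 3) G := by
  have hE0 : EngP p r (G ⧸ core {l | l ≠ p} G) :=
    eng_map hp (QuotientGroup.mk' _) (QuotientGroup.mk'_surjective _) hE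
  refine pl_step (core {l | l ≠ p} G) (Or.inr (core_p' hp)) ?_
  exact final_aux r hp hp2 _ inferInstance (core_quot _ _) hE0

end Pool.Agent.Work.MP_b44cb1_al.HH
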