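import Pool.Agent.Work.MP_b44cb1_al.HH.Chain
import Pool.Agent.Work.MP_b44cb1_al.HH.ChMod
import Pool.Agent.Work.MP_b44cb1_al.HH.Lift

/-!
# HH/ExMod (size S) : existence of a module with `ρ x ≠ 1`

Lift `x` to a `q`-element `x' ∈ G` (`lift_el`), `x' ≠ 1`. `chain` gives `K`, `L`; `ch_mod` with
`N = core {p} G` gives `V`, `ρ'`, `π`; `ρ'` is trivial on `N` and factors through the quotient
(`QuotientGroup.lift`). `ρ x = ρ' x' ≠ 1`: for `a ∈ K` with `⁅a, x'⁆ ∉ L`, `π (x' a x'⁻¹) ≠ π a`.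
`pw`, `engw` are computations in the same situation (induction on `m`, resp. `r`).
-/

set_option autoImplicit false

namespace Pool.Agent.Work.MP_b44cb1_al.HH

open Subgroup
open scoped commutatorElement

theorem ex_mod {G : Type} [Group G] [Finite G] (hs : Group.IsSolvable G) {p q : ℕ} (hp : p.Prime)
    (hq : q.Prime) (hpq : q ≠ p) (hc : core {l | l ≠ p} G = ⊥) (x : G ⧸ core {p} G)
    (hx1 : x ≠ 1) (hxq : PEl q x) :
    ∃ (V : Type) (_ : AddCommGroup V) (_ : Module (ZMod p) V) (_ : Finite V)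
      (ρ : (G ⧸ core {p} G) →* (V →ₗ[ZMod p] V)) (K : Subgroup G) (π : K →* Multiplicative V),
      K ≤ core {p} G ∧ K.Normal ∧ Function.Surjective π ∧
      (∀ (g : G) (a b : K), (b : G) = g * a * g⁻¹ →
        Multiplicative.toAdd (π b) = ρ (QuotientGroup.mk g) (Multiplicative.toAdd (π a))) ∧
      ρ x ≠ 1 := by
  obtain ⟨x', hx'q, rfl⟩ := lift_el hq (QuotientGroup.mk' (core {p} G))
    (QuotientGroup.mk'_surjective _) x hxq
  have hx'1 : x' ≠ 1 := fun h => hx1 (by rw [h, map_one])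
  obtain ⟨K, L, hK, hL, hLK, hKN, hcom, hexp, a, ha, hax⟩ := chain hs hp hq hpq hc x' hx'1 hx'q
  obtain ⟨V, i1, i2, i3, ρ', π, hπs, hπ1, hπ2, hρ⟩ :=
    ch_mod hp K L (core {p} G) hK hL hLK hKN hcom hexp
  refine ⟨V, i1, i2, i3, QuotientGroup.lift (core {p} G) ρ' (fun g hg => hρ g hg), K, π, hKN, hK,
    hπs, fun g a b hb => hπ2 g a b hb, ?_⟩
  intro hx
  apply hax
  have hx2 : ρ' x' = 1 := hx
  let b : K := ⟨x' * a * x'⁻¹, hK.conj_mem a ha x'⟩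
  have h1 := hπ2 x' ⟨a, ha⟩ b rfl
  rw [hx2] at h1
  have h2 : π b = π ⟨a, ha⟩ := Multiplicative.toAdd.injective h1
  have h3 : π (⟨a, ha⟩ * b⁻¹) = 1 := by rw [map_mul, map_inv, h2, mul_inv_cancel]
  have h4 := (hπ1 _).1 h3
  have h5 : ((⟨a, ha⟩ * b⁻¹ : K) : G) = ⁅a, x'⁆ := by
    show a * (x' * a * x'⁻¹)⁻¹ = a * x' * a⁻¹ * x'⁻¹
    group
  rwa [h5] at h4

end Pool.Agent.Work.MP_b44cb1_al.HH
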