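import Pool.Agent.Work.MP_b44cb1_al.HH.HPB
import Pool.Agent.Work.MP_b44cb1_al.HH.Eng
import Pool.Agent.Work.MP_b44cb1_al.HH.ExMod

/-!
# HH/LpOne (size S-M) : `p`-length one for `p ≥ 2 r`

`N = core {p} G`, `Γ = G ⧸ N`, `y' = mk y`; suppose `y' ≠ 1`. `r ≤ p = p^1`, so `y^p ∈ N` by `eng`
(`k = 1`), `y'^p = 1`. By `fit_S2` in `Γ` (`core {p} Γ = ⊥`) `y'` does not centralise some `core {q} Γ`,
`q ≠ p`: `a ∈ core {q} Γ`, `x = ⁅a, y'⁆ ≠ 1`, a `q`-element. `ex_mod`: `V, ρ, K, π` with `ρ x ≠ 1`. For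
`t ∈ K ≤ N` the elements `t`, `y⁻¹` are in the `p`-group `⟨y⟩ ⊔ N`, so `(phi y⁻¹)^[r] t = 1` and by `engw`
(for `ρ.comp (mk' N)`) `(ρ y' - 1)^r = 0`. `hp_any` gives `ρ x = 1`, contradiction.
`lp_one'`: for a general `G` apply this to `G ⧸ core {l | l ≠ p} G`: the images of `p`-elements.
-/

set_option autoImplicit false

namespace Pool.Agent.Work.MP_b44cb1_al.HH

open Subgroup
open scoped commutatorElement

theorem lp_one {G : Type} [Group G] [Finite G] (hs : Group.IsSolvable G) {p : ℕ} (hp : p.Prime)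
    (hc : core {l | l ≠ p} G = ⊥) (r : ℕ) (hrp : 2 * r ≤ p) (hE : EngP p r G) :
    ∀ y : G, PEl p y → y ∈ core {p} G := by
  intro y hy
  by_contra hyN
  have : Fact p.Prime := ⟨hp⟩
  set N := core {p} G with hN
  have hy1 : (QuotientGroup.mk' N y) ≠ 1 := fun h => hyN ((QuotientGroup.eq_one_iff _).1 h)
  have hyp : (QuotientGroup.mk' N y) ^ p = 1 := by
    have h1 := eng hs hp hc r 1 (by rw [pow_one]; omega) hE y hy
    rw [pow_one] at h1
    rw [← map_pow]
    exact (QuotientGroup.eq_one_iff _).2 h1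
  have hsΓ : Group.IsSolvable (G ⧸ N) := by
    have := hs
    infer_instance
  have hcp : core {p} (G ⧸ N) = ⊥ := core_quot {p} G
  obtain ⟨q, hq, a, ha, hne⟩ : ∃ q : ℕ, q.Prime ∧ ∃ a ∈ core {q} (G ⧸ N),
      QuotientGroup.mk' N y * a ≠ a * QuotientGroup.mk' N y := by
    by_contra hcon
    push Not at hcon
    have h2 := fit_S2 hsΓ hp (QuotientGroup.mk' N y) (fun q hq a ha => hcon q hq a ha)
      ⟨1, by rw [pow_one]; exact hyp⟩
    rw [hcp, Subgroup.mem_bot] at h2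
    exact hy1 h2
  have hqp : q ≠ p := by
    rintro rfl
    rw [hcp, Subgroup.mem_bot] at ha
    subst ha
    rw [mul_one, one_mul] at hne
    exact hne rfl
  have hx1 : ⁅a, QuotientGroup.mk' N y⁆ ≠ 1 := by
    intro h
    rw [commutatorElement_eq_one_iff_mul_comm] at h
    exact hne h.symm
  have hxR : ⁅a, QuotientGroup.mk' N y⁆ ∈ core {q} (G ⧸ N) := by
    have h3 : QuotientGroup.mk' N y * a⁻¹ * (QuotientGroup.mk' N y)⁻¹ ∈ core {q} (G ⧸ N) :=
      (core_normal {q} (G ⧸ N)).conj_mem _ (inv_mem ha) _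
    have h4 : ⁅a, QuotientGroup.mk' N y⁆ =
        a * (QuotientGroup.mk' N y * a⁻¹ * (QuotientGroup.mk' N y)⁻¹) := by
      rw [commutatorElement_def]
      group
    rw [h4]
    exact mul_mem ha h3
  have hxq : PEl q ⁅a, QuotientGroup.mk' N y⁆ := by
    obtain ⟨j, hj⟩ := core_p (G := G ⧸ N) hq ⟨_, hxR⟩
    exact ⟨j, congrArg Subtype.val hj⟩
  obtain ⟨V, _, _, _, ρ, K, π, hKN, hKn, hsurj, hπ, hρx⟩ :=
    ex_mod hs hp hq hqp hc _ hx1 hxq
  have hnil : (ρ (QuotientGroup.mk' N y) - 1) ^ r = 0 := by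
    have h5 := engw (ρ.comp (QuotientGroup.mk' N)) K hKn π hsurj
      (fun g a b h => hπ g a b h) y r (fun t ht => by
        have hP : IsPGroup p ↥(zpowers y ⊔ N) := zp_sup N (core_p hp) y hy
        exact hE _ hP t (mem_sup_right (hKN ht)) y⁻¹
          (mem_sup_left (inv_mem (mem_zpowers y))))
    exact h5
  apply hρx
  exact hp_any hp hq hqp ρ r hrp (core {q} (G ⧸ N)) (core_p hq) (QuotientGroup.mk' N y) hyp
    (fun b hb => (core_normal {q} (G ⧸ N)).conj_mem _ hb _) hnil a ha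

/-- `p`-length at most one: `G` has a normal series `p', p, p'`. -/
theorem lp_one' (r : ℕ) {p : ℕ} (hp : p.Prime) (hrp : 2 * r ≤ p) (G : Type) [Group G] [Finite G]
    (hs : Group.IsSolvable G) (hE : EngP p r G) :
    ∃ A B : Subgroup G, A.Normal ∧ B.Normal ∧ A ≤ B ∧ ¬ p ∣ Nat.card A ∧
      (∀ g ∈ B, ∃ j : ℕ, g ^ p ^ j ∈ A) ∧ ¬ p ∣ B.index := by
  have : Fact p.Prime := ⟨hp⟩
  set A := core {l | l ≠ p} G with hA
  have hsQ : Group.IsSolvable (G ⧸ A) := by
    have := hs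
    infer_instance
  have hcQ : core {l | l ≠ p} (G ⧸ A) = ⊥ := core_quot _ G
  have hEQ : EngP p r (G ⧸ A) :=
    eng_map hp (QuotientGroup.mk' A) (QuotientGroup.mk'_surjective A) hE
  have hmain := lp_one hsQ hp hcQ r hrp hEQ
  refine ⟨A, (core {p} (G ⧸ A)).comap (QuotientGroup.mk' A), inferInstance,
    Subgroup.Normal.comap inferInstance _, ?_, ?_, ?_, ?_⟩
  · intro g hg
    rw [Subgroup.mem_comap]
    have : QuotientGroup.mk' A g = 1 := (QuotientGroup.eq_one_iff _).2 hg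
    rw [this]
    exact one_mem _
  · intro hd
    exact core_pi (G := G) {l | l ≠ p} p hp hd rfl
  · intro g hg
    obtain ⟨j, hj⟩ := core_p (G := G ⧸ A) hp ⟨_, hg⟩
    refine ⟨j, ?_⟩
    have h1 : (QuotientGroup.mk' A g) ^ p ^ j = 1 := congrArg Subtype.val hj
    rw [← map_pow] at h1
    exact (QuotientGroup.eq_one_iff _).1 h1
  · rw [Subgroup.index_comap_of_surjective _ (QuotientGroup.mk'_surjective A)]
    intro hd
    rw [Subgroup.index_eq_card] at hd
    obtain ⟨z, hz⟩ := exists_prime_orderOf_dvd_card' p hd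
    have hzp : PEl p z := ⟨1, by
      have h0 := pow_orderOf_eq_one z
      rw [hz] at h0
      rw [pow_one]
      exact h0⟩
    obtain ⟨g, hg, hgz⟩ := lift_el hp (QuotientGroup.mk' (core {p} (G ⧸ A)))
      (QuotientGroup.mk'_surjective _) z hzp
    have h1 := hmain g hg
    have h2 : QuotientGroup.mk' (core {p} (G ⧸ A)) g = 1 := (QuotientGroup.eq_one_iff _).2 h1
    rw [h2] at hgz
    rw [← hgz, orderOf_one] at hz
    exact hp.one_lt.ne hz

end Pool.Agent.Work.MP_b44cb1_al.HH
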