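import Pool.Agent.Work.MP_b44cb1_al.HH.Defs

/-!
# HH/Cop (size S-M) : coprime action of a `p`-group

* `cfix`: the `p`-group `B` acts by conjugation on the coset `r N` (it is invariant by `hr` and
  `hn`), which has `|N|` elements, prime to `p`; so there is a fixed point
  (`IsPGroup.nonempty_fixed_point_of_prime_not_dvd_card`). (Make `MulAction B {x // r⁻¹ * x ∈ N}`.)
* `ccomm`: `≤` is clear. For `≥` it suffices `⁅r, b⁆ ∈ ⁅⁅R, B⁆, B⁆` for `r ∈ R`, `b ∈ B`. Let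
  `N = ⁅R, B⁆ ≤ R` (`comm_le_left`), normalised by `R` and `B`; `b r b⁻¹ = r ⁅r⁻¹, b⁆`. By `cfix`
  `r = c w`, `w ∈ N`, `c` centralised by `B`, `c ∈ R`. Then
  `⁅c w, b⁆ = c ⁅w, b⁆ c⁻¹ ⁅c, b⁆ = ⁅c w c⁻¹, c b c⁻¹⁆ = ⁅c w c⁻¹, b⁆` and `c w c⁻¹ ∈ N`.
* `ccent`: if `⁅⁅R, B⁆, B⁆ = ⊥` then `⁅R, B⁆ = ⊥`: immediate from `ccomm`.
* `cq_not_dvd`: a `q`-group has order prime to `p ≠ q`.
-/

set_option autoImplicit false
set_option linter.style.haveILetI false

namespace Pool.Agent.Work.MP_b44cb1_al.HH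

open Subgroup
open scoped commutatorElement

theorem cq_not_dvd {G : Type*} [Group G] [Finite G] {p q : ℕ} (hp : p.Prime) (hq : q.Prime)
    (hpq : q ≠ p) (R : Subgroup G) (hR : IsPGroup q R) : ¬ p ∣ Nat.card R := by
  haveI : Fact q.Prime := ⟨hq⟩
  obtain ⟨n, hn⟩ := IsPGroup.iff_card.1 hR
  rw [hn]
  intro h
  exact hpq ((Nat.prime_dvd_prime_iff_eq hp hq).1 (hp.dvd_of_dvd_pow h)).symm

theorem cfix {G : Type*} [Group G] [Finite G] {p : ℕ} (hp : p.Prime) (B N : Subgroup G)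
    (hB : IsPGroup p B) (hN : ¬ p ∣ Nat.card N) (hn : Nz B N) (r : G)
    (hr : ∀ b ∈ B, r⁻¹ * (b * r * b⁻¹) ∈ N) :
    ∃ c : G, r⁻¹ * c ∈ N ∧ ∀ b ∈ B, b * c = c * b := by
  haveI : Fact p.Prime := ⟨hp⟩
  letI act : MulAction B {x : G // r⁻¹ * x ∈ N} :=
    { smul := fun b x => ⟨b.1 * x.1 * b.1⁻¹, by
        have h1 : r⁻¹ * (b.1 * x.1 * b.1⁻¹) =
            (r⁻¹ * (b.1 * r * b.1⁻¹)) * (b.1 * (r⁻¹ * x.1) * b.1⁻¹) := by group
        rw [h1]
        exact mul_mem (hr b.1 b.2) (hn b.1 b.2 _ x.2)⟩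
      one_smul := fun x => Subtype.ext (by
        show (1 : G) * x.1 * (1 : G)⁻¹ = x.1
        group)
      mul_smul := fun b b' x => Subtype.ext (by
        show (b.1 * b'.1) * x.1 * (b.1 * b'.1)⁻¹ = b.1 * (b'.1 * x.1 * b'.1⁻¹) * b.1⁻¹
        group) }
  have hcard : Nat.card {x : G // r⁻¹ * x ∈ N} = Nat.card N := by
    refine Nat.card_congr
      { toFun := fun x => ⟨r⁻¹ * x.1, x.2⟩
        invFun := fun y => ⟨r * y.1, by
          rw [← mul_assoc, inv_mul_cancel, one_mul]; exact y.2⟩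
        left_inv := fun x => Subtype.ext (by simp)
        right_inv := fun y => Subtype.ext (by simp) }
  obtain ⟨c, hc⟩ := IsPGroup.nonempty_fixed_point_of_prime_not_dvd_card hB
    {x : G // r⁻¹ * x ∈ N} (by rw [hcard]; exact hN)
  refine ⟨c.1, c.2, fun b hb => ?_⟩
  have h1 : b * c.1 * b⁻¹ = c.1 := congrArg Subtype.val (hc ⟨b, hb⟩)
  rw [mul_inv_eq_iff_eq_mul] at h1
  exact h1

theorem ccomm {G : Type*} [Group G] [Finite G] {p : ℕ} (hp : p.Prime) (R B : Subgroup G)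
    (hB : IsPGroup p B) (hR : ¬ p ∣ Nat.card R) (hn : Nz B R) : ⁅⁅R, B⁆, B⁆ = ⁅R, B⁆ := by
  have hNR : ⁅R, B⁆ ≤ R := comm_le_left hn
  apply le_antisymm
  · exact commutator_mono hNR le_rfl
  · rw [commutator_le]
    intro r hr b hb
    have hNB : Nz B ⁅R, B⁆ := nz_comm hn (nz_self B)
    have hNRn : Nz R ⁅R, B⁆ := by
      intro s hs x hx
      have h1 : ⁅R, B⁆ ≤ ⁅R, B⁆.comap (MulAut.conj s).toMonoidHom := by
        rw [commutator_le]
        intro r' hr' b' hb'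
        rw [Subgroup.mem_comap]
        show s * ⁅r', b'⁆ * s⁻¹ ∈ ⁅R, B⁆
        have h2 : s * ⁅r', b'⁆ * s⁻¹ = ⁅s * r', b'⁆ * ⁅s, b'⁆⁻¹ := by
          rw [commutatorElement_def, commutatorElement_def, commutatorElement_def]
          group
        rw [h2]
        exact mul_mem (commutator_mem_commutator (mul_mem hs hr') hb')
          (inv_mem (commutator_mem_commutator hs hb'))
      exact h1 hx
    obtain ⟨c, hc1, hc2⟩ := cfix hp B ⁅R, B⁆ hB
      (fun h => hR (h.trans (Subgroup.card_dvd_of_le hNR))) hNB r (by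
        intro b hb
        have h1 : r⁻¹ * (b * r * b⁻¹) = ⁅r⁻¹, b⁆ := by
          simp [commutatorElement_def, mul_assoc]
        rw [h1]
        exact commutator_mem_commutator (inv_mem hr) hb)
    have hcR : c ∈ R := by
      have h1 : c = r * (r⁻¹ * c) := by group
      rw [h1]
      exact mul_mem hr (hNR hc1)
    -- `r = c w`
    set w := c⁻¹ * r with hw
    have hwN : w ∈ ⁅R, B⁆ := by
      have h1 : w = (r⁻¹ * c)⁻¹ := by rw [hw]; group
      rw [h1]; exact inv_mem hc1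
    have h2 : ⁅r, b⁆ = ⁅c * w * c⁻¹, b⁆ := by
      have h3 : r = c * w := by rw [hw]; group
      have h4 : c * b = b * c := (hc2 b hb).symm
      have h5 : c⁻¹ * b⁻¹ = b⁻¹ * c⁻¹ := by
        rw [← mul_inv_rev, ← mul_inv_rev, h4]
      have h6 : c⁻¹ * b = b * c⁻¹ := by
        rw [inv_mul_eq_iff_eq_mul, ← mul_assoc, h4, mul_assoc, mul_inv_cancel, mul_one]
      rw [commutatorElement_def, commutatorElement_def, h3]
      calc c * w * b * (c * w)⁻¹ * b⁻¹ = c * w * b * w⁻¹ * (c⁻¹ * b⁻¹) := by group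
        _ = c * w * b * w⁻¹ * (b⁻¹ * c⁻¹) := by rw [h5]
        _ = c * w * b * w⁻¹ * b⁻¹ * c⁻¹ := by group
        _ = c * w * (c⁻¹ * b) * c * w⁻¹ * c⁻¹ * b⁻¹ := by
            rw [h6]
            have h7 : b * c⁻¹ * c * w⁻¹ * c⁻¹ * b⁻¹ = b * w⁻¹ * (c⁻¹ * b⁻¹) := by group
            calc c * w * b * w⁻¹ * b⁻¹ * c⁻¹ = c * w * (b * w⁻¹ * (b⁻¹ * c⁻¹)) := by group
              _ = c * w * (b * w⁻¹ * (c⁻¹ * b⁻¹)) := by rw [h5]
              _ = c * w * (b * c⁻¹) * c * w⁻¹ * c⁻¹ * b⁻¹ := by group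
        _ = c * w * c⁻¹ * b * (c * w * c⁻¹)⁻¹ * b⁻¹ := by group
    rw [h2]
    exact commutator_mem_commutator (hNRn c hcR w hwN) hb

theorem comm_bot_iff {G : Type*} [Group G] (R B : Subgroup G) :
    ⁅R, B⁆ = ⊥ ↔ ∀ b ∈ B, ∀ r ∈ R, b * r = r * b := by
  rw [eq_bot_iff, commutator_le]
  constructor
  · intro h b hb r hr
    have h1 := h r hr b hb
    rw [Subgroup.mem_bot, commutatorElement_eq_one_iff_mul_comm] at h1
    exact h1.symm
  · intro h r hr b hb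
    rw [Subgroup.mem_bot, commutatorElement_eq_one_iff_mul_comm]
    exact (h b hb r hr).symm

/-- A nontrivial `q`-group `R` satisfies `⁅R, R⁆ ≠ R`; relative version. -/
theorem comm_ne {G : Type*} [Group G] [Finite G] {q : ℕ} (hq : q.Prime) (R : Subgroup G)
    (hR : IsPGroup q R) (hR0 : R ≠ ⊥) : ⁅R, R⁆ ≠ R := by
  haveI : Fact q.Prime := ⟨hq⟩
  haveI : Group.IsNilpotent R := hR.isNilpotent
  haveI : Nontrivial R := (Subgroup.nontrivial_iff_ne_bot R).2 hR0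
  have h1 := Group.IsSolvable.commutator_lt_top_of_nontrivial R
  intro h
  apply h1.ne
  apply Subgroup.map_injective R.subtype_injective
  rw [Subgroup.map_subtype_commutator, h]
  ext x
  simp

end Pool.Agent.Work.MP_b44cb1_al.HH
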