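import Pool.Agent.Work.MP_b44cb1_al.HH.Hyp

/-!
# HH/A1 (size S-M) : choice of the hyperplane `H`

* `pact`: `z` is a `p`-element normalising `B` and `H`, `B/H` is cyclic of order `1` or `p`; then
  `⁅z, b₀⁆ ∈ H` for all `b₀ ∈ B`. Proof: `H` is normal in `B` (`⁅B, B⁆ ≤ C ≤ H`). If `b ∈ H` then
  `B = H`, trivial. Otherwise `b^i ∈ H ↔ p ∣ i` (`b^p ∈ C`). Write `z b z⁻¹ = h b^j`; then
  `z^m b z^{-m} ∈ H b^{j^m}`; with `z^{p^t} = 1`: `b^{j^{p^t} - 1} ∈ H`, so `p ∣ j^{p^t} - 1`, and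
  `j^{p^t} ≡ j` mod `p` (Fermat), so `p ∣ j - 1`, i.e. `⁅z, b⁆ ∈ H`. A general `b₀ = h b^i`.
* `a1`: Suppose that every `H` with `C ≤ H ≤ B`, `B/H` cyclic and `⁅C_R(H), B⁆ ≠ 1` satisfies
  `cj z H = H`. Apply `hyp_gen` with `S = centralizer {⁅z, b₀⁆}`: let `r ∈ R` be centralised by `H`. If
  `⁅C_R(H), B⁆ = ⊥` then `r` commutes with `B ∋ ⁅z, b₀⁆ = (z b₀ z⁻¹) b₀⁻¹`. Otherwise `cj z H = H` and
  `⁅z, b₀⁆ ∈ H` by `pact`. So `⁅z, b₀⁆` centralises `R` and is in `C`: contradiction.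
-/

set_option autoImplicit false

namespace Pool.Agent.Work.MP_b44cb1_al.HH

open Subgroup
open scoped commutatorElement

theorem pact {G : Type*} [Group G] {p : ℕ} (hp : p.Prime) (B C H : Subgroup G)
    (hCH : C ≤ H) (hHB : H ≤ B) (hab : ∀ b ∈ B, ∀ b' ∈ B, ⁅b, b'⁆ ∈ C)
    (hexp : ∀ b ∈ B, b ^ p ∈ C) (hcyc : ∃ b ∈ B, B ≤ H ⊔ zpowers b) (z : G) (hz : PEl p z)
    (hzB : ∀ b ∈ B, z * b * z⁻¹ ∈ B) (hzH : cj z H = H) : ∀ b ∈ B, ⁅z, b⁆ ∈ H := by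
  have hfact : Fact p.Prime := ⟨hp⟩
  have hN : Nz B H := by
    intro b hb h hh
    have h1 := mul_mem (hCH (hab b hb h (hHB hh))) hh
    simpa [commutatorElement_def, mul_assoc] using h1
  have hnorm : (H.subgroupOf B).Normal := hN.subgroupOf_normal
  obtain ⟨b, hb, hBb⟩ := hcyc
  let π : B →* B ⧸ H.subgroupOf B := QuotientGroup.mk' (H.subgroupOf B)
  have hker : ∀ x : B, π x = 1 ↔ (x : G) ∈ H := fun x => by
    change (QuotientGroup.mk' (H.subgroupOf B)) x = 1 ↔ _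
    rw [← MonoidHom.mem_ker, QuotientGroup.ker_mk', mem_subgroupOf]
  let σ : B →* B :=
    { toFun := fun x => ⟨z * x * z⁻¹, hzB x x.2⟩
      map_one' := Subtype.ext (by simp)
      map_mul' := fun x y => Subtype.ext (by simp [mul_assoc]) }
  have hσ : ∀ x : B, ((σ x : B) : G) = z * x * z⁻¹ := fun x => rfl
  have hgen : ∀ x : B, ∃ i : ℤ, π x = π ⟨b, hb⟩ ^ i := by
    intro x
    have hle : zpowers b ≤ normalizer (H : Set G) := by
      rw [zpowers_le]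
      exact nz_iff.1 hN hb
    have h1 : (x : G) ∈ ((H ⊔ zpowers b : Subgroup G) : Set G) := hBb x.2
    rw [coe_mul_of_right_le_normalizer_left H (zpowers b) hle] at h1
    obtain ⟨h, hh, c, hc, e⟩ := h1
    obtain ⟨i, rfl⟩ := mem_zpowers_iff.1 hc
    refine ⟨i, ?_⟩
    have e2 : x = ⟨h, hHB hh⟩ * (⟨b, hb⟩ : B) ^ i := Subtype.ext (by
      rw [← e]
      simp)
    rw [e2, map_mul, map_zpow, (hker ⟨h, hHB hh⟩).2 hh, one_mul]
  have hπσ : ∀ x y : B, π x = π y → π (σ x) = π (σ y) := by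
    intro x y hxy
    have h1 : π (x * y⁻¹) = 1 := by rw [map_mul, map_inv, hxy, mul_inv_cancel]
    rw [hker] at h1
    have h2 : ((σ (x * y⁻¹) : B) : G) ∈ H := by
      rw [hσ]
      have := conj_mem_cj (g := z) h1
      rwa [hzH] at this
    rw [← hker, map_mul, map_mul, map_inv, map_inv, mul_inv_eq_one] at h2
    exact h2
  obtain ⟨j, hj⟩ := hgen (σ ⟨b, hb⟩)
  have hpow : ∀ x : B, π (σ x) = π x ^ j := by
    intro x
    obtain ⟨i, hi⟩ := hgen x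
    have h1 : π (σ x) = π (σ (⟨b, hb⟩ ^ i)) := hπσ _ _ (by rw [hi, map_zpow])
    rw [h1, map_zpow, map_zpow, hj, hi, ← zpow_mul, ← zpow_mul, mul_comm]
  have hit : ∀ (m : ℕ) (x : B), π (σ^[m] x) = π x ^ (j ^ m) := by
    intro m x
    induction m with
    | zero => simp
    | succ m ih => rw [Function.iterate_succ_apply', hpow, ih, ← zpow_mul, ← pow_succ]
  have hit2 : ∀ (m : ℕ) (x : B), ((σ^[m] x : B) : G) = z ^ m * x * (z ^ m)⁻¹ := by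
    intro m x
    induction m with
    | zero => simp
    | succ m ih =>
      rw [Function.iterate_succ_apply', hσ, ih, pow_succ']
      group
  obtain ⟨t, ht⟩ := hz
  have hdvd : (p : ℤ) ∣ j ^ p ^ t - j := by
    rw [← ZMod.intCast_zmod_eq_zero_iff_dvd]
    push_cast
    rw [ZMod.pow_card_pow, sub_self]
  intro c hc
  have h1 : π (⟨c, hc⟩ : B) = π ⟨c, hc⟩ ^ (j ^ p ^ t) := by
    rw [← hit (p ^ t) ⟨c, hc⟩]
    congr 1
    refine Subtype.ext ?_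
    rw [hit2, ht]
    simp
  have h2 : π (⟨c, hc⟩ : B) ^ p = 1 := by
    rw [← map_pow, hker]
    exact hCH (hexp c hc)
  have h3 : π (⟨c, hc⟩ : B) ^ (j ^ p ^ t) = π ⟨c, hc⟩ ^ j := by
    obtain ⟨d, hd⟩ := hdvd
    have e : j ^ p ^ t = p * d + j := by linarith
    rw [e, zpow_add, zpow_mul, zpow_natCast, h2, one_zpow, one_mul]
  have h4 : π (σ ⟨c, hc⟩) = π ⟨c, hc⟩ := by rw [hpow, ← h3, ← h1]
  have h5 : π (σ ⟨c, hc⟩ * (⟨c, hc⟩ : B)⁻¹) = 1 := by rw [map_mul, map_inv, h4, mul_inv_cancel]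
  rw [hker] at h5
  exact h5

theorem a1 {G : Type*} [Group G] [Finite G] {p q : ℕ} (hp : p.Prime) (hq : q.Prime)
    (hpq : q ≠ p) (R B C : Subgroup G) (hR : IsPGroup q R) (hB : IsPGroup p B) (hn : Nz B R)
    (hCB : C ≤ B) (hC : ∀ c ∈ C, ∀ r ∈ R, c * r = r * c)
    (hC' : ∀ c ∈ B, (∀ r ∈ R, c * r = r * c) → c ∈ C) (hab : ∀ b ∈ B, ∀ b' ∈ B, ⁅b, b'⁆ ∈ C)
    (hexp : ∀ b ∈ B, b ^ p ∈ C) (z : G) (hz : PEl p z) (hzB : ∀ b ∈ B, z * b * z⁻¹ ∈ B)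
    (hne : ∃ b ∈ B, ⁅z, b⁆ ∉ C) :
    ∃ H : Subgroup G, C ≤ H ∧ H ≤ B ∧ (∃ b ∈ B, B ≤ H ⊔ zpowers b) ∧
      ⁅R ⊓ centralizer (H : Set G), B⁆ ≠ ⊥ ∧ cj z H ≠ H := by
  by_contra hcon
  push Not at hcon
  obtain ⟨b₀, hb₀, hb₀C⟩ := hne
  have hzb : ⁅z, b₀⁆ ∈ B := by
    rw [commutatorElement_def]
    exact mul_mem (hzB b₀ hb₀) (inv_mem hb₀)
  have key : R ≤ centralizer ({⁅z, b₀⁆} : Set G) := by
    refine hyp_gen hp hq hpq R B C _ hR hB hn hCB hC hab hexp ?_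
    intro H hCH hHB hcyc r hr hHr
    rw [mem_centralizer_singleton_iff]
    by_cases hX : ⁅R ⊓ centralizer (H : Set G), B⁆ = ⊥
    · have hrC : r ∈ R ⊓ centralizer (H : Set G) :=
        ⟨hr, mem_centralizer_iff.2 fun h hh => hHr h hh⟩
      have h1 : ⁅r, ⁅z, b₀⁆⁆ ∈ ⁅R ⊓ centralizer (H : Set G), B⁆ :=
        commutator_mem_commutator hrC hzb
      rw [hX, mem_bot, commutatorElement_eq_one_iff_mul_comm] at h1
      exact h1
    · have h2 := hcon H hCH hHB hcyc hX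
      have h3 := pact hp B C H hCH hHB hab hexp hcyc z hz hzB h2 b₀ hb₀
      first
        | exact hHr _ h3
        | exact (hHr _ h3).symm
  refine hb₀C (hC' _ hzb fun r hr => ?_)
  have h4 := mem_centralizer_singleton_iff.1 (key hr)
  first
    | exact h4
    | exact h4.symm

end Pool.Agent.Work.MP_b44cb1_al.HH
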