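import Pool.Agent.Work.MP_b44cb1_al.HH.Defs

/-!
# HH/Cyc (size XS) : subgroups not containing the socle of a cyclic `p`-group

Let `g^(p^(k+1)) = 1`, `g^(p^k) ∉ S`, `S` a subgroup. If `g^i ∈ S` (`i : ℤ`) then `p^(k+1) ∣ i`.
Proof: let `d = gcd(i, p^(k+1))`, `d = p^a`. By Bezout `g^(p^a) ∈ S`. If `a ≤ k` then
`g^(p^k) = (g^(p^a))^(p^(k-a)) ∈ S`, contradiction. So `a = k+1` and `p^(k+1) ∣ i`.
-/

set_option autoImplicit false

namespace Pool.Agent.Work.MP_b44cb1_al.HH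

open Subgroup

theorem cyc {G : Type*} [Group G] {p : ℕ} (hp : p.Prime) (k : ℕ) (S : Subgroup G) (g : G)
    (hg : g ^ p ^ (k + 1) = 1) (hz : g ^ p ^ k ∉ S) (i : ℤ) (hi : g ^ i ∈ S) :
    ((p ^ (k + 1) : ℕ) : ℤ) ∣ i := by
  have hd : Int.gcd i ((p ^ (k + 1) : ℕ) : ℤ) ∣ p ^ (k + 1) := by
    have h := Int.gcd_dvd_natAbs_right i ((p ^ (k + 1) : ℕ) : ℤ)
    rwa [Int.natAbs_natCast] at h
  obtain ⟨a, ha, hda⟩ := (Nat.dvd_prime_pow hp).1 hd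
  have hb := Int.gcd_eq_gcd_ab i ((p ^ (k + 1) : ℕ) : ℤ)
  rw [hda] at hb
  have h1 : g ^ (((p ^ a : ℕ)) : ℤ) ∈ S := by
    rw [hb, zpow_add, zpow_mul, zpow_mul, zpow_natCast, hg, one_zpow, mul_one]
    exact S.zpow_mem hi _
  rw [zpow_natCast] at h1
  have h2 : a = k + 1 := by
    by_contra hne
    apply hz
    have h3 : p ^ k = p ^ a * p ^ (k - a) := by
      rw [← pow_add]
      congr 1
      omega
    rw [h3, pow_mul]
    exact S.pow_mem h1 _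
  have h4 := Int.gcd_dvd_left i ((p ^ (k + 1) : ℕ) : ℤ)
  rw [hda, h2] at h4
  exact h4

end Pool.Agent.Work.MP_b44cb1_al.HH
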