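import Pool.Agent.Work.MP_b44cb1_al.HH.Cop
import Pool.Agent.Work.MP_b44cb1_al.HH.Cyc

/-!
# HH/A2 (size M) : the contradiction in Theorem A

Notation `z = g^(p^k)`, `C_R(H) = R ⊓ centralizer H`, `X = ⁅C_R(H), B⁆ ≠ ⊥`.
1. `{x | cj x H = H}` is a subgroup not containing `z`; by `cyc`: `cj (g^i) H = H ⇒ g^i = 1` (`i : ℤ`).
2. `hypmax`: for `x ∈ P` with `cj x H ≠ H`: `B ≤ H ⊔ cj x H`. (`cj x H ≤ B`, same order as `H`, so there
   is `h' ∈ cj x H`, `h' ∉ H`; `H` is normal in `B` and `B ≤ H ⊔ ⟨b⟩`, so `h' = h b^j`, and `p ∤ j`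
   because `b^p ∈ C ≤ H`; so `b^j` and `b^p` are in `H ⊔ cj x H`, hence `b` is, hence `B` is.)
3. `B` normalises `C_R(H)` (`H` normal in `B`) and `X ≤ C_R(H)`; `⁅X, B⁆ = X` by `ccomm`. For `x ∈ P`,
   `X' := cj x X = ⁅C_R(cj x H), B⁆` is centralised by `cj x H`, normalised by `B`, `⁅X', B⁆ = X'`.
4. If `x ∈ P`, `cj x H ≠ H` then `X` and `X' = cj x X` commute: with `H' = cj x H`,
   `X' = ⁅X', B⁆ ≤ ⁅X', H ⊔ H'⁆ ≤ ⁅X', H⁆` (`H'` centralises `X'`; `comm_sup_right` with `L = R ⊔ B`, or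
   directly), so `⁅X', H⁆ = X'`. Three subgroups (`commutator_commutator_eq_bot_of_rotate`):
   `⁅⁅H, X⁆, X'⁆ = ⊥` (`H` centralises `X`), `⁅⁅X, X'⁆, H⁆ ≤ ⁅Z, H⁆ = ⊥` (`⁅R, R⁆ ≤ Z`, `B` centralises `Z`);
   so `⁅⁅X', H⁆, X⁆ = ⊥`, i.e. `⁅X', X⁆ = ⊥`.
5. For `c ∈ X` let `A = closure {g^i c g^{-i} | i : ℤ}`. The generators commute: conjugating by a power of
   `g` it suffices that `c` commutes with `g^i c g^{-i} ∈ cj (g^i) X`: if `cj (g^i) H = H` then `g^i = 1`
   by 1., otherwise 4. So `Cz A A`, `cj g A = A`, `A ≤ R`: by `hA` `z` commutes with `c`.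
6. So `z` centralises `X`, hence `X` is centralised by `H` and `cj z H ≠ H`, so by 2. by `B`:
   `X = ⁅X, B⁆ = ⊥`, contradiction.
-/

set_option autoImplicit false

namespace Pool.Agent.Work.MP_b44cb1_al.HH

open Subgroup
open scoped commutatorElement

private theorem a2_nz {G : Type*} [Group G] (B C H : Subgroup G)
    (hCH : C ≤ H) (hHB : H ≤ B) (hab : ∀ b ∈ B, ∀ b' ∈ B, ⁅b, b'⁆ ∈ C) : Nz B H := by
  intro b hb h hh
  have h1 : ⁅b, h⁆ ∈ H := hCH (hab b hb h (hHB hh))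
  have h2 := mul_mem h1 hh
  simpa [commutatorElement_def] using h2

theorem hypmax {G : Type*} [Group G] [Finite G] {p : ℕ} (hp : p.Prime) (B C H : Subgroup G)
    (hCH : C ≤ H) (hHB : H ≤ B) (hab : ∀ b ∈ B, ∀ b' ∈ B, ⁅b, b'⁆ ∈ C)
    (hexp : ∀ b ∈ B, b ^ p ∈ C) (hcyc : ∃ b ∈ B, B ≤ H ⊔ zpowers b) (x : G)
    (hxB : ∀ b ∈ B, x * b * x⁻¹ ∈ B) (hxH : cj x H ≠ H) : B ≤ H ⊔ cj x H := by
  obtain ⟨b, hbB, hb⟩ := hcyc
  have hnz := a2_nz B C H hCH hHB hab
  have h1 : cj x H ≤ B := by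
    intro y hy
    rw [mem_cj] at hy
    have := hxB _ (hHB hy)
    simpa [mul_assoc] using this
  have h2 : ¬ cj x H ≤ H := by
    intro h
    exact hxH (Subgroup.eq_of_le_of_card_ge h (by rw [card_cj]))
  obtain ⟨h', hh', hn⟩ := Set.not_subset.1 h2
  have h3 := hb (h1 hh')
  have hN : zpowers b ≤ normalizer (H : Set G) := by
    have := nz_iff.1 hnz
    exact (Subgroup.zpowers_le.2 hbB).trans this
  rw [← SetLike.mem_coe, coe_mul_of_right_le_normalizer_left H (zpowers b) hN] at h3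
  obtain ⟨h, hh, c, hc, hhc⟩ := h3
  obtain ⟨j, rfl⟩ := Subgroup.mem_zpowers_iff.1 hc
  simp only at hhc
  have hbj : b ^ j ∈ H ⊔ cj x H := by
    have : b ^ j = h⁻¹ * h' := by rw [← hhc]; group
    rw [this]
    exact mul_mem (inv_mem (le_sup_left (a := H) hh)) (le_sup_right (a := H) hh')
  have hbp : b ^ p ∈ H := hCH (hexp b hbB)
  have hpj : ¬ (p : ℤ) ∣ j := by
    rintro ⟨t, rfl⟩
    apply hn
    rw [← hhc]
    refine mul_mem hh ?_
    rw [zpow_mul, zpow_natCast]
    exact zpow_mem hbp t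
  have hcop : IsCoprime (p : ℤ) j := by
    exact (Nat.prime_iff_prime_int.1 hp).irreducible.coprime_iff_not_dvd.2 hpj
  obtain ⟨u, v, huv⟩ := hcop
  have hbb : b ∈ H ⊔ cj x H := by
    have : b = (b ^ p) ^ u * (b ^ j) ^ v := by
      rw [← zpow_natCast b p, ← zpow_mul, ← zpow_mul, ← zpow_add, mul_comm (p : ℤ) u,
        mul_comm j v, huv, zpow_one]
    rw [this]
    exact mul_mem (zpow_mem (le_sup_left (a := H) hbp) u) (zpow_mem hbj v)
  exact hb.trans (sup_le le_sup_left (Subgroup.zpowers_le.2 hbb))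

theorem a2 {G : Type*} [Group G] [Finite G] {p q : ℕ} (hp : p.Prime) (hq : q.Prime)
    (hpq : q ≠ p) (k : ℕ) (P R Z B C H : Subgroup G) (g : G) (hP : IsPGroup p P)
    (hR : IsPGroup q R) (hgP : g ∈ P) (hg : g ^ p ^ (k + 1) = 1) (hPR : Nz P R) (hBP : B ≤ P)
    (hPB : Nz P B) (hCB : C ≤ B) (hC : ∀ c ∈ C, ∀ r ∈ R, c * r = r * c)
    (hab : ∀ b ∈ B, ∀ b' ∈ B, ⁅b, b'⁆ ∈ C) (hexp : ∀ b ∈ B, b ^ p ∈ C) (hRZ : ⁅R, R⁆ ≤ Z)
    (hBZ : ∀ b ∈ B, ∀ x ∈ Z, b * x = x * b) (hCH : C ≤ H) (hHB : H ≤ B)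
    (hcyc : ∃ b ∈ B, B ≤ H ⊔ zpowers b) (hX : ⁅R ⊓ centralizer (H : Set G), B⁆ ≠ ⊥)
    (hzH : cj (g ^ p ^ k) H ≠ H)
    (hA : ∀ A : Subgroup G, A ≤ R → Cz A A → cj g A = A → ∀ a ∈ A,
      g ^ p ^ k * a = a * g ^ p ^ k) : False := by
  have hnz : Nz B H := a2_nz B C H hCH hHB hab
  set D : Subgroup G := R ⊓ centralizer (H : Set G) with hD
  have hBD : Nz B D := by
    intro b hb d hd
    refine ⟨hPR b (hBP hb) d hd.1, ?_⟩
    have hd2 := Subgroup.mem_centralizer_iff.1 hd.2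
    refine Subgroup.mem_centralizer_iff.2 fun h hh => ?_
    have h1 : b⁻¹ * h * b ∈ H := by simpa using hnz b⁻¹ (inv_mem hb) h hh
    have h2 := hd2 _ h1
    calc h * (b * d * b⁻¹) = b * ((b⁻¹ * h * b) * d) * b⁻¹ := by group
      _ = b * (d * (b⁻¹ * h * b)) * b⁻¹ := by rw [h2]
      _ = b * d * b⁻¹ * h := by group
  set X : Subgroup G := ⁅D, B⁆ with hXdef
  have hXD : X ≤ D := comm_le_left hBD
  have hBp : IsPGroup p B := hP.to_le hBP
  have hDcard : ¬ p ∣ Nat.card D := cq_not_dvd hp hq hpq D (hR.to_le inf_le_left)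
  have hXB : ⁅X, B⁆ = X := ccomm hp D B hBp hDcard hBD
  have hBX : Nz B X := nz_comm hBD (nz_self B)
  -- step 1
  let S : Subgroup G :=
    { carrier := {x | cj x H = H}
      one_mem' := cj_one H
      mul_mem' := by
        intro a b ha hb
        simp only [Set.mem_ofPred_eq] at *
        rw [cj_mul, hb, ha]
      inv_mem' := by
        intro a ha
        simp only [Set.mem_ofPred_eq] at *
        conv_lhs => rw [← ha]
        exact cj_inv_cj a H }
  have hst : ∀ m : ℤ, cj (g ^ m) H = H → g ^ m = 1 := by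
    intro m hm
    obtain ⟨t, ht⟩ := cyc hp k S g hg hzH m hm
    rw [ht, zpow_mul, zpow_natCast, hg, one_zpow]
  -- step 4
  have h4 : ∀ x ∈ P, cj x H ≠ H → ∀ a ∈ X, ∀ b ∈ cj x X, a * b = b * a := by
    intro x hx hxH
    have hB' := hypmax hp B C H hCH hHB hab hexp hcyc x (fun b hb => hPB x hx b hb) hxH
    have hcB : cj x B = B := cj_eq_of_mem hPB hx
    have hXB' : ⁅cj x X, B⁆ = cj x X := by
      have h1 : cj x ⁅X, B⁆ = ⁅cj x X, cj x B⁆ := Subgroup.map_commutator _ _ _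
      rw [hXB, hcB] at h1
      exact h1.symm
    have hcent : ∀ h ∈ cj x H, ∀ y ∈ cj x X, h * y = y * h := by
      intro h hh y hy
      rw [mem_cj] at hh hy
      have h1 := Subgroup.mem_centralizer_iff.1 (hXD hy).2 _ hh
      calc h * y = x * ((x⁻¹ * h * x) * (x⁻¹ * y * x)) * x⁻¹ := by group
        _ = x * ((x⁻¹ * y * x) * (x⁻¹ * h * x)) * x⁻¹ := by rw [h1]
        _ = y * h := by group
    have hxHB : cj x H ≤ B := by
      rw [← hcB]; exact cj_mono hHB
    have hle : ⁅cj x X, B⁆ ≤ ⁅cj x X, H⁆ := by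
      rw [commutator_le]
      intro y hy b hb
      have hb' := hB' hb
      have hN : cj x H ≤ normalizer (H : Set G) := hxHB.trans (nz_iff.1 hnz)
      rw [← SetLike.mem_coe, coe_mul_of_right_le_normalizer_left H (cj x H) hN] at hb'
      obtain ⟨h, hh, h', hh', rfl⟩ := hb'
      have e : ⁅y, h * h'⁆ = ⁅y, h⁆ := by
        have := hcent h' hh' y hy
        have e2 : y * h * h' * y⁻¹ * h'⁻¹ = y * h * y⁻¹ := by
          have h3 : h' * y⁻¹ = y⁻¹ * h' := by
            have := congrArg (fun t => y⁻¹ * t * y⁻¹) this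
            simp only [mul_assoc, mul_inv_cancel, mul_one, inv_mul_cancel_left] at this
            simpa [mul_assoc] using this.symm
          calc y * h * h' * y⁻¹ * h'⁻¹ = y * h * (h' * y⁻¹) * h'⁻¹ := by group
            _ = y * h * (y⁻¹ * h') * h'⁻¹ := by rw [h3]
            _ = y * h * y⁻¹ := by group
        simp only [commutatorElement_def]
        calc y * (h * h') * y⁻¹ * (h * h')⁻¹ = (y * h * h' * y⁻¹ * h'⁻¹) * h⁻¹ := by group
          _ = y * h * y⁻¹ * h⁻¹ := by rw [e2]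
      simp only
      rw [e]
      exact commutator_mem_commutator hy hh
    have hXX : ⁅cj x X, X⁆ = ⊥ := by
      have e1 : ⁅H, X⁆ = ⊥ := by
        rw [Subgroup.commutator_comm, Subgroup.commutator_eq_bot_iff_le_centralizer]
        exact hXD.trans inf_le_right
      have e2 : ⁅⁅X, cj x X⁆, H⁆ = ⊥ := by
        have hxR : cj x R = R := cj_eq_of_mem hPR hx
        have h5 : ⁅X, cj x X⁆ ≤ Z := by
          refine le_trans (commutator_mono (hXD.trans inf_le_left) ?_) hRZ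
          rw [← hxR]
          exact cj_mono (hXD.trans inf_le_left)
        rw [Subgroup.commutator_eq_bot_iff_le_centralizer]
        intro w hw
        refine Subgroup.mem_centralizer_iff.2 fun h hh => ?_
        exact hBZ h (hHB hh) w (h5 hw)
      have e3 : ⁅⁅cj x X, H⁆, X⁆ = ⊥ := by
        apply Subgroup.commutator_commutator_eq_bot_of_rotate
        · rw [e1]; exact commutator_bot_left _
        · exact e2
      rw [eq_bot_iff, ← e3]
      exact commutator_mono ((le_of_eq hXB'.symm).trans hle) le_rfl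
    intro a ha b hb
    have := commutator_mem_commutator hb ha
    rw [hXX, Subgroup.mem_bot, commutatorElement_eq_one_iff_mul_comm] at this
    exact this.symm
  -- step 5
  have h5 : ∀ c ∈ X, g ^ p ^ k * c = c * g ^ p ^ k := by
    intro c hc
    have hcm : ∀ m : ℤ, c * (g ^ m * c * (g ^ m)⁻¹) = (g ^ m * c * (g ^ m)⁻¹) * c := by
      intro m
      by_cases hm : cj (g ^ m) H = H
      · rw [hst m hm]; simp
      · exact h4 (g ^ m) (zpow_mem hgP m) hm c hc _ (conj_mem_cj hc)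
    set s : Set G := Set.range fun i : ℤ => g ^ i * c * (g ^ i)⁻¹ with hs
    have hss : ∀ a ∈ s, ∀ b ∈ s, a * b = b * a := by
      rintro _ ⟨i, rfl⟩ _ ⟨j, rfl⟩
      have h1 := hcm (j - i)
      have h2 : g ^ j = g ^ i * g ^ (j - i) := by rw [← zpow_add]; congr 1; ring
      simp only [h2]
      generalize g ^ i = u at *
      generalize g ^ (j - i) = v at *
      calc u * c * u⁻¹ * (u * v * c * (u * v)⁻¹) = u * (c * (v * c * v⁻¹)) * u⁻¹ := by group
        _ = u * ((v * c * v⁻¹) * c) * u⁻¹ := by rw [h1]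
        _ = u * v * c * (u * v)⁻¹ * (u * c * u⁻¹) := by group
    have hAs : closure s ≤ centralizer s := by
      rw [closure_le]
      intro a ha
      exact Subgroup.mem_centralizer_iff.2 fun b hb => hss b hb a ha
    have hAA : Cz (closure s) (closure s) := by
      intro a ha
      have h1 : closure s ≤ centralizer {a} := by
        rw [closure_le]
        intro b hb
        refine Subgroup.mem_centralizer_iff.2 fun x hx => ?_
        rw [Set.mem_singleton_iff.1 hx]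
        exact (Subgroup.mem_centralizer_iff.1 (hAs ha) b hb).symm
      intro b hb
      exact Subgroup.mem_centralizer_iff.1 (h1 hb) a rfl
    have hAR : closure s ≤ R := by
      rw [closure_le]
      rintro _ ⟨i, rfl⟩
      exact hPR _ (zpow_mem hgP i) _ (hXD hc).1
    have hgA : cj g (closure s) = closure s := by
      apply Subgroup.eq_of_le_of_card_ge _ (by rw [card_cj])
      unfold cj
      rw [MonoidHom.map_closure, closure_le]
      rintro _ ⟨_, ⟨i, rfl⟩, rfl⟩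
      apply Subgroup.subset_closure
      refine ⟨i + 1, ?_⟩
      simp only [MulEquiv.coe_toMonoidHom, MulAut.conj_apply]
      rw [zpow_add_one, ← zpow_add_one, add_comm, zpow_add, zpow_one]
      group
    exact hA _ hAR hAA hgA c (Subgroup.subset_closure ⟨0, by simp⟩)
  -- step 6
  apply hX
  have hzP : g ^ p ^ k ∈ P := pow_mem hgP _
  have hB' := hypmax hp B C H hCH hHB hab hexp hcyc _ (fun b hb => hPB _ hzP b hb) hzH
  rw [← hXB, Subgroup.commutator_comm, Subgroup.commutator_eq_bot_iff_le_centralizer]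
  refine hB'.trans (sup_le ?_ ?_)
  · intro h hh
    refine Subgroup.mem_centralizer_iff.2 fun x hx => ?_
    exact (Subgroup.mem_centralizer_iff.1 (hXD hx).2 h hh).symm
  · intro h hh
    rw [mem_cj] at hh
    refine Subgroup.mem_centralizer_iff.2 fun x hx => ?_
    have h1 := Subgroup.mem_centralizer_iff.1 (hXD hx).2 _ hh
    have h2 := h5 x hx
    generalize g ^ p ^ k = z at *
    have h3 : z⁻¹ * x * z = x := by
      rw [mul_assoc, ← h2]; group
    calc x * h = z * ((z⁻¹ * x * z) * (z⁻¹ * h * z)) * z⁻¹ := by group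
      _ = z * (x * (z⁻¹ * h * z)) * z⁻¹ := by rw [h3]
      _ = z * ((z⁻¹ * h * z) * x) * z⁻¹ := by rw [h1]
      _ = z * ((z⁻¹ * h * z) * (z⁻¹ * x * z)) * z⁻¹ := by rw [h3]
      _ = h * x := by group

end Pool.Agent.Work.MP_b44cb1_al.HH
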