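import Pool.Agent.Work.MP_b44cb1_al.HH.GL

/-!
# HH/Alp (size M) : Alperin's lemma

`P` a finite `p`-group, `p` odd, `E ⊲ P`. Let `B` be maximal (by order) among the subgroups `B ≤ E`
which are normal in `P`, commutative, of exponent dividing `p`. Then every `x ∈ E` with `x^p = 1`
centralising `B` is in `B`.

Proof. Suppose not. Let `C = E ⊓ centralizer B`, normal in `P`. Among the `x ∈ C` with `x^p = 1`,
`x ∉ B` choose one whose normal closure `N = normalClosure {x}` has least order; `N ≤ C`.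
(*) if `e ∈ P`, `e^p = 1`, and `e ∈ K` for a normal subgroup `K < N` of `P`, then `e ∈ B` (`e ∈ C` and
its normal closure is in `K`, so smaller).
* `N` is generated by the conjugates of `x`, all with `p`-th power `1`. The commutator subgroup of `N`
  is normal in `P` and `< N` (nilpotent, `N ≠ ⊥`). By (*) its elements with `e^p = 1` are in `B`, hence
  commute with `N ≤ C`. By `gl` (for the group `↥N`) `N` has exponent `p`.
* For `g ∈ P`: `u = ⁅x, g⁆ ∈ ⁅N, ⊤⁆ < N` (normal in `P`; `⁅N, ⊤⁆ < N` for `N ≠ ⊥`, `P` nilpotent),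
  `u^p = 1`, so `u ∈ B` by (*).
* So `B ⊔ ⟨x⟩` is normal in `P` (`g x g⁻¹ ∈ x B`), contained in `E`, commutative, of exponent `p`, and
  larger than `B`: contradiction.

`alp_rel` is the version relative to a normal subgroup `C` of a `p`-subgroup `P` of `G`: apply `alp` to
the group `↥P ⧸ C.subgroupOf P` and the image of `E`, and pull back.
-/

set_option autoImplicit false
set_option linter.style.haveILetI false

namespace Pool.Agent.Work.MP_b44cb1_al.HH

open Subgroup
open scoped commutatorElement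

/-- In a nilpotent group `⁅N, ⊤⁆ < N` for a nontrivial normal subgroup `N`. -/
private theorem comm_top_lt {P : Type*} [Group P] [hP : Group.IsNilpotent P] (N : Subgroup P)
    (hN : N.Normal) (hN0 : N ≠ ⊥) : ⁅N, (⊤ : Subgroup P)⁆ < N := by
  have hle : ⁅N, (⊤ : Subgroup P)⁆ ≤ N := Subgroup.commutator_le_left N ⊤
  refine lt_of_le_of_ne hle (fun h => hN0 ?_)
  obtain ⟨n, hn⟩ := Subgroup.nilpotent_iff_lowerCentralSeries.1 hP
  have h1 : ∀ k, N ≤ (⊤ : Subgroup P).lowerCentralSeries k := by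
    intro k
    induction k with
    | zero => exact le_top
    | succ k ih =>
      calc N = ⁅N, (⊤ : Subgroup P)⁆ := h.symm
        _ ≤ ⁅(⊤ : Subgroup P).lowerCentralSeries k, ⊤⁆ := commutator_mono ih le_rfl
        _ = _ := rfl
  have h2 := h1 n
  rw [hn] at h2
  exact le_bot_iff.1 h2

theorem alp {P : Type*} [Group P] [Finite P] {p : ℕ} (hp : p.Prime) (hp2 : p ≠ 2)
    (hP : IsPGroup p P) (E : Subgroup P) (hE : E.Normal) :
    ∃ B : Subgroup P, B ≤ E ∧ B.Normal ∧ Cz B B ∧ (∀ b ∈ B, b ^ p = 1) ∧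
      ∀ x ∈ E, x ^ p = 1 → (∀ b ∈ B, x * b = b * x) → x ∈ B := by
  haveI : Fact p.Prime := ⟨hp⟩
  haveI hnil : Group.IsNilpotent P := hP.isNilpotent
  obtain ⟨B, ⟨hBE, hBn, hBc, hBp⟩, hmax⟩ := WellFounded.has_min
    (wellFounded_gt : WellFounded ((· > ·) : Subgroup P → Subgroup P → Prop))
    {B : Subgroup P | B ≤ E ∧ B.Normal ∧ Cz B B ∧ ∀ b ∈ B, b ^ p = 1}
    ⟨⊥, bot_le, inferInstance, (by
      intro a ha b hb
      rw [Subgroup.mem_bot] at ha hb
      rw [ha, hb]), (by
      intro b hb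
      rw [Subgroup.mem_bot] at hb
      rw [hb, one_pow])⟩
  refine ⟨B, hBE, hBn, hBc, hBp, ?_⟩
  by_contra hcon
  push Not at hcon
  obtain ⟨x0, hx0E, hx0p, hx0c, hx0B⟩ := hcon
  have hCn : (Subgroup.centralizer (B : Set P)).Normal := inferInstance
  -- choice of `x`
  obtain ⟨N, ⟨x, hxE, hxc, hxp, hxB, rfl⟩, hmin⟩ := WellFounded.has_min
    (wellFounded_lt : WellFounded ((· < ·) : Subgroup P → Subgroup P → Prop))
    {N : Subgroup P | ∃ x, x ∈ E ∧ x ∈ Subgroup.centralizer (B : Set P) ∧ x ^ p = 1 ∧ x ∉ B ∧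
      N = normalClosure {x}}
    ⟨normalClosure {x0}, x0, hx0E, (by
      rw [Subgroup.mem_centralizer_iff]
      intro b hb
      exact (hx0c b hb).symm), hx0p, hx0B, rfl⟩
  have hxN : x ∈ normalClosure {x} := subset_normalClosure (Set.mem_singleton x)
  have hNE : normalClosure {x} ≤ E := normalClosure_le_normal (Set.singleton_subset_iff.2 hxE)
  have hNC : normalClosure {x} ≤ Subgroup.centralizer (B : Set P) :=
    normalClosure_le_normal (Set.singleton_subset_iff.2 hxc)
  have hN0 : normalClosure {x} ≠ ⊥ := by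
    intro h
    rw [h, Subgroup.mem_bot] at hxN
    apply hxB
    rw [hxN]
    exact one_mem B
  have star : ∀ K : Subgroup P, K.Normal → K < normalClosure {x} → ∀ e ∈ K, e ^ p = 1 → e ∈ B := by
    intro K hK hKN e he hep
    by_contra hcon
    refine hmin (normalClosure {e}) ⟨e, hNE (hKN.le he), hNC (hKN.le he), hep, hcon, rfl⟩ ?_
    exact lt_of_le_of_lt (normalClosure_le_normal (Set.singleton_subset_iff.2 he)) hKN
  have hlt : ⁅normalClosure {x}, (⊤ : Subgroup P)⁆ < normalClosure {x} :=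
    comm_top_lt _ normalClosure_normal hN0
  have hlt2 : ⁅normalClosure {x}, normalClosure {x}⁆ < normalClosure {x} :=
    lt_of_le_of_lt (commutator_mono le_rfl le_top) hlt
  -- exponent `p`
  have hexp : ∀ e ∈ normalClosure {x}, e ^ p = 1 := by
    have hcl : normalClosure {x} = closure (Group.conjugatesOfSet {x}) := rfl
    have h1 : ∀ y : (normalClosure {x} : Subgroup P), y ^ p = 1 := by
      refine gl hp hp2 ((fun y : (normalClosure {x} : Subgroup P) => (y : P)) ⁻¹'
        (Group.conjugatesOfSet {x})) ?_ ?_ ?_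
      · exact Subgroup.closure_closure_coe_preimage
      · intro s hs
        obtain ⟨a, ha, hc⟩ := Group.mem_conjugatesOfSet_iff.1 hs
        rw [Set.mem_singleton_iff] at ha
        subst ha
        obtain ⟨g, hg⟩ := isConj_iff.1 hc
        apply Subtype.ext
        have h2 : (s : P) ^ p = 1 := by
          have h3 : (s : P) = g * a * g⁻¹ := hg.symm
          rw [h3, conj_pow, hxp, mul_one, mul_inv_cancel]
        exact h2
      · intro e he hep
        have he' : (e : P) ∈ ⁅normalClosure {x}, normalClosure {x}⁆ := by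
          rw [← Subgroup.map_subtype_commutator]
          exact ⟨e, he, rfl⟩
        have hep' : (e : P) ^ p = 1 := congrArg Subtype.val hep
        have heB : (e : P) ∈ B := star _ inferInstance hlt2 _ he' hep'
        rw [mem_center_iff]
        intro y
        apply Subtype.ext
        have h3 := (Subgroup.mem_centralizer_iff.1 (hNC y.2)) (e : P) heB
        exact h3.symm
    intro e he
    exact congrArg Subtype.val (h1 ⟨e, he⟩)
  have hcomm : ∀ g : P, ⁅x, g⁆ ∈ B := by
    intro g
    have h1 : ⁅x, g⁆ ∈ ⁅normalClosure {x}, (⊤ : Subgroup P)⁆ :=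
      commutator_mem_commutator hxN (mem_top g)
    exact star _ inferInstance hlt _ h1 (hexp _ (hlt.le h1))
  have hxcB : ∀ b ∈ B, b * x = x * b := fun b hb => Subgroup.mem_centralizer_iff.1 hxc b hb
  have hel : ∀ y ∈ B ⊔ zpowers x, ∃ b ∈ B, ∃ k : ℤ, y = b * x ^ k := by
    intro y hy
    rw [← SetLike.mem_coe, Subgroup.normal_mul B (zpowers x)] at hy
    obtain ⟨b, hb, c, hc, rfl⟩ := hy
    obtain ⟨k, hk⟩ := Subgroup.mem_zpowers_iff.1 hc
    exact ⟨b, hb, k, by rw [hk]⟩
  have hcz : ∀ b ∈ B, ∀ k : ℤ, Commute b (x ^ k) := fun b hb k =>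
    (show Commute b x from hxcB b hb).zpow_right k
  refine hmax (B ⊔ zpowers x) ⟨?_, ?_, ?_, ?_⟩ ?_
  · rw [sup_le_iff]
    exact ⟨hBE, (zpowers_le).2 hxE⟩
  · constructor
    intro y hy g
    obtain ⟨b, hb, k, rfl⟩ := hel y hy
    have h1 : g * (b * x ^ k) * g⁻¹ = (g * b * g⁻¹) * (g * x * g⁻¹) ^ k := by
      rw [conj_zpow]; group
    rw [h1]
    refine mul_mem (mem_sup_left (hBn.conj_mem b hb g)) (zpow_mem ?_ k)
    have h2 : g * x * g⁻¹ = ⁅x, g⁆⁻¹ * x := by
      rw [commutatorElement_def]; group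
    rw [h2]
    exact mul_mem (mem_sup_left (inv_mem (hcomm g))) (mem_sup_right (mem_zpowers x))
  · intro a ha b hb
    obtain ⟨a', ha', k, rfl⟩ := hel a ha
    obtain ⟨b', hb', l, rfl⟩ := hel b hb
    have h1 : Commute (a' * x ^ k) (b' * x ^ l) := by
      have h2 : Commute a' b' := hBc a' ha' b' hb'
      have h3 : Commute (x ^ k) (x ^ l) := (Commute.refl x).zpow_zpow k l
      exact (h2.mul_right (hcz a' ha' l)).mul_left ((hcz b' hb' k).symm.mul_right h3)
    exact h1.eq
  · intro y hy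
    obtain ⟨b, hb, k, rfl⟩ := hel y hy
    rw [(hcz b hb k).mul_pow, hBp b hb, one_mul, ← zpow_natCast, ← zpow_mul, mul_comm, zpow_mul,
      zpow_natCast, hxp, one_zpow]
  · refine lt_of_le_of_ne le_sup_left (fun h => hxB ?_)
    rw [h]
    exact mem_sup_right (mem_zpowers x)

end Pool.Agent.Work.MP_b44cb1_al.HH
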