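import Pool.Agent.Work.MP_b44cb1_al.HH.Alp

/-!
# HH/AlpRel (size S-M) : relative version of Alperin's lemma

Apply `alp` to the group `↥P ⧸ C.subgroupOf P` (a finite `p`-group; `C.subgroupOf P` is normal by
`Nz.subgroupOf_normal`) and to the image of `E`, and pull `B` back to a subgroup of `G`
(`B' .comap (mk' _)`, then `.map P.subtype`).
-/

set_option autoImplicit false
set_option linter.style.haveILetI false

namespace Pool.Agent.Work.MP_b44cb1_al.HH

open Subgroup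
open scoped commutatorElement

theorem alp_rel {G : Type*} [Group G] [Finite G] {p : ℕ} (hp : p.Prime) (hp2 : p ≠ 2)
    (P E C : Subgroup G) (hP : IsPGroup p P) (hCE : C ≤ E) (hEP : E ≤ P) (hE : Nz P E)
    (hC : Nz P C) :
    ∃ B : Subgroup G, C ≤ B ∧ B ≤ E ∧ Nz P B ∧ (∀ b ∈ B, ∀ b' ∈ B, ⁅b, b'⁆ ∈ C) ∧
      (∀ b ∈ B, b ^ p ∈ C) ∧ ∀ x ∈ E, x ^ p ∈ C → (∀ b ∈ B, ⁅x, b⁆ ∈ C) → x ∈ B := by
  haveI hCn : (C.subgroupOf P).Normal := hC.subgroupOf_normal
  haveI hEn : (E.subgroupOf P).Normal := hE.subgroupOf_normal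
  have hmk : ∀ x : P, (QuotientGroup.mk' (C.subgroupOf P)) x = 1 ↔ (x : G) ∈ C := by
    intro x
    rw [← MonoidHom.mem_ker, QuotientGroup.ker_mk', mem_subgroupOf]
  have hPq : IsPGroup p (P ⧸ C.subgroupOf P) := hP.to_quotient _
  have hEq : ((E.subgroupOf P).map (QuotientGroup.mk' (C.subgroupOf P))).Normal :=
    hEn.map _ (QuotientGroup.mk'_surjective _)
  obtain ⟨B', hB'E, hB'n, hB'c, hB'p, hB'm⟩ := alp hp hp2 hPq _ hEq
  let B : Subgroup G := (B'.comap (QuotientGroup.mk' (C.subgroupOf P))).map P.subtype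
  have hB : ∀ b (hb : b ∈ P), b ∈ B ↔ QuotientGroup.mk' (C.subgroupOf P) ⟨b, hb⟩ ∈ B' := by
    intro b hb
    constructor
    · rintro ⟨y, hy, rfl⟩
      exact hy
    · intro h
      exact ⟨⟨b, hb⟩, h, rfl⟩
  have hBP : B ≤ P := by
    rintro b ⟨y, -, rfl⟩
    exact y.2
  refine ⟨B, ?_, ?_, ?_, ?_, ?_, ?_⟩
  · intro c hc
    rw [hB c (hEP (hCE hc)), (hmk ⟨c, _⟩).2 hc]
    exact one_mem B'
  · intro b hb
    obtain ⟨e, he, hbe⟩ := hB'E ((hB b (hBP hb)).1 hb)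
    rw [SetLike.mem_coe, mem_subgroupOf] at he
    have h1 : QuotientGroup.mk' (C.subgroupOf P) (e⁻¹ * ⟨b, hBP hb⟩) = 1 := by
      rw [map_mul, map_inv, hbe, inv_mul_cancel]
    have h2 := (hmk _).1 h1
    have h3 : b = (e : G) * ((e : G)⁻¹ * b) := by group
    rw [h3]
    exact mul_mem he (hCE h2)
  · intro g hg b hb
    have hgb : g * b * g⁻¹ ∈ P := mul_mem (mul_mem hg (hBP hb)) (inv_mem hg)
    rw [hB _ hgb]
    have h1 := hB'n.conj_mem _ ((hB b (hBP hb)).1 hb)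
      (QuotientGroup.mk' (C.subgroupOf P) ⟨g, hg⟩)
    rw [← map_mul, ← map_inv, ← map_mul] at h1
    exact h1
  · intro b hb b' hb'
    have h1 := hB'c _ ((hB b (hBP hb)).1 hb) _ ((hB b' (hBP hb')).1 hb')
    have h2 : QuotientGroup.mk' (C.subgroupOf P) ⁅(⟨b, hBP hb⟩ : P), ⟨b', hBP hb'⟩⁆ = 1 := by
      rw [map_commutatorElement, commutatorElement_eq_one_iff_mul_comm]
      exact h1
    exact (hmk _).1 h2
  · intro b hb
    have h1 := hB'p _ ((hB b (hBP hb)).1 hb)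
    rw [← map_pow] at h1
    exact (hmk _).1 h1
  · intro x hx hxp hxc
    rw [hB x (hEP hx)]
    apply hB'm
    · exact ⟨⟨x, hEP hx⟩, (mem_subgroupOf).2 hx, rfl⟩
    · rw [← map_pow]
      exact (hmk _).2 hxp
    · intro b hb
      obtain ⟨y, rfl⟩ := QuotientGroup.mk'_surjective (C.subgroupOf P) b
      have hy : (y : G) ∈ B := (hB y y.2).2 hb
      have h1 : QuotientGroup.mk' (C.subgroupOf P) ⁅(⟨x, hEP hx⟩ : P), y⁆ = 1 :=
        (hmk _).2 (hxc y hy)
      rw [map_commutatorElement, commutatorElement_eq_one_iff_mul_comm] at h1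
      exact h1

end Pool.Agent.Work.MP_b44cb1_al.HH
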