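import Pool.Agent.Work.MP_b44cb1_al.HH.Defs

/-!
# HH/Base (size S) : base change to the algebraic closure

`K = AlgebraicClosure F`, `V' = K ⊗[F] V`, `Φ = Module.End.baseChangeHom F K V` (an algebra
homomorphism `End F V → End K V'`), injective since `K` is free (faithfully flat) over `F`:
`(Φ f) (1 ⊗ v) = 1 ⊗ f v`, and `v ↦ 1 ⊗ v` is injective.
The conclusion is stated existentially to be easy to use: `Φ` a ring homomorphism.
-/

set_option autoImplicit false

namespace Pool.Agent.Work.MP_b44cb1_al.HH

theorem base_ex {F : Type} [Field F] {p : ℕ} [CharP F p] (V : Type) [AddCommGroup V] [Module F V]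
    [FiniteDimensional F V] :
    ∃ (K : Type) (_ : Field K) (_ : IsAlgClosed K) (_ : CharP K p) (V' : Type)
      (_ : AddCommGroup V') (_ : Module K V') (_ : FiniteDimensional K V')
      (Φ : (V →ₗ[F] V) →+* (V' →ₗ[K] V')), Function.Injective Φ := by
  have hch : CharP (AlgebraicClosure F) p :=
    charP_of_injective_algebraMap (algebraMap F (AlgebraicClosure F)).injective p
  exact ⟨AlgebraicClosure F, inferInstance, inferInstance, hch,
    TensorProduct F (AlgebraicClosure F) V, inferInstance, inferInstance, inferInstance,
    (Module.End.baseChangeHom F (AlgebraicClosure F) V).toRingHom,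
    LinearMap.baseChangeHom_injective F V (AlgebraicClosure F)⟩

end Pool.Agent.Work.MP_b44cb1_al.HH
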