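import Pool.Agent.Work.MP_b44cb1_al.HH.Fit
import Pool.Agent.Work.MP_b44cb1_al.HH.Cop

/-!
# HH/Chain (size M) : a `p'`-element acts nontrivially on a chief factor of `O_p(G)`

`N = core {p} G`. `x` does not centralise `N`: otherwise `x ∈ N` (`fit_S1`), and `x` is both a
`p`-element and a `q`-element, so `x = 1`. Let `K` be a normal subgroup of `G`, `K ≤ N`, not
centralised by `x`, of minimal order. `K ≠ ⊥`. Let `L` be a normal subgroup of `G`, `L < K`, of maximal
order (`⊥` is one). By minimality of `K`, `x` centralises `L`. By `min_above` there is `M` normal in `G`,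
`L < M ≤ K`, `M/L` commutative of prime exponent; by maximality of `L`, `M = K`, and the prime is `p`
as `K` is a `p`-group (if `a^l ∈ L` for all `a ∈ K` with `l ≠ p` then `K = L`).
`⁅K, N⁆ ≤ L`: `⁅K, N⁆ ⊔ L` is normal in `G` and contained in `K`; if it is not `L` it is `K`, so
`K = ⁅K, N⁆ L` and by induction `K ≤ (lower central series of N) ⊔ L` for every term, so `K ≤ L` as `N` is
nilpotent: contradiction. (Or: `K/L` is a nontrivial normal subgroup of the `p`-group `N/L`, so it meets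
the centre of `N/L` nontrivially; this intersection is normal in `G/L`, so it is `K/L`.)
Finally, if `⁅a, x⁆ ∈ L` for all `a ∈ K` then for `a ∈ K` `a⁻¹ (x^i a x^{-i}) ∈ L` for all `i`, and `cfix`
(`B = zpowers x`, prime `q`, `N := L`) gives `c ∈ a L` commuting with `x`; as `L` is centralised by `x`,
`a` commutes with `x`: contradiction with the choice of `K`.
-/

set_option autoImplicit false

namespace Pool.Agent.Work.MP_b44cb1_al.HH

open Subgroup
open scoped commutatorElement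

section aux

variable {G : Type*} [Group G]

/-- A nontrivial normal section `K/L` of the normal `p`-subgroup `N` contains a nontrivial element
centralised by `N`. -/
private lemma fixed_section [Finite G] {p : ℕ} (hp : p.Prime) (K L N : Subgroup G) (hK : K.Normal)
    (hL : L.Normal) (hLK : L < K) (hKN : K ≤ N) (hN : IsPGroup p N) :
    ∃ a ∈ K, a ∉ L ∧ ∀ n ∈ N, ⁅a, n⁆ ∈ L := by
  have : Fact p.Prime := ⟨hp⟩
  have hKq : (K.map (QuotientGroup.mk' L)).Normal :=
    hK.map _ (QuotientGroup.mk'_surjective L)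
  let act : N →* MulAut ↥(K.map (QuotientGroup.mk' L)) :=
    (MulAut.conjNormal (H := K.map (QuotientGroup.mk' L))).comp
      ((QuotientGroup.mk' L).comp N.subtype)
  let _ : MulAction N ↥(K.map (QuotientGroup.mk' L)) := MulAction.compHom _ act
  have hsm : ∀ (n : N) (b : ↥(K.map (QuotientGroup.mk' L))), ((n • b :
      ↥(K.map (QuotientGroup.mk' L))) : G ⧸ L) = (QuotientGroup.mk (n : G) : G ⧸ L) * (b : G ⧸ L) *
      (QuotientGroup.mk (n : G) : G ⧸ L)⁻¹ := by
    intro n b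
    exact MulAut.conjNormal_apply (QuotientGroup.mk (n : G) : G ⧸ L) b
  have hKp : IsPGroup p ↥(K.map (QuotientGroup.mk' L)) := (hN.to_le hKN).map _
  have hne : (K.map (QuotientGroup.mk' L)) ≠ ⊥ := by
    intro h
    obtain ⟨x, hxK, hxL⟩ := SetLike.exists_of_lt hLK
    have h1 : QuotientGroup.mk' L x ∈ K.map (QuotientGroup.mk' L) := ⟨x, hxK, rfl⟩
    rw [h, Subgroup.mem_bot] at h1
    exact hxL ((QuotientGroup.eq_one_iff x).1 h1)
  have hdvd : p ∣ Nat.card ↥(K.map (QuotientGroup.mk' L)) := by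
    obtain ⟨k, hk⟩ := hKp.exists_card_eq
    rcases Nat.eq_zero_or_pos k with h0 | h0
    · rw [h0, pow_zero] at hk
      exact absurd (Subgroup.card_eq_one.1 hk) hne
    · rw [hk]
      exact dvd_pow_self p h0.ne'
  have h1fix : (1 : ↥(K.map (QuotientGroup.mk' L))) ∈
      MulAction.fixedPoints N ↥(K.map (QuotientGroup.mk' L)) := by
    intro n
    ext
    rw [hsm]
    simp
  obtain ⟨b, hb, hb1⟩ := hN.exists_fixed_point_of_prime_dvd_card_of_fixed_point _ hdvd h1fix
  obtain ⟨⟨a, haK, hab⟩⟩ : Nonempty (∃ a ∈ K, QuotientGroup.mk' L a = (b : G ⧸ L)) := ⟨b.2⟩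
  have hab' : (QuotientGroup.mk a : G ⧸ L) = b := hab
  refine ⟨a, haK, ?_, fun n hn => ?_⟩
  · intro haL
    apply hb1
    ext
    rw [← hab']
    exact ((QuotientGroup.eq_one_iff a).2 haL).symm
  · have h1 := congrArg (Subtype.val) (hb ⟨n, hn⟩)
    rw [hsm, ← hab'] at h1
    simp only at h1
    rw [← QuotientGroup.eq_one_iff]
    have h2 : (QuotientGroup.mk ⁅a, n⁆ : G ⧸ L) =
        QuotientGroup.mk a * QuotientGroup.mk n * (QuotientGroup.mk a)⁻¹ *
          (QuotientGroup.mk n)⁻¹ := by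
      rw [commutatorElement_def]
      simp
    rw [h2]
    have h3 : (QuotientGroup.mk n : G ⧸ L) * QuotientGroup.mk a =
        QuotientGroup.mk a * QuotientGroup.mk n := by
      rw [mul_inv_eq_iff_eq_mul] at h1
      exact h1
    rw [← h3]
    group

end aux

theorem chain {G : Type*} [Group G] [Finite G] (hs : Group.IsSolvable G) {p q : ℕ} (hp : p.Prime)
    (hq : q.Prime) (hpq : q ≠ p) (hc : core {l | l ≠ p} G = ⊥) (x : G) (hx1 : x ≠ 1)
    (hxq : PEl q x) :
    ∃ K L : Subgroup G, K.Normal ∧ L.Normal ∧ L ≤ K ∧ K ≤ core {p} G ∧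
      (∀ a ∈ K, ∀ b ∈ core {p} G, ⁅a, b⁆ ∈ L) ∧ (∀ a ∈ K, a ^ p ∈ L) ∧ ∃ a ∈ K, ⁅a, x⁆ ∉ L := by
  have : Fact p.Prime := ⟨hp⟩
  have hNn : (core {p} G).Normal := core_normal _ _
  have hNp : IsPGroup p (core {p} G) := core_p hp
  -- `x` does not centralise `N`
  have hxN : ¬ ∀ a ∈ core {p} G, x * a = a * x := by
    intro h
    have h1 := fit_S1 hs hp hc x h
    obtain ⟨i, hi⟩ := hNp ⟨x, h1⟩
    obtain ⟨j, hj⟩ := hxq
    have hi' : x ^ p ^ i = 1 := by
      have := congrArg Subtype.val hi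
      simpa using this
    have h2 := orderOf_dvd_of_pow_eq_one hi'
    have h3 := orderOf_dvd_of_pow_eq_one hj
    have h4 : Nat.Coprime (p ^ i) (q ^ j) :=
      Nat.Coprime.pow _ _ ((Nat.coprime_primes hp hq).2 (Ne.symm hpq))
    have h5 := Nat.dvd_gcd h2 h3
    rw [h4, Nat.dvd_one, orderOf_eq_one_iff] at h5
    exact hx1 h5
  obtain ⟨K, ⟨hK, hKN, hKx⟩, hKmin⟩ := Set.exists_min_image
    {K : Subgroup G | K.Normal ∧ K ≤ core {p} G ∧ ¬ ∀ a ∈ K, x * a = a * x}
    (fun K => Nat.card K) (Set.toFinite _) ⟨core {p} G, hNn, le_rfl, hxN⟩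
  have hK0 : K ≠ ⊥ := by
    rintro rfl
    apply hKx
    intro a ha
    rw [Subgroup.mem_bot] at ha
    rw [ha, one_mul, mul_one]
  obtain ⟨L, ⟨hL, hLK⟩, hLmax⟩ := Set.exists_max_image
    {L : Subgroup G | L.Normal ∧ L < K} (fun L => Nat.card L) (Set.toFinite _)
    ⟨⊥, inferInstance, bot_lt_iff_ne_bot.2 hK0⟩
  have hmax : ∀ M : Subgroup G, M.Normal → L ≤ M → M ≤ K → M = L ∨ M = K := by
    intro M hM hLM hMK
    rcases eq_or_lt_of_le hMK with h | h
    · exact Or.inr h
    · left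
      exact (Subgroup.eq_of_le_of_card_ge hLM (hLmax M ⟨hM, h⟩)).symm
  have hLx : ∀ a ∈ L, x * a = a * x := by
    by_contra h
    have h1 := hKmin L ⟨hL, hLK.le.trans hKN, h⟩
    exact hLK.ne (Subgroup.eq_of_le_of_card_ge hLK.le h1)
  -- `K/L` is killed by `p`
  obtain ⟨M, hM, hLM, hMK, -, l, hl, hMl⟩ := min_above hs L K hL hK hLK
  have hMeq : M = K := (hmax M hM hLM.le hMK).resolve_left hLM.ne'
  rw [hMeq] at hMl
  have hlp : l = p := by
    by_contra hlp
    obtain ⟨a, haK, haL⟩ := SetLike.exists_of_lt hLK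
    obtain ⟨j, hj⟩ := hNp ⟨a, hKN haK⟩
    have hj' : a ^ p ^ j = 1 := by
      have := congrArg Subtype.val hj
      simpa using this
    have hcop : IsCoprime (l : ℤ) ((p ^ j : ℕ) : ℤ) := by
      rw [Nat.isCoprime_iff_coprime]
      exact Nat.Coprime.pow_right _ ((Nat.coprime_primes hl hp).2 hlp)
    obtain ⟨u, v, huv⟩ := hcop
    apply haL
    have h1 : a = (a ^ l) ^ u * (a ^ p ^ j) ^ v := by
      rw [← zpow_natCast, ← zpow_natCast, ← zpow_mul, ← zpow_mul, ← zpow_add, mul_comm (l : ℤ),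
        mul_comm ((p ^ j : ℕ) : ℤ), huv, zpow_one]
    rw [h1, hj', one_zpow, mul_one]
    exact zpow_mem (hMl a haK) _
  rw [hlp] at hMl
  -- `K/L` is central in `N/L`
  let H : Subgroup G :=
    { carrier := {a | a ∈ K ∧ ∀ b ∈ core {p} G, ⁅a, b⁆ ∈ L}
      one_mem' := ⟨one_mem _, fun b _ => by rw [commutatorElement_one_left]; exact one_mem _⟩
      mul_mem' := by
        rintro a a' ⟨ha, ha2⟩ ⟨ha', ha2'⟩
        refine ⟨mul_mem ha ha', fun b hb => ?_⟩
        have h1 : ⁅a * a', b⁆ = a * ⁅a', b⁆ * a⁻¹ * ⁅a, b⁆ := by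
          simp [commutatorElement_def, mul_assoc]
        rw [h1]
        exact mul_mem (hL.conj_mem _ (ha2' b hb) a) (ha2 b hb)
      inv_mem' := by
        rintro a ⟨ha, ha2⟩
        refine ⟨inv_mem ha, fun b hb => ?_⟩
        have h1 : ⁅a⁻¹, b⁆ = a⁻¹ * ⁅a, b⁆⁻¹ * a := by
          simp [commutatorElement_def, mul_assoc]
        rw [h1]
        have := hL.conj_mem _ (inv_mem (ha2 b hb)) a⁻¹
        simpa using this }
  have hHn : H.Normal := by
    constructor
    rintro a ⟨ha, ha2⟩ g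
    refine ⟨hK.conj_mem a ha g, fun b hb => ?_⟩
    have h1 := hNn.conj_mem b hb g⁻¹
    rw [inv_inv] at h1
    have h2 : ⁅g * a * g⁻¹, b⁆ = g * ⁅a, g⁻¹ * b * g⁆ * g⁻¹ := by
      simp [commutatorElement_def, mul_assoc]
    rw [h2]
    exact hL.conj_mem _ (ha2 _ h1) g
  have hHK : H ≤ K := fun a ha => ha.1
  have hLH : L ≤ H := by
    intro a ha
    refine ⟨hLK.le ha, fun b hb => ?_⟩
    rw [commutatorElement_def]
    have h1 : a * b * a⁻¹ * b⁻¹ = a * (b * a⁻¹ * b⁻¹) := by group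
    rw [h1]
    exact mul_mem ha (hL.conj_mem _ (inv_mem ha) b)
  have hHeq : H = K := by
    refine (hmax H hHn hLH hHK).resolve_left fun h => ?_
    obtain ⟨a, haK, haL, ha⟩ := fixed_section hp K L (core {p} G) hK hL hLK hKN hNp
    have h1 : a ∈ H := ⟨haK, ha⟩
    rw [h] at h1
    exact haL h1
  refine ⟨K, L, hK, hL, hLK.le, hKN, fun a ha => ?_, hMl, ?_⟩
  · rw [← hHeq] at ha
    exact ha.2
  · by_contra hcon
    push Not at hcon
    apply hKx
    intro a ha
    have hLp : IsPGroup p L := hNp.to_le (hLK.le.trans hKN)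
    have hcomm : Commute (QuotientGroup.mk a : G ⧸ L) (QuotientGroup.mk x) := by
      have h1 := hcon a ha
      rw [← QuotientGroup.eq_one_iff] at h1
      have h2 : (QuotientGroup.mk ⁅a, x⁆ : G ⧸ L) = ⁅(QuotientGroup.mk a : G ⧸ L),
          QuotientGroup.mk x⁆ := by
        simp [commutatorElement_def]
      rw [h2] at h1
      exact commutatorElement_eq_one_iff_commute.1 h1
    obtain ⟨c, hc1, hc2⟩ := cfix hq (zpowers x) L (by
      obtain ⟨j, hj⟩ := hxq
      rintro ⟨_, k, rfl⟩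
      refine ⟨j, ?_⟩
      ext
      simp only [SubmonoidClass.coe_pow, OneMemClass.coe_one]
      rw [← zpow_natCast, zpow_comm, zpow_natCast, hj, one_zpow])
      (cq_not_dvd hq hp (Ne.symm hpq) L hLp) (fun g _ d hd => hL.conj_mem d hd g) a (by
        rintro _ ⟨k, rfl⟩
        rw [← QuotientGroup.eq_one_iff]
        have h1 := (hcomm.zpow_right k).eq
        simp only at h1 ⊢
        rw [QuotientGroup.mk_mul, QuotientGroup.mk_mul, QuotientGroup.mk_mul,
          QuotientGroup.mk_inv, QuotientGroup.mk_inv, QuotientGroup.mk_zpow, ← h1]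
        group)
    have h1 := hc2 x (mem_zpowers x)
    have h2 := hLx _ hc1
    have h3 : a = c * (a⁻¹ * c)⁻¹ := by group
    have h4 : x * (a⁻¹ * c)⁻¹ = (a⁻¹ * c)⁻¹ * x := by
      have : Commute x (a⁻¹ * c) := h2
      exact this.inv_right.eq
    calc x * a = x * (c * (a⁻¹ * c)⁻¹) := by rw [← h3]
      _ = (x * c) * (a⁻¹ * c)⁻¹ := by rw [mul_assoc]
      _ = c * (x * (a⁻¹ * c)⁻¹) := by rw [h1, mul_assoc]
      _ = c * (a⁻¹ * c)⁻¹ * x := by rw [h4, mul_assoc]
      _ = a * x := by rw [← h3]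

end Pool.Agent.Work.MP_b44cb1_al.HH
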