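import Pool.Agent.Work.MP_b44cb1_al.HH.Defs

/-!
# HH/Core (size S) : the largest normal `S`-subgroup

* `piS_iff`: for finite `G` and `p` prime: `PiS {p} N ↔ IsPGroup p N` (`IsPGroup.iff_card`,
  `Nat.eq_prime_pow_of_unique_prime_dvd`).
* `piS_sup`: `|N ⊔ M|` divides `|N| |M|` for `N` normal (`Subgroup.card_mul_eq...`, or: the index
  formula `relIndex`: `|N ⊔ M| = |N| * (N.relIndex M)` and `N.relIndex M ∣ |M|`).
* `core_pi`: `core S G` is a finite union: there is a normal `S`-subgroup of maximal order; by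
  `piS_sup` it contains all the others, so it is the supremum.
* `core_quot`: let `M` be a normal `S`-subgroup of `G ⧸ core S G`; its preimage `M'` is normal and
  `|M'| = |core S G| |M|`, so it is an `S`-subgroup, hence `M' ≤ core S G` and `M = ⊥`.
* `core_quot_other`: not needed.
* `core_le_of_subset`: clear.
* `pel_core`: if `g` is a `p`-element and `core {l | l ≠ p} G`... not needed.
-/

set_option autoImplicit false

namespace Pool.Agent.Work.MP_b44cb1_al.HH

open Subgroup

theorem piS_iff {G : Type*} [Group G] [Finite G] {p : ℕ} (hp : p.Prime) (N : Subgroup G) :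
    PiS {p} N ↔ IsPGroup p N := by
  constructor
  · intro h
    have h1 : Nat.card N = p ^ (Nat.card N).primeFactorsList.length :=
      Nat.eq_prime_pow_of_unique_prime_dvd Nat.card_pos.ne' fun {d} hd hdN => h d hd hdN
    exact IsPGroup.of_card h1
  · intro h l hl hd
    have : Fact p.Prime := ⟨hp⟩
    obtain ⟨n, hn⟩ := IsPGroup.iff_card.1 h
    rw [hn] at hd
    exact (Nat.prime_dvd_prime_iff_eq hl hp).1 (hl.dvd_of_dvd_pow hd)

theorem piS_mono {G : Type*} [Group G] {S T : Set ℕ} (h : S ⊆ T) {N : Subgroup G}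
    (hN : PiS S N) : PiS T N := fun l hl hd => h (hN l hl hd)

theorem piS_sup {G : Type*} [Group G] [Finite G] {S : Set ℕ} {N M : Subgroup G} [N.Normal]
    (hN : PiS S N) (hM : PiS S M) : PiS S (N ⊔ M) := by
  intro l hl hd
  have h1 : Nat.card N * N.relIndex (N ⊔ M) = Nat.card ↥(N ⊔ M) := by
    have h2 := Subgroup.relIndex_mul_relIndex (⊥ : Subgroup G) N (N ⊔ M) bot_le le_sup_left
    rwa [Subgroup.relIndex_bot_left, Subgroup.relIndex_bot_left] at h2
  rw [← h1, hl.dvd_mul] at hd
  rcases hd with hd | hd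
  · exact hN l hl hd
  · rw [sup_comm, Subgroup.relIndex_sup_right] at hd
    exact hM l hl (hd.trans (Subgroup.relIndex_dvd_card N M))

theorem le_core {G : Type*} [Group G] {S : Set ℕ} {N : Subgroup G} (hn : N.Normal)
    (hN : PiS S N) : N ≤ core S G := le_sSup ⟨hn, hN⟩

theorem core_pi {G : Type*} [Group G] [Finite G] (S : Set ℕ) : PiS S (core S G) := by
  obtain ⟨N, hN, hmax⟩ := Set.exists_max_image {N : Subgroup G | N.Normal ∧ PiS S N}
    (fun N => Nat.card N) (Set.toFinite _) ⟨⊥, inferInstance, fun l hl hd => by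
      rw [Subgroup.card_bot] at hd
      exact absurd (Nat.dvd_one.1 hd) hl.one_lt.ne'⟩
  have h1 : core S G ≤ N := by
    apply sSup_le
    intro M hM
    have hNn := hN.1
    have hMn := hM.1
    have h2 : N ⊔ M ∈ {N : Subgroup G | N.Normal ∧ PiS S N} := ⟨inferInstance, piS_sup hN.2 hM.2⟩
    have h3 : N = N ⊔ M := Subgroup.eq_of_le_of_card_ge le_sup_left (hmax _ h2)
    rw [h3]
    exact le_sup_right
  have h2 : core S G = N := le_antisymm h1 (le_sSup hN)
  rw [h2]
  exact hN.2

theorem core_mono {G : Type*} [Group G] {S T : Set ℕ} (h : S ⊆ T) : core S G ≤ core T G :=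
  sSup_le_sSup fun _ hN => ⟨hN.1, piS_mono h hN.2⟩

theorem core_quot (S : Set ℕ) (G : Type*) [Group G] [Finite G] :
    core S (G ⧸ core S G) = ⊥ := by
  set C := core S G with hC
  set M := core S (G ⧸ C) with hM
  have hMpi : PiS S M := core_pi S
  have h1 : M.comap (QuotientGroup.mk' C) ≤ C := by
    apply le_core (Subgroup.Normal.comap inferInstance _)
    intro l hl hd
    have : Fact l.Prime := ⟨hl⟩
    obtain ⟨x, hx⟩ := exists_prime_orderOf_dvd_card' l hd
    have hxl : (x : G) ^ l = 1 := by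
      have := pow_orderOf_eq_one x
      rw [hx] at this
      exact congrArg Subtype.val this
    have hx1 : (x : G) ≠ 1 := by
      intro h
      have : x = 1 := Subtype.ext h
      rw [this, orderOf_one] at hx
      exact hl.one_lt.ne hx
    by_cases hxC : (x : G) ∈ C
    · have h2 : orderOf (⟨x, hxC⟩ : C) = l := by
        refine orderOf_eq_prime (Subtype.ext hxl) fun h => hx1 (congrArg Subtype.val h)
      exact core_pi (G := G) S l hl (h2 ▸ orderOf_dvd_natCard _)
    · have hm : QuotientGroup.mk' C (x : G) ∈ M := x.2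
      have h2 : orderOf (⟨QuotientGroup.mk' C (x : G), hm⟩ : M) = l := by
        refine orderOf_eq_prime (Subtype.ext ?_) fun h => hxC ?_
        · show (QuotientGroup.mk' C (x : G)) ^ l = 1
          rw [← map_pow, hxl, map_one]
        · exact (QuotientGroup.eq_one_iff _).1 (congrArg Subtype.val h)
      exact hMpi l hl (h2 ▸ orderOf_dvd_natCard _)
  rw [eq_bot_iff]
  intro m hm
  obtain ⟨g, rfl⟩ := QuotientGroup.mk'_surjective C m
  exact (QuotientGroup.eq_one_iff _).2 (h1 hm)

/-- `O_p(G)` is a `p`-group. -/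
theorem core_p {G : Type*} [Group G] [Finite G] {p : ℕ} (hp : p.Prime) :
    IsPGroup p (core {p} G) := (piS_iff hp _).1 (core_pi _)

/-- A normal `p`-subgroup is contained in `O_p(G)`. -/
theorem le_core_p {G : Type*} [Group G] [Finite G] {p : ℕ} (hp : p.Prime) {N : Subgroup G}
    (hn : N.Normal) (hN : IsPGroup p N) : N ≤ core {p} G := le_core hn ((piS_iff hp _).2 hN)

/-- The elements of `O_{p'}(G)` have order prime to `p`. -/
theorem core_p' {G : Type*} [Group G] [Finite G] {p : ℕ} (hp : p.Prime) :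
    ∀ g ∈ core {l | l ≠ p} G, ∃ a : ℕ, ¬ p ∣ a ∧ g ^ a = 1 := by
  intro g hg
  refine ⟨Nat.card (core {l | l ≠ p} G), fun hd => ?_, ?_⟩
  · exact core_pi (G := G) {l | l ≠ p} p hp hd rfl
  · have h := pow_card_eq_one' (x := (⟨g, hg⟩ : core {l | l ≠ p} G))
    exact congrArg Subtype.val h

/-- If `O_{p'}(G) = 1` then `O_q(G) = 1` for every prime `q ≠ p`. -/
theorem core_q_bot {G : Type*} [Group G] {p q : ℕ} (hpq : q ≠ p)
    (hc : core {l | l ≠ p} G = ⊥) : core {q} G = ⊥ := by
  rw [eq_bot_iff, ← hc]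
  exact core_mono (by intro l hl; simp only [Set.mem_singleton_iff] at hl; simp [hl, hpq])

/-- If all `p`-elements of `G` are trivial and `O_{p'}(G) = 1` then `G` is trivial. -/
theorem triv_of_noP {G : Type*} [Group G] [Finite G] {p : ℕ} (hp : p.Prime)
    (hc : core {l | l ≠ p} G = ⊥) (h : ∀ g : G, PEl p g → g = 1) : (⊤ : Subgroup G) = ⊥ := by
  rw [eq_bot_iff, ← hc]
  apply le_core inferInstance
  intro l hl hd hlp
  subst hlp
  have : Fact l.Prime := ⟨hl⟩
  obtain ⟨x, hx⟩ := exists_prime_orderOf_dvd_card' l hd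
  have hxl : (x : G) ^ l = 1 := by
    have := pow_orderOf_eq_one x
    rw [hx] at this
    exact congrArg Subtype.val this
  have hx1 : x = 1 := Subtype.ext (h x ⟨1, by rw [pow_one]; exact hxl⟩)
  rw [hx1, orderOf_one] at hx
  exact hl.one_lt.ne hx

end Pool.Agent.Work.MP_b44cb1_al.HH
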