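import Pool.Agent.Work.MP_b44cb1_al.Kit

/-!
# MP_b44cb1_al, block HH : bounded `p`-length of finite soluble groups whose `p`-subgroups are
`r`-Engel, `p` odd.  Definitions.

Overview of the proof (`p` odd, `n = p^k`):
* `core S G` is the largest normal `S`-subgroup (`S` a set of primes): `core {p} G = O_p(G)`,
  `core {l | l ≠ p} G = O_{p'}(G)`.
* `PL p m G`: there is a normal series of length `m` all of whose factors are `p`-groups or
  `p'`-groups.
* `ExpP p e G`: all elements of `p`-power order satisfy `g^e = 1`.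
* Theorem A: `P` a `p`-group, all `g^{pn} = 1`, acting on a `q`-group `Q`; if `g^n` centralises all
  abelian `g`-invariant subgroups of `Q` (all `g ∈ P`) then `[g^n,h^n]` centralises `Q`.
* Theorem FO (free orbit): if `z = g^n` moves an abelian `p'`-group `A ≤ GL(V)` normalised by `g`,
  then `(g-1)^{pn-1} = ∑_{i<pn} g^i ≠ 0`.
* Theorem HB: if `z = g^n` moves a `q`-group `R₀ ≤ GL(V)` normalised by `g`, then
  `(g-1)^{2n-1} ≠ 0` (characteristic `p` odd, `g^{pn} = 1`).
* A + FO: if `O_{p'}(G) = 1` and all `g^{pn} = 1` then `[g^n,h^n] ∈ O_p(G)` for `g,h` in a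
  `p`-subgroup.
* HB: if moreover all `[g^n,h^n] = 1` then all `g^n ∈ O_p(G)`.
* Hence the exponent of the Sylow subgroup drops after four steps.
* Engel: if `p^k ≥ r` then `y^{p^k} ∈ O_p(G)` (`O_{p'}(G) = 1`).
-/

set_option autoImplicit false

namespace Pool.Agent.Work.MP_b44cb1_al.HH

open Subgroup
open scoped commutatorElement

/-- All prime divisors of the order of `N` lie in `S`. -/
def PiS {G : Type*} [Group G] (S : Set ℕ) (N : Subgroup G) : Prop :=
  ∀ l : ℕ, l.Prime → l ∣ Nat.card N → l ∈ S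

/-- The largest normal `S`-subgroup. -/
def core (S : Set ℕ) (G : Type*) [Group G] : Subgroup G :=
  sSup {N : Subgroup G | N.Normal ∧ PiS S N}

instance core_normal (S : Set ℕ) (G : Type*) [Group G] : (core S G).Normal := by
  constructor
  intro n hn g
  have h : (core S G).map (MulAut.conj g).toMonoidHom ≤ core S G := by
    unfold core
    rw [Subgroup.map_le_iff_le_comap]
    apply sSup_le
    intro N hN
    rw [← Subgroup.map_le_iff_le_comap]
    have hN' := hN.1
    have : N.map (MulAut.conj g).toMonoidHom = N := by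
      have := hN'.map (MulAut.conj g).toMonoidHom (MulAut.conj g).surjective
      ext x
      simp only [Subgroup.mem_map, MulEquiv.coe_toMonoidHom, MulAut.conj_apply]
      constructor
      · rintro ⟨y, hy, rfl⟩
        exact hN'.conj_mem y hy g
      · intro hx
        refine ⟨g⁻¹ * x * g, ?_, by group⟩
        simpa using hN'.conj_mem x hx g⁻¹
    rw [this]
    exact le_sSup hN
  apply h
  exact ⟨n, hn, rfl⟩

/-- A normal series of length `m` whose factors are `p`-groups or `p'`-groups. -/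
def PL (p m : ℕ) (G : Type*) [Group G] : Prop :=
  ∃ N : ℕ → Subgroup G, N 0 = ⊥ ∧ N m = ⊤ ∧ ∀ i < m, (N i).Normal ∧ (N (i + 1)).Normal ∧
    N i ≤ N (i + 1) ∧ ((∀ g ∈ N (i + 1), ∃ a : ℕ, g ^ p ^ a ∈ N i) ∨
      (∀ g ∈ N (i + 1), ∃ a : ℕ, ¬ p ∣ a ∧ g ^ a ∈ N i))

/-- `g` has `p`-power order. -/
def PEl {G : Type*} [Group G] (p : ℕ) (g : G) : Prop := ∃ j : ℕ, g ^ p ^ j = 1

/-- All `p`-elements satisfy `g^e = 1`. -/
def ExpP (p e : ℕ) (G : Type*) [Group G] : Prop := ∀ g : G, PEl p g → g ^ e = 1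

/-- All `p`-subgroups are `r`-Engel. -/
def EngP (p r : ℕ) (G : Type*) [Group G] : Prop :=
  ∀ P : Subgroup G, IsPGroup p P → ∀ x ∈ P, ∀ y ∈ P, (phi y)^[r] x = 1

end Pool.Agent.Work.MP_b44cb1_al.HH
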