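import Pool.Agent.Work.MP_b44cb1_al.HH.Defs

/-!
# HH/WtEx (size S-M) : existence of a weight

`A ≤ Γ` acts through commuting operators; `a₀ ∈ A`, `a₀^m = 1`, `m ≠ 0` in `F`, `ρ a₀ ≠ 1`.
1. `ρ a₀` has an eigenvalue `≠ 1`: otherwise `(ρ a₀)^m = 1` and the polynomial `X^m - 1` is separable
   with `1` a simple root: `X^m - 1 = (X - 1) Q`, `Q(1) = m ≠ 0`. If `ρ a₀` has no eigenvalue `ζ ≠ 1`
   then `Q(ρ a₀)` is injective (`F` algebraically closed, `Q` splits with roots `≠ 1`), so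
   `ρ a₀ = 1`. (Or: `Module.End.IsSemisimple`/`Module.End.iSup_maxGenEigenspace_eq_top`.)
   Let `W ≠ 0` be the eigenspace of `ρ a₀` for `ζ ≠ 1`; it is invariant under `A`.
2. Choose a nonzero subspace `W' ≤ W` invariant under all `ρ a`, `a ∈ A`, of minimal dimension. For
   `a ∈ A`, `ρ a` has an eigenvector in `W'` (`Module.End.exists_eigenvalue` for the restriction), and
   the intersection of the eigenspace with `W'` is `A`-invariant and nonzero, so it is `W'`. So every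
   `ρ a` is a scalar `θ a` on `W'`; take `0 ≠ v ∈ W'`.
-/

set_option autoImplicit false

namespace Pool.Agent.Work.MP_b44cb1_al.HH

theorem weight_ex {F V Γ : Type*} [Field F] [IsAlgClosed F] [AddCommGroup V] [Module F V]
    [FiniteDimensional F V] [Group Γ] (ρ : Γ →* (V →ₗ[F] V)) (A : Subgroup Γ)
    (hA : ∀ a ∈ A, ∀ b ∈ A, ρ (a * b) = ρ (b * a)) (a₀ : Γ) (ha₀ : a₀ ∈ A) (m : ℕ)
    (hm : (m : F) ≠ 0) (hm1 : a₀ ^ m = 1) (hne : ρ a₀ ≠ 1) :
    ∃ v : V, v ≠ 0 ∧ ∃ θ : Γ → F, (∀ a ∈ A, ρ a v = θ a • v) ∧ θ a₀ ≠ 1 := by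
  classical
  have hcom : ∀ a ∈ A, ∀ b ∈ A, ∀ v, ρ a (ρ b v) = ρ b (ρ a v) := by
    intro a ha b hb v
    have h1 := congrArg (fun f : V →ₗ[F] V => f v) (hA a ha b hb)
    rw [map_mul, map_mul] at h1
    exact h1
  let U : Submodule F V := LinearMap.range (ρ a₀ - 1)
  have hU : U ≠ ⊥ := by
    intro h
    rw [LinearMap.range_eq_bot, sub_eq_zero] at h
    exact hne h
  let 𝒮 : Set (Submodule F V) := {W | W ≠ ⊥ ∧ W ≤ U ∧ ∀ a ∈ A, ∀ w ∈ W, ρ a w ∈ W}
  have hU𝒮 : U ∈ 𝒮 := by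
    refine ⟨hU, le_rfl, ?_⟩
    rintro a ha _ ⟨x, rfl⟩
    refine ⟨ρ a x, ?_⟩
    simp only [LinearMap.sub_apply, Module.End.one_apply, map_sub]
    rw [hcom a₀ ha₀ a ha]
  obtain ⟨W, ⟨hW0, hWU, hWA⟩, hmin⟩ := WellFounded.has_min
    (wellFounded_lt : WellFounded ((· < ·) : Submodule F V → Submodule F V → Prop)) 𝒮 ⟨U, hU𝒮⟩
  have hsc : ∀ a ∈ A, ∃ c : F, ∀ w ∈ W, ρ a w = c • w := by
    intro a ha
    have hnt : Nontrivial W := Submodule.nontrivial_iff_ne_bot.2 hW0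
    obtain ⟨c, hc⟩ := Module.End.exists_eigenvalue ((ρ a).restrict (hWA a ha))
    obtain ⟨w, hw⟩ := hc.exists_hasEigenvector
    have hw1 : ρ a (w : V) = c • (w : V) := congrArg Subtype.val hw.apply_eq_smul
    have hw2 : (w : V) ≠ 0 := fun h => hw.2 (Subtype.ext h)
    let E : Submodule F V := W ⊓ LinearMap.ker (ρ a - c • (1 : V →ₗ[F] V))
    have hE : ∀ x, x ∈ E ↔ x ∈ W ∧ ρ a x = c • x := by
      intro x
      change x ∈ W ∧ x ∈ LinearMap.ker (ρ a - c • (1 : V →ₗ[F] V)) ↔ _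
      rw [LinearMap.mem_ker, LinearMap.sub_apply, LinearMap.smul_apply, Module.End.one_apply,
        sub_eq_zero]
    have hE𝒮 : E ∈ 𝒮 := by
      refine ⟨?_, inf_le_left.trans hWU, ?_⟩
      · intro h
        have : (w : V) ∈ E := (hE _).2 ⟨w.2, hw1⟩
        rw [h] at this
        exact hw2 ((Submodule.mem_bot F).1 this)
      · intro b hb x hx
        rw [hE] at hx ⊢
        refine ⟨hWA b hb x hx.1, ?_⟩
        rw [hcom a ha b hb, hx.2, map_smul]
    have hEW : E = W := by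
      by_contra h
      exact hmin E hE𝒮 (lt_of_le_of_ne inf_le_left h)
    refine ⟨c, fun x hx => ?_⟩
    rw [← hEW, hE] at hx
    exact hx.2
  obtain ⟨v, hv, hv0⟩ := Submodule.exists_mem_ne_zero_of_ne_bot hW0
  let θ : Γ → F := fun a => if h : a ∈ A then (hsc a h).choose else 0
  have hθ : ∀ a ∈ A, ρ a v = θ a • v := by
    intro a ha
    have := (hsc a ha).choose_spec v hv
    simp only [θ, dif_pos ha]
    exact this
  refine ⟨v, hv0, θ, hθ, fun h1 => ?_⟩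
  have h2 := hθ a₀ ha₀
  rw [h1, one_smul] at h2
  obtain ⟨x, hx⟩ := hWU hv
  have h3 : (∑ i ∈ Finset.range m, ρ a₀ ^ i) v = 0 := by
    rw [← hx]
    have h4 : (∑ i ∈ Finset.range m, ρ a₀ ^ i) * (ρ a₀ - 1) = 0 := by
      rw [geom_sum_mul, ← map_pow, hm1, map_one, sub_self]
    exact congrArg (fun f : V →ₗ[F] V => f x) h4
  have h5 : ∀ i : ℕ, (ρ a₀ ^ i) v = v := by
    intro i
    induction i with
    | zero => rfl
    | succ i ih => rw [pow_succ, Module.End.mul_apply, h2, ih]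
  rw [LinearMap.sum_apply, Finset.sum_congr rfl fun i _ => h5 i, Finset.sum_const,
    Finset.card_range] at h3
  have h6 : (m : F) • v = 0 := by
    rw [Nat.cast_smul_eq_nsmul]
    exact h3
  exact hv0 ((smul_eq_zero.1 h6).resolve_left hm)

end Pool.Agent.Work.MP_b44cb1_al.HH
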