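import Pool.Agent.Work.MP_b44cb1_al.HH.WtLI
import Pool.Agent.Work.MP_b44cb1_al.HH.WtEx
import Pool.Agent.Work.MP_b44cb1_al.HH.Cyc

/-!
# HH/FO (size M) : the free orbit theorem

Let `z = g^(p^k)`, `a₀ = ⁅a, z⁆ = a (z a⁻¹ z⁻¹) ∈ A` (`z` normalises `A`). `a₀` has order prime to `p`, so
`weight_ex` gives `v ≠ 0`, `θ` with `ρ b v = θ b • v` for `b ∈ A` and `θ a₀ ≠ 1`. `θ` is multiplicative on
`A` and `θ 1 = 1`. `g` and `g⁻¹` normalise `A` (`g⁻¹ = g^(p^(k+1)-1)`).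
For `i < p^(k+1)` the vector `(ρ g)^i v = ρ (g^i) v` has weight `χ_i b = θ (g^{-i} b g^i)` (`b ∈ A`).
The weights are distinct: the set `S = {h | h A h⁻¹ = A, θ (h⁻¹ b h) = θ b for all b ∈ A}` is a subgroup
of `Γ`. `z ∉ S`: otherwise `θ a₀ = θ a · θ (z a⁻¹ z⁻¹) = θ a · θ (a⁻¹) = 1` (apply the condition to
`b = z a⁻¹ z⁻¹`). If `χ_i = χ_j`, `i < j`, then `g^(j-i) ∈ S` (substitute `b → g^i b g^{-i}`), so by `cyc`
`p^(k+1) ∣ j - i`, contradiction. By `weight_li` (with the family `b ∈ A ↦ ρ b`), if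
`∑ (ρ g)^i v = 0` then `v = 0`, contradiction.
`fo'`: any field: base change to `AlgebraicClosure F` (`LinearMap.baseChange`, `Module.End.baseChangeHom`;
it is injective because `AlgebraicClosure F` is free over `F`).
-/

set_option autoImplicit false

namespace Pool.Agent.Work.MP_b44cb1_al.HH

open scoped commutatorElement

theorem fo {F V Γ : Type*} [Field F] [IsAlgClosed F] [AddCommGroup V] [Module F V]
    [FiniteDimensional F V] [Group Γ] {p : ℕ} (hp : p.Prime) [CharP F p]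
    (ρ : Γ →* (V →ₗ[F] V)) (A : Subgroup Γ) (hA : ∀ a ∈ A, ∀ b ∈ A, ρ (a * b) = ρ (b * a))
    (hAp : ∀ a ∈ A, ∃ m : ℕ, ¬ p ∣ m ∧ a ^ m = 1) (k : ℕ) (g : Γ)
    (hgA : ∀ a ∈ A, g * a * g⁻¹ ∈ A) (hg : g ^ p ^ (k + 1) = 1) (a : Γ) (ha : a ∈ A)
    (hne : ρ ⁅a, g ^ p ^ k⁆ ≠ 1) : ∑ i ∈ Finset.range (p ^ (k + 1)), (ρ g) ^ i ≠ 0 := by
  -- powers of `g` normalise `A`
  have hnat : ∀ n : ℕ, ∀ b ∈ A, g ^ n * b * (g ^ n)⁻¹ ∈ A := by
    intro n
    induction n with
    | zero => intro b hb; simpa using hb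
    | succ n ih =>
      intro b hb
      have h1 := hgA _ (ih b hb)
      rwa [show g * (g ^ n * b * (g ^ n)⁻¹) * g⁻¹ = g ^ (n + 1) * b * (g ^ (n + 1))⁻¹ by
        rw [pow_succ' g n, mul_inv_rev]; simp only [mul_assoc]] at h1
  have hfin : IsOfFinOrder g := isOfFinOrder_iff_pow_eq_one.2 ⟨p ^ (k + 1), pow_pos hp.pos _, hg⟩
  have hint : ∀ n : ℤ, ∀ b ∈ A, g ^ n * b * (g ^ n)⁻¹ ∈ A := by
    intro n b hb
    obtain ⟨m, hm⟩ := hfin.mem_powers_iff_mem_zpowers.2 (Subgroup.zpow_mem_zpowers g n)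
    have hm' : g ^ m = g ^ n := hm
    rw [← hm']
    exact hnat m b hb
  have hint' : ∀ n : ℤ, ∀ b ∈ A, (g ^ n)⁻¹ * b * g ^ n ∈ A := by
    intro n b hb
    have h1 := hint (-n) b hb
    rwa [zpow_neg, inv_inv] at h1
  obtain ⟨z, hz⟩ : ∃ z, z = g ^ p ^ k := ⟨_, rfl⟩
  rw [← hz] at hne
  have hzA : ∀ b ∈ A, z * b * z⁻¹ ∈ A := by
    intro b hb
    rw [hz]
    exact hnat _ b hb
  have hc : z * a⁻¹ * z⁻¹ ∈ A := hzA _ (inv_mem ha)
  have ha₀ : ⁅a, z⁆ ∈ A := by
    rw [commutatorElement_def, show a * z * a⁻¹ * z⁻¹ = a * (z * a⁻¹ * z⁻¹) by group]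
    exact mul_mem ha hc
  obtain ⟨m, hpm, hm⟩ := hAp _ ha₀
  have hmF : (m : F) ≠ 0 := by
    intro h
    exact hpm ((CharP.cast_eq_zero_iff F p m).1 h)
  obtain ⟨v, hv, θ, hθ, hθ0⟩ := weight_ex ρ A hA _ ha₀ m hmF hm hne
  have hθmul : ∀ b ∈ A, ∀ c ∈ A, θ (b * c) = θ b * θ c := by
    intro b hb c hcA
    have h1 := hθ (b * c) (mul_mem hb hcA)
    rw [map_mul, Module.End.mul_apply, hθ c hcA, map_smul, hθ b hb, smul_smul] at h1
    have h2 : (θ (b * c) - θ b * θ c) • v = 0 := by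
      rw [sub_smul, ← h1, mul_comm (θ b), sub_self]
    exact sub_eq_zero.1 ((smul_eq_zero.1 h2).resolve_right hv)
  have hθ1 : θ 1 = 1 := by
    have h1 := hθ 1 (one_mem A)
    rw [map_one, Module.End.one_apply] at h1
    have h2 : (θ 1 - 1) • v = 0 := by
      rw [sub_smul, ← h1, one_smul, sub_self]
    exact sub_eq_zero.1 ((smul_eq_zero.1 h2).resolve_right hv)
  -- the stabiliser of the weight
  let S : Subgroup Γ :=
    { carrier := {h | (∀ b ∈ A, h⁻¹ * b * h ∈ A) ∧ (∀ b ∈ A, h * b * h⁻¹ ∈ A) ∧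
        ∀ b ∈ A, θ (h⁻¹ * b * h) = θ b}
      one_mem' := by
        refine ⟨?_, ?_, ?_⟩
        · intro b hb; simpa using hb
        · intro b hb; simpa using hb
        · intro b hb; simp
      mul_mem' := by
        rintro h h' ⟨h1, h2, h3⟩ ⟨h4, h5, h6⟩
        refine ⟨?_, ?_, ?_⟩
        · intro b hb
          have := h4 _ (h1 b hb)
          rwa [show (h * h')⁻¹ * b * (h * h') = h'⁻¹ * (h⁻¹ * b * h) * h' by group]
        · intro b hb
          have := h2 _ (h5 b hb)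
          rwa [show h * h' * b * (h * h')⁻¹ = h * (h' * b * h'⁻¹) * h⁻¹ by group]
        · intro b hb
          rw [show (h * h')⁻¹ * b * (h * h') = h'⁻¹ * (h⁻¹ * b * h) * h' by group,
            h6 _ (h1 b hb), h3 b hb]
      inv_mem' := by
        rintro h ⟨h1, h2, h3⟩
        refine ⟨?_, ?_, ?_⟩
        · intro b hb
          rw [inv_inv]
          exact h2 b hb
        · intro b hb
          rw [inv_inv]
          exact h1 b hb
        · intro b hb
          have := h3 _ (h2 b hb)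
          rw [show h⁻¹ * (h * b * h⁻¹) * h = b by group] at this
          rw [inv_inv, this] }
  have hzS : z ∉ S := by
    rintro ⟨-, -, h3⟩
    apply hθ0
    have h4 := h3 _ hc
    rw [show z⁻¹ * (z * a⁻¹ * z⁻¹) * z = a⁻¹ by group] at h4
    rw [commutatorElement_def, show a * z * a⁻¹ * z⁻¹ = a * (z * a⁻¹ * z⁻¹) by group,
      hθmul _ ha _ hc, ← h4, ← hθmul _ ha _ (inv_mem ha), mul_inv_cancel, hθ1]
  intro hsum
  have hsum' : ∑ i ∈ Finset.range (p ^ (k + 1)), ((ρ g) ^ i) v = 0 := by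
    rw [← LinearMap.sum_apply, hsum, LinearMap.zero_apply]
  have hw := weight_li (fun b : A => ρ (b : Γ)) (Finset.range (p ^ (k + 1)))
    (fun i => ((ρ g) ^ i) v) (fun i b => θ ((g ^ (i : ℤ))⁻¹ * (b : Γ) * g ^ (i : ℤ)))
    (by
      intro i _ b
      have h1 := hint' i b b.2
      have h2 : ρ (b : Γ) (((ρ g) ^ i) v)
          = ((ρ g) ^ i) (ρ ((g ^ (i : ℤ))⁻¹ * (b : Γ) * g ^ (i : ℤ)) v) := by
        rw [← map_pow, ← Module.End.mul_apply, ← Module.End.mul_apply, ← map_mul, ← map_mul]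
        congr 2
        rw [zpow_natCast]
        group
      rw [h2, hθ _ h1, map_smul])
    (by
      intro i hi j hj hij h
      apply hij
      have h1 : g ^ ((j : ℤ) - i) ∈ S := by
        refine ⟨?_, ?_, ?_⟩
        · intro b hb
          exact hint' _ b hb
        · intro b hb
          exact hint _ b hb
        · intro b hb
          have h2 := congrFun h ⟨g ^ (i : ℤ) * b * (g ^ (i : ℤ))⁻¹, hint i b hb⟩
          simp only at h2
          rw [show (g ^ (i : ℤ))⁻¹ * (g ^ (i : ℤ) * b * (g ^ (i : ℤ))⁻¹) * g ^ (i : ℤ) = b by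
            group] at h2
          have e : g ^ ((j : ℤ) - i) = (g ^ (i : ℤ))⁻¹ * g ^ (j : ℤ) := by
            rw [← zpow_neg, ← zpow_add]
            congr 1
            ring
          rw [h2, e, mul_inv_rev, inv_inv]
          congr 1
          simp only [mul_assoc]
      have h2 := cyc hp k S g hg (by rw [← hz]; exact hzS) _ h1
      rw [Finset.mem_range] at hi hj
      have h3 : ((i : ℤ)) < ((p ^ (k + 1) : ℕ) : ℤ) := by exact_mod_cast hi
      have h4 : ((j : ℤ)) < ((p ^ (k + 1) : ℕ) : ℤ) := by exact_mod_cast hj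
      have h5 := Int.eq_zero_of_abs_lt_dvd h2 (abs_lt.2 ⟨by omega, by omega⟩)
      omega)
    hsum'
  have h0 := hw 0 (Finset.mem_range.2 (pow_pos hp.pos _))
  simp only [pow_zero, Module.End.one_apply] at h0
  exact hv h0

end Pool.Agent.Work.MP_b44cb1_al.HH
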