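import Pool.Agent.Work.MP_b44cb1_al.HH.Core
import Pool.Agent.Work.MP_b44cb1_al.E3A

/-!
# HH/Fit (size M) : the centraliser of the Fitting subgroup

`fit_ab`: let `C = {x | x centralises core {q} G for all primes q}`. `C` is a normal subgroup of
`G`. Claim: `C` is commutative. Let `Z = C ⊓ centralizer C` (normal in `G`). If `Z < C`, then by
`min_above` there is a normal subgroup `M` of `G` with `Z < M ≤ C` and `x y x⁻¹ y⁻¹ ∈ Z` for
`x, y ∈ M`. `Z` is centralised by `C ≥ M`, so `M` is nilpotent (class `≤ 2`: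
`Group.isNilpotent_of_ker_le_center` for `M → M ⧸ Z`, or `of_quotient_center_nilpotent`). For every
prime `l` the elements of `l`-power order of `M` form a subgroup (the unique Sylow `l`-subgroup,
`Group.isNilpotent_of_finite_tfae`; or directly in class 2), characteristic in `M`, hence normal in
`G`, so it is contained in `core {l} G`, and is centralised by `C`. As every element of the finite
group `M` is a product of (commuting, powers of the element) elements of prime power order, `M` is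
centralised by `C`: `M ≤ Z`, contradiction.

`fit_S2`: `x ∈ C`, `x` a `p`-element. The `p`-elements of the commutative normal subgroup `C` form a
normal `p`-subgroup of `G`, contained in `core {p} G`.

`fit_S1`: if `core {l | l ≠ p} G = ⊥` and `x` centralises `core {p} G` then `x ∈ C` as
`core {q} G = ⊥` for `q ≠ p` (`core_q_bot`). The elements of `l`-power order of `C` form a normal
`l`-subgroup, contained in `core {l} G`, which is trivial for `l ≠ p`. So `C` is a `p`-group, hence
`C ≤ core {p} G`.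
-/

set_option autoImplicit false

namespace Pool.Agent.Work.MP_b44cb1_al.HH

open Subgroup

section aux

variable {G : Type*} [Group G]

/-- `x` is a product of a `q`-element and an element of order prime to `q`, both powers of `x`. -/
private lemma split [Finite G] {q : ℕ} (hq : q.Prime) (x : G) :
    ∃ y z : G, y ∈ zpowers x ∧ z ∈ zpowers x ∧ x = y * z ∧ PEl q y ∧
      ∃ m : ℕ, ¬ q ∣ m ∧ z ^ m = 1 := by
  obtain ⟨a, m, hm, hn⟩ := Nat.exists_eq_pow_mul_and_not_dvd (orderOf_pos x).ne' q hq.ne_one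
  have hcop : IsCoprime ((q ^ a : ℕ) : ℤ) (m : ℤ) := by
    rw [Nat.isCoprime_iff_coprime]
    exact Nat.Coprime.pow_left _ ((Nat.Prime.coprime_iff_not_dvd hq).2 hm)
  obtain ⟨v, u, huv⟩ := hcop
  refine ⟨x ^ (u * m), x ^ (v * (q ^ a : ℕ)), ⟨_, rfl⟩, ⟨_, rfl⟩, ?_, ⟨a, ?_⟩, m, hm, ?_⟩
  · rw [← zpow_add, add_comm, huv, zpow_one]
  · rw [← zpow_natCast, ← zpow_mul, mul_assoc]
    have : (m : ℤ) * ((q ^ a : ℕ) : ℤ) = (orderOf x : ℤ) := by rw [hn]; push_cast; ring
    rw [this, mul_comm, zpow_mul, zpow_natCast, pow_orderOf_eq_one, one_zpow]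
  · rw [← zpow_natCast, ← zpow_mul, mul_assoc]
    have : ((q ^ a : ℕ) : ℤ) * (m : ℤ) = (orderOf x : ℤ) := by rw [hn]; push_cast; ring
    rw [this, mul_comm, zpow_mul, zpow_natCast, pow_orderOf_eq_one, one_zpow]

private lemma mem_of_cop {q m : ℕ} (hq : q.Prime) (hm : ¬ q ∣ m) (Z : Subgroup G) (z : G)
    (h1 : z ^ m ∈ Z) (h2 : z ^ q ∈ Z) : z ∈ Z := by
  have hcop : IsCoprime (q : ℤ) (m : ℤ) := by
    rw [Nat.isCoprime_iff_coprime]
    exact (Nat.Prime.coprime_iff_not_dvd hq).2 hm
  obtain ⟨v, u, huv⟩ := hcop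
  have : z = (z ^ q) ^ v * (z ^ m) ^ u := by
    rw [← zpow_natCast, ← zpow_natCast, ← zpow_mul, ← zpow_mul, ← zpow_add, mul_comm (q : ℤ),
      mul_comm (m : ℤ), huv, zpow_one]
  rw [this]
  exact mul_mem (zpow_mem h2 _) (zpow_mem h1 _)

/-- the centraliser of the Fitting subgroup -/
private def CC (G : Type*) [Group G] : Subgroup G where
  carrier := {x | ∀ q : ℕ, q.Prime → ∀ a ∈ core {q} G, x * a = a * x}
  one_mem' := fun q _ a _ => by rw [one_mul, mul_one]
  mul_mem' := by
    intro x y hx hy q hq a ha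
    rw [mul_assoc, hy q hq a ha, ← mul_assoc, hx q hq a ha, mul_assoc]
  inv_mem' := by
    intro x hx q hq a ha
    have := hx q hq a ha
    rw [inv_mul_eq_iff_eq_mul, ← mul_assoc, this, mul_assoc, mul_inv_cancel, mul_one]

private lemma mem_CC {x : G} : x ∈ CC G ↔ ∀ q : ℕ, q.Prime → ∀ a ∈ core {q} G, x * a = a * x :=
  Iff.rfl

private lemma CC_normal : (CC G).Normal := by
  constructor
  intro x hx g q hq a ha
  have h1 := (core_normal {q} G).conj_mem a ha g⁻¹
  rw [inv_inv] at h1
  have h2 := hx q hq _ h1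
  have h3 : g * x * g⁻¹ * a = g * (x * (g⁻¹ * a * g)) * g⁻¹ := by group
  rw [h3, h2]
  group

/-- the `l`-elements of a commutative normal subgroup -/
private lemma comm_core [Finite G] {l : ℕ} (hl : l.Prime) (C : Subgroup G) (hC : C.Normal)
    (hab : Cz C C) (x : G) (hx : x ∈ C) (hxl : PEl l x) : x ∈ core {l} G := by
  let P : Subgroup G :=
    { carrier := {y | y ∈ C ∧ PEl l y}
      one_mem' := ⟨one_mem _, 0, one_pow _⟩
      mul_mem' := by
        rintro y z ⟨hy, i, hyi⟩ ⟨hz, j, hzj⟩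
        refine ⟨mul_mem hy hz, i + j, ?_⟩
        have hc : Commute y z := hab y hy z hz
        rw [hc.mul_pow, pow_add, pow_mul, hyi, one_pow, mul_comm (l ^ i), pow_mul, hzj, one_pow,
          one_mul]
      inv_mem' := by
        rintro y ⟨hy, i, hyi⟩
        exact ⟨inv_mem hy, i, by rw [inv_pow, hyi, inv_one]⟩ }
  have hP : P.Normal := by
    constructor
    rintro y ⟨hy, i, hyi⟩ g
    exact ⟨hC.conj_mem y hy g, i, by rw [conj_pow, hyi, mul_one, mul_inv_cancel]⟩
  have hPp : IsPGroup l P := by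
    rintro ⟨y, hy, i, hyi⟩
    exact ⟨i, by ext; exact hyi⟩
  exact le_core_p hl hP hPp ⟨hx, hxl⟩

end aux

theorem fit_ab {G : Type*} [Group G] [Finite G] (hs : Group.IsSolvable G) (C : Subgroup G)
    (hC : ∀ x, x ∈ C ↔ ∀ q : ℕ, q.Prime → ∀ a ∈ core {q} G, x * a = a * x) :
    C.Normal ∧ Cz C C := by
  have hCC : C = CC G := by
    ext x
    rw [hC, mem_CC]
  subst hCC
  refine ⟨CC_normal, ?_⟩
  have hCn : (CC G).Normal := CC_normal
  obtain ⟨Z, hZ⟩ : ∃ Z : Subgroup G, Z = CC G ⊓ centralizer (CC G : Set G) := ⟨_, rfl⟩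
  have hZmem : ∀ x, x ∈ Z ↔ x ∈ CC G ∧ ∀ y ∈ CC G, y * x = x * y := by
    intro x
    rw [hZ, Subgroup.mem_inf, Subgroup.mem_centralizer_iff]
    rfl
  have hZn : Z.Normal := by
    constructor
    intro x hx g
    rw [hZmem] at hx ⊢
    refine ⟨hCn.conj_mem x hx.1 g, fun y hy => ?_⟩
    have h1 := hCn.conj_mem y hy g⁻¹
    rw [inv_inv] at h1
    have h2 := hx.2 _ h1
    have h3 : y * (g * x * g⁻¹) = g * (g⁻¹ * y * g * x) * g⁻¹ := by group
    rw [h3, h2]
    group
  have hZle : Z ≤ CC G := by rw [hZ]; exact inf_le_left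
  by_cases hZC : Z = CC G
  · intro a ha b hb
    rw [← hZC, hZmem] at hb
    exact hb.2 a ha
  exfalso
  obtain ⟨M, hMn, hZM, hMC, hMcom, q, hq, hMq⟩ := min_above hs Z (CC G) hZn hCn
    (lt_of_le_of_ne hZle hZC)
  -- `M` is nilpotent
  have hcen : ∀ x y : M, x * y * x⁻¹ * y⁻¹ ∈ center M := by
    intro x y
    rw [Subgroup.mem_center_iff]
    intro z
    have h1 := hMcom x x.2 y y.2
    rw [hZmem] at h1
    have h2 := h1.2 z (hMC z.2)
    ext
    simpa using h2
  have hnil : Group.IsNilpotent M := by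
    apply Group.of_quotient_center_nilpotent
    let _ : CommGroup (M ⧸ center M) :=
      { (inferInstance : Group (M ⧸ center M)) with
        mul_comm := by
          intro a b
          obtain ⟨x, rfl⟩ := QuotientGroup.mk_surjective a
          obtain ⟨y, rfl⟩ := QuotientGroup.mk_surjective b
          rw [← QuotientGroup.mk_mul, ← QuotientGroup.mk_mul, QuotientGroup.eq]
          have := hcen y⁻¹ x⁻¹
          simpa [mul_assoc] using this }
    infer_instance
  have : Fact q.Prime := ⟨hq⟩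
  have hsyl : ∀ P : Sylow q M, (P : Subgroup M).Normal := by
    intro P
    have h := (Group.isNilpotent_of_finite_tfae (G := M)).out 0 3
    exact h.1 hnil q inferInstance P
  obtain ⟨P⟩ : Nonempty (Sylow q M) := inferInstance
  have hPn := hsyl P
  have hPchar : (P : Subgroup M).Characteristic := P.characteristic_of_normal hPn
  have hP'n : ((P : Subgroup M).map M.subtype).Normal := ConjAct.normal_of_characteristic_of_normal
  have hP'p : IsPGroup q ((P : Subgroup M).map M.subtype) := P.2.map _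
  have hP'le := le_core_p hq hP'n hP'p
  -- `M ≤ Z`
  refine absurd hZM (not_lt_of_ge fun x hx => ?_)
  obtain ⟨y, z, hy, hz, hxyz, hyq, m, hm, hzm⟩ := split hq x
  have hyM : y ∈ M := (zpowers_le.2 hx) hy
  have hzM : z ∈ M := (zpowers_le.2 hx) hz
  have hzZ : z ∈ Z := mem_of_cop hq hm Z z (by rw [hzm]; exact one_mem _) (hMq z hzM)
  have hyP : y ∈ (P : Subgroup M).map M.subtype := by
    have h1 : IsPGroup q (zpowers (⟨y, hyM⟩ : M)) := by
      obtain ⟨j, hj⟩ := hyq
      rintro ⟨_, k, rfl⟩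
      refine ⟨j, ?_⟩
      ext
      simp only [SubgroupClass.coe_zpow, SubmonoidClass.coe_pow, OneMemClass.coe_one]
      rw [← zpow_natCast, zpow_comm, zpow_natCast, hj, one_zpow]
    obtain ⟨Q, hQ⟩ := h1.exists_le_sylow
    have hu := Sylow.unique_of_normal P hPn
    have hPQ : Q = P := Subsingleton.elim _ _
    rw [hPQ] at hQ
    exact ⟨⟨y, hyM⟩, hQ (mem_zpowers _), rfl⟩
  have hyC := hP'le hyP
  rw [hZmem]
  refine ⟨hMC hx, fun w hw => ?_⟩
  have h1 := (mem_CC.1 hw) q hq y hyC
  have h2 := ((hZmem z).1 hzZ).2 w hw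
  rw [hxyz, ← mul_assoc, h1, mul_assoc, h2, mul_assoc]

theorem fit_S2 {G : Type*} [Group G] [Finite G] (hs : Group.IsSolvable G) {p : ℕ} (hp : p.Prime)
    (x : G) (hx : ∀ q : ℕ, q.Prime → ∀ a ∈ core {q} G, x * a = a * x) (hxp : PEl p x) :
    x ∈ core {p} G := by
  obtain ⟨h1, h2⟩ := fit_ab hs (CC G) fun _ => mem_CC
  exact comm_core hp (CC G) h1 h2 x hx hxp

theorem fit_S1 {G : Type*} [Group G] [Finite G] (hs : Group.IsSolvable G) {p : ℕ} (hp : p.Prime)
    (hc : core {l | l ≠ p} G = ⊥) (x : G) (hx : ∀ a ∈ core {p} G, x * a = a * x) :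
    x ∈ core {p} G := by
  obtain ⟨hCn, hCab⟩ := fit_ab hs (CC G) fun _ => mem_CC
  have hxC : x ∈ CC G := by
    intro q hq a ha
    by_cases hqp : q = p
    · subst hqp
      exact hx a ha
    · rw [core_q_bot hqp hc, Subgroup.mem_bot] at ha
      rw [ha, one_mul, mul_one]
  refine comm_core hp (CC G) hCn hCab x hxC ?_
  obtain ⟨y, z, hy, hz, hxyz, hyp, m, hm, hzm⟩ := split hp x
  have hzC : z ∈ CC G := (zpowers_le.2 hxC) hz
  have hz1 : z = 1 := by
    by_contra hz1
    obtain ⟨l, hl, hld⟩ := Nat.exists_prime_and_dvd (mt orderOf_eq_one_iff.1 hz1)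
    have hlp : l ≠ p := by
      rintro rfl
      exact hm (hld.trans (orderOf_dvd_of_pow_eq_one hzm))
    obtain ⟨k, hk⟩ := hld
    have hw : z ^ k ∈ core {l} G := by
      refine comm_core hl (CC G) hCn hCab _ (pow_mem hzC _) ⟨1, ?_⟩
      rw [pow_one, ← pow_mul, mul_comm, ← hk, pow_orderOf_eq_one]
    rw [core_q_bot hlp hc, Subgroup.mem_bot] at hw
    have h1 := orderOf_dvd_of_pow_eq_one hw
    rw [hk] at h1
    have hk0 : 0 < k := by
      rcases Nat.eq_zero_or_pos k with h0 | h0
      · rw [h0, mul_zero] at hk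
        exact absurd hk (orderOf_pos z).ne'
      · exact h0
    have h2 := Nat.le_of_dvd hk0 h1
    have h3 := hl.two_le
    nlinarith
  rw [hxyz, hz1, mul_one]
  exact hyp

end Pool.Agent.Work.MP_b44cb1_al.HH
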