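import Pool.Agent.Work.MP_b44cb1_al.HH.Defs

/-!
# HH/GL (size S-M) : a group generated by elements of order `p` has exponent `p`

`N` is nilpotent, generated by a set `S` of elements with `s^p = 1`, `p` odd, and every
`e ∈ [N,N]` with `e^p = 1` is central. Then `N` has exponent `p`.

Proof. Let `Z_i` be the upper central series of `N`.
1. `Z_3 ≤ Z_2`. Let `v ∈ Z_3`, `y ∈ S`, `a = ⁅v, y⁆ ∈ Z_2 ∩ [N,N]`. `⁅a, y⁆ ∈ Z_1` is central and
   `⁅a, y⁆^p = ⁅a, y^p⁆ = 1` (`⁅a, ·⁆` is multiplicative as all `⁅a, y⁆` are central). From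
   `v y v⁻¹ = a y` and `(a y)^m = a^m y^m · (central commutator)^{± m(m-1)/2}` we get
   `1 = v y^p v⁻¹ = (a y)^p = a^p y^p ⁅a, y⁆^{± p(p-1)/2} = a^p`. So `a ∈ [N,N]`, `a^p = 1`, and `a` is
   central by hypothesis. So `{h | ⁅v, h⁆ ∈ Z_1}` (a subgroup: `⁅v, h h'⁆ = ⁅v, h⁆ · h ⁅v, h'⁆ h⁻¹`)
   contains `S`, hence is `N`, and `v ∈ Z_2`.
2. So `Z_2 = Z_3`, hence `Z_2 = ⊤` (`upperCentralSeries.eq_top`): all commutators are central.
3. If `a^p = b^p = 1` then `(a b)^p = a^p b^p ⁅b, a⁆^{p(p-1)/2} = 1` since `⁅b, a⁆^p = ⁅b^p, a⁆ = 1`. So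
   `{n | n^p = 1}` is a subgroup containing `S`.
-/

set_option autoImplicit false
set_option linter.style.haveILetI false

namespace Pool.Agent.Work.MP_b44cb1_al.HH

open Subgroup
open scoped commutatorElement

/-- `⁅y, a⁆` central: `y^m a = ⁅y,a⁆^m a y^m`. -/
private theorem gl_comm {N : Type*} [Group N] (a y : N) (hc : ⁅y, a⁆ ∈ center N) (m : ℕ) :
    y ^ m * a = a * y ^ m * ⁅y, a⁆ ^ m := by
  have hc' : ∀ g : N, g * ⁅y, a⁆ = ⁅y, a⁆ * g := fun g => mem_center_iff.1 hc g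
  have h0 : y * a = a * y * ⁅y, a⁆ := by
    rw [hc' (a * y), commutatorElement_def]; group
  induction m with
  | zero => simp
  | succ m ih =>
    have h1 : ⁅y, a⁆ ^ m * y = y * ⁅y, a⁆ ^ m :=
      ((show Commute y ⁅y, a⁆ from hc' y).pow_right m).eq.symm
    calc y ^ (m + 1) * a = y ^ m * (y * a) := by rw [pow_succ, mul_assoc]
      _ = y ^ m * a * y * ⁅y, a⁆ := by rw [h0]; group
      _ = a * y ^ m * (⁅y, a⁆ ^ m * y) * ⁅y, a⁆ := by rw [ih]; group
      _ = a * y ^ m * (y * ⁅y, a⁆ ^ m) * ⁅y, a⁆ := by rw [h1]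
      _ = a * y ^ (m + 1) * ⁅y, a⁆ ^ (m + 1) := by rw [pow_succ, pow_succ]; group

/-- `(a y)^m` when `c = ⁅y, a⁆` is central. -/
theorem gl_pow {N : Type*} [Group N] (a y : N) (hc : ⁅y, a⁆ ∈ center N) (m : ℕ) :
    (a * y) ^ m = a ^ m * y ^ m * ⁅y, a⁆ ^ (m * (m - 1) / 2) := by
  have hc' : ∀ g : N, g * ⁅y, a⁆ = ⁅y, a⁆ * g := fun g => mem_center_iff.1 hc g
  induction m with
  | zero => simp
  | succ m ih =>
    have h1 : ∀ (k : ℕ) (g : N), ⁅y, a⁆ ^ k * g = g * ⁅y, a⁆ ^ k := fun k g =>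
      ((show Commute g ⁅y, a⁆ from hc' g).pow_right k).eq.symm
    have h2 : (m + 1) * (m + 1 - 1) / 2 = m + m * (m - 1) / 2 := by
      rw [Nat.add_sub_cancel]
      rcases Nat.eq_zero_or_pos m with h | h
      · subst h; simp
      · obtain ⟨k, rfl⟩ : ∃ k, m = k + 1 := ⟨m - 1, by omega⟩
        rw [Nat.add_sub_cancel]
        have h3 : (k + 1 + 1) * (k + 1) = (k + 1) * 2 + (k + 1) * k := by ring
        rw [h3]; omega
    rw [pow_succ (a * y), ih, h2, pow_add ⁅y, a⁆]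
    calc a ^ m * y ^ m * ⁅y, a⁆ ^ (m * (m - 1) / 2) * (a * y)
        = a ^ m * y ^ m * (⁅y, a⁆ ^ (m * (m - 1) / 2) * (a * y)) := by group
      _ = a ^ m * (y ^ m * a) * y * ⁅y, a⁆ ^ (m * (m - 1) / 2) := by rw [h1]; group
      _ = a ^ m * (a * y ^ m) * (⁅y, a⁆ ^ m * y) * ⁅y, a⁆ ^ (m * (m - 1) / 2) := by
          rw [gl_comm a y hc m]; group
      _ = a ^ m * (a * y ^ m) * (y * ⁅y, a⁆ ^ m) * ⁅y, a⁆ ^ (m * (m - 1) / 2) := by rw [h1 m y]
      _ = a ^ (m + 1) * y ^ (m + 1) * (⁅y, a⁆ ^ m * ⁅y, a⁆ ^ (m * (m - 1) / 2)) := by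
          rw [pow_succ a, pow_succ y]; simp only [mul_assoc]

/-- `⁅y, a⁆` central and `y^p = 1`: `⁅y, a⁆^p = 1`. -/
private theorem gl_one {N : Type*} [Group N] (a y : N) (hc : ⁅y, a⁆ ∈ center N) (p : ℕ)
    (hy : y ^ p = 1) : ⁅y, a⁆ ^ p = 1 := by
  have h1 := gl_comm a y hc p
  rw [hy, one_mul, mul_one] at h1
  exact (mul_eq_left.1 h1.symm)

private theorem gl_half {N : Type*} [Group N] {p : ℕ} (hp : p.Prime) (hp2 : p ≠ 2) (c : N)
    (hc : c ^ p = 1) : c ^ (p * (p - 1) / 2) = 1 := by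
  obtain ⟨k, hk⟩ := hp.odd_of_ne_two hp2
  have h1 : p * (p - 1) / 2 = p * k := by
    have h2 : p - 1 = 2 * k := by omega
    rw [h2]
    have h3 : p * (2 * k) = 2 * (p * k) := by ring
    rw [h3, Nat.mul_div_cancel_left _ (by norm_num)]
  rw [h1, pow_mul, hc, one_pow]

theorem gl {N : Type*} [Group N] [Group.IsNilpotent N] {p : ℕ} (hp : p.Prime) (hp2 : p ≠ 2)
    (S : Set N) (hS : closure S = ⊤) (hSp : ∀ s ∈ S, s ^ p = 1)
    (hω : ∀ e ∈ commutator N, e ^ p = 1 → e ∈ center N) : ∀ x : N, x ^ p = 1 := by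
  have hmem : ∀ (n : ℕ) (x : N), x ∈ Subgroup.upperCentralSeries N (n + 1) ↔
      ∀ y, ⁅x, y⁆ ∈ Subgroup.upperCentralSeries N n := by
    intro n x
    rw [Subgroup.mem_upperCentralSeries_succ_iff]
  have hZ1 : Subgroup.upperCentralSeries N 1 = center N := Subgroup.upperCentralSeries_one N
  -- step 1
  have hstep : Subgroup.upperCentralSeries N 3 ≤ Subgroup.upperCentralSeries N 2 := by
    intro v hv
    rw [hmem, hZ1]
    -- the generators
    have hgen : ∀ y ∈ S, ⁅v, y⁆ ∈ center N := by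
      intro y hy
      have ha2 : ⁅v, y⁆ ∈ Subgroup.upperCentralSeries N 2 := (hmem 2 v).1 hv y
      have hya : ⁅y, ⁅v, y⁆⁆ ∈ center N := by
        rw [← hZ1, ← commutatorElement_inv]
        exact inv_mem ((hmem 1 _).1 ha2 y)
      apply hω _ (commutator_mem_commutator (mem_top v) (mem_top y))
      have h1 : ⁅v, y⁆ * y = v * y * v⁻¹ := by rw [commutatorElement_def]; group
      have h2 : (⁅v, y⁆ * y) ^ p = 1 := by
        rw [h1, conj_pow, hSp y hy, mul_one, mul_inv_cancel]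
      rw [gl_pow _ _ hya, hSp y hy, gl_half hp hp2 _ (gl_one _ _ hya p (hSp y hy)), mul_one,
        mul_one] at h2
      exact h2
    intro y
    have hy : y ∈ closure S := by rw [hS]; exact mem_top y
    induction hy using Subgroup.closure_induction with
    | mem y hy => exact hgen y hy
    | one => rw [commutatorElement_one_right]; exact one_mem _
    | mul h h' _ _ ih ih' =>
      have h1 : ⁅v, h * h'⁆ = ⁅v, h⁆ * (h * ⁅v, h'⁆ * h⁻¹) := by
        simp only [commutatorElement_def]; group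
      rw [h1]
      exact mul_mem ih ((inferInstance : (center N).Normal).conj_mem _ ih' h)
    | inv h _ ih =>
      have h1 : ⁅v, h⁻¹⁆ = h⁻¹ * ⁅v, h⁆⁻¹ * h⁻¹⁻¹ := by
        simp only [commutatorElement_def]; group
      rw [h1]
      exact (inferInstance : (center N).Normal).conj_mem _ (inv_mem ih) h⁻¹
  have htop : Subgroup.upperCentralSeries N 2 = ⊤ :=
    Subgroup.upperCentralSeries.eq_top (a := 2) (b := 3) (by norm_num)
      (le_antisymm (Subgroup.upperCentralSeries_mono N (by norm_num)) hstep)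
  have hcen : ∀ a b : N, ⁅a, b⁆ ∈ center N := by
    intro a b
    rw [← hZ1]
    exact (hmem 1 a).1 (by rw [htop]; exact mem_top a) b
  intro x
  have hx : x ∈ closure S := by rw [hS]; exact mem_top x
  induction hx using Subgroup.closure_induction with
  | mem y hy => exact hSp y hy
  | one => exact one_pow _
  | mul a b _ _ iha ihb =>
    rw [gl_pow a b (hcen b a), iha, ihb, gl_half hp hp2 _ (gl_one a b (hcen b a) p ihb), mul_one,
      mul_one]
  | inv a _ iha => rw [inv_pow, iha, inv_one]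

end Pool.Agent.Work.MP_b44cb1_al.HH
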