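import Pool.Agent.Work.MP_b44cb1_al.HH.QuadA
import Pool.Agent.Work.MP_b44cb1_al.HH.FO
import Pool.Agent.Work.MP_b44cb1_al.HH.Geo
import Pool.Agent.Work.MP_b44cb1_al.HH.Cop

/-!
# HH/HBA (size M) : the hypotheses `QH` on a weight space

`U` is the `θ`-weight space of `Z`, `L ≤ Γ` leaves `U` invariant, `R ≤ L`, `z ∈ L`. Put
`σ = resRep ρ U L hL`. `z` acts nilpotently enough: `(ρ z - 1)^(p-1) = 0`, so `(σ z - 1)^(p-1) = 0`.
* `cl2`: `⁅r, r'⁆ ∈ ⁅R, R⁆ ≤ Z` acts on `U` as the scalar `θ ⁅r, r'⁆`.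
* `nd`: let `A = {r ∈ R | σ ⁅r, r'⁆ = 1 for all r' ∈ R}`, a subgroup of `R` normalised by `z`, with
  `σ (a b) = σ (b a)`. If `σ ⁅a, z⁆ ≠ 1` for some `a ∈ A`, then `fo` (with `k = 0`, `g = z`, group `↥L`)
  gives `∑_{i<p} (σ z)^i ≠ 0`, but it is `(σ z - 1)^(p-1) = 0` by `geo_sum`. So `σ a` commutes with `σ z`
  for `a ∈ A`. Now `cfix` with `B = zpowers z`, `N = {r ∈ R | σ r = 1}` (a `q`-group normalised by `z`),
  `r := a`: there is `c ∈ a N` commuting with `z`; `c ∈ R`, so `c ∈ Z` and `σ a = σ c = θ c`, a scalar.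
* `fpf`: let `N = {r ∈ R | σ r scalar}`, a subgroup normalised by `R` and `z`. If `σ ⁅z, r⁆` is scalar
  then `z r z⁻¹ ∈ N r`, so `r⁻¹ (z^i r z^{-i}) ∈ N` for all `i`, and `cfix` gives `c ∈ r N` commuting with
  `z`, `c ∈ R`; so `c ∈ Z` is scalar on `U` and `r` is.
-/

set_option autoImplicit false

namespace Pool.Agent.Work.MP_b44cb1_al.HH

open Subgroup
open scoped commutatorElement

private theorem nz_zp {G : Type*} [Group G] [Finite G] (z : G) (N : Subgroup G)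
    (h : ∀ x ∈ N, z * x * z⁻¹ ∈ N) : Nz (zpowers z) N := by
  have hnat : ∀ n : ℕ, ∀ b ∈ N, z ^ n * b * (z ^ n)⁻¹ ∈ N := by
    intro n
    induction n with
    | zero => intro b hb; simpa using hb
    | succ n ih =>
      intro b hb
      have h1 := h _ (ih b hb)
      rwa [show z * (z ^ n * b * (z ^ n)⁻¹) * z⁻¹ = z ^ (n + 1) * b * (z ^ (n + 1))⁻¹ by
        rw [pow_succ' z n, mul_inv_rev]; simp only [mul_assoc]] at h1
  intro g hg d hd
  obtain ⟨m, hm⟩ := (isOfFinOrder_of_finite z).mem_powers_iff_mem_zpowers.2 hg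
  have hm' : z ^ m = g := hm
  rw [← hm']
  exact hnat m d hd

theorem hbA {F V Γ : Type*} [Field F] [IsAlgClosed F] [AddCommGroup V] [Module F V]
    [FiniteDimensional F V] [Group Γ] [Finite Γ] {p q : ℕ} (hp : p.Prime) (hq : q.Prime)
    (hpq : q ≠ p) [CharP F p] (ρ : Γ →* (V →ₗ[F] V)) (R Z : Subgroup Γ) (hR : IsPGroup q R)
    (z : Γ) (hz : z ^ p = 1) (hzR : ∀ r ∈ R, z * r * z⁻¹ ∈ R) (hnil : (ρ z - 1) ^ (p - 1) = 0)
    (hZ : ∀ x, x ∈ Z ↔ x ∈ R ∧ z * x = x * z) (hZc : ∀ x ∈ Z, ∀ r ∈ R, x * r = r * x)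
    (hRZ : ⁅R, R⁆ ≤ Z) (θ : Γ → F) (U : Submodule F V)
    (hU : ∀ v, v ∈ U ↔ ∀ a ∈ Z, ρ a v = θ a • v) (hU0 : U ≠ ⊥) (L : Subgroup Γ)
    (hL : ∀ h ∈ L, ∀ v ∈ U, ρ h v ∈ U) (hRL : R ≤ L) (hzL : z ∈ L) :
    QH F (resRep ρ U L hL) (R.subgroupOf L) ⟨z, hzL⟩ p := by
  classical
  -- basic facts
  have hzN : Nz (zpowers z) R := nz_zp z R hzR
  have hziR : ∀ r ∈ R, z⁻¹ * r * z ∈ R := by
    intro r hr
    have h1 := hzN z⁻¹ (inv_mem (mem_zpowers z)) r hr
    rwa [inv_inv] at h1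
  have hB : IsPGroup p (zpowers z) := by
    rintro ⟨x, hx⟩
    obtain ⟨n, rfl⟩ := hx
    refine ⟨1, ?_⟩
    apply Subtype.ext
    show (z ^ n) ^ p ^ 1 = 1
    rw [pow_one, ← zpow_natCast, ← zpow_mul, mul_comm, zpow_mul, zpow_natCast, hz, one_zpow]
  have hρρ : ∀ (x : Γ) (v : V), ρ x⁻¹ (ρ x v) = v := by
    intro x v
    rw [← Module.End.mul_apply, ← map_mul, inv_mul_cancel, map_one, Module.End.one_apply]
  have hρρ' : ∀ (x : Γ) (v : V), ρ x (ρ x⁻¹ v) = v := by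
    intro x v
    rw [← Module.End.mul_apply, ← map_mul, mul_inv_cancel, map_one, Module.End.one_apply]
  have hmul : ∀ (x y : Γ) (v : V), ρ (x * y) v = ρ x (ρ y v) := by
    intro x y v
    rw [map_mul, Module.End.mul_apply]
  have scZ : ∀ x ∈ Z, ∀ v ∈ U, ρ x v = θ x • v := fun x hx v hv => (hU v).1 hv x hx
  have hNdvd : ∀ N : Subgroup Γ, N ≤ R → ¬ p ∣ Nat.card N := fun N hN =>
    cq_not_dvd hp hq hpq N (hR.to_le hN)
  obtain ⟨σ, hσ⟩ : ∃ σ, σ = resRep ρ U L hL := ⟨_, rfl⟩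
  have hσa : ∀ (h : L) (v : U), ((σ h v : U) : V) = ρ h v := by
    intro h v
    rw [hσ]
    exact resRep_apply ρ U L hL h v
  have toSc : ∀ (x : L) (c : F), (∀ v ∈ U, ρ x v = c • v) → Sc F (σ x) := by
    intro x c h
    refine ⟨c, ?_⟩
    ext v
    rw [hσa, Module.algebraMap_end_apply]
    exact h v v.2
  have ofSc : ∀ (x : L), Sc F (σ x) → ∃ c : F, ∀ v ∈ U, ρ x v = c • v := by
    rintro x ⟨c, hc⟩
    refine ⟨c, fun v hv => ?_⟩
    have h1 := hσa x ⟨v, hv⟩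
    rw [hc, Module.algebraMap_end_apply] at h1
    exact h1.symm
  rw [← hσ]
  refine ⟨?_, ?_, ?_, ?_, ?_⟩
  · apply Subtype.ext
    exact hz
  · intro r hr
    exact hzR r hr
  · intro r hr r' hr'
    have h1 : ((⁅r, r'⁆ : L) : Γ) ∈ Z := by
      apply hRZ
      have h2 : ((⁅r, r'⁆ : L) : Γ) = ⁅(r : Γ), (r' : Γ)⁆ := rfl
      rw [h2]
      exact commutator_mem_commutator hr hr'
    exact toSc _ _ (scZ _ h1)
  · intro r hr0 hcom
    have hr : (r : Γ) ∈ R := hr0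
    let A : Subgroup L :=
      { carrier := {a | (a : Γ) ∈ R ∧ ∀ r' : L, (r' : Γ) ∈ R → σ (a * r') = σ (r' * a)}
        one_mem' := ⟨one_mem R, fun r' _ => by rw [one_mul, mul_one]⟩
        mul_mem' := by
          rintro a b ⟨h1, h2⟩ ⟨h3, h4⟩
          refine ⟨mul_mem h1 h3, fun r' hr' => ?_⟩
          calc σ (a * b * r') = σ a * σ (b * r') := by rw [mul_assoc, map_mul]
            _ = σ a * σ r' * σ b := by rw [h4 r' hr', map_mul, mul_assoc]
            _ = σ (r' * (a * b)) := by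
                rw [← map_mul, h2 r' hr', ← map_mul, mul_assoc]
        inv_mem' := by
          rintro a ⟨h1, h2⟩
          refine ⟨inv_mem h1, fun r' hr' => ?_⟩
          calc σ (a⁻¹ * r') = σ a⁻¹ * σ (r' * a) * σ a⁻¹ := by
                rw [← map_mul, ← map_mul]
                congr 1
                group
            _ = σ (r' * a⁻¹) := by
                rw [← h2 r' hr', ← map_mul, ← map_mul]
                congr 1
                group }
    have hrA : r ∈ A := by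
      refine ⟨hr, fun r' hr' => ?_⟩
      have h1 := hcom r' hr'
      have h2 : r * r' = ⁅r, r'⁆ * (r' * r) := by
        rw [commutatorElement_def]
        group
      rw [h2, map_mul, h1, one_mul]
    have hzA : ∀ a ∈ A, (⟨z, hzL⟩ : L) * a * (⟨z, hzL⟩ : L)⁻¹ ∈ A := by
      rintro a ⟨h1, h2⟩
      refine ⟨hzR _ h1, fun r' hr' => ?_⟩
      have h3 := h2 ((⟨z, hzL⟩ : L)⁻¹ * r' * ⟨z, hzL⟩) (hziR _ hr')
      calc σ ((⟨z, hzL⟩ : L) * a * (⟨z, hzL⟩ : L)⁻¹ * r')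
          = σ ⟨z, hzL⟩ * σ (a * ((⟨z, hzL⟩ : L)⁻¹ * r' * ⟨z, hzL⟩)) * σ (⟨z, hzL⟩ : L)⁻¹ := by
            rw [← map_mul, ← map_mul]
            congr 1
            group
        _ = σ (r' * ((⟨z, hzL⟩ : L) * a * (⟨z, hzL⟩ : L)⁻¹)) := by
            rw [h3, ← map_mul, ← map_mul]
            congr 1
            group
    -- `σ ⁅a, z⁆ = 1`
    have hpowr : ∀ (n : ℕ) (v : U), ((((σ ⟨z, hzL⟩ - 1) ^ n) v : U) : V) = ((ρ z - 1) ^ n) (v : V) := by
      intro n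
      induction n with
      | zero => intro v; rfl
      | succ n ih =>
        intro v
        rw [pow_succ, Module.End.mul_apply, ih, pow_succ, Module.End.mul_apply]
        congr 1
        rw [LinearMap.sub_apply, LinearMap.sub_apply, Submodule.coe_sub, hσa]
        rfl
    have hnil' : (σ ⟨z, hzL⟩ - 1) ^ (p - 1) = 0 := by
      ext v
      rw [hpowr, hnil]
      rfl
    have hone : σ ⁅r, (⟨z, hzL⟩ : L)⁆ = 1 := by
      by_contra hne
      have h1 := fo hp σ A (fun a ha b hb => ha.2 b hb.1) (by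
        intro a ha
        obtain ⟨j, hj⟩ := hR ⟨a, ha.1⟩
        refine ⟨q ^ j, ?_, ?_⟩
        · intro h
          exact hpq ((Nat.prime_dvd_prime_iff_eq hp hq).1 (hp.dvd_of_dvd_pow h)).symm
        · apply Subtype.ext
          have h3 : (a : Γ) ^ q ^ j = 1 := congrArg Subtype.val hj
          rw [Subgroup.coe_pow, h3, Subgroup.coe_one]) 0 ⟨z, hzL⟩ hzA (by
        apply Subtype.ext
        show z ^ p ^ (0 + 1) = 1
        rw [zero_add, pow_one]
        exact hz) r hrA (by rwa [pow_zero, pow_one])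
      apply h1
      rw [zero_add]
      have h2 := geo_sum hp (F := F) (σ ⟨z, hzL⟩) 1
      rw [← h2, pow_one]
      exact hnil'
    have hcz : Commute (σ ⟨z, hzL⟩) (σ r) := by
      show σ ⟨z, hzL⟩ * σ r = σ r * σ ⟨z, hzL⟩
      rw [← map_mul, ← map_mul]
      have h2 : r * ⟨z, hzL⟩ = ⁅r, (⟨z, hzL⟩ : L)⁆ * (⟨z, hzL⟩ * r) := by
        rw [commutatorElement_def]
        group
      rw [h2, map_mul σ ⁅r, (⟨z, hzL⟩ : L)⁆, hone, one_mul]
    let N : Subgroup Γ :=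
      { carrier := {x | x ∈ R ∧ ∀ v ∈ U, ρ x v = v}
        one_mem' := ⟨one_mem R, fun v _ => by rw [map_one, Module.End.one_apply]⟩
        mul_mem' := by
          rintro a b ⟨h1, h2⟩ ⟨h3, h4⟩
          refine ⟨mul_mem h1 h3, fun v hv => ?_⟩
          rw [hmul, h4 v hv, h2 v hv]
        inv_mem' := by
          rintro a ⟨h1, h2⟩
          refine ⟨inv_mem h1, fun v hv => ?_⟩
          nth_rewrite 1 [← h2 v hv]
          exact hρρ a v }
    have hNR : N ≤ R := fun x hx => hx.1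
    have hzNN : Nz (zpowers z) N := by
      apply nz_zp
      rintro x ⟨h1, h2⟩
      refine ⟨hzR x h1, fun v hv => ?_⟩
      rw [hmul, hmul, h2 _ (hL _ (inv_mem hzL) v hv), hρρ']
    obtain ⟨c, hc1, hc2⟩ := cfix hp (zpowers z) N hB (hNdvd N hNR) hzNN (r : Γ) (by
      intro b hb
      obtain ⟨m, hm⟩ := (isOfFinOrder_of_finite z).mem_powers_iff_mem_zpowers.2 hb
      have hm' : z ^ m = b := hm
      subst hm'
      refine ⟨mul_mem (inv_mem hr) (hzN _ hb _ hr), fun v hv => ?_⟩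
      have h1 : Commute (σ ((⟨z, hzL⟩ : L) ^ m)) (σ r) := by
        rw [map_pow]
        exact hcz.pow_left m
      have h2 : σ (r⁻¹ * ((⟨z, hzL⟩ : L) ^ m * r * ((⟨z, hzL⟩ : L) ^ m)⁻¹)) = 1 := by
        rw [map_mul, map_mul, map_mul, h1.eq, mul_assoc (σ r), ← map_mul σ _ ((⟨z, hzL⟩ : L) ^ m)⁻¹,
          mul_inv_cancel, map_one, mul_one, ← map_mul, inv_mul_cancel, map_one]
      have h3 := hσa (r⁻¹ * ((⟨z, hzL⟩ : L) ^ m * r * ((⟨z, hzL⟩ : L) ^ m)⁻¹)) ⟨v, hv⟩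
      rw [h2] at h3
      exact h3.symm)
    have hcR : c ∈ R := by
      have h1 := mul_mem hr (hNR hc1)
      rwa [mul_inv_cancel_left] at h1
    have hcZ : c ∈ Z := (hZ c).2 ⟨hcR, hc2 z (mem_zpowers z)⟩
    apply toSc r (θ c)
    intro v hv
    have h1 := hc1.2 v hv
    have h2 := congrArg (ρ (r : Γ)) h1
    rw [← hmul, mul_inv_cancel_left] at h2
    rw [← h2]
    exact scZ c hcZ v hv
  · intro r hr0 hsc
    have hr : (r : Γ) ∈ R := hr0
    obtain ⟨d, hd⟩ := ofSc _ hsc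
    let N : Subgroup Γ :=
      { carrier := {x | x ∈ R ∧ ∃ c : F, c ≠ 0 ∧ ∀ v ∈ U, ρ x v = c • v}
        one_mem' := ⟨one_mem R, 1, one_ne_zero, fun v _ => by
          rw [map_one, Module.End.one_apply, one_smul]⟩
        mul_mem' := by
          rintro a b ⟨h1, c, hc, h2⟩ ⟨h3, c', hc', h4⟩
          refine ⟨mul_mem h1 h3, c' * c, mul_ne_zero hc' hc, fun v hv => ?_⟩
          rw [hmul, h4 v hv, map_smul, h2 v hv, smul_smul]
        inv_mem' := by
          rintro a ⟨h1, c, hc, h2⟩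
          refine ⟨inv_mem h1, c⁻¹, inv_ne_zero hc, fun v hv => ?_⟩
          have h3 := congrArg (ρ a⁻¹) (h2 v hv)
          rw [hρρ, map_smul] at h3
          nth_rewrite 2 [h3]
          rw [smul_smul, inv_mul_cancel₀ hc, one_smul] }
    have hNR : N ≤ R := fun x hx => hx.1
    have hNof : ∀ x ∈ R, (∃ c : F, ∀ v ∈ U, ρ x v = c • v) → x ∈ N := by
      rintro x hx ⟨c, hc⟩
      refine ⟨hx, c, ?_, hc⟩
      rintro rfl
      obtain ⟨v, hv, hv0⟩ := (Submodule.ne_bot_iff _).1 hU0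
      apply hv0
      have h1 := hρρ x v
      rw [hc v hv, zero_smul, map_zero] at h1
      exact h1.symm
    have hzNN : ∀ x ∈ N, z * x * z⁻¹ ∈ N := by
      rintro x ⟨h1, c, hc, h2⟩
      refine ⟨hzR x h1, c, hc, fun v hv => ?_⟩
      rw [hmul, hmul, h2 _ (hL _ (inv_mem hzL) v hv), map_smul, hρρ']
    -- `r⁻¹ * (z * r * z⁻¹) ∈ N`
    have hstep : (r : Γ)⁻¹ * (z * r * z⁻¹) ∈ N := by
      apply hNof _ (mul_mem (inv_mem hr) (hzR _ hr))
      refine ⟨d, fun v hv => ?_⟩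
      have h1 : (r : Γ)⁻¹ * (z * r * z⁻¹) = (r : Γ)⁻¹ * (((⁅(⟨z, hzL⟩ : L), r⁆ : L) : Γ) * r) := by
        show (r : Γ)⁻¹ * (z * r * z⁻¹) = (r : Γ)⁻¹ * (⁅z, (r : Γ)⁆ * r)
        rw [commutatorElement_def]
        group
      rw [h1, hmul, hmul, hd _ (hL _ r.2 v hv), map_smul, hρρ]
    have hall : ∀ n : ℕ, (r : Γ)⁻¹ * (z ^ n * r * (z ^ n)⁻¹) ∈ N := by
      intro n
      induction n with
      | zero =>
        rw [pow_zero, one_mul, inv_one, mul_one, inv_mul_cancel]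
        exact one_mem N
      | succ n ih =>
        have h1 := mul_mem hstep (hzNN _ ih)
        have h2 : (r : Γ)⁻¹ * (z ^ (n + 1) * r * (z ^ (n + 1))⁻¹)
            = (r : Γ)⁻¹ * (z * r * z⁻¹) * (z * ((r : Γ)⁻¹ * (z ^ n * r * (z ^ n)⁻¹)) * z⁻¹) := by
          rw [pow_succ' z n, mul_inv_rev]
          simp only [mul_assoc, inv_mul_cancel_left, mul_inv_cancel_left]
        rw [h2]
        exact h1
    obtain ⟨c, hc1, hc2⟩ := cfix hp (zpowers z) N hB (hNdvd N hNR) (nz_zp z N hzNN) (r : Γ) (by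
      intro b hb
      obtain ⟨m, hm⟩ := (isOfFinOrder_of_finite z).mem_powers_iff_mem_zpowers.2 hb
      have hm' : z ^ m = b := hm
      subst hm'
      exact hall m)
    have hcR : c ∈ R := by
      have h1 := mul_mem hr (hNR hc1)
      rwa [mul_inv_cancel_left] at h1
    have hcZ : c ∈ Z := (hZ c).2 ⟨hcR, hc2 z (mem_zpowers z)⟩
    have hcN : c ∈ N := hNof c hcR ⟨θ c, scZ c hcZ⟩
    have hrN : (r : Γ) ∈ N := by
      have h1 := mul_mem hcN (inv_mem hc1)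
      rwa [show c * ((r : Γ)⁻¹ * c)⁻¹ = r by group] at h1
    obtain ⟨-, e, -, he⟩ := hrN
    exact toSc r e he

end Pool.Agent.Work.MP_b44cb1_al.HH
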