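import Pool.Agent.Work.MP_b44cb1_al.HH.Cop

/-!
# HH/MC (size M) : the minimal choice

`T` acts on the `q`-group `R₀`, `M` is a `p`-subgroup (`p ≠ q`) normalised by `T`, `M ≤ T`, and `M`
does not centralise `R₀`. Choose `R ≤ R₀` of minimal order with `Nz T R` and not centralised by `M`.
Put `Z = R ⊓ centralizer M`.
* (min) every `R' ≤ R` with `Nz T R'`, `R' ≠ R` is centralised by `M`: minimality.
* `⁅R, R⁆` is `T`-invariant and `≠ R` (`comm_ne`; `R ≠ ⊥` as it is not centralised by `M`), so it is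
  `≤ Z`.
* `⁅R, M⁆` is `T`-invariant (`nz_comm`; `M` is normalised by `T`); if it is `≠ R`, it is centralised
  by `M`, so `⁅⁅R, M⁆, M⁆ = ⊥` and by `ccomm` `⁅R, M⁆ = ⊥`, contradiction. So `⁅R, M⁆ = R`.
* `⁅⁅M, Z⁆, R⁆ = ⊥` as `⁅M, Z⁆ = ⊥`; `⁅⁅Z, R⁆, M⁆ = ⊥` as `⁅Z, R⁆ ≤ ⁅R, R⁆ ≤ Z`; by the three
  subgroups lemma (`Subgroup.commutator_commutator_eq_bot_of_rotate`) `⁅⁅R, M⁆, Z⁆ = ⊥`, i.e.
  `⁅R, Z⁆ = ⊥`.
-/

set_option autoImplicit false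
set_option linter.style.haveILetI false

namespace Pool.Agent.Work.MP_b44cb1_al.HH

open Subgroup
open scoped commutatorElement

theorem mc {G : Type*} [Group G] [Finite G] {p q : ℕ} (hp : p.Prime) (hq : q.Prime) (hpq : q ≠ p)
    (T M R₀ : Subgroup G) (hMT : M ≤ T) (hM : IsPGroup p M) (hTM : Nz T M) (hR₀ : IsPGroup q R₀)
    (hTR : Nz T R₀) (hne : ¬ ∀ m ∈ M, ∀ x ∈ R₀, m * x = x * m) :
    ∃ R Z : Subgroup G, R ≤ R₀ ∧ Nz T R ∧ Z ≤ R ∧ Nz T Z ∧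
      (¬ ∀ m ∈ M, ∀ x ∈ R, m * x = x * m) ∧
      (∀ x, x ∈ Z ↔ x ∈ R ∧ ∀ m ∈ M, m * x = x * m) ∧
      (∀ R' ≤ R, Nz T R' → R' ≠ R → R' ≤ Z) ∧ ⁅R, R⁆ ≤ Z ∧
      (∀ z ∈ Z, ∀ x ∈ R, z * x = x * z) := by
  obtain ⟨R, ⟨hRR₀, hTRn, hRne⟩, hmin⟩ := WellFounded.has_min
    (wellFounded_lt : WellFounded ((· < ·) : Subgroup G → Subgroup G → Prop))
    {R : Subgroup G | R ≤ R₀ ∧ Nz T R ∧ ¬ ∀ m ∈ M, ∀ x ∈ R, m * x = x * m}
    ⟨R₀, le_rfl, hTR, hne⟩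
  let Z : Subgroup G := R ⊓ Subgroup.centralizer (M : Set G)
  have hZ : ∀ x, x ∈ Z ↔ x ∈ R ∧ ∀ m ∈ M, m * x = x * m := by
    intro x
    rw [Subgroup.mem_inf, Subgroup.mem_centralizer_iff]
    rfl
  have hZR : Z ≤ R := inf_le_left
  have hZM : ∀ m ∈ M, ∀ x ∈ Z, m * x = x * m := fun m hm x hx => ((hZ x).1 hx).2 m hm
  have hTZ : Nz T Z := by
    intro t ht x hx
    obtain ⟨hx1, hx2⟩ := (hZ x).1 hx
    refine (hZ _).2 ⟨hTRn t ht x hx1, fun m hm => ?_⟩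
    have h1 : t⁻¹ * m * t ∈ M := by
      have := hTM t⁻¹ (inv_mem ht) m hm
      rwa [inv_inv] at this
    have h2 := hx2 _ h1
    calc m * (t * x * t⁻¹) = t * ((t⁻¹ * m * t) * x) * t⁻¹ := by group
      _ = t * (x * (t⁻¹ * m * t)) * t⁻¹ := by rw [h2]
      _ = t * x * t⁻¹ * m := by group
  have hminZ : ∀ R' ≤ R, Nz T R' → R' ≠ R → R' ≤ Z := by
    intro R' hR' hT' hne'
    have h1 : ∀ m ∈ M, ∀ x ∈ R', m * x = x * m := by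
      by_contra hcon
      exact hmin R' ⟨hR'.trans hRR₀, hT', hcon⟩ (lt_of_le_of_ne hR' hne')
    intro x hx
    exact (hZ x).2 ⟨hR' hx, fun m hm => h1 m hm x hx⟩
  have hRq : IsPGroup q R := hR₀.to_le hRR₀
  have hR0 : R ≠ ⊥ := by
    rintro h
    apply hRne
    intro m _ x hx
    rw [h, Subgroup.mem_bot] at hx
    rw [hx, mul_one, one_mul]
  have hRRZ : ⁅R, R⁆ ≤ Z :=
    hminZ _ (comm_le_left (nz_self R)) (nz_comm hTRn hTRn) (comm_ne hq R hRq hR0)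
  have hnM : Nz M R := hTRn.mono hMT
  have hpR : ¬ p ∣ Nat.card R := cq_not_dvd hp hq hpq R hRq
  have hRM : ⁅R, M⁆ = R := by
    by_contra hcon
    have h1 : ⁅R, M⁆ ≤ Z := hminZ _ (comm_le_left hnM) (nz_comm hTRn hTM) hcon
    have h2 : ⁅⁅R, M⁆, M⁆ = ⊥ := (comm_bot_iff _ _).2 (fun m hm r hr => hZM m hm r (h1 hr))
    rw [ccomm hp R M hM hpR hnM] at h2
    exact hRne ((comm_bot_iff _ _).1 h2)
  have hZR' : ⁅Z, R⁆ ≤ Z := (commutator_mono hZR le_rfl).trans hRRZ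
  have h3 : ⁅⁅M, Z⁆, R⁆ = ⊥ := by
    have h4 : ⁅M, Z⁆ = ⊥ := by
      rw [commutator_comm]
      exact (comm_bot_iff _ _).2 (fun m hm r hr => hZM m hm r hr)
    rw [h4]
    exact commutator_bot_left _
  have h5 : ⁅⁅Z, R⁆, M⁆ = ⊥ := (comm_bot_iff _ _).2 (fun m hm r hr => hZM m hm r (hZR' hr))
  have h6 := commutator_commutator_eq_bot_of_rotate h3 h5
  rw [hRM] at h6
  exact ⟨R, Z, hRR₀, hTRn, hZR, hTZ, hRne, hZ, hminZ, hRRZ, (comm_bot_iff _ _).1 h6⟩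

end Pool.Agent.Work.MP_b44cb1_al.HH
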