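import Pool.Agent.Work.MP_b44cb1_al.HH.QuadB
import Pool.Agent.Work.MP_b44cb1_al.HH.HBA
import Pool.Agent.Work.MP_b44cb1_al.HH.MC

/-!
# HH/HBB (size M) : Theorem HB, nonabelian case

`z = y^(p^k)`. Suppose `(ρ y - 1)^(2 p^k - 1) = 0`. Then `(ρ z - 1)² = (ρ y - 1)^(2 p^k) = 0`
(`geo_pow`), so `(ρ z - 1)^(p-1) = 0` as `p ≥ 3`.
`U = {v | ∀ a ∈ Z, ρ a v = θ a • v}` (given by `v₀ ≠ 0`, `θ`), `L = {h | h Z h⁻¹ = Z and
θ (h⁻¹ a h) = θ a for all a ∈ Z}`, a subgroup leaving `U` invariant (`ρ a ρ h v = ρ h ρ (h⁻¹ a h) v`),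
containing `R` and `z` (both centralise `Z`). `hbA` gives `QH` for `σ = resRep ρ U L _`; there is a
nonscalar element in `R`: otherwise all `σ ⁅r₁, r₂⁆ = 1`, but `θ ⁅r₁, r₂⁆ ≠ 1` for the given `r₁, r₂`.
`quadB` gives `p = 3` and that all nonscalar classes of `R` are `z^j r z^{-j}`.
(4) If `y^i ∈ L` (`i : ℤ` or `ℕ`) then `p^k ∣ i`: let `u = y^i`; `u` commutes with `z` and normalises `R`.
  Fix a nonscalar `r ∈ R`; `u r u⁻¹` is nonscalar (conjugation by `σ u`), so `u r u⁻¹ ~ z^j r z^{-j}` for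
  some `j`. Any nonscalar `r' ∈ R` is `~ z^i' r z^{-i'}`, so `u r' u⁻¹ ~ z^j r' z^{-j}`. So
  `t = z^{-j} u` satisfies `t r' t⁻¹ ~ r'` for all `r' ∈ R`, and so does `t³ = z^{-3j} u³ = u³` (`z³ = 1`).
  Let `S = {h ∈ L | h R h⁻¹ = R, h r' h⁻¹ ~ r' for all r' ∈ R}`, a subgroup of `Γ` with `z ∉ S` (`fpf`,
  `r` nonscalar) and `y^(3i) ∈ S`. By `cyc`: `3^(k+1) ∣ 3 i`, so `3^k ∣ i`.
(5) `σ z ≠ 1` (else `σ ⁅z, r⁆ = 1` and `r` would be scalar, `fpf`), so there is `v ∈ U` with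
  `x = (ρ z - 1) v ≠ 0`, `x ∈ U`. `(ρ y - 1)^(2 p^k - 1) v = (ρ y - 1)^(p^k - 1) (ρ z - 1) v
  = ∑_{i < p^k} ρ (y^i) x` (`geo_sum`, `geo_pow`; everything commutes). The vector `ρ (y^i) x` has weight
  `a ↦ θ (y^{-i} a y^i)` under `Z` (`Z` is `y`-invariant). These weights are distinct for
  `0 ≤ i < p^k`: if those of `i < j` agree then `y^(j-i) ∈ L`, so `p^k ∣ j - i` by (4). So by `weight_li`
  the sum is not `0`: contradiction.
-/

set_option autoImplicit false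

namespace Pool.Agent.Work.MP_b44cb1_al.HH

open Subgroup
open scoped commutatorElement

private theorem zp_conj {G : Type*} [Group G] [Finite G] (y : G) (N : Subgroup G)
    (h : ∀ x ∈ N, y * x * y⁻¹ ∈ N) (n : ℤ) : ∀ b ∈ N, y ^ n * b * (y ^ n)⁻¹ ∈ N := by
  have hnat : ∀ n : ℕ, ∀ b ∈ N, y ^ n * b * (y ^ n)⁻¹ ∈ N := by
    intro n
    induction n with
    | zero => intro b hb; simpa using hb
    | succ n ih =>
      intro b hb
      have h1 := h _ (ih b hb)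
      rwa [show y * (y ^ n * b * (y ^ n)⁻¹) * y⁻¹ = y ^ (n + 1) * b * (y ^ (n + 1))⁻¹ by
        rw [pow_succ' y n, mul_inv_rev]; simp only [mul_assoc]] at h1
  intro b hb
  obtain ⟨m, hm⟩ := (isOfFinOrder_of_finite y).mem_powers_iff_mem_zpowers.2
    (Subgroup.zpow_mem_zpowers y n)
  have hm' : y ^ m = y ^ n := hm
  rw [← hm']
  exact hnat m b hb

private theorem zp_conj' {G : Type*} [Group G] [Finite G] (y : G) (N : Subgroup G)
    (h : ∀ x ∈ N, y * x * y⁻¹ ∈ N) (n : ℤ) : ∀ b ∈ N, (y ^ n)⁻¹ * b * y ^ n ∈ N := by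
  intro b hb
  have h1 := zp_conj y N h (-n) b hb
  rwa [zpow_neg, inv_inv] at h1

/-- the stabiliser of the weight `θ` of `Z` -/
private def stab {F Γ : Type*} [Group Γ] (Z : Subgroup Γ) (θ : Γ → F) : Subgroup Γ where
  carrier := {h | (∀ b ∈ Z, h⁻¹ * b * h ∈ Z) ∧ (∀ b ∈ Z, h * b * h⁻¹ ∈ Z) ∧
    ∀ b ∈ Z, θ (h⁻¹ * b * h) = θ b}
  one_mem' := by
    refine ⟨?_, ?_, ?_⟩
    · intro b hb; simpa using hb
    · intro b hb; simpa using hb
    · intro b hb; simp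
  mul_mem' := by
    rintro h h' ⟨h1, h2, h3⟩ ⟨h4, h5, h6⟩
    refine ⟨?_, ?_, ?_⟩
    · intro b hb
      have := h4 _ (h1 b hb)
      rwa [show (h * h')⁻¹ * b * (h * h') = h'⁻¹ * (h⁻¹ * b * h) * h' by group]
    · intro b hb
      have := h2 _ (h5 b hb)
      rwa [show h * h' * b * (h * h')⁻¹ = h * (h' * b * h'⁻¹) * h⁻¹ by group]
    · intro b hb
      rw [show (h * h')⁻¹ * b * (h * h') = h'⁻¹ * (h⁻¹ * b * h) * h' by group,
        h6 _ (h1 b hb), h3 b hb]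
  inv_mem' := by
    rintro h ⟨h1, h2, h3⟩
    refine ⟨?_, ?_, ?_⟩
    · intro b hb
      rw [inv_inv]
      exact h2 b hb
    · intro b hb
      rw [inv_inv]
      exact h1 b hb
    · intro b hb
      have := h3 _ (h2 b hb)
      rw [show h⁻¹ * (h * b * h⁻¹) * h = b by group] at this
      rw [inv_inv, this]

/-- the elements `h` which fix all classes of `R` modulo scalars -/
private def fixc {F E Γ : Type*} [Field F] [Ring E] [Nontrivial E] [Algebra F E] [Group Γ]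
    (σ : Γ →* E) (R : Subgroup Γ) : Subgroup Γ where
  carrier := {h | (∀ r ∈ R, h * r * h⁻¹ ∈ R) ∧ (∀ r ∈ R, h⁻¹ * r * h ∈ R) ∧
    ∀ r ∈ R, Sc F (σ (r⁻¹ * (h * r * h⁻¹)))}
  one_mem' := by
    refine ⟨?_, ?_, ?_⟩
    · intro b hb; simpa using hb
    · intro b hb; simpa using hb
    · intro b hb
      refine ⟨1, ?_⟩
      rw [one_mul, inv_one, mul_one, inv_mul_cancel, map_one, map_one]
  mul_mem' := by
    rintro h h' ⟨h1, h2, h3⟩ ⟨h4, h5, h6⟩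
    refine ⟨?_, ?_, ?_⟩
    · intro b hb
      have := h1 _ (h4 b hb)
      rwa [show h * h' * b * (h * h')⁻¹ = h * (h' * b * h'⁻¹) * h⁻¹ by group]
    · intro b hb
      have := h5 _ (h2 b hb)
      rwa [show (h * h')⁻¹ * b * (h * h') = h'⁻¹ * (h⁻¹ * b * h) * h' by group]
    · intro b hb
      have k1 := sc_mul σ (h6 b hb) (h3 _ (h4 b hb))
      rwa [show b⁻¹ * (h' * b * h'⁻¹) * ((h' * b * h'⁻¹)⁻¹ * (h * (h' * b * h'⁻¹) * h⁻¹))
        = b⁻¹ * (h * h' * b * (h * h')⁻¹) by group] at k1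
  inv_mem' := by
    rintro h ⟨h1, h2, h3⟩
    refine ⟨?_, ?_, ?_⟩
    · intro b hb
      rw [inv_inv]
      exact h2 b hb
    · intro b hb
      rw [inv_inv]
      exact h1 b hb
    · intro b hb
      have k1 := sc_inv σ (h3 _ (h2 b hb))
      rwa [show ((h⁻¹ * b * h)⁻¹ * (h * (h⁻¹ * b * h) * h⁻¹))⁻¹ = b⁻¹ * (h⁻¹ * b * h⁻¹⁻¹) by
        group] at k1

theorem hbB {F V Γ : Type*} [Field F] [IsAlgClosed F] [AddCommGroup V] [Module F V]
    [FiniteDimensional F V] [Group Γ] [Finite Γ] {p q : ℕ} (hp : p.Prime) (hp2 : p ≠ 2)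
    (hq : q.Prime) (hpq : q ≠ p) [CharP F p] (ρ : Γ →* (V →ₗ[F] V)) (k : ℕ) (R Z : Subgroup Γ)
    (hR : IsPGroup q R) (y : Γ) (hy : y ^ p ^ (k + 1) = 1) (hyR : ∀ r ∈ R, y * r * y⁻¹ ∈ R)
    (hyZ : ∀ r ∈ Z, y * r * y⁻¹ ∈ Z)
    (hZ : ∀ x, x ∈ Z ↔ x ∈ R ∧ y ^ p ^ k * x = x * y ^ p ^ k)
    (hZc : ∀ x ∈ Z, ∀ r ∈ R, x * r = r * x) (hRZ : ⁅R, R⁆ ≤ Z) (θ : Γ → F) (v₀ : V)
    (hv₀ : v₀ ≠ 0) (hθ : ∀ a ∈ Z, ρ a v₀ = θ a • v₀)
    (hne : ∃ r₁ ∈ R, ∃ r₂ ∈ R, θ ⁅r₁, r₂⁆ ≠ 1) : (ρ y - 1) ^ (2 * p ^ k - 1) ≠ 0 := by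
  intro hcon
  have hpk : 0 < p ^ k := pow_pos hp.pos k
  obtain ⟨z, hzdef⟩ : ∃ z, z = y ^ p ^ k := ⟨_, rfl⟩
  have hgp : (ρ y - 1) ^ p ^ k = ρ z - 1 := by
    rw [geo_pow hp (F := F) (ρ y) k, hzdef, map_pow]
  have hz2 : (ρ z - 1) * (ρ z - 1) = 0 := by
    rw [← hgp, ← pow_add, show p ^ k + p ^ k = (2 * p ^ k - 1) + 1 by omega, pow_succ, hcon, zero_mul]
  have hzp : z ^ p = 1 := by
    rw [hzdef, ← pow_mul, ← pow_succ]
    exact hy
  have hnil : (ρ z - 1) ^ (p - 1) = 0 := by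
    have h3 : 3 ≤ p := by
      have := hp.two_le
      omega
    obtain ⟨m, hm⟩ : ∃ m, p - 1 = 2 + m := ⟨p - 3, by omega⟩
    rw [hm, pow_add, pow_two, hz2, zero_mul]
  have hzR : ∀ r ∈ R, z * r * z⁻¹ ∈ R := by
    intro r hr
    have h1 := zp_conj y R hyR ((p ^ k : ℕ) : ℤ) r hr
    rwa [zpow_natCast, ← hzdef] at h1
  rw [← hzdef] at hZ
  let U : Submodule F V :=
    { carrier := {v | ∀ a ∈ Z, ρ a v = θ a • v}
      add_mem' := by
        intro a b ha hb c hc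
        rw [map_add, ha c hc, hb c hc, smul_add]
      zero_mem' := by
        intro c hc
        rw [map_zero, smul_zero]
      smul_mem' := by
        intro c v hv a ha
        rw [map_smul, hv a ha, smul_comm] }
  have hU : ∀ v, v ∈ U ↔ ∀ a ∈ Z, ρ a v = θ a • v := fun v => Iff.rfl
  have hU0 : U ≠ ⊥ := by
    rw [Submodule.ne_bot_iff]
    exact ⟨v₀, hθ, hv₀⟩
  have hmul : ∀ (x y : Γ) (v : V), ρ (x * y) v = ρ x (ρ y v) := by
    intro x y v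
    rw [map_mul, Module.End.mul_apply]
  have hL : ∀ h ∈ stab Z θ, ∀ v ∈ U, ρ h v ∈ U := by
    rintro h ⟨h1, h2, h3⟩ v hv a ha
    rw [← hmul, show a * h = h * (h⁻¹ * a * h) by group, hmul, hv _ (h1 a ha), map_smul, h3 a ha]
  have hRL : R ≤ stab Z θ := by
    intro r hr
    refine ⟨?_, ?_, ?_⟩
    · intro b hb
      rw [mul_assoc, hZc b hb r hr, inv_mul_cancel_left]
      exact hb
    · intro b hb
      rw [← hZc b hb r hr, mul_inv_cancel_right]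
      exact hb
    · intro b hb
      rw [mul_assoc, hZc b hb r hr, inv_mul_cancel_left]
  have hzL : z ∈ stab Z θ := by
    refine ⟨?_, ?_, ?_⟩
    · intro b hb
      rw [mul_assoc, ← ((hZ b).1 hb).2, inv_mul_cancel_left]
      exact hb
    · intro b hb
      rw [((hZ b).1 hb).2, mul_inv_cancel_right]
      exact hb
    · intro b hb
      rw [mul_assoc, ← ((hZ b).1 hb).2, inv_mul_cancel_left]
  have Q := hbA hp hq hpq ρ R Z hR z hzp hzR hnil hZ hZc hRZ θ U hU hU0 (stab Z θ) hL hRL hzL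
  obtain ⟨L, hLdef⟩ : ∃ L, L = stab Z θ := ⟨_, rfl⟩
  have hLmem : ∀ h, h ∈ L ↔ ((∀ b ∈ Z, h⁻¹ * b * h ∈ Z) ∧ (∀ b ∈ Z, h * b * h⁻¹ ∈ Z) ∧
    ∀ b ∈ Z, θ (h⁻¹ * b * h) = θ b) := by
    intro h
    rw [hLdef]
    exact Iff.rfl
  subst hLdef
  obtain ⟨σ, hσ⟩ : ∃ σ, σ = resRep ρ U (stab Z θ) hL := ⟨_, rfl⟩
  rw [← hσ] at Q
  have hσa : ∀ (h : stab Z θ) (v : U), ((σ h v : U) : V) = ρ h v := by
    intro h v
    rw [hσ]
    exact resRep_apply ρ U _ hL h v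
  have hUn : Nontrivial U := Submodule.nontrivial_iff_ne_bot.2 hU0
  obtain ⟨zL, hzLdef⟩ : ∃ zL : stab Z θ, zL = ⟨z, hzL⟩ := ⟨_, rfl⟩
  have hzLv : (zL : Γ) = z := by rw [hzLdef]
  rw [← hzLdef] at Q
  have hquad : (σ zL - 1) * (σ zL - 1) = 0 := by
    have key : ∀ v : U, (((σ zL - 1) v : U) : V) = (ρ z - 1) (v : V) := by
      intro v
      rw [LinearMap.sub_apply, LinearMap.sub_apply, Submodule.coe_sub, hσa, hzLv]
      rfl
    ext v
    rw [Module.End.mul_apply, key, key]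
    have h1 := congrArg (fun f : V →ₗ[F] V => f (v : V)) hz2
    exact h1
  have h2F : (2 : F) ≠ 0 := by
    intro h
    have h1 : ((2 : ℕ) : F) = 0 := by exact_mod_cast h
    rw [CharP.cast_eq_zero_iff F p] at h1
    exact hp2 ((Nat.prime_dvd_prime_iff_eq hp Nat.prime_two).1 h1)
  obtain ⟨r₁, hr₁, r₂, hr₂, hθne⟩ := hne
  have hns : ∃ r ∈ R.subgroupOf (stab Z θ), ¬ Sc F (σ r) := by
    refine ⟨⟨r₁, hRL hr₁⟩, hr₁, ?_⟩
    intro hsc
    apply hθne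
    have h1 : σ ⁅(⟨r₁, hRL hr₁⟩ : stab Z θ), ⟨r₂, hRL hr₂⟩⁆ = 1 := by
      rw [commutatorElement_def, show (⟨r₁, hRL hr₁⟩ : stab Z θ) * ⟨r₂, hRL hr₂⟩
        * (⟨r₁, hRL hr₁⟩ : stab Z θ)⁻¹ * (⟨r₂, hRL hr₂⟩ : stab Z θ)⁻¹
        = ⟨r₁, hRL hr₁⟩ * (⟨r₂, hRL hr₂⟩ * (⟨r₁, hRL hr₁⟩ : stab Z θ)⁻¹
          * (⟨r₂, hRL hr₂⟩ : stab Z θ)⁻¹) by group, map_mul,
        sc_conj σ _ (sc_inv σ hsc), ← map_mul, mul_inv_cancel, map_one]
    have h2 := hσa ⁅(⟨r₁, hRL hr₁⟩ : stab Z θ), ⟨r₂, hRL hr₂⟩⁆ ⟨v₀, hθ⟩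
    rw [h1] at h2
    have h3 : ⁅r₁, r₂⁆ ∈ Z := hRZ (commutator_mem_commutator hr₁ hr₂)
    have h4 : v₀ = θ ⁅r₁, r₂⁆ • v₀ := by
      rw [← hθ _ h3]
      exact h2
    have h5 : (θ ⁅r₁, r₂⁆ - 1) • v₀ = 0 := by
      rw [sub_smul, ← h4, one_smul, sub_self]
    exact sub_eq_zero.1 ((smul_eq_zero.1 h5).resolve_right hv₀)
  obtain ⟨hp3, hcl⟩ := quadB h2F σ (R.subgroupOf (stab Z θ)) zL hp hp2 Q hquad hns
  obtain ⟨r, hr, hrn⟩ := hns
  -- the relation modulo scalars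
  have sym : ∀ x y : stab Z θ, Sc F (σ (x⁻¹ * y)) → Sc F (σ (y⁻¹ * x)) := by
    intro x y h
    have h1 := sc_inv σ h
    rwa [show (x⁻¹ * y)⁻¹ = y⁻¹ * x by group] at h1
  have trans' : ∀ x y w : stab Z θ, Sc F (σ (x⁻¹ * y)) → Sc F (σ (y⁻¹ * w)) →
      Sc F (σ (x⁻¹ * w)) := by
    intro x y w h h'
    have h1 := sc_mul σ h h'
    rwa [show x⁻¹ * y * (y⁻¹ * w) = x⁻¹ * w by group] at h1
  have conjh : ∀ h x y : stab Z θ, Sc F (σ (x⁻¹ * y)) →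
      Sc F (σ ((h * x * h⁻¹)⁻¹ * (h * y * h⁻¹))) := by
    intro h x y hxy
    have h1 := sc_conj σ h hxy
    rw [show h * (x⁻¹ * y) * h⁻¹ = (h * x * h⁻¹)⁻¹ * (h * y * h⁻¹) by group] at h1
    rw [h1]
    exact hxy
  have nonscc : ∀ h x : stab Z θ, ¬ Sc F (σ x) → ¬ Sc F (σ (h * x * h⁻¹)) := by
    intro h x hx h'
    apply hx
    have h1 := sc_conj σ h⁻¹ h'
    rw [show h⁻¹ * (h * x * h⁻¹) * h⁻¹⁻¹ = x by group] at h1
    rw [h1]
    exact h'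
  -- (4)
  have claim4 : ∀ i : ℤ, y ^ i ∈ stab Z θ → ((p ^ k : ℕ) : ℤ) ∣ i := by
    intro i hi
    obtain ⟨u, hudef⟩ : ∃ u : stab Z θ, u = ⟨y ^ i, hi⟩ := ⟨_, rfl⟩
    have huv : (u : Γ) = y ^ i := by rw [hudef]
    have huz : u * zL = zL * u := by
      apply Subtype.ext
      rw [Subgroup.coe_mul, Subgroup.coe_mul, huv, hzLv, hzdef, ← zpow_natCast, ← zpow_add,
        ← zpow_add, add_comm]
    have huR : ∀ x : stab Z θ, x ∈ R.subgroupOf (stab Z θ) →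
        u * x * u⁻¹ ∈ R.subgroupOf (stab Z θ) := by
      intro x hx
      have h1 := zp_conj y R hyR i (x : Γ) hx
      rw [← huv] at h1
      exact h1
    have huR' : ∀ x : stab Z θ, x ∈ R.subgroupOf (stab Z θ) →
        u⁻¹ * x * u ∈ R.subgroupOf (stab Z θ) := by
      intro x hx
      have h1 := zp_conj' y R hyR i (x : Γ) hx
      rw [← huv] at h1
      exact h1
    have hzLR : ∀ x : stab Z θ, x ∈ R.subgroupOf (stab Z θ) →
        zL * x * zL⁻¹ ∈ R.subgroupOf (stab Z θ) := Q.zR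
    obtain ⟨j, hj⟩ := hcl r hr (u * r * u⁻¹) (huR r hr) hrn (nonscc u r hrn)
    have hcz : ∀ n : ℕ, u * zL ^ n = zL ^ n * u := fun n => (Commute.pow_right huz n)
    -- all classes
    have hall : ∀ r' ∈ R.subgroupOf (stab Z θ), ¬ Sc F (σ r') →
        Sc F (σ ((u * r' * u⁻¹)⁻¹ * (zL ^ j * r' * (zL ^ j)⁻¹))) := by
      intro r' hr' hrn'
      obtain ⟨i', hi'⟩ := hcl r hr r' hr' hrn hrn'
      have h1 := conjh u _ _ hi'
      have h2 := conjh (zL ^ i') _ _ hj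
      have h3 := sym _ _ (conjh (zL ^ j) _ _ hi')
      have e1 : u * (zL ^ i' * r * (zL ^ i')⁻¹) * u⁻¹ = zL ^ i' * (u * r * u⁻¹) * (zL ^ i')⁻¹ := by
        have h4 : u * zL ^ i' = zL ^ i' * u := hcz i'
        have h5 : (zL ^ i')⁻¹ * u⁻¹ = u⁻¹ * (zL ^ i')⁻¹ := by
          rw [← mul_inv_rev, ← mul_inv_rev, h4]
        calc u * (zL ^ i' * r * (zL ^ i')⁻¹) * u⁻¹ = (u * zL ^ i') * r * ((zL ^ i')⁻¹ * u⁻¹) := by
              simp only [mul_assoc]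
          _ = _ := by rw [h4, h5]; simp only [mul_assoc]
      have e2 : zL ^ j * (zL ^ i' * r * (zL ^ i')⁻¹) * (zL ^ j)⁻¹
          = zL ^ i' * (zL ^ j * r * (zL ^ j)⁻¹) * (zL ^ i')⁻¹ := by
        have h4 : zL ^ j * zL ^ i' = zL ^ i' * zL ^ j := by rw [← pow_add, ← pow_add, add_comm]
        have h5 : (zL ^ i')⁻¹ * (zL ^ j)⁻¹ = (zL ^ j)⁻¹ * (zL ^ i')⁻¹ := by
          rw [← mul_inv_rev, ← mul_inv_rev, h4]
        calc zL ^ j * (zL ^ i' * r * (zL ^ i')⁻¹) * (zL ^ j)⁻¹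
            = (zL ^ j * zL ^ i') * r * ((zL ^ i')⁻¹ * (zL ^ j)⁻¹) := by simp only [mul_assoc]
          _ = _ := by rw [h4, h5]; simp only [mul_assoc]
      rw [e1] at h1
      rw [e2] at h3
      exact trans' _ _ _ h1 (trans' _ _ _ h2 h3)
    -- `t = z^{-j} u`
    obtain ⟨t, ht⟩ : ∃ t : stab Z θ, t = (zL ^ j)⁻¹ * u := ⟨_, rfl⟩
    have htT : t ∈ fixc (F := F) σ (R.subgroupOf (stab Z θ)) := by
      have hzjR : ∀ n : ℤ, ∀ x ∈ R.subgroupOf (stab Z θ),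
          zL ^ n * x * (zL ^ n)⁻¹ ∈ R.subgroupOf (stab Z θ) := fun n x hx =>
        zp_conj zL (R.subgroupOf (stab Z θ)) hzLR n x hx
      refine ⟨?_, ?_, ?_⟩
      · intro x hx
        have h1 := hzjR (-(j : ℤ)) _ (huR x hx)
        rwa [zpow_neg, zpow_natCast, inv_inv, show (zL ^ j)⁻¹ * (u * x * u⁻¹) * zL ^ j
          = t * x * t⁻¹ by rw [ht]; group] at h1
      · intro x hx
        have h1 := huR' _ (hzjR (j : ℤ) x hx)
        rwa [zpow_natCast, show u⁻¹ * (zL ^ j * x * (zL ^ j)⁻¹) * u = t⁻¹ * x * t by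
          rw [ht]; group] at h1
      · intro x hx
        by_cases hxs : Sc F (σ x)
        · have h1 := sc_conj σ t hxs
          rw [map_mul, h1]
          obtain ⟨c, hc⟩ := sc_inv σ hxs
          obtain ⟨d, hd⟩ := hxs
          exact ⟨c * d, by rw [hc, hd, map_mul]⟩
        · have h1 := conjh (zL ^ j)⁻¹ _ _ (sym _ _ (hall x hx hxs))
          rwa [show (zL ^ j)⁻¹ * (zL ^ j * x * (zL ^ j)⁻¹) * (zL ^ j)⁻¹⁻¹ = x by group,
            show (zL ^ j)⁻¹ * (u * x * u⁻¹) * (zL ^ j)⁻¹⁻¹ = t * x * t⁻¹ by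
              rw [ht]; group] at h1
    have ht3 : t ^ 3 = u ^ 3 := by
      have h1 : Commute (zL ^ j)⁻¹ u := (Commute.inv_left (hcz j).symm)
      rw [ht, h1.mul_pow, inv_pow, ← pow_mul, mul_comm j 3, pow_mul]
      have h2 : zL ^ 3 = 1 := by
        rw [← hp3]
        exact Q.zp
      rw [h2, one_pow, inv_one, one_mul]
    have hzT : zL ∉ fixc (F := F) σ (R.subgroupOf (stab Z θ)) := by
      rintro ⟨-, -, h3⟩
      exact (z_ne σ _ zL hp hp2 Q r hr hrn).1 (h3 r hr)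
    have h1 := cyc hp k ((fixc (F := F) σ (R.subgroupOf (stab Z θ))).map (stab Z θ).subtype) y hy
      (by
        rw [← hzdef]
        rintro ⟨w, hw, hwz⟩
        apply hzT
        have h2 : w = zL := by
          apply Subtype.ext
          rw [hzLv]
          exact hwz
        rwa [← h2]) (i * 3) (by
        refine ⟨t ^ 3, pow_mem htT 3, ?_⟩
        rw [ht3]
        show ((u ^ 3 : stab Z θ) : Γ) = y ^ (i * 3)
        rw [Subgroup.coe_pow, huv, zpow_mul]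
        exact (zpow_natCast (y ^ i) 3).symm)
    rw [hp3] at h1 ⊢
    push_cast at h1 ⊢
    rw [pow_succ] at h1
    exact Int.dvd_of_mul_dvd_mul_right (by norm_num) h1
  -- (5)
  have hσz : σ zL ≠ 1 := by
    intro h
    apply hrn
    apply Q.fpf r hr
    refine ⟨1, ?_⟩
    have h1 : σ zL⁻¹ = 1 := by
      have h2 : σ zL * σ zL⁻¹ = 1 := by rw [← map_mul, mul_inv_cancel, map_one]
      rwa [h, one_mul] at h2
    rw [commutatorElement_def, map_mul, map_mul, map_mul, h, h1, one_mul, mul_one, ← map_mul,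
      mul_inv_cancel, map_one, map_one]
  obtain ⟨v, hv, hvx⟩ : ∃ v ∈ U, ρ z v - v ≠ 0 := by
    by_contra hall
    push Not at hall
    apply hσz
    ext v
    rw [hσa, hzLv]
    exact sub_eq_zero.1 (hall v v.2)
  obtain ⟨x, hxdef⟩ : ∃ x, x = ρ z v - v := ⟨_, rfl⟩
  have hxU : x ∈ U := by
    rw [hxdef]
    exact Submodule.sub_mem _ (hL z hzL v hv) hv
  have hsum : ∑ i ∈ Finset.range (p ^ k), ((ρ y) ^ i) x = 0 := by
    have h1 : ((ρ y - 1) ^ (2 * p ^ k - 1)) v = 0 := by rw [hcon, LinearMap.zero_apply]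
    rw [show 2 * p ^ k - 1 = (p ^ k - 1) + p ^ k by omega, pow_add, hgp,
      geo_sum hp (F := F) (ρ y) k, Module.End.mul_apply, LinearMap.sub_apply, Module.End.one_apply, ← hxdef,
      LinearMap.sum_apply] at h1
    exact h1
  have hw := weight_li (fun b : Z => ρ (b : Γ)) (Finset.range (p ^ k))
    (fun i => ((ρ y) ^ i) x) (fun i b => θ ((y ^ (i : ℤ))⁻¹ * (b : Γ) * y ^ (i : ℤ)))
    (by
      intro i _ b
      have h1 := zp_conj' y Z hyZ i b b.2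
      have h2 : ρ (b : Γ) (((ρ y) ^ i) x)
          = ((ρ y) ^ i) (ρ ((y ^ (i : ℤ))⁻¹ * (b : Γ) * y ^ (i : ℤ)) x) := by
        rw [← map_pow, ← Module.End.mul_apply, ← Module.End.mul_apply, ← map_mul, ← map_mul]
        congr 2
        rw [zpow_natCast]
        group
      rw [h2, hxU _ h1, map_smul])
    (by
      intro i hi j hj hij h
      apply hij
      have h1 : y ^ ((j : ℤ) - i) ∈ stab Z θ := by
        refine ⟨?_, ?_, ?_⟩
        · intro b hb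
          exact zp_conj' y Z hyZ _ b hb
        · intro b hb
          exact zp_conj y Z hyZ _ b hb
        · intro b hb
          have h2 := congrFun h ⟨y ^ (i : ℤ) * b * (y ^ (i : ℤ))⁻¹, zp_conj y Z hyZ i b hb⟩
          simp only at h2
          rw [show (y ^ (i : ℤ))⁻¹ * (y ^ (i : ℤ) * b * (y ^ (i : ℤ))⁻¹) * y ^ (i : ℤ) = b by
            group] at h2
          have e : y ^ ((j : ℤ) - i) = (y ^ (i : ℤ))⁻¹ * y ^ (j : ℤ) := by
            rw [← zpow_neg, ← zpow_add]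
            congr 1
            ring
          rw [h2, e, mul_inv_rev, inv_inv]
          congr 1
          simp only [mul_assoc]
      have h2 := claim4 _ h1
      rw [Finset.mem_range] at hi hj
      have h3 : ((i : ℤ)) < ((p ^ k : ℕ) : ℤ) := by exact_mod_cast hi
      have h4 : ((j : ℤ)) < ((p ^ k : ℕ) : ℤ) := by exact_mod_cast hj
      have h5 := Int.eq_zero_of_abs_lt_dvd h2 (abs_lt.2 ⟨by omega, by omega⟩)
      omega)
    hsum
  have h0 := hw 0 (Finset.mem_range.2 hpk)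
  simp only [pow_zero, Module.End.one_apply] at h0
  rw [hxdef] at h0
  exact hvx h0

end Pool.Agent.Work.MP_b44cb1_al.HH
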