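import Pool.Agent.Work.MP_b44cb1_al.HH.HBB
import Pool.Agent.Work.MP_b44cb1_al.HH.Base

/-!
# HH/HBC (size S-M) : Theorem HB and FO over any field

* `hb_inj` (`F` algebraically closed, `ρ` injective): let `z = y^(p^k)`. `mc` with
  `T = zpowers y`, `M = zpowers z`: `R`, `Z` (`M` does not centralise `R₀` because of `a`). If `R` is
  commutative then `fo` (`A = R`, some `a' ∈ R` with `⁅a', z⁆ ≠ 1`, so `ρ ⁅a', z⁆ ≠ 1`) gives
  `∑_{i < p^(k+1)} (ρ y)^i ≠ 0`, i.e. `(ρ y - 1)^(p^(k+1) - 1) ≠ 0` (`geo_sum`) and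
  `p^(k+1) - 1 ≥ 2 p^k - 1`. Otherwise there are `r₁, r₂ ∈ R` with `a₀ = ⁅r₁, r₂⁆ ≠ 1`, `a₀ ∈ Z`,
  `ρ a₀ ≠ 1`; `Z` is commutative; `weight_ex` gives `v₀`, `θ` with `θ a₀ ≠ 1`; apply `hbB`.
* `hb` (any field, any `ρ`): let `Φ` be the base change map of `base_ex`. The map
  `h ↦ Φ (ρ h)` factors through its range `Γ'` in the units (`MonoidHom.toHomUnits`), a finite group with
  the injective representation `Units.coeHom`; apply `hb_inj` to the images of `R₀`, `y`, `a`.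
* `fo'` : `fo` with `Φ ∘ ρ`.
-/

set_option autoImplicit false

namespace Pool.Agent.Work.MP_b44cb1_al.HH

open Subgroup
open scoped commutatorElement

private theorem nz_zpc {G : Type*} [Group G] [Finite G] (z : G) (N : Subgroup G)
    (h : ∀ x ∈ N, z * x * z⁻¹ ∈ N) : Nz (zpowers z) N := by
  have hnat : ∀ n : ℕ, ∀ b ∈ N, z ^ n * b * (z ^ n)⁻¹ ∈ N := by
    intro n
    induction n with
    | zero => intro b hb; simpa using hb
    | succ n ih =>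
      intro b hb
      have h1 := h _ (ih b hb)
      rwa [show z * (z ^ n * b * (z ^ n)⁻¹) * z⁻¹ = z ^ (n + 1) * b * (z ^ (n + 1))⁻¹ by
        rw [pow_succ' z n, mul_inv_rev]; simp only [mul_assoc]] at h1
  intro g hg d hd
  obtain ⟨m, hm⟩ := (isOfFinOrder_of_finite z).mem_powers_iff_mem_zpowers.2 hg
  have hm' : z ^ m = g := hm
  rw [← hm']
  exact hnat m d hd

private theorem q_ord {Γ : Type*} [Group Γ] {p q : ℕ} (hp : p.Prime) (hq : q.Prime)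
    (hpq : q ≠ p) (R : Subgroup Γ) (hR : IsPGroup q R) :
    ∀ a ∈ R, ∃ m : ℕ, ¬ p ∣ m ∧ a ^ m = 1 := by
  intro a ha
  obtain ⟨j, hj⟩ := hR ⟨a, ha⟩
  refine ⟨q ^ j, ?_, ?_⟩
  · intro h
    exact hpq ((Nat.prime_dvd_prime_iff_eq hp hq).1 (hp.dvd_of_dvd_pow h)).symm
  · exact congrArg Subtype.val hj

theorem hb_inj {F V Γ : Type*} [Field F] [IsAlgClosed F] [AddCommGroup V] [Module F V]
    [FiniteDimensional F V] [Group Γ] [Finite Γ] {p q : ℕ} (hp : p.Prime) (hp2 : p ≠ 2)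
    (hq : q.Prime) (hpq : q ≠ p) [CharP F p] (ρ : Γ →* (V →ₗ[F] V)) (hρ : Function.Injective ρ)
    (k : ℕ) (R₀ : Subgroup Γ) (hR₀ : IsPGroup q R₀) (y : Γ) (hy : y ^ p ^ (k + 1) = 1)
    (hyR : ∀ r ∈ R₀, y * r * y⁻¹ ∈ R₀) (a : Γ) (ha : a ∈ R₀) (hne : ⁅a, y ^ p ^ k⁆ ≠ 1) :
    (ρ y - 1) ^ (2 * p ^ k - 1) ≠ 0 := by
  have hpk : 0 < p ^ k := pow_pos hp.pos k
  have hne1 : ∀ x : Γ, x ≠ 1 → ρ x ≠ 1 := by
    intro x hx h
    apply hx
    apply hρ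
    rw [h, map_one]
  have hMT : zpowers (y ^ p ^ k) ≤ zpowers y := by
    rw [zpowers_le]
    exact pow_mem (mem_zpowers y) _
  have hM : IsPGroup p (zpowers (y ^ p ^ k)) := by
    rintro ⟨x, hx⟩
    obtain ⟨n, rfl⟩ := hx
    refine ⟨1, ?_⟩
    apply Subtype.ext
    show ((y ^ p ^ k) ^ n) ^ p ^ 1 = 1
    rw [pow_one, ← zpow_natCast ((y ^ p ^ k) ^ n), ← zpow_mul, mul_comm, zpow_mul, zpow_natCast,
      ← pow_mul, ← pow_succ, hy, one_zpow]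
  have hTM : Nz (zpowers y) (zpowers (y ^ p ^ k)) := by
    intro g hg d hd
    have h1 : g * d = d * g := by
      obtain ⟨m, rfl⟩ := hg
      obtain ⟨n, rfl⟩ := hMT hd
      show y ^ m * y ^ n = y ^ n * y ^ m
      rw [← zpow_add, ← zpow_add, add_comm]
    rw [h1, mul_inv_cancel_right]
    exact hd
  obtain ⟨R, Z, hRR₀, hTR, hZR, hTZ, hnc, hZ, -, hRZ, hZc⟩ := mc hp hq hpq (zpowers y)
    (zpowers (y ^ p ^ k)) R₀ hMT hM hTM hR₀ (nz_zpc y R₀ hyR) (by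
      intro h
      apply hne
      rw [commutatorElement_eq_one_iff_mul_comm]
      exact (h _ (mem_zpowers _) a ha).symm)
  have hRq : IsPGroup q R := hR₀.to_le hRR₀
  by_cases hcom : ∀ r₁ ∈ R, ∀ r₂ ∈ R, r₁ * r₂ = r₂ * r₁
  · -- `R` is commutative
    obtain ⟨a', ha', ha'n⟩ : ∃ a' ∈ R, ⁅a', y ^ p ^ k⁆ ≠ 1 := by
      by_contra hall
      push Not at hall
      apply hnc
      intro m hm x hx
      have h1 := hall x hx
      rw [commutatorElement_eq_one_iff_mul_comm] at h1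
      obtain ⟨n, rfl⟩ := hm
      exact ((Commute.zpow_right (show Commute x (y ^ p ^ k) from h1) n).eq).symm
    intro hcon
    have h1 := fo hp ρ R (fun a ha b hb => by rw [hcom a ha b hb]) (q_ord hp hq hpq R hRq) k y
      (fun r hr => hTR y (mem_zpowers y) r hr) hy a' ha' (hne1 _ ha'n)
    apply h1
    rw [← geo_sum hp (F := F) (ρ y) (k + 1)]
    refine pow_eq_zero_of_le ?_ hcon
    have h2 : 2 * p ^ k ≤ p ^ (k + 1) := by
      rw [pow_succ, mul_comm]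
      exact Nat.mul_le_mul_left _ hp.two_le
    omega
  · push Not at hcom
    obtain ⟨r₁, hr₁, r₂, hr₂, h12⟩ := hcom
    have ha₀ : ⁅r₁, r₂⁆ ≠ 1 := by
      intro h
      rw [commutatorElement_eq_one_iff_mul_comm] at h
      exact h12 h
    have ha₀Z : ⁅r₁, r₂⁆ ∈ Z := hRZ (commutator_mem_commutator hr₁ hr₂)
    obtain ⟨m, hpm, hm⟩ := q_ord hp hq hpq R hRq _ (hZR ha₀Z)
    have hmF : (m : F) ≠ 0 := by
      intro h
      exact hpm ((CharP.cast_eq_zero_iff F p m).1 h)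
    obtain ⟨v₀, hv₀, θ, hθ, hθ0⟩ := weight_ex ρ Z
      (fun a ha b hb => by rw [hZc a ha b (hZR hb)]) _ ha₀Z m hmF hm (hne1 _ ha₀)
    exact hbB hp hp2 hq hpq ρ k R Z hRq y hy (fun r hr => hTR y (mem_zpowers y) r hr)
      (fun r hr => hTZ y (mem_zpowers y) r hr) (by
        intro x
        rw [hZ x]
        constructor
        · rintro ⟨h1, h2⟩
          exact ⟨h1, h2 _ (mem_zpowers _)⟩
        · rintro ⟨h1, h2⟩
          refine ⟨h1, ?_⟩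
          intro m hm
          obtain ⟨n, rfl⟩ := hm
          exact (Commute.zpow_left (show Commute (y ^ p ^ k) x from h2) n).eq) hZc hRZ θ v₀ hv₀ hθ
      ⟨r₁, hr₁, r₂, hr₂, hθ0⟩

theorem hb {F V Γ : Type} [Field F] [AddCommGroup V] [Module F V]
    [FiniteDimensional F V] [Group Γ] [Finite Γ] {p q : ℕ} (hp : p.Prime) (hp2 : p ≠ 2)
    (hq : q.Prime) (hpq : q ≠ p) [CharP F p] (ρ : Γ →* (V →ₗ[F] V))
    (k : ℕ) (R₀ : Subgroup Γ) (hR₀ : IsPGroup q R₀) (y : Γ) (hy : y ^ p ^ (k + 1) = 1)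
    (hyR : ∀ r ∈ R₀, y * r * y⁻¹ ∈ R₀) (a : Γ) (ha : a ∈ R₀) (hne : ρ ⁅a, y ^ p ^ k⁆ ≠ 1) :
    (ρ y - 1) ^ (2 * p ^ k - 1) ≠ 0 := by
  obtain ⟨K, _, _, _, V', _, _, _, Φ, hΦ⟩ := base_ex (F := F) (p := p) V
  let ψ : Γ →* (V' →ₗ[K] V') := (Φ : (V →ₗ[F] V) →* (V' →ₗ[K] V')).comp ρ
  let f := ψ.toHomUnits.rangeRestrict
  have hfv : ∀ x : Γ, (((f x : ψ.toHomUnits.range) : (V' →ₗ[K] V')ˣ) : V' →ₗ[K] V') = Φ (ρ x) :=
    fun x => rfl
  let ρ' : ψ.toHomUnits.range →* (V' →ₗ[K] V') :=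
    (Units.coeHom (V' →ₗ[K] V')).comp (Subgroup.subtype _)
  have hρ' : Function.Injective ρ' := by
    intro a b hab
    apply Subtype.ext
    apply Units.ext
    exact hab
  have hρf : ∀ x : Γ, ρ' (f x) = Φ (ρ x) := hfv
  have hfin : Finite ψ.toHomUnits.range :=
    Finite.of_surjective f ψ.toHomUnits.rangeRestrict_surjective
  intro hcon
  refine hb_inj hp hp2 hq hpq ρ' hρ' k (R₀.map f) (hR₀.map f) (f y) ?_ ?_ (f a)
    (mem_map_of_mem f ha) ?_ ?_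
  · rw [← map_pow, hy, map_one]
  · rintro r ⟨x, hx, rfl⟩
    exact ⟨y * x * y⁻¹, hyR x hx, by rw [map_mul, map_mul, map_inv]⟩
  · intro h
    apply hne
    apply hΦ
    rw [← map_pow, ← map_commutatorElement] at h
    rw [← hρf, h, map_one, map_one]
  · rw [hρf, ← map_one Φ, ← map_sub, ← map_pow, hcon, map_zero]

theorem fo' {F V Γ : Type} [Field F] [AddCommGroup V] [Module F V]
    [FiniteDimensional F V] [Group Γ] {p : ℕ} (hp : p.Prime) [CharP F p]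
    (ρ : Γ →* (V →ₗ[F] V)) (A : Subgroup Γ) (hA : ∀ a ∈ A, ∀ b ∈ A, ρ (a * b) = ρ (b * a))
    (hAp : ∀ a ∈ A, ∃ m : ℕ, ¬ p ∣ m ∧ a ^ m = 1) (k : ℕ) (g : Γ)
    (hgA : ∀ a ∈ A, g * a * g⁻¹ ∈ A) (hg : g ^ p ^ (k + 1) = 1) (a : Γ) (ha : a ∈ A)
    (hne : ρ ⁅a, g ^ p ^ k⁆ ≠ 1) : ∑ i ∈ Finset.range (p ^ (k + 1)), (ρ g) ^ i ≠ 0 := by
  obtain ⟨K, _, _, _, V', _, _, _, Φ, hΦ⟩ := base_ex (F := F) (p := p) V
  let ψ : Γ →* (V' →ₗ[K] V') := (Φ : (V →ₗ[F] V) →* (V' →ₗ[K] V')).comp ρ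
  have hψ : ∀ x, ψ x = Φ (ρ x) := fun x => rfl
  intro hcon
  refine fo hp ψ A ?_ hAp k g hgA hg a ha ?_ ?_
  · intro a ha b hb
    rw [hψ, hψ, hA a ha b hb]
  · intro h
    apply hne
    apply hΦ
    rw [← hψ, h, map_one]
  · have h1 := congrArg Φ hcon
    rw [map_sum, map_zero] at h1
    rw [← h1]
    refine Finset.sum_congr rfl fun i _ => ?_
    rw [map_pow, hψ]

end Pool.Agent.Work.MP_b44cb1_al.HH
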