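import Pool.Agent.Work.MP_b44cb1_al.HH.Geo

/-!
# HH/HPA (size S) : conjugation by a unipotent element

`E` an `F`-algebra of characteristic `p`, `Y, Y' ∈ E` with `Y Y' = Y' Y = 1`, `(Y - 1)^r = 0`,
`2 r ≤ p`, `r ≥ 1`. Then `∑_{i<p} Y^i e Y'^i = 0` for all `e`.
Proof: in `End_F(E)` let `c e = Y e Y'`. `c - 1 = λ + μ + λ μ` with the commuting operators
`λ e = (Y - 1) e`, `μ e = e (Y' - 1)`, `λ^r = 0`, `μ^r = 0` (`Y' - 1 = -(Y - 1) Y'`). So
`(c - 1)^(2 r - 1) = 0`: `c - 1 = λ + (1 + λ) μ`, a sum of the commuting nilpotent elements `λ` and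
`(1 + λ) μ` with `r`-th power `0` (`Commute.add_pow_eq_zero_of_add_le_succ_of_pow_eq_zero` or similar).
As `p - 1 ≥ 2 r - 1`, `0 = (c - 1)^(p - 1) = ∑_{i<p} c^i` (`geo_sum` with `k = 1` in `End_F(E)`).
-/

set_option autoImplicit false

namespace Pool.Agent.Work.MP_b44cb1_al.HH

theorem hpA {F E : Type*} [Field F] [Ring E] [Algebra F E] {p : ℕ} (hp : p.Prime) [CharP F p]
    (r : ℕ) (hr : 1 ≤ r) (hrp : 2 * r ≤ p) (Y Y' : E) (h1 : Y * Y' = 1) (h2 : Y' * Y = 1)
    (hY : (Y - 1) ^ r = 0) (e : E) : ∑ i ∈ Finset.range p, Y ^ i * e * Y' ^ i = 0 := by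
  set L : Module.End F E := LinearMap.mulLeft F Y with hL
  set R : Module.End F E := LinearMap.mulRight F Y' with hR
  set L1 : Module.End F E := LinearMap.mulLeft F (Y - 1) with hL1
  set R1 : Module.End F E := LinearMap.mulRight F (Y' - 1) with hR1
  have hY' : (Y' - 1) ^ r = 0 := by
    have h3 : Y' - 1 = -((Y - 1) * Y') := by
      rw [sub_mul, h1, one_mul, neg_sub]
    have h4 : Commute (Y - 1) Y' := by
      have : Commute Y Y' := by
        show Y * Y' = Y' * Y
        rw [h1, h2]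
      exact this.sub_left (Commute.one_left _)
    rw [h3, neg_pow, h4.mul_pow, hY, zero_mul, mul_zero]
  have hLp : L1 ^ r = 0 := by
    rw [hL1, LinearMap.pow_mulLeft, hY]
    ext x
    simp
  have hRp : R1 ^ r = 0 := by
    rw [hR1, LinearMap.pow_mulRight, hY']
    ext x
    simp
  have hcLR : Commute L1 R1 := LinearMap.commute_mulLeft_right _ _
  have hcL : Commute L1 ((1 + L1) * R1) :=
    ((Commute.one_right L1).add_right (Commute.refl L1)).mul_right hcLR
  have hcR : Commute (1 + L1) R1 := (Commute.one_left R1).add_left hcLR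
  have hRp' : ((1 + L1) * R1) ^ r = 0 := by
    rw [hcR.mul_pow, hRp, mul_zero]
  have hsum : L * R - 1 = L1 + (1 + L1) * R1 := by
    ext x
    simp only [hL, hR, hL1, hR1, LinearMap.sub_apply, LinearMap.add_apply, Module.End.mul_apply,
      Module.End.one_apply, LinearMap.mulLeft_apply, LinearMap.mulRight_apply]
    noncomm_ring
  have hnil : (L * R - 1) ^ (p - 1) = 0 := by
    rw [hsum]
    exact hcL.add_pow_eq_zero_of_add_le_succ_of_pow_eq_zero hLp hRp' (by omega)
  have hgeo := geo_sum (F := F) (E := Module.End F E) hp (L * R) 1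
  rw [pow_one, hnil] at hgeo
  have hpow : ∀ i : ℕ, ((L * R) ^ i) e = Y ^ i * e * Y' ^ i := by
    intro i
    have hc : Commute L R := LinearMap.commute_mulLeft_right _ _
    rw [hc.mul_pow, hL, hR, LinearMap.pow_mulLeft, LinearMap.pow_mulRight]
    simp [mul_assoc]
  have h5 := congrArg (fun f : Module.End F E => f e) hgeo
  simp only [LinearMap.zero_apply, LinearMap.sum_apply] at h5
  rw [h5]
  exact Finset.sum_congr rfl (fun i _ => (hpow i).symm)

end Pool.Agent.Work.MP_b44cb1_al.HH
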