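import Pool.Agent.Work.MP_b44cb1_al.HH.HPA
import Pool.Agent.Work.MP_b44cb1_al.HH.HBC

/-!
# HH/HPB (size M) : `p ≥ 2 r`: elements with `(y-1)^r = 0` centralise `q`-groups

* `hp_inj` (`F` algebraically closed, `ρ` injective): suppose `2 r ≤ p`, `(ρ y - 1)^r = 0`, `y^p = 1`,
  `a ∈ R₀`, `⁅a, y⁆ ≠ 1`. `r ≥ 1` as `V ≠ 0`. `(ρ y - 1)^(p-1) = 0`. `mc` with `T = M = zpowers y`: `R`, `Z`.
  `R` is not commutative: otherwise `fo` with `k = 0` gives `∑_{i<p} (ρ y)^i ≠ 0`, i.e.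
  `(ρ y - 1)^(p-1) ≠ 0`. So there are `r₁, r₂ ∈ R`, `a₀ = ⁅r₁, r₂⁆ ≠ 1`, `a₀ ∈ Z`, `ρ a₀ ≠ 1`, and `weight_ex`
  for `Z` gives `v₀`, `θ`. Let `U` be the weight space, `L = {h | h Z h⁻¹ = Z, θ (h⁻¹ b h) = θ b}` as in
  `hbB`; `y ∈ L` as `y` centralises `Z`. `hbA` (`z = y`) gives `QH` for `σ = resRep ρ U L _`. Some
  `s ∈ R` is not scalar on `U`. The elements `y^i s y^{-i}`, `0 ≤ i < p`, are pairwise inequivalent
  modulo scalars: if `y^i s y^{-i} ~ y^j s y^{-j}` with `0 < j - i < p` then `y^d s y^{-d} ~ s`, `d = j - i`, so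
  `y s y⁻¹ ~ s` (`y^p = 1`, `d` prime to `p`), so `s` is scalar by `fpf`. By `q_li` (all `c i = 1`)
  `∑_{i<p} σ(y)^i σ(s) σ(y)^{-i} ≠ 0`; but it is `0` by `hpA` (`(σ y - 1)^r = 0`).
* `hp_any`: any field, any `ρ`, as for `hb` in HBC.
-/

set_option autoImplicit false

namespace Pool.Agent.Work.MP_b44cb1_al.HH

open Subgroup
open scoped commutatorElement

/-- The elements `h` with `h s h⁻¹ ~ s` modulo scalars. -/
private def simS {F E Γ : Type*} [Field F] [Ring E] [Nontrivial E] [Algebra F E] [Group Γ]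
    (σ : Γ →* E) (s : Γ) : Subgroup Γ where
  carrier := {h | Sc F (σ (s⁻¹ * (h * s * h⁻¹)))}
  one_mem' := by
    refine ⟨1, ?_⟩
    have : s⁻¹ * (1 * s * 1⁻¹) = 1 := by group
    rw [this, map_one, map_one]
  mul_mem' := by
    intro g h hg hh
    have h1 : s⁻¹ * (g * h * s * (g * h)⁻¹) =
        (s⁻¹ * (g * s * g⁻¹)) * (g * (s⁻¹ * (h * s * h⁻¹)) * g⁻¹) := by group
    show Sc F (σ (s⁻¹ * (g * h * s * (g * h)⁻¹)))
    rw [h1]
    refine sc_mul σ hg ?_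
    rw [sc_conj σ g hh]
    exact hh
  inv_mem' := by
    intro g hg
    have h1 : s⁻¹ * (g⁻¹ * s * g⁻¹⁻¹) = g⁻¹ * (s⁻¹ * (g * s * g⁻¹))⁻¹ * g⁻¹⁻¹ := by group
    show Sc F (σ (s⁻¹ * (g⁻¹ * s * g⁻¹⁻¹)))
    rw [h1]
    have h2 := sc_inv σ hg
    rw [sc_conj σ g⁻¹ h2]
    exact h2

private theorem mem_of_pow {Γ : Type*} [Group Γ] (S : Subgroup Γ) {y : Γ} {p : ℕ} (hp : p.Prime)
    (hy : y ^ p = 1) (d : ℤ) (hd : ¬ (p : ℤ) ∣ d) (h : y ^ d ∈ S) : y ∈ S := by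
  have h1 : IsCoprime (p : ℤ) d := (Prime.coprime_iff_not_dvd (Nat.prime_iff_prime_int.1 hp)).2 hd
  obtain ⟨a, b, hab⟩ := h1
  have h2 : y = (y ^ d) ^ b := by
    conv_lhs => rw [← zpow_one y, ← hab, zpow_add, mul_comm a, zpow_mul, zpow_natCast, hy,
      one_zpow, one_mul, mul_comm b, zpow_mul]
  rw [h2]
  exact zpow_mem h b

private theorem q_ne {F E Γ : Type*} [Field F] [Ring E] [Nontrivial E] [Algebra F E] [Group Γ]
    (σ : Γ →* E) (R : Subgroup Γ) (y : Γ) {p : ℕ} (hp : p.Prime) (Q : QH F σ R y p) (s : Γ)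
    (hs : s ∈ R) (hns : ¬ Sc F (σ s)) (i j : ℕ) (hi : i < p) (hj : j < p) (hij : i ≠ j) :
    ¬ Sc F (σ ((y ^ i * s * (y ^ i)⁻¹)⁻¹ * (y ^ j * s * (y ^ j)⁻¹))) := by
  intro h
  apply hns
  have h1 : y ^ ((j : ℤ) - i) ∈ simS (F := F) σ s := by
    have h2 : s⁻¹ * (y ^ ((j : ℤ) - i) * s * (y ^ ((j : ℤ) - i))⁻¹) =
        (y ^ i)⁻¹ * ((y ^ i * s * (y ^ i)⁻¹)⁻¹ * (y ^ j * s * (y ^ j)⁻¹)) * (y ^ i)⁻¹⁻¹ := by
      have e : y ^ ((j : ℤ) - i) = (y ^ i)⁻¹ * y ^ j := by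
        rw [show (j : ℤ) - i = -(i : ℤ) + j by ring, zpow_add, zpow_neg, zpow_natCast, zpow_natCast]
      rw [e]
      group
    show Sc F (σ (s⁻¹ * (y ^ ((j : ℤ) - i) * s * (y ^ ((j : ℤ) - i))⁻¹)))
    rw [h2, sc_conj σ _ h]
    exact h
  have h3 : y ∈ simS (F := F) σ s := by
    refine mem_of_pow _ hp Q.zp _ ?_ h1
    intro hd
    obtain ⟨c, hc⟩ := hd
    have hc0 : c = 0 := by
      by_contra hc0
      have h5 : (p : ℤ) ≤ |(j : ℤ) - i| := by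
        rw [hc, abs_mul, abs_of_nonneg (by positivity : (0 : ℤ) ≤ p)]
        have := Int.one_le_abs hc0
        nlinarith
      have h6 : |(j : ℤ) - i| < p := by
        rw [abs_lt]
        constructor <;> omega
      omega
    rw [hc0, mul_zero] at hc
    omega
  have h4 : Sc F (σ (s⁻¹ * (y * s * y⁻¹))) := h3
  apply Q.fpf s hs
  have h5 : ⁅y, s⁆ = s * (s⁻¹ * (y * s * y⁻¹)) * s⁻¹ := by
    rw [commutatorElement_def]
    group
  rw [h5, sc_conj σ s h4]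
  exact h4

theorem hp_inj {F V Γ : Type*} [Field F] [IsAlgClosed F] [AddCommGroup V] [Module F V]
    [FiniteDimensional F V] [Group Γ] [Finite Γ] {p q : ℕ} (hp : p.Prime)
    (hq : q.Prime) (hpq : q ≠ p) [CharP F p] (ρ : Γ →* (V →ₗ[F] V)) (hρ : Function.Injective ρ)
    (r : ℕ) (hrp : 2 * r ≤ p) (R₀ : Subgroup Γ) (hR₀ : IsPGroup q R₀) (y : Γ) (hy : y ^ p = 1)
    (hyR : ∀ r ∈ R₀, y * r * y⁻¹ ∈ R₀) (hnil : (ρ y - 1) ^ r = 0) (a : Γ) (ha : a ∈ R₀) :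
    ⁅a, y⁆ = 1 := by
  by_contra hne
  have hVn : Nontrivial (V →ₗ[F] V) := ⟨ρ ⁅a, y⁆, ρ 1, fun h => hne (hρ h)⟩
  have hr1 : 1 ≤ r := by
    rcases Nat.eq_zero_or_pos r with h0 | h0
    · subst h0
      rw [pow_zero] at hnil
      exact absurd hnil one_ne_zero
    · exact h0
  have hnil' : (ρ y - 1) ^ (p - 1) = 0 := pow_eq_zero_of_le (by omega) hnil
  -- the group generated by `y`
  have hyinv : ∀ (B : Subgroup Γ), (∀ b ∈ B, y * b * y⁻¹ ∈ B) → Nz (zpowers y) B := by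
    intro B hB
    have h1 : ∀ n : ℕ, ∀ b ∈ B, y ^ n * b * (y ^ n)⁻¹ ∈ B := by
      intro n
      induction n with
      | zero => intro b hb; simpa using hb
      | succ n ih =>
        intro b hb
        have h2 := hB _ (ih b hb)
        have h3 : y ^ (n + 1) * b * (y ^ (n + 1))⁻¹ = y * (y ^ n * b * (y ^ n)⁻¹) * y⁻¹ := by
          rw [pow_succ']
          group
        rw [h3]
        exact h2
    intro g hg b hb
    have hfin : IsOfFinOrder y := isOfFinOrder_of_finite y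
    obtain ⟨n, rfl⟩ := (hfin.mem_powers_iff_mem_zpowers).2 hg
    exact h1 n b hb
  have hMp : IsPGroup p (zpowers y) := by
    rintro ⟨g, hg⟩
    obtain ⟨n, rfl⟩ := mem_zpowers_iff.1 hg
    refine ⟨1, Subtype.ext ?_⟩
    show (y ^ n) ^ p ^ 1 = 1
    rw [pow_one, ← zpow_natCast, ← zpow_mul, mul_comm, zpow_mul, zpow_natCast, hy, one_zpow]
  have hcent : ∀ x : Γ, y * x = x * y → ∀ m ∈ zpowers y, m * x = x * m := by
    intro x hx m hm
    obtain ⟨n, rfl⟩ := mem_zpowers_iff.1 hm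
    exact (Commute.zpow_left hx n).eq
  obtain ⟨R, Z, hRR₀, hTR, hZR, hTZ, hMR, hZiff, hmin, hRRZ, hZc⟩ :=
    mc hp hq hpq (zpowers y) (zpowers y) R₀ le_rfl hMp (nz_self _) hR₀ (hyinv R₀ hyR) (by
      intro h
      apply hne
      rw [commutatorElement_eq_one_iff_mul_comm]
      exact (h y (mem_zpowers y) a ha).symm)
  have hRq : IsPGroup q R := hR₀.to_le hRR₀
  have hyRR : ∀ b ∈ R, y * b * y⁻¹ ∈ R := fun b hb => hTR y (mem_zpowers y) b hb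
  have hord : ∀ b ∈ R, ∃ m : ℕ, ¬ p ∣ m ∧ b ^ m = 1 := by
    intro b hb
    obtain ⟨k, hk⟩ := hRq ⟨b, hb⟩
    refine ⟨q ^ k, fun hd => ?_, congrArg Subtype.val hk⟩
    exact hpq.symm ((Nat.prime_dvd_prime_iff_eq hp hq).1 (hp.dvd_of_dvd_pow hd))
  obtain ⟨x₁, hx₁, hx₁y⟩ : ∃ x ∈ R, ¬ y * x = x * y := by
    by_contra hcon
    push Not at hcon
    exact hMR fun m hm x hx => hcent x (hcon x hx) m hm
  -- `R` is not commutative
  obtain ⟨r₁, hr₁, r₂, hr₂, hr₁₂⟩ : ∃ r₁ ∈ R, ∃ r₂ ∈ R, ⁅r₁, r₂⁆ ≠ 1 := by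
    by_contra hcon
    push Not at hcon
    have h1 := fo hp ρ R (fun b hb c hc => by
      rw [commutatorElement_eq_one_iff_mul_comm.1 (hcon b hb c hc)]) hord 0 y hyRR
      (by rw [zero_add, pow_one]; exact hy) x₁ hx₁ (by
        rw [pow_zero, pow_one]
        intro h2
        apply hx₁y
        have h3 : ⁅x₁, y⁆ = 1 := hρ (h2.trans (map_one ρ).symm)
        exact (commutatorElement_eq_one_iff_mul_comm.1 h3).symm)
    apply h1
    rw [← geo_sum (F := F) hp (ρ y) (0 + 1), zero_add, pow_one]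
    exact hnil'
  have ha₀R : ⁅r₁, r₂⁆ ∈ Z := hRRZ (commutator_mem_commutator hr₁ hr₂)
  obtain ⟨m, hpm, hm⟩ := hord _ (hZR ha₀R)
  obtain ⟨v₀, hv₀, θ, hθ, hθ1⟩ := weight_ex ρ Z (fun b hb c hc => by
    rw [hZc b hb c (hZR hc)]) ⁅r₁, r₂⁆ ha₀R m (by
      intro h
      exact hpm ((CharP.cast_eq_zero_iff F p m).1 h)) hm (fun h =>
        hr₁₂ (hρ (h.trans (map_one ρ).symm)))
  -- the weight space
  let U : Submodule F V :=
    { carrier := {v | ∀ b ∈ Z, ρ b v = θ b • v}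
      add_mem' := fun {v w} hv hw b hb => by rw [map_add, hv b hb, hw b hb, smul_add]
      zero_mem' := fun b _ => by rw [map_zero, smul_zero]
      smul_mem' := fun c v hv b hb => by rw [map_smul, hv b hb, smul_comm] }
  have hU : ∀ v, v ∈ U ↔ ∀ b ∈ Z, ρ b v = θ b • v := fun v => Iff.rfl
  have hU0 : U ≠ ⊥ := by
    intro h
    apply hv₀
    have : v₀ ∈ U := hθ
    rw [h] at this
    exact (Submodule.mem_bot F).1 this
  let L : Subgroup Γ := centralizer (Z : Set Γ)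
  have hL : ∀ h ∈ L, ∀ v ∈ U, ρ h v ∈ U := by
    intro h hh v hv b hb
    have h1 : b * h = h * b := (mem_centralizer_iff.1 hh) b hb
    have h2 : ρ b (ρ h v) = ρ h (ρ b v) := by
      rw [← Module.End.mul_apply, ← Module.End.mul_apply, ← map_mul, ← map_mul, h1]
    rw [h2, hv b hb, map_smul]
  have hRL : R ≤ L := fun x hx => mem_centralizer_iff.2 fun b hb => hZc b hb x hx
  have hyL : y ∈ L := mem_centralizer_iff.2 fun b hb =>
    (((hZiff b).1 hb).2 y (mem_zpowers y)).symm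
  have hZ' : ∀ x, x ∈ Z ↔ x ∈ R ∧ y * x = x * y := by
    intro x
    rw [hZiff]
    exact ⟨fun h => ⟨h.1, h.2 y (mem_zpowers y)⟩, fun h => ⟨h.1, hcent x h.2⟩⟩
  have Q := hbA hp hq hpq ρ R Z hRq y hy hyRR hnil' hZ' hZc hRRZ θ U hU hU0 L hL hRL hyL
  have hUn : Nontrivial U := Submodule.nontrivial_iff_ne_bot.2 hU0
  set σ := resRep ρ U L hL with hσ
  have hns : ¬ Sc F (σ ⟨r₂, hRL hr₂⟩) := by
    intro h
    apply hθ1
    have h1 := sc_conj σ ⟨r₁, hRL hr₁⟩ h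
    have h2 : σ ⁅(⟨r₁, hRL hr₁⟩ : L), ⟨r₂, hRL hr₂⟩⁆ = 1 := by
      rw [commutatorElement_def, map_mul, h1, ← map_mul, mul_inv_cancel, map_one]
    have h3 := resRep_apply ρ U L hL ⁅(⟨r₁, hRL hr₁⟩ : L), ⟨r₂, hRL hr₂⟩⁆ ⟨v₀, hθ⟩
    rw [← hσ, h2] at h3
    have h4 : v₀ = θ ⁅r₁, r₂⁆ • v₀ := h3.trans (hθ _ ha₀R)
    have h5 : (1 - θ ⁅r₁, r₂⁆) • v₀ = 0 := by
      rw [sub_smul, one_smul, ← h4, sub_self]
    rcases smul_eq_zero.1 h5 with h6 | h6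
    · exact (sub_eq_zero.1 h6).symm
    · exact absurd h6 hv₀
  have hσnil : (σ ⟨y, hyL⟩ - 1) ^ r = 0 := by
    have h1 : ∀ (n : ℕ) (v : U), ((((σ ⟨y, hyL⟩ - 1) ^ n) v : U) : V) = ((ρ y - 1) ^ n) v := by
      intro n
      induction n with
      | zero => intro v; rfl
      | succ n ih =>
        intro v
        rw [pow_succ, pow_succ, Module.End.mul_apply, Module.End.mul_apply, ih]
        congr 1
    refine LinearMap.ext fun v => Subtype.ext ?_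
    rw [h1, hnil]
    rfl
  have hli := q_li σ (R.subgroupOf L) Q.cl2 Q.nd (Finset.range p)
    (fun i => (⟨y, hyL⟩ : L) ^ i * ⟨r₂, hRL hr₂⟩ * ((⟨y, hyL⟩ : L) ^ i)⁻¹)
    (fun i _ => by
      rw [mem_subgroupOf]
      exact hTR (y ^ i) (pow_mem (mem_zpowers y) i) r₂ hr₂)
    (fun i hi j hj hij => q_ne σ (R.subgroupOf L) ⟨y, hyL⟩ hp Q ⟨r₂, hRL hr₂⟩
      (mem_subgroupOf.2 hr₂) hns i j (Finset.mem_range.1 hi) (Finset.mem_range.1 hj) hij)
    (fun _ => 1) (by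
      have h1 := hpA (F := F) hp r hr1 hrp (σ ⟨y, hyL⟩) (σ (⟨y, hyL⟩ : L)⁻¹)
        (by rw [← map_mul, mul_inv_cancel, map_one]) (by rw [← map_mul, inv_mul_cancel, map_one])
        hσnil (σ ⟨r₂, hRL hr₂⟩)
      rw [← h1]
      refine Finset.sum_congr rfl fun i _ => ?_
      rw [one_smul, map_mul, map_mul, map_pow, ← inv_pow, map_pow])
  exact one_ne_zero (hli 0 (Finset.mem_range.2 hp.pos))

theorem hp_any {F V Γ : Type} [Field F] [AddCommGroup V] [Module F V]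
    [FiniteDimensional F V] [Group Γ] [Finite Γ] {p q : ℕ} (hp : p.Prime)
    (hq : q.Prime) (hpq : q ≠ p) [CharP F p] (ρ : Γ →* (V →ₗ[F] V))
    (r : ℕ) (hrp : 2 * r ≤ p) (R₀ : Subgroup Γ) (hR₀ : IsPGroup q R₀) (y : Γ) (hy : y ^ p = 1)
    (hyR : ∀ r ∈ R₀, y * r * y⁻¹ ∈ R₀) (hnil : (ρ y - 1) ^ r = 0) (a : Γ) (ha : a ∈ R₀) :
    ρ ⁅a, y⁆ = 1 := by
  obtain ⟨K, _, _, _, V', _, _, _, Φ, hΦ⟩ := base_ex (F := F) (p := p) V
  let ψ : Γ →* (V' →ₗ[K] V')ˣ := MonoidHom.toHomUnits ((Φ : _ →* _).comp ρ)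
  have hψ : ∀ g, ((ψ g : (V' →ₗ[K] V')ˣ) : V' →ₗ[K] V') = Φ (ρ g) := fun g => rfl
  let f : Γ →* ψ.range := ψ.rangeRestrict
  let ρ' : ψ.range →* (V' →ₗ[K] V') := (Units.coeHom _).comp ψ.range.subtype
  have hρ' : ∀ g, ρ' (f g) = Φ (ρ g) := fun g => rfl
  have hinj : Function.Injective ρ' := fun x y h => Subtype.ext (Units.ext h)
  have : Finite ψ.range := Finite.of_surjective f ψ.rangeRestrict_surjective
  have h1 := hp_inj hp hq hpq ρ' hinj r hrp (R₀.map f) (hR₀.map f) (f y)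
    (by rw [← map_pow, hy, map_one])
    (by
      rintro _ ⟨b, hb, rfl⟩
      exact ⟨y * b * y⁻¹, hyR b hb, by rw [map_mul, map_mul, map_inv]⟩)
    (by rw [hρ', ← map_one Φ, ← map_sub, ← map_pow, hnil, map_zero])
    (f a) ⟨a, ha, rfl⟩
  rw [← map_commutatorElement] at h1
  apply hΦ
  rw [← hρ', h1, map_one, map_one]

end Pool.Agent.Work.MP_b44cb1_al.HH
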