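import Pool.Agent.Work.MP_b44cb1_al.HH.Cop

/-!
# HH/Hyp (size M) : generation by centralisers of hyperplanes

`B` is a `p`-group acting on the `q`-group `R`, `C ≤ B` acts trivially and `B/C` is elementary
abelian. Then `R` is generated by the subgroups `C_R(H)`, `C ≤ H ≤ B`, `B/H` cyclic.

Proof. Let `S` contain all `C_R(H)` and suppose `R ≰ S`. Let `S₀ = R ⊓ S`... replace `S` by the
subgroup `S₀` generated by all `C_R(H)`; it is `B`-invariant (`b C_R(H) b⁻¹ = C_R(H)` because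
`b H b⁻¹ = H` as `⁅B, B⁆ ≤ C ≤ H`), `S₀ ≤ R`, `S₀ ≠ R`. Choose `K` maximal among the `B`-invariant
subgroups with `S₀ ≤ K < R`.
1. `K` is normalised by `R`: `R ⊓ normalizer K` is `B`-invariant and strictly larger than `K`
   (normalizer condition in the nilpotent group `R`, `normalizerCondition_of_isNilpotent`), so `= R`.
   `⁅R, R⁆ ≤ K`: `K ⊔ ⁅R, R⁆` is `B`-invariant, and `≠ R` (else `R = K ⁅R, R⁆` and the nilpotent group
   `R/K` would be perfect), so it is `K`.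
2. For `b ∈ B` put `F_b = {r ∈ R | ⁅b, r⁆ ∈ K}`: a subgroup containing `K` (1.), and `B`-invariant
   since `⁅B, B⁆ ≤ C` centralises `R`. So `F_b = K` or `F_b = R`. Let `H = {b ∈ B | F_b = R}`, a
   subgroup with `C ≤ H ≤ B`.
3. For `b ∈ B \ H` and `r ∈ R`: the product `r · r^b ⋯ r^{b^{p-1}}` (`r^b = b r b⁻¹`) is in `F_b = K`
   (mod `K` it is fixed by `b`, as `R/K` is commutative and `b^p ∈ C` acts trivially).
4. If `B/H` is not cyclic, choose `b₁ ∈ B \ H`, then `b₂ ∈ B`, `b₂ ∉ H ⊔ ⟨b₁⟩`. All `b₁ b₂^i`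
   (`0 ≤ i < p`) and `b₂` are outside `H`. Modulo `K`, for `r ∈ R` (write `R/K` additively):
   `0 = ∑_{i<p} ∑_{j<p} (b₁ b₂^i)^j r = p r + ∑_{j=1}^{p-1} b₁^j ∑_{i<p} b₂^{ij} r
      = p r + ∑_{j=1}^{p-1} b₁^j (0) = p r`. So `r^p ∈ K` and, `r` being a `q`-element, `r ∈ K`:
   `R = K`, contradiction.
   (Alternative for 4.: `R/K` is an irreducible module for the abelian group `B/H`, so `B/H` embeds in
   the multiplicative group of a finite field, `isCyclic_of_subgroup_isDomain`.)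
5. So `B ≤ H ⊔ ⟨b⟩` for some `b ∈ B`, and `C_R(H) ≤ S₀ ≤ K`. But for `r ∈ R` all `⁅h, r⁆ ∈ K`
   (`h ∈ H`), so by `cfix` (with `B := H`, `N := K`; `r⁻¹ (h r h⁻¹) ∈ K`) `r ∈ C_R(H) K = K`. So
   `R = K`, contradiction.
-/

set_option autoImplicit false
set_option linter.style.haveILetI false

namespace Pool.Agent.Work.MP_b44cb1_al.HH

open Subgroup
open scoped commutatorElement

/-- The norm of an operator of order dividing `p` without fixed vectors vanishes. -/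
private theorem norm_zero {V : Type*} [AddCommGroup V] (g : AddMonoid.End V) (p : ℕ)
    (hg : g ^ p = 1) (hfix : ∀ v, g v = v → v = 0) : ∑ i ∈ Finset.range p, g ^ i = 0 := by
  ext v
  have h1 : (g - 1) * ∑ i ∈ Finset.range p, g ^ i = 0 := by
    rw [mul_geom_sum, hg, sub_self]
  have h2 := congrArg (fun L : AddMonoid.End V => L v) h1
  have h3 : g ((∑ i ∈ Finset.range p, g ^ i) v) - (∑ i ∈ Finset.range p, g ^ i) v = 0 := h2
  exact hfix _ (sub_eq_zero.1 h3)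

private theorem noncyc {B V : Type*} [Group B] [AddCommGroup V] (β : B →* AddMonoid.End V)
    (p : ℕ) (hp : p.Prime) (hcomm : ∀ b b', β b * β b' = β b' * β b) (hpow : ∀ b, β b ^ p = 1)
    (hfix : ∀ b, β b ≠ 1 → ∀ v, β b v = v → v = 0) (b₁ b₂ : B)
    (h1 : ∀ i < p, β (b₁ * b₂ ^ i) ≠ 1) (h2 : ∀ j, 0 < j → j < p → β (b₂ ^ j) ≠ 1) :
    ∀ v : V, p • v = 0 := by
  have hN : ∀ b, β b ≠ 1 → ∑ i ∈ Finset.range p, (β b) ^ i = 0 := fun b hb =>
    norm_zero _ p (hpow b) (hfix b hb)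
  have hs : ∑ i ∈ Finset.range p, ∑ j ∈ Finset.range p, (β (b₁ * b₂ ^ i)) ^ j = 0 :=
    Finset.sum_eq_zero (fun i hi => hN _ (h1 i (Finset.mem_range.1 hi)))
  rw [Finset.sum_comm] at hs
  have hcc : ∀ i j : ℕ, (β (b₁ * b₂ ^ i)) ^ j = (β b₁) ^ j * (β (b₂ ^ j)) ^ i := by
    intro i j
    have hc : Commute (β b₁) (β b₂ ^ i) := (show Commute (β b₁) (β b₂) from hcomm _ _).pow_right i
    rw [map_mul, map_pow, hc.mul_pow, map_pow, ← pow_mul, ← pow_mul, mul_comm i j]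
  have hs2 : ∑ j ∈ Finset.range p, (β b₁) ^ j * ∑ i ∈ Finset.range p, (β (b₂ ^ j)) ^ i = 0 := by
    rw [← hs]
    refine Finset.sum_congr rfl (fun j _ => ?_)
    rw [Finset.mul_sum]
    exact Finset.sum_congr rfl (fun i _ => (hcc i j).symm)
  rw [Finset.sum_eq_single_of_mem 0 (Finset.mem_range.2 hp.pos) (fun j hj hj0 => by
    rw [hN _ (h2 j (Nat.pos_of_ne_zero hj0) (Finset.mem_range.1 hj)), mul_zero])] at hs2
  simp only [pow_zero, map_one, one_pow, one_mul, Finset.sum_const, Finset.card_range] at hs2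
  intro v
  have h3 := congrArg (fun L : AddMonoid.End V => L v) hs2
  simpa using h3

/-- conjugation by `b ∈ B` on `R`. -/
private def cR {G : Type*} [Group G] {R B : Subgroup G} (hn : Nz B R) (b : B) : R →* R where
  toFun r := ⟨b.1 * r.1 * b.1⁻¹, hn b.1 b.2 r.1 r.2⟩
  map_one' := Subtype.ext (by simp)
  map_mul' r r' := Subtype.ext (by
    show b.1 * (r.1 * r'.1) * b.1⁻¹ = (b.1 * r.1 * b.1⁻¹) * (b.1 * r'.1 * b.1⁻¹)
    group)

private theorem quot_step {G : Type*} [Group G] {p : ℕ} (hp : p.Prime) (R B C K : Subgroup G)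
    (hn : Nz B R) (hBK : Nz B K) (hRK : Nz R K) (hRR : ⁅R, R⁆ ≤ K)
    (hC : ∀ c ∈ C, ∀ r ∈ R, c * r = r * c) (hab : ∀ b ∈ B, ∀ b' ∈ B, ⁅b, b'⁆ ∈ C)
    (hexp : ∀ b ∈ B, b ^ p ∈ C)
    (hF : ∀ b ∈ B, (¬ ∀ r ∈ R, ⁅b, r⁆ ∈ K) → ∀ r ∈ R, ⁅b, r⁆ ∈ K → r ∈ K)
    (b₁ b₂ : G) (hb₁ : b₁ ∈ B) (hb₂ : b₂ ∈ B)
    (h1 : ∀ i < p, ¬ ∀ r ∈ R, ⁅b₁ * b₂ ^ i, r⁆ ∈ K)
    (h2 : ∀ j, 0 < j → j < p → ¬ ∀ r ∈ R, ⁅b₂ ^ j, r⁆ ∈ K) :
    ∀ r ∈ R, r ^ p ∈ K := by
  haveI hKn : (K.subgroupOf R).Normal := hRK.subgroupOf_normal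
  have hmk : ∀ x : R, (QuotientGroup.mk' (K.subgroupOf R)) x = 1 ↔ (x : G) ∈ K := by
    intro x
    rw [← MonoidHom.mem_ker, QuotientGroup.ker_mk', mem_subgroupOf]
  letI : CommGroup (R ⧸ K.subgroupOf R) :=
    { (inferInstance : Group (R ⧸ K.subgroupOf R)) with
      mul_comm := by
        intro a b
        obtain ⟨x, rfl⟩ := QuotientGroup.mk'_surjective (K.subgroupOf R) a
        obtain ⟨y, rfl⟩ := QuotientGroup.mk'_surjective (K.subgroupOf R) b
        rw [← commutatorElement_eq_one_iff_mul_comm, ← map_commutatorElement, hmk]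
        exact hRR (commutator_mem_commutator x.2 y.2) }
  let β0 : B → (R ⧸ K.subgroupOf R) →* (R ⧸ K.subgroupOf R) := fun b =>
    QuotientGroup.map _ _ (cR hn b) (by
      intro x hx
      rw [Subgroup.mem_comap, mem_subgroupOf]
      exact hBK b.1 b.2 _ ((mem_subgroupOf).1 hx))
  have hβ0 : ∀ (b : B) (x : R), β0 b (QuotientGroup.mk' (K.subgroupOf R) x) =
      QuotientGroup.mk' (K.subgroupOf R) (cR hn b x) := fun b x => rfl
  let β : B →* AddMonoid.End (Additive (R ⧸ K.subgroupOf R)) :=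
    { toFun := fun b => MonoidHom.toAdditive (β0 b)
      map_one' := by
        apply AddMonoidHom.ext
        intro v
        obtain ⟨x, hx⟩ := QuotientGroup.mk'_surjective (K.subgroupOf R) v.toMul
        have h3 : β0 1 v.toMul = v.toMul := by
          rw [← hx, hβ0]
          congr 1
          apply Subtype.ext
          show (1 : G) * x.1 * (1 : G)⁻¹ = x.1
          group
        exact congrArg Additive.ofMul h3
      map_mul' := by
        intro b b'
        apply AddMonoidHom.ext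
        intro v
        obtain ⟨x, hx⟩ := QuotientGroup.mk'_surjective (K.subgroupOf R) v.toMul
        have h3 : β0 (b * b') v.toMul = β0 b (β0 b' v.toMul) := by
          rw [← hx, hβ0, hβ0, hβ0]
          congr 1
          apply Subtype.ext
          show (b.1 * b'.1) * x.1 * (b.1 * b'.1)⁻¹ = b.1 * (b'.1 * x.1 * b'.1⁻¹) * b.1⁻¹
          group
        exact congrArg Additive.ofMul h3 }
  have hβ : ∀ (b : B) (x : R), β b (Additive.ofMul (QuotientGroup.mk' (K.subgroupOf R) x)) =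
      Additive.ofMul (QuotientGroup.mk' (K.subgroupOf R) (cR hn b x)) := fun b x => rfl
  have hfixmk : ∀ (b : B) (x : R), β b (Additive.ofMul (QuotientGroup.mk' (K.subgroupOf R) x)) =
      Additive.ofMul (QuotientGroup.mk' (K.subgroupOf R) x) ↔ ⁅b.1, x.1⁆ ∈ K := by
    intro b x
    rw [hβ]
    have h3 : (QuotientGroup.mk' (K.subgroupOf R) (cR hn b x) =
        QuotientGroup.mk' (K.subgroupOf R) x) ↔
        QuotientGroup.mk' (K.subgroupOf R) (cR hn b x * x⁻¹) = 1 := by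
      rw [map_mul, map_inv, mul_inv_eq_one]
    constructor
    · intro h
      have h4 := (hmk _).1 (h3.1 (Additive.ofMul.injective h))
      exact h4
    · intro h
      exact congrArg Additive.ofMul (h3.2 ((hmk _).2 h))
  have hone : ∀ b : B, β b = 1 ↔ ∀ r ∈ R, ⁅b.1, r⁆ ∈ K := by
    intro b
    constructor
    · intro h r hr
      apply (hfixmk b ⟨r, hr⟩).1
      rw [h]; rfl
    · intro h
      apply AddMonoidHom.ext
      intro v
      obtain ⟨x, hx⟩ := QuotientGroup.mk'_surjective (K.subgroupOf R) v.toMul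
      have h3 := (hfixmk b x).2 (h x.1 x.2)
      rw [hx] at h3
      exact h3
  have hcz : ∀ (b b' : B), (∀ r ∈ R, b.1 * r * b.1⁻¹ = b'.1 * r * b'.1⁻¹) → β b = β b' := by
    intro b b' h
    apply AddMonoidHom.ext
    intro v
    obtain ⟨x, hx⟩ := QuotientGroup.mk'_surjective (K.subgroupOf R) v.toMul
    have h3 : β0 b v.toMul = β0 b' v.toMul := by
      rw [← hx, hβ0, hβ0]
      congr 1
      apply Subtype.ext
      exact h x.1 x.2
    exact congrArg Additive.ofMul h3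
  have hmain := noncyc β p hp (fun b b' => by
      rw [← map_mul, ← map_mul]
      apply hcz
      intro r hr
      show (b.1 * b'.1) * r * (b.1 * b'.1)⁻¹ = (b'.1 * b.1) * r * (b'.1 * b.1)⁻¹
      have h3 := hC _ (hab _ (inv_mem b'.2) _ (inv_mem b.2)) r hr
      have h4 : b.1 * b'.1 = (b'.1 * b.1) * ⁅b.1⁻¹, b'.1⁻¹⁆ := by
        rw [commutatorElement_def]; group
      have h5 := hC _ (hab _ (inv_mem b.2) _ (inv_mem b'.2)) r hr
      rw [h4]
      calc (b'.1 * b.1) * ⁅b.1⁻¹, b'.1⁻¹⁆ * r * ((b'.1 * b.1) * ⁅b.1⁻¹, b'.1⁻¹⁆)⁻¹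
          = (b'.1 * b.1) * (⁅b.1⁻¹, b'.1⁻¹⁆ * r) * ⁅b.1⁻¹, b'.1⁻¹⁆⁻¹ * (b'.1 * b.1)⁻¹ := by group
        _ = (b'.1 * b.1) * (r * ⁅b.1⁻¹, b'.1⁻¹⁆) * ⁅b.1⁻¹, b'.1⁻¹⁆⁻¹ * (b'.1 * b.1)⁻¹ := by
            rw [h5]
        _ = _ := by group)
    (fun b => by
      rw [← map_pow, hone]
      intro r hr
      have h3 := hC _ (hexp b.1 b.2) r hr
      have h4 : ⁅b.1 ^ p, r⁆ = 1 := commutatorElement_eq_one_iff_mul_comm.2 h3
      have h5 : ((b ^ p : B) : G) = b.1 ^ p := rfl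
      rw [h5, h4]
      exact one_mem K)
    (fun b hb v hv => by
      obtain ⟨x, hx⟩ := QuotientGroup.mk'_surjective (K.subgroupOf R) v.toMul
      have h3 : ⁅b.1, x.1⁆ ∈ K := by
        apply (hfixmk b x).1
        rw [hx]
        exact hv
      have h4 := hF b.1 b.2 (fun h => hb ((hone b).2 h)) x.1 x.2 h3
      have h5 := (hmk x).2 h4
      rw [hx] at h5
      exact congrArg Additive.ofMul h5)
    ⟨b₁, hb₁⟩ ⟨b₂, hb₂⟩
    (fun i hi h => h1 i hi ((hone _).1 h))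
    (fun j hj0 hj h => h2 j hj0 hj ((hone _).1 h))
  intro r hr
  have h3 := hmain (Additive.ofMul (QuotientGroup.mk' (K.subgroupOf R) ⟨r, hr⟩))
  have h4 : QuotientGroup.mk' (K.subgroupOf R) ((⟨r, hr⟩ : R) ^ p) = 1 := by
    rw [map_pow]
    exact Additive.ofMul.injective h3
  exact (hmk _).1 h4

private theorem cop_mem {G : Type*} [Group G] (L : Subgroup G) (x : G) (a b : ℕ)
    (hab : a.Coprime b) (ha : x ^ a ∈ L) (hb : x ^ b ∈ L) : x ∈ L := by
  have h1 : (1 : ℤ) = a * Nat.gcdA a b + b * Nat.gcdB a b := by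
    rw [← Nat.gcd_eq_gcd_ab, hab.gcd_eq_one, Nat.cast_one]
  have h2 : x = (x ^ a) ^ Nat.gcdA a b * (x ^ b) ^ Nat.gcdB a b := by
    rw [← zpow_natCast, ← zpow_natCast, ← zpow_mul, ← zpow_mul, ← zpow_add, ← h1, zpow_one]
  rw [h2]
  exact mul_mem (zpow_mem ha _) (zpow_mem hb _)

theorem hyp_gen {G : Type*} [Group G] [Finite G] {p q : ℕ} (hp : p.Prime) (hq : q.Prime)
    (hpq : q ≠ p) (R B C S : Subgroup G) (hR : IsPGroup q R) (hB : IsPGroup p B) (hn : Nz B R)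
    (hCB : C ≤ B) (hC : ∀ c ∈ C, ∀ r ∈ R, c * r = r * c) (hab : ∀ b ∈ B, ∀ b' ∈ B, ⁅b, b'⁆ ∈ C)
    (hexp : ∀ b ∈ B, b ^ p ∈ C)
    (hS : ∀ H : Subgroup G, C ≤ H → H ≤ B → (∃ b ∈ B, B ≤ H ⊔ zpowers b) →
      ∀ r ∈ R, (∀ h ∈ H, h * r = r * h) → r ∈ S) : R ≤ S := by
  classical
  haveI : Fact q.Prime := ⟨hq⟩
  let X : Set G := {r | r ∈ R ∧ ∃ H : Subgroup G, C ≤ H ∧ H ≤ B ∧ (∃ b ∈ B, B ≤ H ⊔ zpowers b) ∧
    ∀ h ∈ H, h * r = r * h}
  have hXS : closure X ≤ S := by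
    rw [closure_le]
    rintro r ⟨hr, H, hCH, hHB, hb, hc⟩
    exact hS H hCH hHB hb r hr hc
  have hXR : closure X ≤ R := by
    rw [closure_le]
    rintro r ⟨hr, -⟩
    exact hr
  have hXB : Nz B (closure X) := by
    intro b hb x hx
    have h1 : closure X ≤ (closure X).comap (MulAut.conj b).toMonoidHom := by
      rw [closure_le]
      rintro r ⟨hr, H, hCH, hHB, hbH, hc⟩
      show b * r * b⁻¹ ∈ closure X
      refine subset_closure ⟨hn b hb r hr, H, hCH, hHB, hbH, fun h hh => ?_⟩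
      have h2 : b⁻¹ * h * b ∈ H := by
        have h3 : b⁻¹ * h * b = ⁅b⁻¹, h⁆ * h := by rw [commutatorElement_def]; group
        rw [h3]
        exact mul_mem (hCH (hab _ (inv_mem hb) _ (hHB hh))) hh
      have h4 := hc _ h2
      calc h * (b * r * b⁻¹) = b * ((b⁻¹ * h * b) * r) * b⁻¹ := by group
        _ = b * (r * (b⁻¹ * h * b)) * b⁻¹ := by rw [h4]
        _ = b * r * b⁻¹ * h := by group
    exact h1 hx
  by_contra hRS
  have hXne : closure X ≠ R := fun h => hRS (by rw [← h]; exact hXS)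
  obtain ⟨K, ⟨hBK, hXK, hKR⟩, hmax⟩ := WellFounded.has_min
    (wellFounded_gt : WellFounded ((· > ·) : Subgroup G → Subgroup G → Prop))
    {K : Subgroup G | Nz B K ∧ closure X ≤ K ∧ K < R}
    ⟨closure X, hXB, le_rfl, lt_of_le_of_ne hXR hXne⟩
  have hdich : ∀ K' : Subgroup G, Nz B K' → K ≤ K' → K' ≤ R → K' = K ∨ K' = R := by
    intro K' hBK' hKK' hK'R
    by_contra hcon
    push Not at hcon
    exact hmax K' ⟨hBK', hXK.trans hKK', lt_of_le_of_ne hK'R hcon.2⟩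
      (lt_of_le_of_ne hKK' (Ne.symm hcon.1))
  have hnilR : Group.IsNilpotent R := hR.isNilpotent
  -- 1. `K` is normal in `R`
  have hRK : Nz R K := by
    have hBnK : B ≤ normalizer (K : Set G) := nz_iff.1 hBK
    have h1 : Nz B (R ⊓ normalizer (K : Set G)) := by
      refine Nz.inf hn (fun b hb x hx => ?_)
      exact mul_mem (mul_mem (hBnK hb) hx) (inv_mem (hBnK hb))
    rcases hdich _ h1 (le_inf hKR.le (le_normalizer)) inf_le_left with h2 | h2
    · exfalso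
      have h3 : K.subgroupOf R < ⊤ := by
        refine lt_of_le_of_ne le_top (fun h => ?_)
        rw [subgroupOf_eq_top] at h
        exact absurd h hKR.not_ge
      have h4 := Group.normalizerCondition_of_isNilpotent (G := R) _ h3
      obtain ⟨x, hx, hxK⟩ := SetLike.exists_of_lt h4
      apply hxK
      rw [mem_subgroupOf, ← h2]
      refine ⟨x.2, ?_⟩
      show (x : G) ∈ normalizer (K : Set G)
      rw [mem_normalizer_iff]
      rw [mem_normalizer_iff] at hx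
      intro y
      constructor
      · intro hy
        exact (mem_subgroupOf).1 ((hx ⟨y, hKR.le hy⟩).1 ((mem_subgroupOf).2 hy))
      · intro hy
        have hyR : y ∈ R := by
          have h5 : y = x.1⁻¹ * (x.1 * y * x.1⁻¹) * x.1 := by group
          rw [h5]
          exact mul_mem (mul_mem (inv_mem x.2) (hKR.le hy)) x.2
        exact (mem_subgroupOf).1 ((hx ⟨y, hyR⟩).2 ((mem_subgroupOf).2 hy))
    · rw [nz_iff, ← h2]
      exact inf_le_right
  haveI hKn : (K.subgroupOf R).Normal := hRK.subgroupOf_normal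
  have hmk : ∀ x : R, (QuotientGroup.mk' (K.subgroupOf R)) x = 1 ↔ (x : G) ∈ K := by
    intro x
    rw [← MonoidHom.mem_ker, QuotientGroup.ker_mk', mem_subgroupOf]
  have hRR : ⁅R, R⁆ ≤ K := by
    have h1 : Nz B (K ⊔ ⁅R, R⁆) := hBK.sup (nz_comm hn hn)
    rcases hdich _ h1 le_sup_left (sup_le hKR.le (comm_le_left (nz_self R))) with h2 | h2
    · rw [← h2]; exact le_sup_right
    · exfalso
      haveI : Nontrivial (R ⧸ K.subgroupOf R) := by
        obtain ⟨x, hx, hxK⟩ := SetLike.exists_of_lt hKR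
        refine ⟨QuotientGroup.mk' _ ⟨x, hx⟩, 1, fun h => hxK ((hmk _).1 h)⟩
      have h3 := Group.IsSolvable.commutator_lt_top_of_nontrivial (R ⧸ K.subgroupOf R)
      apply h3.ne
      rw [eq_top_iff]
      intro v _
      obtain ⟨x, rfl⟩ := QuotientGroup.mk'_surjective (K.subgroupOf R) v
      have h4 : R ≤ ((_root_.commutator (R ⧸ K.subgroupOf R)).comap
          (QuotientGroup.mk' (K.subgroupOf R))).map R.subtype := by
        refine h2.symm.le.trans (sup_le_iff.2 ?_)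
        constructor
        · intro k hk
          refine ⟨⟨k, hKR.le hk⟩, ?_, rfl⟩
          show QuotientGroup.mk' (K.subgroupOf R) ⟨k, _⟩ ∈ _root_.commutator _
          rw [(hmk ⟨k, hKR.le hk⟩).2 hk]
          exact one_mem _
        · rw [commutator_le]
          intro a ha b hb
          refine ⟨⁅(⟨a, ha⟩ : R), ⟨b, hb⟩⁆, ?_, rfl⟩
          show QuotientGroup.mk' (K.subgroupOf R) ⁅_, _⁆ ∈ _root_.commutator _
          rw [map_commutatorElement]
          exact commutator_mem_commutator (mem_top _) (mem_top _)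
      obtain ⟨y, hy, hyx⟩ := h4 x.2
      have h5 : y = x := Subtype.ext hyx
      rw [h5] at hy
      exact hy
  -- 2. the subgroups `F b`
  have hconjK : ∀ b ∈ B, ∀ r ∈ R, ∀ b' ∈ B, ⁅b, b' * r * b'⁻¹⁆ = b' * ⁅b, r⁆ * b'⁻¹ := by
    intro b hb r hr b' hb'
    have h3 := hC _ (hab _ (inv_mem hb) _ (inv_mem hb')) r hr
    have h4 : b * b' = (b' * b) * ⁅b⁻¹, b'⁻¹⁆ := by
      rw [commutatorElement_def]; group
    have h5 : b * b' * r * (b * b')⁻¹ = b' * b * r * (b' * b)⁻¹ := by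
      rw [h4]
      calc (b' * b) * ⁅b⁻¹, b'⁻¹⁆ * r * ((b' * b) * ⁅b⁻¹, b'⁻¹⁆)⁻¹
          = (b' * b) * (⁅b⁻¹, b'⁻¹⁆ * r) * ⁅b⁻¹, b'⁻¹⁆⁻¹ * (b' * b)⁻¹ := by group
        _ = (b' * b) * (r * ⁅b⁻¹, b'⁻¹⁆) * ⁅b⁻¹, b'⁻¹⁆⁻¹ * (b' * b)⁻¹ := by
            rw [h3]
        _ = _ := by group
    calc ⁅b, b' * r * b'⁻¹⁆ = (b * b' * r * (b * b')⁻¹) * (b' * r⁻¹ * b'⁻¹) := by
          rw [commutatorElement_def]; group
      _ = (b' * b * r * (b' * b)⁻¹) * (b' * r⁻¹ * b'⁻¹) := by rw [h5]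
      _ = b' * ⁅b, r⁆ * b'⁻¹ := by rw [commutatorElement_def]; group
  have hF : ∀ b ∈ B, (¬ ∀ r ∈ R, ⁅b, r⁆ ∈ K) → ∀ r ∈ R, ⁅b, r⁆ ∈ K → r ∈ K := by
    intro b hb hne r hr hbr
    let F : Subgroup G :=
      { carrier := {r | r ∈ R ∧ ⁅b, r⁆ ∈ K}
        one_mem' := ⟨one_mem _, by rw [commutatorElement_one_right]; exact one_mem _⟩
        mul_mem' := by
          rintro x y ⟨hx, hx'⟩ ⟨hy, hy'⟩
          refine ⟨mul_mem hx hy, ?_⟩
          have h1 : ⁅b, x * y⁆ = ⁅b, x⁆ * (x * ⁅b, y⁆ * x⁻¹) := by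
            simp only [commutatorElement_def]; group
          rw [h1]
          exact mul_mem hx' (hRK x hx _ hy')
        inv_mem' := by
          rintro x ⟨hx, hx'⟩
          refine ⟨inv_mem hx, ?_⟩
          have h1 : ⁅b, x⁻¹⁆ = x⁻¹ * ⁅b, x⁆⁻¹ * x⁻¹⁻¹ := by
            simp only [commutatorElement_def]; group
          rw [h1]
          exact hRK _ (inv_mem hx) _ (inv_mem hx') }
    have hFB : Nz B F := by
      rintro b' hb' x ⟨hx, hx'⟩
      refine ⟨hn b' hb' x hx, ?_⟩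
      rw [hconjK b hb x hx b' hb']
      exact hBK b' hb' _ hx'
    have hKF : K ≤ F := by
      intro k hk
      refine ⟨hKR.le hk, ?_⟩
      rw [commutatorElement_def]
      exact mul_mem (hBK b hb k hk) (inv_mem hk)
    rcases hdich F hFB hKF (fun x hx => hx.1) with h1 | h1
    · rw [← h1]; exact ⟨hr, hbr⟩
    · exfalso
      apply hne
      intro x hx
      rw [← h1] at hx
      exact hx.2
  let H : Subgroup G :=
    { carrier := {b | b ∈ B ∧ ∀ r ∈ R, ⁅b, r⁆ ∈ K}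
      one_mem' := ⟨one_mem _, fun r _ => by rw [commutatorElement_one_left]; exact one_mem _⟩
      mul_mem' := by
        rintro x y ⟨hx, hx'⟩ ⟨hy, hy'⟩
        refine ⟨mul_mem hx hy, fun r hr => ?_⟩
        have h1 : ⁅x * y, r⁆ = (x * ⁅y, r⁆ * x⁻¹) * ⁅x, r⁆ := by
          simp only [commutatorElement_def]; group
        rw [h1]
        exact mul_mem (hBK x hx _ (hy' r hr)) (hx' r hr)
      inv_mem' := by
        rintro x ⟨hx, hx'⟩
        refine ⟨inv_mem hx, fun r hr => ?_⟩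
        have h1 : ⁅x⁻¹, r⁆ = x⁻¹ * ⁅x, r⁆⁻¹ * x⁻¹⁻¹ := by
          simp only [commutatorElement_def]; group
        rw [h1]
        exact hBK _ (inv_mem hx) _ (inv_mem (hx' r hr)) }
  have hHmem : ∀ b, b ∈ H ↔ b ∈ B ∧ ∀ r ∈ R, ⁅b, r⁆ ∈ K := fun b => Iff.rfl
  have hHB : H ≤ B := fun b hb => hb.1
  have hCH : C ≤ H := by
    intro c hc
    refine ⟨hCB hc, fun r hr => ?_⟩
    rw [commutatorElement_eq_one_iff_mul_comm.2 (hC c hc r hr)]
    exact one_mem _
  -- 4. `B / H` is cyclic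
  have hcyc : ∃ b ∈ B, B ≤ H ⊔ zpowers b := by
    by_contra hcon
    push Not at hcon
    have h0 : ¬ B ≤ H := fun h => hcon 1 (one_mem B) (h.trans le_sup_left)
    obtain ⟨b₁, hb₁, hb₁H⟩ := SetLike.not_le_iff_exists.1 h0
    obtain ⟨b₂, hb₂, hb₂H⟩ := SetLike.not_le_iff_exists.1 (hcon b₁ hb₁)
    have hb₂p : b₂ ^ p ∈ H := hCH (hexp b₂ hb₂)
    have hcopr : ∀ i, 0 < i → i < p → i.Coprime p := by
      intro i hi0 hip
      rw [Nat.coprime_comm, hp.coprime_iff_not_dvd]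
      exact fun h => absurd (Nat.le_of_dvd hi0 h) (by omega)
    have hq1 : ∀ r ∈ R, r ^ p ∈ K := by
      refine quot_step hp R B C K hn hBK hRK hRR hC hab hexp hF b₁ b₂ hb₁ hb₂ ?_ ?_
      · intro i hi hall
        have h1 : b₁ * b₂ ^ i ∈ H := ⟨mul_mem hb₁ (pow_mem hb₂ i), hall⟩
        rcases Nat.eq_zero_or_pos i with h2 | h2
        · subst h2
          rw [pow_zero, mul_one] at h1
          exact hb₁H h1
        · apply hb₂H
          refine cop_mem _ b₂ i p (hcopr i h2 hi) ?_ (mem_sup_left hb₂p)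
          have h3 : b₂ ^ i = b₁⁻¹ * (b₁ * b₂ ^ i) := by group
          rw [h3]
          exact mul_mem (inv_mem (mem_sup_right (mem_zpowers b₁))) (mem_sup_left h1)
      · intro j hj0 hj hall
        apply hb₂H
        refine cop_mem _ b₂ j p (hcopr j hj0 hj) ?_ (mem_sup_left hb₂p)
        exact mem_sup_left ⟨pow_mem hb₂ j, hall⟩
    apply hKR.not_ge
    intro r hr
    obtain ⟨n, hn'⟩ := hR ⟨r, hr⟩
    have h1 : r ^ q ^ n = 1 := congrArg Subtype.val hn'
    refine cop_mem K r p (q ^ n) ?_ (hq1 r hr) (by rw [h1]; exact one_mem K)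
    exact ((Nat.coprime_primes hp hq).2 hpq.symm).pow_right n
  -- 5.
  apply hKR.not_ge
  intro r hr
  obtain ⟨c, hc1, hc2⟩ := cfix hp H K (hB.to_le hHB)
    (cq_not_dvd hp hq hpq K (hR.to_le hKR.le)) (hBK.mono hHB) r (by
      intro h hh
      have h1 : r⁻¹ * (h * r * h⁻¹) = r⁻¹ * ⁅h, r⁆ * r⁻¹⁻¹ := by
        rw [commutatorElement_def]; group
      rw [h1]
      exact hRK _ (inv_mem hr) _ (hh.2 r hr))
  have hcR : c ∈ R := by
    have h1 : c = r * (r⁻¹ * c) := by group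
    rw [h1]
    exact mul_mem hr (hKR.le hc1)
  have hcK : c ∈ K := hXK (subset_closure ⟨hcR, H, hCH, hHB, hcyc, hc2⟩)
  have h1 : r = c * (r⁻¹ * c)⁻¹ := by group
  rw [h1]
  exact mul_mem hcK (inv_mem hc1)

end Pool.Agent.Work.MP_b44cb1_al.HH
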