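import Pool.Agent.Work.MP_b44cb1_al.HH.Core

/-!
# HH/PLen (size S) : series

* `pl_step`: given the series `N' i` of `G ⧸ N`, take `N 0 = ⊥`, `N (i+1) = (N' i).comap (mk' N)`.
  (`N 1 = comap ⊥ = N`; comap of a normal subgroup is normal; the factor conditions pull back.)
* `pl_zero`: trivial group, constant series.
* `pl_mono`: extend the series by `⊤` (put `N' i = if i ≤ m then N i else ⊤`).
-/

set_option autoImplicit false

namespace Pool.Agent.Work.MP_b44cb1_al.HH

open Subgroup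

theorem pl_step {G : Type*} [Group G] {p m : ℕ} (N : Subgroup G) [N.Normal]
    (h : (∀ g ∈ N, ∃ a : ℕ, g ^ p ^ a = 1) ∨ (∀ g ∈ N, ∃ a : ℕ, ¬ p ∣ a ∧ g ^ a = 1))
    (hq : PL p m (G ⧸ N)) : PL p (m + 1) G := by
  obtain ⟨N', h0, hm, hN⟩ := hq
  refine ⟨fun i => Nat.casesOn i ⊥ (fun j => (N' j).comap (QuotientGroup.mk' N)), rfl, ?_, ?_⟩
  · show (N' m).comap (QuotientGroup.mk' N) = ⊤
    rw [hm, Subgroup.comap_top]
  · intro i hi
    have hcomap0 : (N' 0).comap (QuotientGroup.mk' N) = N := by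
      rw [h0, MonoidHom.comap_bot, QuotientGroup.ker_mk']
    rcases i with _ | j
    · refine ⟨Subgroup.normal_bot, ?_, bot_le, ?_⟩
      · show ((N' 0).comap (QuotientGroup.mk' N)).Normal
        rw [hcomap0]
        infer_instance
      · show ((∀ g ∈ (N' 0).comap (QuotientGroup.mk' N), ∃ a : ℕ, g ^ p ^ a ∈ (⊥ : Subgroup G)) ∨
          (∀ g ∈ (N' 0).comap (QuotientGroup.mk' N), ∃ a : ℕ, ¬ p ∣ a ∧ g ^ a ∈ (⊥ : Subgroup G)))
        rw [hcomap0]
        simpa only [Subgroup.mem_bot] using h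
    · have hj : j < m := by omega
      obtain ⟨h1, h2, h3, h4⟩ := hN j hj
      refine ⟨h1.comap _, h2.comap _, Subgroup.comap_mono h3, ?_⟩
      rcases h4 with h4 | h4
      · left
        intro g hg
        obtain ⟨a, ha⟩ := h4 (QuotientGroup.mk' N g) hg
        refine ⟨a, ?_⟩
        show QuotientGroup.mk' N (g ^ p ^ a) ∈ N' j
        rw [map_pow]
        exact ha
      · right
        intro g hg
        obtain ⟨a, ha1, ha⟩ := h4 (QuotientGroup.mk' N g) hg
        refine ⟨a, ha1, ?_⟩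
        show QuotientGroup.mk' N (g ^ a) ∈ N' j
        rw [map_pow]
        exact ha

theorem pl_zero {G : Type*} [Group G] (p : ℕ) (h : (⊤ : Subgroup G) = ⊥) : PL p 0 G :=
  ⟨fun _ => ⊥, rfl, h.symm, fun i hi => absurd hi (Nat.not_lt_zero i)⟩

theorem pl_mono {G : Type*} [Group G] {p m m' : ℕ} (hp : p.Prime) (h : m ≤ m') (hq : PL p m G) :
    PL p m' G := by
  obtain ⟨N, h0, hm, hN⟩ := hq
  refine ⟨fun i => if i ≤ m then N i else ⊤, ?_, ?_, ?_⟩
  · simp [h0]
  · show (if m' ≤ m then N m' else ⊤) = ⊤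
    split_ifs with h1
    · rw [le_antisymm h1 h, hm]
    · rfl
  · intro i _
    rcases lt_or_ge i m with h1 | h1
    · have e1 : (if i ≤ m then N i else ⊤) = N i := if_pos h1.le
      have e2 : (if i + 1 ≤ m then N (i + 1) else ⊤) = N (i + 1) := if_pos h1
      simp only [e1, e2]
      exact hN i h1
    · have e1 : (if i ≤ m then N i else ⊤) = ⊤ := by
        split_ifs with h2
        · rw [le_antisymm h2 h1, hm]
        · rfl
      have e2 : (if i + 1 ≤ m then N (i + 1) else ⊤) = ⊤ := if_neg (by omega)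
      simp only [e1, e2]
      exact ⟨inferInstance, inferInstance, le_refl _, Or.inl fun g _ => ⟨0, Subgroup.mem_top _⟩⟩

end Pool.Agent.Work.MP_b44cb1_al.HH
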