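import Pool.Agent.Work.MP_b44cb1_al.HH.ExMod
import Pool.Agent.Work.MP_b44cb1_al.HH.Pw
import Pool.Agent.Work.MP_b44cb1_al.HH.HBC

/-!
# HH/PartTwo (size S-M) : `y^n ∈ O_p(G)`, `n = p^k`

Let `N = core {p} G`, `Γ = G ⧸ N`, `y' = mk y`, `z' = y'^(p^k)`, and suppose `z' ≠ 1`. By `fit_S2` in `Γ`
(`core {p} Γ = ⊥`), `z'` does not centralise some `Q = core {q} Γ`, `q ≠ p`; let `a ∈ Q` with
`x = ⁅a, z'⁆ ≠ 1`, a `q`-element. `ex_mod` gives `V`, `ρ`, `K`, `π` with `ρ x ≠ 1`. `hb` (field `ZMod p`,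
group `Γ`, `R₀ = Q`) gives `(ρ y' - 1)^(2 p^k - 1) ≠ 0`. This is
`(ρ z' - 1) (ρ y' - 1)^(p^k - 1) = (ρ z' - 1) ∑_{i < p^k} (ρ y')^i` (`geo_pow`, `geo_sum`). Choose `v` not
killed, `t ∈ K` with `π t = v`. By `pw`: `(t y)^(p^k) = κ z`, `z = y^(p^k)`, `π κ = ∑ (ρ y')^i v`.
`t y` and `y` are in the `p`-group `⟨y⟩ ⊔ N`, so `⁅y^(p^k), (t y)^(p^k)⁆ = 1` by `hcomm`, i.e. `z` commutes
with `κ z`, hence with `κ`: `z κ z⁻¹ = κ`, so `(ρ z' - 1) (π κ) = 0`: contradiction.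
-/

set_option autoImplicit false

namespace Pool.Agent.Work.MP_b44cb1_al.HH

open Subgroup
open scoped commutatorElement

theorem part_two {G : Type} [Group G] [Finite G] (hs : Group.IsSolvable G) {p : ℕ}
    (hp : p.Prime) (hp2 : p ≠ 2) (hc : core {l | l ≠ p} G = ⊥) (k : ℕ)
    (hexp : ExpP p (p ^ (k + 1)) G)
    (hcomm : ∀ P : Subgroup G, IsPGroup p P → ∀ x ∈ P, ∀ y ∈ P, ⁅x ^ p ^ k, y ^ p ^ k⁆ = 1) :
    ∀ y : G, PEl p y → y ^ p ^ k ∈ core {p} G := by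
  intro y hy
  have : Fact p.Prime := ⟨hp⟩
  have hN : IsPGroup p (core {p} G) := core_p hp
  have hsq : Group.IsSolvable (G ⧸ core {p} G) := by
    have := hs
    infer_instance
  by_contra hne
  set y' : G ⧸ core {p} G := QuotientGroup.mk y with hy'
  have hz1 : y' ^ p ^ k ≠ 1 := by
    intro h
    rw [hy', ← QuotientGroup.mk_pow, QuotientGroup.eq_one_iff] at h
    exact hne h
  have hyexp : y' ^ p ^ (k + 1) = 1 := by
    rw [hy', ← QuotientGroup.mk_pow, hexp y hy, QuotientGroup.mk_one]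
  have hzp : PEl p (y' ^ p ^ k) := ⟨1, by rw [← pow_mul, ← pow_add, hyexp]⟩
  -- `z'` does not centralise some `core {q}`
  obtain ⟨q, hq, a, ha, hza⟩ : ∃ q : ℕ, q.Prime ∧ ∃ a ∈ core {q} (G ⧸ core {p} G),
      y' ^ p ^ k * a ≠ a * y' ^ p ^ k := by
    by_contra hall
    push Not at hall
    have h1 := fit_S2 hsq hp _ hall hzp
    rw [core_quot, mem_bot] at h1
    exact hz1 h1
  have hqp : q ≠ p := by
    rintro rfl
    rw [core_quot, mem_bot] at ha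
    rw [ha, mul_one, one_mul] at hza
    exact hza rfl
  have hQ : IsPGroup q (core {q} (G ⧸ core {p} G)) := core_p hq
  have hcon : ∀ (g : G ⧸ core {p} G), ∀ b ∈ core {q} (G ⧸ core {p} G),
      g * b * g⁻¹ ∈ core {q} (G ⧸ core {p} G) :=
    fun g b hb => (core_normal {q} (G ⧸ core {p} G)).conj_mem b hb g
  have hx : ⁅a, y' ^ p ^ k⁆ ∈ core {q} (G ⧸ core {p} G) := by
    rw [commutatorElement_def, mul_assoc, mul_assoc]
    refine Subgroup.mul_mem _ ha ?_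
    rw [← mul_assoc]
    exact hcon _ _ (Subgroup.inv_mem _ ha)
  have hx1 : ⁅a, y' ^ p ^ k⁆ ≠ 1 := by
    intro h
    exact hza (commutatorElement_eq_one_iff_mul_comm.1 h).symm
  have hxq : PEl q ⁅a, y' ^ p ^ k⁆ := by
    obtain ⟨j, hj⟩ := hQ ⟨_, hx⟩
    exact ⟨j, congrArg Subtype.val hj⟩
  obtain ⟨V, i1, i2, i3, ρ, K, π, hKN, hK, hsurj, hπ, hρ⟩ := ex_mod hs hp hq hqp hc _ hx1 hxq
  have hfin : FiniteDimensional (ZMod p) V := Module.Finite.of_finite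
  have hhb := hb hp hp2 hq hqp ρ k (core {q} (G ⧸ core {p} G)) hQ y' hyexp (hcon y') a ha hρ
  have hpk : 0 < p ^ k := pow_pos hp.pos k
  have hsplit : (ρ y' - 1) ^ (2 * p ^ k - 1) =
      ((ρ y') ^ p ^ k - 1) * ∑ i ∈ Finset.range (p ^ k), (ρ y') ^ i := by
    rw [← geo_pow (F := ZMod p) hp (ρ y') k, ← geo_sum (F := ZMod p) hp (ρ y') k, ← pow_add]
    congr 1
    omega
  rw [hsplit] at hhb
  obtain ⟨v, hv⟩ : ∃ v, (((ρ y') ^ p ^ k - 1) * ∑ i ∈ Finset.range (p ^ k), (ρ y') ^ i) v ≠ 0 := by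
    by_contra hall
    push Not at hall
    exact hhb (LinearMap.ext hall)
  obtain ⟨t, ht⟩ := hsurj (Multiplicative.ofAdd v)
  obtain ⟨κ, h1, h2⟩ := pw (ρ.comp (QuotientGroup.mk' (core {p} G))) K hK π hπ t y (p ^ k)
  have h3 := zp_sup (core {p} G) hN y hy
  have h4 : (t : G) * y ∈ zpowers y ⊔ core {p} G :=
    (zpowers y ⊔ core {p} G).mul_mem (mem_sup_right (hKN t.2)) (mem_sup_left (mem_zpowers y))
  have h5 := hcomm _ h3 y (mem_sup_left (mem_zpowers y)) _ h4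
  rw [h1, commutatorElement_eq_one_iff_mul_comm] at h5
  have h6 : (κ : G) = y ^ p ^ k * κ * (y ^ p ^ k)⁻¹ := by
    rw [eq_mul_inv_iff_mul_eq]
    refine mul_right_cancel (b := y ^ p ^ k) ?_
    rw [mul_assoc (y ^ p ^ k)]
    exact h5.symm
  have h7 := hπ (y ^ p ^ k) κ κ h6
  rw [ht, toAdd_ofAdd] at h2
  apply hv
  rw [Module.End.mul_apply]
  change ((ρ y') ^ p ^ k - 1) ((∑ i ∈ Finset.range (p ^ k), (ρ y') ^ i) v) = 0
  have h8 : (∑ i ∈ Finset.range (p ^ k), (ρ y') ^ i) v = Multiplicative.toAdd (π κ) := h2.symm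
  rw [h8, LinearMap.sub_apply, Module.End.one_apply, sub_eq_zero, ← map_pow]
  exact h7.symm

end Pool.Agent.Work.MP_b44cb1_al.HH
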