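import Pool.Agent.Work.MP_b44cb1_al.HH.PartOne
import Pool.Agent.Work.MP_b44cb1_al.HH.PartTwo
import Pool.Agent.Work.MP_b44cb1_al.HH.PLen
import Pool.Agent.Work.MP_b44cb1_al.HH.Lift

/-!
# HH/Iter (size S-M) : the induction

Induction on `k`, for all `G : Type`. `k = 0`: all `p`-elements are trivial, so `G` is trivial
(`triv_of_noP`): `pl_zero`.
`k + 1`: `G₁ = G ⧸ core {p} G`, `G₂ = G₁ ⧸ core {l | l ≠ p} G₁`, `G₃ = G₂ ⧸ core {p} G₂`,
`G₄ = G₃ ⧸ core {l | l ≠ p} G₃`. `core {l | l ≠ p} G₂ = ⊥` and `core {l | l ≠ p} G₄ = ⊥` (`core_quot`).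
`part_one` for `G` and `comm_map` (`f : G → G₂`, `N = core {p} G`) give `hcomm` for `G₂`; `exp_map` gives
`hexp` for `G₂`; `part_two` for `G₂`: `y^(p^k) ∈ core {p} G₂` for all `p`-elements `y ∈ G₂`. A `p`-element
of `G₄` lifts to a `p`-element of `G₂` (`lift_el`), so `ExpP p (p^k) G₄`. By induction
`PL p (4 k) G₄`, and four times `pl_step` (`core_p`, `core_p'`). All groups are solvable.
-/

set_option autoImplicit false

namespace Pool.Agent.Work.MP_b44cb1_al.HH

open Subgroup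

private theorem iter_core {G : Type*} [Group G] [Finite G] {p : ℕ} (hp : p.Prime) :
    ∀ g ∈ core {p} G, ∃ a : ℕ, g ^ p ^ a = 1 := by
  intro g hg
  obtain ⟨a, ha⟩ := core_p (G := G) hp ⟨g, hg⟩
  exact ⟨a, congrArg Subtype.val ha⟩

private theorem iter_solv {G : Type*} [Group G] (hs : Group.IsSolvable G) (N : Subgroup G)
    [N.Normal] : Group.IsSolvable (G ⧸ N) := by
  have := hs
  infer_instance

theorem iter {p : ℕ} (hp : p.Prime) (hp2 : p ≠ 2) (k : ℕ) : ∀ (G : Type) [Group G] [Finite G],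
    Group.IsSolvable G → core {l | l ≠ p} G = ⊥ → ExpP p (p ^ k) G → PL p (4 * k) G := by
  induction k with
  | zero =>
    intro G _ _ _ hc he
    refine pl_zero p (triv_of_noP hp hc fun g hg => ?_)
    have h := he g hg
    rwa [pow_zero, pow_one] at h
  | succ k ih =>
    intro G _ _ hs hc he
    have hs1 := iter_solv hs (core {p} G)
    have hs2 := iter_solv hs1 (core {l | l ≠ p} (G ⧸ core {p} G))
    have hs3 := iter_solv hs2 (core {p} ((G ⧸ core {p} G) ⧸ core {l | l ≠ p} (G ⧸ core {p} G)))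
    have hs4 := iter_solv hs3 (core {l | l ≠ p} (((G ⧸ core {p} G) ⧸
      core {l | l ≠ p} (G ⧸ core {p} G)) ⧸
      core {p} ((G ⧸ core {p} G) ⧸ core {l | l ≠ p} (G ⧸ core {p} G))))
    -- the map `G → G₂`
    have hf : Function.Surjective ((QuotientGroup.mk'
        (core {l | l ≠ p} (G ⧸ core {p} G))).comp (QuotientGroup.mk' (core {p} G))) :=
      (QuotientGroup.mk'_surjective _).comp (QuotientGroup.mk'_surjective _)
    have hexp := exp_map hp _ hf he
    have hcomm := comm_map hp _ hf (core {p} G) (fun g hg => by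
      rw [MonoidHom.comp_apply, (QuotientGroup.eq_one_iff (N := core {p} G) g).2 hg |>
        (fun h => (h : QuotientGroup.mk' (core {p} G) g = 1)), map_one])
      (part_one hs hp hp2 hc k he)
    have hc2 := core_quot {l | l ≠ p} (G ⧸ core {p} G)
    have h2 := part_two hs2 hp hp2 hc2 k hexp hcomm
    -- the map `G₂ → G₄`
    have hf' : Function.Surjective ((QuotientGroup.mk' (core {l | l ≠ p}
        (((G ⧸ core {p} G) ⧸ core {l | l ≠ p} (G ⧸ core {p} G)) ⧸
        core {p} ((G ⧸ core {p} G) ⧸ core {l | l ≠ p} (G ⧸ core {p} G))))).comp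
        (QuotientGroup.mk' (core {p} ((G ⧸ core {p} G) ⧸
          core {l | l ≠ p} (G ⧸ core {p} G))))) :=
      (QuotientGroup.mk'_surjective _).comp (QuotientGroup.mk'_surjective _)
    have hexp4 : ExpP p (p ^ k) ((((G ⧸ core {p} G) ⧸ core {l | l ≠ p} (G ⧸ core {p} G)) ⧸
        core {p} ((G ⧸ core {p} G) ⧸ core {l | l ≠ p} (G ⧸ core {p} G))) ⧸
        core {l | l ≠ p} (((G ⧸ core {p} G) ⧸ core {l | l ≠ p} (G ⧸ core {p} G)) ⧸
        core {p} ((G ⧸ core {p} G) ⧸ core {l | l ≠ p} (G ⧸ core {p} G)))) := by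
      intro h hh
      obtain ⟨g, hg, rfl⟩ := lift_el hp _ hf' h hh
      rw [← map_pow, MonoidHom.comp_apply]
      have h3 : QuotientGroup.mk' (core {p} ((G ⧸ core {p} G) ⧸
          core {l | l ≠ p} (G ⧸ core {p} G))) (g ^ p ^ k) = 1 :=
        (QuotientGroup.eq_one_iff _).2 (h2 g hg)
      rw [h3, map_one]
    have h4 := ih _ hs4 (core_quot {l | l ≠ p} (((G ⧸ core {p} G) ⧸
      core {l | l ≠ p} (G ⧸ core {p} G)) ⧸
      core {p} ((G ⧸ core {p} G) ⧸ core {l | l ≠ p} (G ⧸ core {p} G)))) hexp4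
    exact pl_step _ (Or.inl (iter_core hp)) (pl_step _ (Or.inr (core_p' hp))
      (pl_step _ (Or.inl (iter_core hp)) (pl_step _ (Or.inr (core_p' hp)) h4)))

end Pool.Agent.Work.MP_b44cb1_al.HH
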