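import Pool.Agent.Work.MP_b44cb1_al.HH.ThmA
import Pool.Agent.Work.MP_b44cb1_al.HH.ExMod
import Pool.Agent.Work.MP_b44cb1_al.HH.Pw
import Pool.Agent.Work.MP_b44cb1_al.HH.HBC

/-!
# HH/PartOne (size S-M) : `⁅g^n, h^n⁆ ∈ O_p(G)`, `n = p^k`

Let `N = core {p} G`, `Γ = G ⧸ N`, `P' = P.map (mk' N)`, `q ≠ p` prime, `Q = core {q} Γ`.
`part_one_ab`: hypothesis `hA` of `thmA` for `P'`, `Q`: let `g' = mk g`, `g ∈ P`, `A ≤ Q` commutative with
`cj g' A = A`, `a ∈ A`. Suppose `a` does not commute with `z' = g'^(p^k)`; `x = ⁅a, z'⁆ ∈ A`, `x ≠ 1`, a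
`q`-element. `ex_mod` gives `V`, `ρ`, `K`, `π` with `ρ x ≠ 1`; `fo'` (field `ZMod p`, group `Γ`; `g'^(p^(k+1)) = 1`
by `hexp`) gives `∑_{i<p^(k+1)} (ρ g')^i ≠ 0`: let `v` with image `≠ 0`, `π t = v`, `t ∈ K ≤ N`. By `pw` (for
`ρ.comp (mk' N)`), `(t g)^(p^(k+1)) = κ g^(p^(k+1))` with `π κ ≠ 0`. But `t g` and `g` are `p`-elements
(`zp_sup`: `⟨g⟩ ⊔ N` is a `p`-group), so both powers are `1` by `hexp` and `κ = 1`: contradiction.
`part_one`: for `q ≠ p`, `thmA` shows that `x = ⁅g'^n, h'^n⁆` centralises `core {q} Γ`; for `q = p`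
`core {p} Γ = ⊥` (`core_quot`). `x ∈ P'` is a `p`-element, so by `fit_S2` (`Γ` is solvable)
`x ∈ core {p} Γ = ⊥`, i.e. `⁅g^n, h^n⁆ ∈ N`.
-/

set_option autoImplicit false

namespace Pool.Agent.Work.MP_b44cb1_al.HH

open Subgroup
open scoped commutatorElement

theorem part_one_ab {G : Type} [Group G] [Finite G] (hs : Group.IsSolvable G) {p q : ℕ}
    (hp : p.Prime) (hq : q.Prime) (hpq : q ≠ p) (hc : core {l | l ≠ p} G = ⊥) (k : ℕ)
    (hexp : ExpP p (p ^ (k + 1)) G) (g : G) (hg : PEl p g) (A : Subgroup (G ⧸ core {p} G))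
    (hAq : IsPGroup q A) (hA : Cz A A) (hgA : cj (QuotientGroup.mk g) A = A) :
    ∀ a ∈ A, (QuotientGroup.mk g : G ⧸ core {p} G) ^ p ^ k * a =
      a * (QuotientGroup.mk g : G ⧸ core {p} G) ^ p ^ k := by
  intro a ha
  by_contra hne
  have : Fact p.Prime := ⟨hp⟩
  have hN : IsPGroup p (core {p} G) := core_p hp
  -- `g'` normalises `A`
  have hcon : ∀ (m : ℕ), ∀ b ∈ A, (QuotientGroup.mk g : G ⧸ core {p} G) ^ m * b *
      ((QuotientGroup.mk g : G ⧸ core {p} G) ^ m)⁻¹ ∈ A := by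
    have h1 : ∀ b ∈ A, (QuotientGroup.mk g : G ⧸ core {p} G) * b *
        (QuotientGroup.mk g : G ⧸ core {p} G)⁻¹ ∈ A := by
      intro b hb
      rw [← hgA]
      exact ⟨b, hb, rfl⟩
    intro m
    induction m with
    | zero => intro b hb; simpa using hb
    | succ m ih =>
      intro b hb
      have h2 := h1 _ (ih b hb)
      rw [pow_succ', mul_inv_rev]
      simpa [mul_assoc] using h2
  set g' : G ⧸ core {p} G := QuotientGroup.mk g with hg'
  have hx : ⁅a, g' ^ p ^ k⁆ ∈ A := by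
    rw [commutatorElement_def, mul_assoc, mul_assoc]
    refine A.mul_mem ha ?_
    rw [← mul_assoc]
    exact hcon _ _ (A.inv_mem ha)
  have hx1 : ⁅a, g' ^ p ^ k⁆ ≠ 1 := by
    intro h
    exact hne (commutatorElement_eq_one_iff_mul_comm.1 h).symm
  have hxq : PEl q ⁅a, g' ^ p ^ k⁆ := by
    obtain ⟨j, hj⟩ := hAq ⟨_, hx⟩
    exact ⟨j, congrArg Subtype.val hj⟩
  obtain ⟨V, i1, i2, i3, ρ, K, π, hKN, hK, hsurj, hπ, hρ⟩ := ex_mod hs hp hq hpq hc _ hx1 hxq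
  have hfin : FiniteDimensional (ZMod p) V := Module.Finite.of_finite
  have hfo := fo' hp ρ A (fun a ha b hb => by rw [hA a ha b hb]) (fun b hb => by
      obtain ⟨j, hj⟩ := hAq ⟨b, hb⟩
      refine ⟨q ^ j, fun hd => hpq ?_, congrArg Subtype.val hj⟩
      exact ((Nat.prime_dvd_prime_iff_eq hp hq).1 (hp.dvd_of_dvd_pow hd)).symm) k g'
    (fun b hb => by simpa using hcon 1 b hb) (by
      have := hexp g hg
      rw [hg', ← QuotientGroup.mk_pow, this, QuotientGroup.mk_one]) a ha hρ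
  obtain ⟨v, hv⟩ : ∃ v, (∑ i ∈ Finset.range (p ^ (k + 1)), (ρ g') ^ i) v ≠ 0 := by
    by_contra hall
    push Not at hall
    exact hfo (LinearMap.ext hall)
  obtain ⟨t, ht⟩ := hsurj (Multiplicative.ofAdd v)
  obtain ⟨κ, h1, h2⟩ := pw (ρ.comp (QuotientGroup.mk' (core {p} G))) K hK π hπ t g (p ^ (k + 1))
  have htg : PEl p ((t : G) * g) := by
    have h3 := zp_sup (core {p} G) hN g hg
    have h4 : (t : G) * g ∈ zpowers g ⊔ core {p} G :=
      (zpowers g ⊔ core {p} G).mul_mem (mem_sup_right (hKN t.2))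
        (mem_sup_left (mem_zpowers g))
    obtain ⟨j, hj⟩ := h3 ⟨_, h4⟩
    exact ⟨j, congrArg Subtype.val hj⟩
  rw [hexp _ htg, hexp g hg, mul_one] at h1
  have hκ : κ = 1 := Subtype.ext h1.symm
  rw [hκ, map_one, toAdd_one, ht, toAdd_ofAdd] at h2
  exact hv h2.symm

theorem part_one {G : Type} [Group G] [Finite G] (hs : Group.IsSolvable G) {p : ℕ}
    (hp : p.Prime) (hp2 : p ≠ 2) (hc : core {l | l ≠ p} G = ⊥) (k : ℕ)
    (hexp : ExpP p (p ^ (k + 1)) G) :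
    ∀ P : Subgroup G, IsPGroup p P → ∀ x ∈ P, ∀ y ∈ P, ⁅x ^ p ^ k, y ^ p ^ k⁆ ∈ core {p} G := by
  intro P hP x hx y hy
  let f : G →* G ⧸ core {p} G := QuotientGroup.mk' (core {p} G)
  have hel : ∀ g ∈ P, PEl p g := by
    intro g hg
    obtain ⟨j, hj⟩ := hP ⟨g, hg⟩
    exact ⟨j, congrArg Subtype.val hj⟩
  have hP' : IsPGroup p (P.map f) := hP.map f
  have hsq : Group.IsSolvable (G ⧸ core {p} G) := by
    have := hs
    infer_instance
  have hcent : ∀ q : ℕ, q.Prime → ∀ a ∈ core {q} (G ⧸ core {p} G),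
      ⁅f x ^ p ^ k, f y ^ p ^ k⁆ * a = a * ⁅f x ^ p ^ k, f y ^ p ^ k⁆ := by
    intro q hq a ha
    by_cases hqp : q = p
    · subst hqp
      rw [core_quot, mem_bot] at ha
      rw [ha, mul_one, one_mul]
    · refine thmA hp hp2 hq hqp k (P.map f) (core {q} (G ⧸ core {p} G)) hP' (core_p hq) ?_ ?_ ?_
        (f x) ⟨x, hx, rfl⟩ (f y) ⟨y, hy, rfl⟩ a ha
      · intro g _ d hd
        exact (core_normal {q} (G ⧸ core {p} G)).conj_mem d hd g
      · rintro _ ⟨g, hg, rfl⟩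
        rw [← map_pow, hexp g (hel g hg), map_one]
      · rintro _ ⟨g, hg, rfl⟩ A hAQ hA hgA b hb
        exact part_one_ab hs hp hq hqp hc k hexp g (hel g hg) A ((core_p hq).to_le hAQ) hA hgA b hb
  have hX : ⁅f x ^ p ^ k, f y ^ p ^ k⁆ ∈ P.map f := by
    have : ⁅x ^ p ^ k, y ^ p ^ k⁆ ∈ P := by
      rw [commutatorElement_def]
      exact P.mul_mem (P.mul_mem (P.mul_mem (P.pow_mem hx _) (P.pow_mem hy _))
        (P.inv_mem (P.pow_mem hx _))) (P.inv_mem (P.pow_mem hy _))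
    refine ⟨_, this, ?_⟩
    rw [map_commutatorElement, map_pow, map_pow]
  have hXp : PEl p ⁅f x ^ p ^ k, f y ^ p ^ k⁆ := by
    obtain ⟨j, hj⟩ := hP' ⟨_, hX⟩
    exact ⟨j, congrArg Subtype.val hj⟩
  have h1 := fit_S2 hsq hp _ hcent hXp
  rw [core_quot, mem_bot] at h1
  rw [← QuotientGroup.eq_one_iff]
  change f _ = 1
  rw [map_commutatorElement, map_pow, map_pow]
  exact h1

end Pool.Agent.Work.MP_b44cb1_al.HH
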