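import Pool.Agent.Work.MP_b44cb1_al.HH.WtLI

/-!
# HH/Quad : definitions of scalar elements and the hypotheses `QH`

`R` acts (through `ρ : Γ → E`, `E` an `F`-algebra) as a class two group with scalar commutators,
nondegenerate (`nd`), and `z` acts fixed point freely modulo scalars (`fpf`), `z^p = 1`.
`resRep`: restriction of a representation to an invariant subspace.
-/

set_option autoImplicit false

namespace Pool.Agent.Work.MP_b44cb1_al.HH

open Subgroup
open scoped commutatorElement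

/-- `e` is a scalar. -/
def Sc (F : Type*) {E : Type*} [Field F] [Ring E] [Algebra F E] (e : E) : Prop :=
  ∃ c : F, e = algebraMap F E c

/-- The hypotheses of the class two situation. -/
structure QH (F : Type*) {E Γ : Type*} [Field F] [Ring E] [Algebra F E] [Group Γ] (ρ : Γ →* E)
    (R : Subgroup Γ) (z : Γ) (p : ℕ) : Prop where
  zp : z ^ p = 1
  zR : ∀ r ∈ R, z * r * z⁻¹ ∈ R
  cl2 : ∀ r ∈ R, ∀ r' ∈ R, Sc F (ρ ⁅r, r'⁆)
  nd : ∀ r ∈ R, (∀ r' ∈ R, ρ ⁅r, r'⁆ = 1) → Sc F (ρ r)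
  fpf : ∀ r ∈ R, Sc F (ρ ⁅z, r⁆) → Sc F (ρ r)

/-- Restriction of a representation to an invariant subspace. -/
def resRep {F V Γ : Type*} [Field F] [AddCommGroup V] [Module F V] [Group Γ]
    (ρ : Γ →* (V →ₗ[F] V)) (U : Submodule F V) (L : Subgroup Γ)
    (hL : ∀ h ∈ L, ∀ v ∈ U, ρ h v ∈ U) : L →* (U →ₗ[F] U) where
  toFun h := (ρ h).restrict (hL h h.2)
  map_one' := by ext v; simp
  map_mul' a b := by ext v; simp

theorem resRep_apply {F V Γ : Type*} [Field F] [AddCommGroup V] [Module F V] [Group Γ]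
    (ρ : Γ →* (V →ₗ[F] V)) (U : Submodule F V) (L : Subgroup Γ)
    (hL : ∀ h ∈ L, ∀ v ∈ U, ρ h v ∈ U) (h : L) (v : U) :
    ((resRep ρ U L hL h v : U) : V) = ρ h v := rfl

end Pool.Agent.Work.MP_b44cb1_al.HH
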