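import Pool.Agent.Work.MP_b44cb1_al.HH.Quad

/-!
# HH/QuadA (size M) : quadratic action, first part

Write `r ~ r'` if `Sc (ρ (r⁻¹ r'))` (equivalently `Sc (ρ (r' r⁻¹))`); for `r, r' ∈ R`.
* `sc_*`: products and inverses of scalars `ρ r` are scalars; `Sc (ρ (h r h⁻¹)) ↔ Sc (ρ r)`.
* `wt`: for `s, r' ∈ R`: `ρ (r' s r'⁻¹) = χ_s(r') • ρ s`, `χ_s(r')` the scalar of `ρ ⁅r', s⁆`;
  `χ_s = χ_{s'}` iff `s ~ s'` (if `ρ ⁅r', s⁆ = ρ ⁅r', s'⁆` for all `r' ∈ R` then `ρ ⁅r', s s'⁻¹⁆ = 1` for all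
  `r'`, class two, and `nd`). So by `weight_li` (with `act r' e = ρ r' e ρ r'⁻¹`, an `F`-linear map on
  `E`) elements `c_i ρ(s_i)` with pairwise inequivalent `s_i` and sum zero are all zero; and
  `ρ s ≠ 0` (unit, `E` nontrivial).
* `z_ne`: if `r ∈ R` is not scalar then `z r z⁻¹ ≁ r` (`fpf`) and `z r z⁻¹ ≁ r⁻¹`: otherwise
  `z² r z⁻² ~ r`, and as `z^p = 1`, `p` odd, `z r z⁻¹ = z^(p+1) r z^-(p+1) ~ r`.
* Main computation: let `r ∈ R`, `s = ⁅z, r⁆ = z (r z⁻¹ r⁻¹)`, `a = ρ z - 1`, `b = ρ(r z r⁻¹) - 1`;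
  `a² = b² = 0`; `ρ z⁻¹ = 1 - a`, `ρ (r z⁻¹ r⁻¹) = 1 - b`; `ρ s = (1+a)(1-b)`, `ρ s⁻¹ = (1+b)(1-a)`;
  `ρ s + ρ s⁻¹ = 2 - a b - b a` commutes with `a`, hence with `ρ z`. So
  `ρ s + ρ s⁻¹ = ρ (z s z⁻¹) + ρ (z s⁻¹ z⁻¹)`.
* If `r` is not scalar then `s` is not scalar (`fpf`). If `s ≁ s⁻¹` then `s, s⁻¹, z s z⁻¹, z s⁻¹ z⁻¹` are
  pairwise inequivalent (`z_ne`) and `weight_li` gives `ρ s = 0`, contradiction. So `s ~ s⁻¹`, and
  `(ρ s + ρ s⁻¹) - (ρ (z s z⁻¹) + ρ (z s⁻¹ z⁻¹)) = 0` is a relation between the two inequivalent classes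
  of `s` and `z s z⁻¹`, so `ρ s + ρ s⁻¹ = 0`, i.e. `ρ (s s) = -1`.
-/

set_option autoImplicit false

namespace Pool.Agent.Work.MP_b44cb1_al.HH

open Subgroup
open scoped commutatorElement

theorem sc_mul {F E Γ : Type*} [Field F] [Ring E] [Algebra F E] [Group Γ] (ρ : Γ →* E) {a b : Γ}
    (ha : Sc F (ρ a)) (hb : Sc F (ρ b)) : Sc F (ρ (a * b)) := by
  obtain ⟨c, hc⟩ := ha
  obtain ⟨d, hd⟩ := hb
  exact ⟨c * d, by rw [map_mul, hc, hd, map_mul]⟩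

private theorem rho_mul_inv {E Γ : Type*} [Ring E] [Group Γ] (ρ : Γ →* E) (a : Γ) :
    ρ a * ρ a⁻¹ = 1 := by rw [← map_mul, mul_inv_cancel, map_one]

private theorem rho_inv_mul {E Γ : Type*} [Ring E] [Group Γ] (ρ : Γ →* E) (a : Γ) :
    ρ a⁻¹ * ρ a = 1 := by rw [← map_mul, inv_mul_cancel, map_one]

theorem sc_inv {F E Γ : Type*} [Field F] [Ring E] [Nontrivial E] [Algebra F E] [Group Γ]
    (ρ : Γ →* E) {a : Γ} (ha : Sc F (ρ a)) : Sc F (ρ a⁻¹) := by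
  obtain ⟨c, hc⟩ := ha
  have h1 := rho_mul_inv ρ a
  have hc0 : c ≠ 0 := by
    rintro rfl
    rw [hc, map_zero, zero_mul] at h1
    exact zero_ne_one h1
  refine ⟨c⁻¹, ?_⟩
  rw [hc] at h1
  have h2 : algebraMap F E c⁻¹ * algebraMap F E c = 1 := by
    rw [← map_mul, inv_mul_cancel₀ hc0, map_one]
  calc ρ a⁻¹ = (algebraMap F E c⁻¹ * algebraMap F E c) * ρ a⁻¹ := by rw [h2, one_mul]
    _ = algebraMap F E c⁻¹ := by rw [mul_assoc, h1, mul_one]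

theorem sc_conj {F E Γ : Type*} [Field F] [Ring E] [Algebra F E] [Group Γ]
    (ρ : Γ →* E) {a : Γ} (h : Γ) (ha : Sc F (ρ a)) : ρ (h * a * h⁻¹) = ρ a := by
  obtain ⟨c, hc⟩ := ha
  rw [map_mul, map_mul, hc, ← Algebra.commutes, mul_assoc, rho_mul_inv, mul_one]

/-- Independence of inequivalent elements of `R`. -/
theorem q_li {F E Γ ι : Type*} [Field F] [Ring E] [Nontrivial E] [Algebra F E] [Group Γ]
    (ρ : Γ →* E) (R : Subgroup Γ) (cl2 : ∀ r ∈ R, ∀ r' ∈ R, Sc F (ρ ⁅r, r'⁆))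
    (nd : ∀ r ∈ R, (∀ r' ∈ R, ρ ⁅r, r'⁆ = 1) → Sc F (ρ r)) (s : Finset ι) (t : ι → Γ)
    (ht : ∀ i ∈ s, t i ∈ R) (hne : ∀ i ∈ s, ∀ j ∈ s, i ≠ j → ¬ Sc F (ρ ((t i)⁻¹ * t j)))
    (c : ι → F) (hsum : ∑ i ∈ s, c i • ρ (t i) = 0) : ∀ i ∈ s, c i = 0 := by
  classical
  -- the weights
  have hχ : ∀ i : ι, ∀ a : R, ∃ x : F, i ∈ s → ρ ⁅(a : Γ), t i⁆ = algebraMap F E x := by
    intro i a
    by_cases hi : i ∈ s
    · obtain ⟨x, hx⟩ := cl2 a a.2 (t i) (ht i hi)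
      exact ⟨x, fun _ => hx⟩
    · exact ⟨0, fun h => absurd h hi⟩
  choose χ hχ using hχ
  let act : R → E →ₗ[F] E := fun a =>
    (LinearMap.mulLeft F (ρ (a : Γ))).comp (LinearMap.mulRight F (ρ (a : Γ)⁻¹))
  have hact : ∀ (a : R) (e : E), act a e = ρ (a : Γ) * (e * ρ (a : Γ)⁻¹) := fun a e => rfl
  -- `ρ a * ρ (t i) = χ • ρ (t i) * ρ a`
  have hcomm : ∀ i ∈ s, ∀ a : R, ρ (a : Γ) * ρ (t i) = algebraMap F E (χ i a) * ρ (t i) * ρ (a : Γ) := by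
    intro i hi a
    rw [← hχ i a hi, ← map_mul, ← map_mul, ← map_mul]
    congr 1
    rw [commutatorElement_def]
    group
  have hw := weight_li act s (fun i => c i • ρ (t i)) χ (by
    intro i hi a
    rw [hact, smul_mul_assoc, mul_smul_comm, ← mul_assoc, hcomm i hi a, mul_assoc, rho_mul_inv,
      mul_one, smul_comm, Algebra.smul_def (χ i a)]) (by
    intro i hi j hj hij h
    apply hne i hi j hj hij
    apply nd _ (mul_mem (inv_mem (ht i hi)) (ht j hj))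
    intro r' hr'
    have h1 := hcomm i hi ⟨r', hr'⟩
    have h2 := hcomm j hj ⟨r', hr'⟩
    rw [h] at h1
    simp only at h1 h2
    -- `ρ r'` commutes with `ρ (t i)⁻¹ ρ (t j)`
    have h3 : ρ r' * (ρ (t i)⁻¹ * ρ (t j)) = (ρ (t i)⁻¹ * ρ (t j)) * ρ r' := by
      have h4 : ρ (t i) * (ρ r' * (ρ (t i)⁻¹ * ρ (t j)))
          = ρ (t i) * ((ρ (t i)⁻¹ * ρ (t j)) * ρ r') := by
        have hne0 : IsUnit (algebraMap F E (χ j ⟨r', hr'⟩)) := by
          rw [← hχ j ⟨r', hr'⟩ hj]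
          exact (Group.isUnit _).map ρ
        apply hne0.mul_left_cancel
        calc algebraMap F E (χ j ⟨r', hr'⟩) * (ρ (t i) * (ρ r' * (ρ (t i)⁻¹ * ρ (t j))))
            = (algebraMap F E (χ j ⟨r', hr'⟩) * ρ (t i) * ρ r') * (ρ (t i)⁻¹ * ρ (t j)) := by
              simp only [mul_assoc]
          _ = ρ r' * (ρ (t i) * ρ (t i)⁻¹) * ρ (t j) := by rw [← h1]; simp only [mul_assoc]
          _ = ρ r' * ρ (t j) := by rw [rho_mul_inv, mul_one]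
          _ = algebraMap F E (χ j ⟨r', hr'⟩) * ((ρ (t i) * ρ (t i)⁻¹) * ρ (t j) * ρ r') := by
              rw [h2, rho_mul_inv, one_mul, mul_assoc]
          _ = _ := by simp only [mul_assoc]
      have h5 := congrArg (fun e => ρ (t i)⁻¹ * e) h4
      rwa [← mul_assoc, rho_inv_mul, one_mul, ← mul_assoc (ρ (t i)⁻¹) (ρ (t i)), rho_inv_mul,
        one_mul] at h5
    rw [commutatorElement_def, map_mul, map_mul, map_mul, map_mul, ← h3]
    have h6 : ρ (t i)⁻¹ * ρ (t j) * ρ ((t i)⁻¹ * t j)⁻¹ = 1 := by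
      rw [← map_mul, rho_mul_inv]
    rw [mul_assoc (ρ r'), h6, mul_one, rho_mul_inv]) hsum
  intro i hi
  have h1 := hw i hi
  have h2 : ρ (t i) ≠ 0 := by
    intro h3
    have h4 := rho_mul_inv ρ (t i)
    rw [h3, zero_mul] at h4
    exact zero_ne_one h4
  exact (smul_eq_zero.1 h1).resolve_right h2

theorem z_ne {F E Γ : Type*} [Field F] [Ring E] [Nontrivial E] [Algebra F E] [Group Γ]
    (ρ : Γ →* E) (R : Subgroup Γ) (z : Γ) {p : ℕ} (hp : p.Prime) (hp2 : p ≠ 2)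
    (Q : QH F ρ R z p) (r : Γ) (hr : r ∈ R) (hns : ¬ Sc F (ρ r)) :
    ¬ Sc F (ρ (r⁻¹ * (z * r * z⁻¹))) ∧ ¬ Sc F (ρ (r * (z * r * z⁻¹))) := by
  constructor
  · intro h
    apply hns
    apply Q.fpf r hr
    have h1 := sc_conj ρ r h
    rw [show r * (r⁻¹ * (z * r * z⁻¹)) * r⁻¹ = ⁅z, r⁆ by rw [commutatorElement_def]; group] at h1
    rw [h1]
    exact h
  · intro h
    -- `ρ (z^2)` commutes with `ρ r`
    have h1 := sc_conj ρ z h
    have h2 := sc_conj ρ r⁻¹ h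
    have h3 : ρ (z * (r * (z * r * z⁻¹)) * z⁻¹) = ρ (r⁻¹ * (r * (z * r * z⁻¹)) * r⁻¹⁻¹) := by
      rw [h1, h2]
    have h4 : ρ (z ^ 2 * r * (z ^ 2)⁻¹) = ρ r := by
      have h5 := congrArg (fun e => ρ (z * r * z⁻¹)⁻¹ * e) h3
      rw [← map_mul, ← map_mul] at h5
      rw [show (z * r * z⁻¹)⁻¹ * (z * (r * (z * r * z⁻¹)) * z⁻¹) = z ^ 2 * r * (z ^ 2)⁻¹ by
        simp [pow_two, mul_assoc], show (z * r * z⁻¹)⁻¹ * (r⁻¹ * (r * (z * r * z⁻¹)) * r⁻¹⁻¹) = r by group] at h5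
      exact h5
    have h5 : Commute (ρ (z ^ 2)) (ρ r) := by
      have h6 := congrArg (fun e => e * ρ (z ^ 2)) h4
      rw [← map_mul, show z ^ 2 * r * (z ^ 2)⁻¹ * z ^ 2 = z ^ 2 * r by group, map_mul] at h6
      exact h6
    obtain ⟨m, hm⟩ := hp.odd_of_ne_two hp2
    have h6 : (z ^ 2) ^ (m + 1) = z := by
      rw [← pow_mul, show 2 * (m + 1) = p + 1 by omega, pow_succ, Q.zp, one_mul]
    have h7 : Commute (ρ z) (ρ r) := by
      have h8 := h5.pow_left (m + 1)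
      rwa [← map_pow, h6] at h8
    apply hns
    apply Q.fpf r hr
    refine ⟨1, ?_⟩
    rw [map_one, commutatorElement_def, map_mul, map_mul, map_mul, h7.eq, mul_assoc (ρ r),
      rho_mul_inv, mul_one, rho_mul_inv]

theorem quadA {F E Γ : Type*} [Field F] [Ring E] [Nontrivial E] [Algebra F E] [Group Γ]
    (ρ : Γ →* E) (R : Subgroup Γ) (z : Γ) {p : ℕ} (hp : p.Prime) (hp2 : p ≠ 2)
    (Q : QH F ρ R z p) (hquad : (ρ z - 1) * (ρ z - 1) = 0) (r : Γ) (hr : r ∈ R)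
    (hns : ¬ Sc F (ρ r)) : ρ (⁅z, r⁆ * ⁅z, r⁆) = -1 := by
  classical
  have hsR : ⁅z, r⁆ ∈ R := by
    rw [commutatorElement_def]
    exact mul_mem (Q.zR r hr) (inv_mem hr)
  have hs : ¬ Sc F (ρ ⁅z, r⁆) := fun h => hns (Q.fpf r hr h)
  -- the sum `ρ s + ρ s⁻¹` commutes with `ρ z`
  have hz1 : ρ z⁻¹ = 1 - (ρ z - 1) := by
    have h1 : ρ z * (1 - (ρ z - 1)) = 1 := by
      have h2 : ρ z * (1 - (ρ z - 1)) = 1 - (ρ z - 1) * (ρ z - 1) := by noncomm_ring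
      rw [h2, hquad, sub_zero]
    calc ρ z⁻¹ = ρ z⁻¹ * (ρ z * (1 - (ρ z - 1))) := by rw [h1, mul_one]
      _ = 1 - (ρ z - 1) := by rw [← mul_assoc, rho_inv_mul, one_mul]
  obtain ⟨a, ha⟩ : ∃ a, a = ρ z - 1 := ⟨_, rfl⟩
  have hza : ρ z = 1 + a := by rw [ha]; abel
  rw [← ha] at hquad hz1
  obtain ⟨b, hb⟩ : ∃ b, b = ρ r * a * ρ r⁻¹ := ⟨_, rfl⟩
  have e1 : ρ ⁅z, r⁆ = (1 + a) * (1 - b) := by
    rw [commutatorElement_def, show z * r * z⁻¹ * r⁻¹ = z * (r * z⁻¹ * r⁻¹) by group, map_mul,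
      map_mul, map_mul, hz1, hza, hb, mul_sub, sub_mul, mul_one, rho_mul_inv]
  have e2 : ρ ⁅z, r⁆⁻¹ = (1 + b) * (1 - a) := by
    rw [commutatorElement_def, show (z * r * z⁻¹ * r⁻¹)⁻¹ = (r * z * r⁻¹) * z⁻¹ by group, map_mul,
      map_mul, map_mul, hz1, hza, hb, mul_add, add_mul, mul_one, rho_mul_inv]
  have e3 : ρ z * (ρ ⁅z, r⁆ + ρ ⁅z, r⁆⁻¹) = (ρ ⁅z, r⁆ + ρ ⁅z, r⁆⁻¹) * ρ z := by
    rw [e1, e2, hza]
    have h1 : (1 + a) * ((1 + a) * (1 - b) + (1 + b) * (1 - a))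
        - ((1 + a) * (1 - b) + (1 + b) * (1 - a)) * (1 + a) = b * (a * a) - a * a * b := by
      noncomm_ring
    rw [hquad, mul_zero, zero_mul, sub_zero] at h1
    exact sub_eq_zero.1 h1
  obtain ⟨s, hsdef⟩ : ∃ s, s = ⁅z, r⁆ := ⟨_, rfl⟩
  rw [← hsdef] at hsR hs e3 ⊢
  obtain ⟨hn1, hn2⟩ := z_ne ρ R z hp hp2 Q s hsR hs
  have hs1R := Q.zR s hsR
  have e4 : ρ s + ρ s⁻¹ = ρ (z * s * z⁻¹) + ρ (z * s * z⁻¹)⁻¹ := by
    have h1 := congrArg (fun e => e * ρ z⁻¹) e3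
    rw [mul_assoc (ρ s + ρ s⁻¹), rho_mul_inv, mul_one, mul_add, add_mul, ← map_mul, ← map_mul,
      ← map_mul, ← map_mul] at h1
    rw [← h1]
    congr 2
    group
  by_cases hss : Sc F (ρ (s * s))
  · -- `ρ s⁻¹ = d⁻¹ ρ s`
    obtain ⟨d, hd⟩ := hss
    have hd0 : d ≠ 0 := by
      rintro rfl
      have h1 := rho_mul_inv ρ (s * s)
      rw [hd, map_zero, zero_mul] at h1
      exact zero_ne_one h1
    have h1 : ρ s = d • ρ s⁻¹ := by
      rw [Algebra.smul_def, ← hd, ← map_mul]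
      congr 1
      group
    have h2 : ρ s⁻¹ = d⁻¹ • ρ s := by
      rw [h1, smul_smul, inv_mul_cancel₀ hd0, one_smul]
    have h3 : ρ (z * s * z⁻¹)⁻¹ = d⁻¹ • ρ (z * s * z⁻¹) := by
      rw [show (z * s * z⁻¹)⁻¹ = z * s⁻¹ * z⁻¹ by group, map_mul, map_mul, h2, mul_smul_comm,
        smul_mul_assoc, ← map_mul, ← map_mul]
    have h4 := q_li ρ R Q.cl2 Q.nd (Finset.univ : Finset (Fin 2)) ![s, z * s * z⁻¹]
      (by
        intro i _
        fin_cases i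
        · exact hsR
        · exact hs1R)
      (by
        intro i _ j _ hij
        fin_cases i <;> fin_cases j
        · exact absurd rfl hij
        · exact hn1
        · intro h
          apply hn1
          have h5 := sc_inv ρ h
          have h6 : (((![s, z * s * z⁻¹] : Fin 2 → Γ) 1)⁻¹ * (![s, z * s * z⁻¹] : Fin 2 → Γ) 0)⁻¹
              = s⁻¹ * (z * s * z⁻¹) := by
            simp [mul_assoc]
          have h7 : Sc F (ρ (((![s, z * s * z⁻¹] : Fin 2 → Γ) 1)⁻¹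
              * (![s, z * s * z⁻¹] : Fin 2 → Γ) 0)⁻¹) := h5
          rwa [h6] at h7
        · exact absurd rfl hij)
      ![1 + d⁻¹, -(1 + d⁻¹)]
      (by
        rw [Fin.sum_univ_two]
        show (1 + d⁻¹) • ρ s + (-(1 + d⁻¹)) • ρ (z * s * z⁻¹) = 0
        rw [h2, h3] at e4
        rw [neg_smul, add_smul, add_smul, one_smul, one_smul, e4]
        abel) 0 (Finset.mem_univ _)
    have h5 : (1 : F) + d⁻¹ = 0 := h4
    have h6 : d = -1 := by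
      field_simp at h5
      linear_combination h5
    rw [hd, h6, map_neg, map_one]
  · exfalso
    have sym : ∀ x y : Γ, ¬ Sc F (ρ (x⁻¹ * y)) → ¬ Sc F (ρ (y⁻¹ * x)) := by
      intro x y h h'
      apply h
      have h1 := sc_inv ρ h'
      rwa [show (y⁻¹ * x)⁻¹ = x⁻¹ * y by group] at h1
    have p1 : ¬ Sc F (ρ (s⁻¹ * s⁻¹)) := by
      intro h
      apply hss
      have h1 := sc_inv ρ h
      rwa [show (s⁻¹ * s⁻¹)⁻¹ = s * s by rw [mul_inv_rev, inv_inv]] at h1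
    have p2 : ¬ Sc F (ρ (s⁻¹ * (z * s * z⁻¹))) := hn1
    have p3 : ¬ Sc F (ρ (s⁻¹ * (z * s * z⁻¹)⁻¹)) := by
      intro h
      apply hn2
      have h1 := sc_inv ρ h
      have h2 := sc_conj ρ s h1
      rw [show s * (s⁻¹ * (z * s * z⁻¹)⁻¹)⁻¹ * s⁻¹ = s * (z * s * z⁻¹) by group] at h2
      rw [h2]
      exact h1
    have p4 : ¬ Sc F (ρ ((s⁻¹)⁻¹ * (z * s * z⁻¹))) := by
      rw [inv_inv]
      exact hn2
    have p5 : ¬ Sc F (ρ ((s⁻¹)⁻¹ * (z * s * z⁻¹)⁻¹)) := by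
      intro h
      apply hn1
      have h1 := sc_inv ρ h
      have h2 := sc_conj ρ s⁻¹ h1
      rw [show s⁻¹ * ((s⁻¹)⁻¹ * (z * s * z⁻¹)⁻¹)⁻¹ * s⁻¹⁻¹ = s⁻¹ * (z * s * z⁻¹) by group] at h2
      rw [h2]
      exact h1
    have p6 : ¬ Sc F (ρ ((z * s * z⁻¹)⁻¹ * (z * s * z⁻¹)⁻¹)) := by
      intro h
      apply p1
      have h2 := sc_conj ρ z⁻¹ h
      rw [show z⁻¹ * ((z * s * z⁻¹)⁻¹ * (z * s * z⁻¹)⁻¹) * z⁻¹⁻¹ = s⁻¹ * s⁻¹ by group] at h2
      rw [h2]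
      exact h
    have h4 := q_li ρ R Q.cl2 Q.nd (Finset.univ : Finset (Fin 4))
      ![s, s⁻¹, z * s * z⁻¹, (z * s * z⁻¹)⁻¹]
      (by
        intro i _
        fin_cases i
        · exact hsR
        · exact inv_mem hsR
        · exact hs1R
        · exact inv_mem hs1R)
      (by
        intro i _ j _ hij
        fin_cases i <;> fin_cases j
        · exact absurd rfl hij
        · exact p1
        · exact p2
        · exact p3
        · exact sym _ _ p1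
        · exact absurd rfl hij
        · exact p4
        · exact p5
        · exact sym _ _ p2
        · exact sym _ _ p4
        · exact absurd rfl hij
        · exact p6
        · exact sym _ _ p3
        · exact sym _ _ p5
        · exact sym _ _ p6
        · exact absurd rfl hij)
      ![1, 1, -1, -1]
      (by
        rw [Fin.sum_univ_four]
        show (1 : F) • ρ s + (1 : F) • ρ s⁻¹ + (-1 : F) • ρ (z * s * z⁻¹)
          + (-1 : F) • ρ (z * s * z⁻¹)⁻¹ = 0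
        rw [one_smul, one_smul, neg_smul, neg_smul, one_smul, one_smul, e4]
        abel) 0 (Finset.mem_univ _)
    exact one_ne_zero (α := F) h4

end Pool.Agent.Work.MP_b44cb1_al.HH
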