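import Pool.Agent.Work.MP_b44cb1_al.HH.QuadA

/-!
# HH/QuadB (size M) : quadratic action, second part

`2 ≠ 0` in `F`, `R` finite. Notation as in QuadA (`r ~ r'` modulo scalars, `W = R/~` abelian).
1. `surj`: every `t ∈ R` is `~ ⁅z, r⁆` for some `r ∈ R`: the map `r ↦ ⁅z, r⁆` induces an injective
   endomorphism of the finite abelian group `W = R / {scalars}` (`⁅z, r r'⁆ = ⁅z, r⁆ · r ⁅z, r'⁆ r⁻¹ ~
   ⁅z, r⁆ ⁅z, r'⁆`; kernel trivial by `fpf`), so it is surjective.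
   Consequence (with `quadA`): `ρ (t t) ∈ scalars` for all `t ∈ R` (`t ~ s = ⁅z, r⁆`).
2. `anti`: for nonscalar `t₁ ≁ t₂` in `R`: `ρ (t₂ t₁) = - ρ (t₁ t₂)`. It suffices for
   `s_i = ⁅z, r_i⁆ ~ t_i`. `r₁ ≁ r₂` (else `s₁ ~ s₂`), and `r₁ r₂` is not scalar (`r₂ ~ r₂⁻¹`), so
   `s₁₂ = ⁅z, r₁ r₂⁆ = s₁ · (r₁ s₂ r₁⁻¹)`, `ρ (r₁ s₂ r₁⁻¹) = ε ρ s₂` with `ε² = 1` since
   `ρ (r₁ s₂² r₁⁻¹) = ε² ρ(s₂²)` and `ρ (s₂²) = -1`. By `quadA`: `-1 = ρ (s₁₂²) = ε² ρ(s₁ s₂ s₁ s₂)`.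
   `ρ (s₂ s₁) = c ρ (s₁ s₂)` for a scalar `c`, so `-1 = ρ (s₁ s₂ s₁ s₂) = c ρ(s₁²) ρ(s₂²) = c`.
3. `quadB`: let `r` be nonscalar; `z r z⁻¹ ≁ r`. Let `r' ∈ R` be nonscalar and
   `r' ≁ r, r' ≁ z r z⁻¹`. If `r' ≁ r · z r z⁻¹` then `r'` anticommutes with `r` and with `z r z⁻¹`, so it
   commutes with the product `r · z r z⁻¹` (nonscalar as `r ~ r⁻¹ ≁ z r z⁻¹`), but it also anticommutes
   with it by 2.; as `2 ≠ 0` and `ρ` of a group element is a unit this is a contradiction. So the only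
   nonscalar classes are those of `r`, `z r z⁻¹`, `r · z r z⁻¹`. Apply this to `r' = z² r z⁻²`, which
   is nonscalar, `≁ z r z⁻¹` and `≁ r` (`z² r z⁻² ~ r` gives `z r z⁻¹ ~ r⁻¹ ~ ...`; precisely `p` odd:
   `z r z⁻¹ = z^(p+1) r z^-(p+1) ~ r`): so `z² r z⁻² ~ r · z r z⁻¹`. Hence every nonscalar class is one of
   `z^j r z^-j`, `j = 0, 1, 2`. Moreover `z³ r z⁻³ ~ z r z⁻¹ · z² r z⁻² ~ z r z⁻¹ · r · z r z⁻¹ ~ r`, and
   `z^p = 1`; if `p ≠ 3` then `z r z⁻¹ ~ r`, contradiction. So `p = 3`.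
-/

set_option autoImplicit false

namespace Pool.Agent.Work.MP_b44cb1_al.HH

open Subgroup
open scoped commutatorElement

private theorem unit_rho {E Γ : Type*} [Ring E] [Group Γ] (ρ : Γ →* E) (a : Γ) : IsUnit (ρ a) :=
  (Group.isUnit a).map ρ

/-- the elements of `R` which act as scalars -/
private def scSub {F E Γ : Type*} [Field F] [Ring E] [Nontrivial E] [Algebra F E] [Group Γ]
    (ρ : Γ →* E) : Subgroup Γ where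
  carrier := {r | Sc F (ρ r)}
  one_mem' := ⟨1, by rw [map_one, map_one]⟩
  mul_mem' := fun ha hb => sc_mul ρ ha hb
  inv_mem' := fun ha => sc_inv ρ ha

theorem quad_surj {F E Γ : Type*} [Field F] [Ring E] [Nontrivial E] [Algebra F E] [Group Γ]
    [Finite Γ] (ρ : Γ →* E) (R : Subgroup Γ) (z : Γ) {p : ℕ} (Q : QH F ρ R z p) (t : Γ)
    (ht : t ∈ R) : ∃ r ∈ R, Sc F (ρ (t⁻¹ * ⁅z, r⁆)) := by
  have hmem : ∀ r ∈ R, ⁅z, r⁆ ∈ R := by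
    intro r hr
    rw [commutatorElement_def]
    exact mul_mem (Q.zR r hr) (inv_mem hr)
  let N : Subgroup R := (scSub (F := F) ρ).subgroupOf R
  have hN : ∀ x : R, x ∈ N ↔ Sc F (ρ (x : Γ)) := fun x => Iff.rfl
  -- formula for the commutators
  have hform : ∀ r u : Γ, ⁅z, r⁆⁻¹ * ⁅z, r * u⁆ = r * ⁅z, u⁆ * r⁻¹ := by
    intro r u
    simp only [commutatorElement_def]
    group
  let f : R → R := fun r => ⟨⁅z, (r : Γ)⁆, hmem r r.2⟩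
  have hf : ∀ r r' : R, (r⁻¹ * r' ∈ N ↔ (f r)⁻¹ * f r' ∈ N) := by
    intro r r'
    rw [hN, hN]
    have h1 : (((f r)⁻¹ * f r' : R) : Γ) = r * ⁅z, ((r⁻¹ * r' : R) : Γ)⁆ * (r : Γ)⁻¹ := by
      rw [← hform]
      show ⁅z, (r : Γ)⁆⁻¹ * ⁅z, (r' : Γ)⁆ = ⁅z, (r : Γ)⁆⁻¹ * ⁅z, (r : Γ) * ((r⁻¹ * r' : R) : Γ)⁆
      rw [Subgroup.coe_mul, Subgroup.coe_inv, mul_inv_cancel_left]
    rw [h1]
    constructor
    · intro h
      -- `ρ ⁅z, u⁆ = 1`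
      have h2 : Sc F (ρ ⁅z, ((r⁻¹ * r' : R) : Γ)⁆) := by
        rw [commutatorElement_def]
        have h3 := sc_conj ρ z h
        rw [map_mul, h3]
        obtain ⟨c, hc⟩ := sc_inv ρ h
        obtain ⟨d, hd⟩ := h
        exact ⟨d * c, by rw [hc, hd, map_mul]⟩
      rw [sc_conj ρ _ h2]
      exact h2
    · intro h
      apply Q.fpf _ (r⁻¹ * r' : R).2
      have h2 := sc_conj ρ (r : Γ)⁻¹ h
      rw [show (r : Γ)⁻¹ * (r * ⁅z, ((r⁻¹ * r' : R) : Γ)⁆ * (r : Γ)⁻¹) * (r : Γ)⁻¹⁻¹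
        = ⁅z, ((r⁻¹ * r' : R) : Γ)⁆ by group] at h2
      rw [h2]
      exact h
  let F' : R ⧸ N → R ⧸ N := fun q => Quotient.liftOn' q (fun r => (QuotientGroup.mk (f r) : R ⧸ N)) (by
    intro a b hab
    rw [QuotientGroup.leftRel_apply] at hab
    exact QuotientGroup.eq.2 ((hf a b).1 hab))
  have hinj : Function.Injective F' := by
    intro a b
    refine Quotient.inductionOn₂' a b fun r r' h => ?_
    exact QuotientGroup.eq.2 ((hf r r').2 (QuotientGroup.eq.1 h))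
  have hsurj := Finite.surjective_of_injective hinj
  obtain ⟨q, hq⟩ := hsurj (QuotientGroup.mk (⟨t, ht⟩ : R))
  obtain ⟨r, rfl⟩ := QuotientGroup.mk_surjective q
  refine ⟨r, r.2, ?_⟩
  have h1 : (QuotientGroup.mk (⟨t, ht⟩ : R) : R ⧸ N) = QuotientGroup.mk (f r) := hq.symm
  have h2 := QuotientGroup.eq.1 h1
  exact h2

/-- a scalar factor -/
private theorem fac {F E Γ : Type*} [Field F] [Ring E] [Nontrivial E] [Algebra F E] [Group Γ]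
    (ρ : Γ →* E) {s t : Γ} (h : Sc F (ρ (t⁻¹ * s))) :
    ∃ c : F, c ≠ 0 ∧ ρ s = c • ρ t := by
  obtain ⟨c, hc⟩ := h
  refine ⟨c, ?_, ?_⟩
  · rintro rfl
    have h1 := unit_rho ρ (t⁻¹ * s)
    rw [hc, map_zero] at h1
    exact not_isUnit_zero h1
  · rw [Algebra.smul_def, ← hc, hc, Algebra.commutes, ← hc, ← map_mul, mul_inv_cancel_left]

private theorem nonsc_of {F E Γ : Type*} [Field F] [Ring E] [Nontrivial E] [Algebra F E] [Group Γ]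
    (ρ : Γ →* E) {s t : Γ} (h : Sc F (ρ (t⁻¹ * s))) (ht : ¬ Sc F (ρ t)) : ¬ Sc F (ρ s) := by
  intro hs
  apply ht
  have h1 := sc_mul ρ hs (sc_inv ρ h)
  rwa [show s * (t⁻¹ * s)⁻¹ = t by group] at h1

theorem quad_anti {F E Γ : Type*} [Field F] [Ring E] [Nontrivial E] [Algebra F E] [Group Γ]
    [Finite Γ] (ρ : Γ →* E) (R : Subgroup Γ) (z : Γ) {p : ℕ} (hp : p.Prime) (hp2 : p ≠ 2)
    (Q : QH F ρ R z p) (hquad : (ρ z - 1) * (ρ z - 1) = 0) (t₁ t₂ : Γ) (h₁ : t₁ ∈ R)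
    (h₂ : t₂ ∈ R) (hn₁ : ¬ Sc F (ρ t₁)) (hn₂ : ¬ Sc F (ρ t₂)) (hne : ¬ Sc F (ρ (t₁⁻¹ * t₂))) :
    ρ (t₂ * t₁) = - ρ (t₁ * t₂) := by
  obtain ⟨r₁, hr₁, hs₁⟩ := quad_surj ρ R z Q t₁ h₁
  obtain ⟨r₂, hr₂, hs₂⟩ := quad_surj ρ R z Q t₂ h₂
  have scz : ∀ r : Γ, Sc F (ρ r) → Sc F (ρ ⁅z, r⁆) := by
    intro r h
    rw [commutatorElement_def, map_mul, sc_conj ρ z h]
    obtain ⟨c, hc⟩ := sc_inv ρ h
    obtain ⟨d, hd⟩ := h
    exact ⟨d * c, by rw [hc, hd, map_mul]⟩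
  have hr₁n : ¬ Sc F (ρ r₁) := fun h => nonsc_of ρ hs₁ hn₁ (scz _ h)
  have hr₂n : ¬ Sc F (ρ r₂) := fun h => nonsc_of ρ hs₂ hn₂ (scz _ h)
  have q₁ := quadA ρ R z hp hp2 Q hquad r₁ hr₁ hr₁n
  have q₂ := quadA ρ R z hp hp2 Q hquad r₂ hr₂ hr₂n
  obtain ⟨s₁, hs₁d⟩ : ∃ s, s = ⁅z, r₁⁆ := ⟨_, rfl⟩
  obtain ⟨s₂, hs₂d⟩ : ∃ s, s = ⁅z, r₂⁆ := ⟨_, rfl⟩
  rw [← hs₁d] at q₁ hs₁
  rw [← hs₂d] at q₂ hs₂
  have hmem : ∀ r ∈ R, ⁅z, r⁆ ∈ R := by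
    intro r hr
    rw [commutatorElement_def]
    exact mul_mem (Q.zR r hr) (inv_mem hr)
  have hs₁R : s₁ ∈ R := hs₁d ▸ hmem r₁ hr₁
  have hs₂R : s₂ ∈ R := hs₂d ▸ hmem r₂ hr₂
  obtain ⟨c₁, hc₁, e₁⟩ := fac ρ hs₁
  obtain ⟨c₂, hc₂, e₂⟩ := fac ρ hs₂
  -- `r₁ r₂` is not scalar
  have hr12 : ¬ Sc F (ρ (r₁ * r₂)) := by
    intro h
    apply hne
    -- `ρ ⁅z, r₁ * r₂⁆` is `1`-like: `s₁ * (r₁ s₂ r₁⁻¹)` is scalar
    have h1 : Sc F (ρ ⁅z, r₁ * r₂⁆) := scz _ h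
    have h2 : ⁅z, r₁ * r₂⁆ = s₁ * (⁅r₁, s₂⁆ * s₂) := by
      rw [hs₁d, hs₂d]
      simp only [commutatorElement_def]
      group
    rw [h2] at h1
    have h3 : Sc F (ρ ⁅r₁, s₂⁆) := Q.cl2 r₁ hr₁ s₂ hs₂R
    -- `ρ (s₁ * s₂)` is scalar
    have h4 : Sc F (ρ (s₁ * s₂)) := by
      obtain ⟨a, ha⟩ := h1
      obtain ⟨b, hb⟩ := h3
      obtain ⟨b', hb'⟩ := sc_inv ρ (Q.cl2 r₁ hr₁ s₂ hs₂R)
      refine ⟨b' * a, ?_⟩
      rw [map_mul (algebraMap F E), ← ha, ← hb', map_mul ρ s₁ (⁅r₁, s₂⁆ * s₂),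
        map_mul ρ ⁅r₁, s₂⁆ s₂, hb, hb', ← mul_assoc (ρ s₁), ← Algebra.commutes b (ρ s₁),
        ← mul_assoc, ← mul_assoc, ← map_mul (algebraMap F E), map_mul ρ s₁ s₂]
      have h5 : algebraMap F E (b' * b) = 1 := by
        rw [map_mul, ← hb, ← hb', ← map_mul, inv_mul_cancel, map_one]
      rw [h5, one_mul]
    -- `ρ (s₁⁻¹ * s₂)` is scalar
    have h5 : ρ s₁⁻¹ = - ρ s₁ := by
      have h6 := congrArg (fun e => e * ρ s₁⁻¹) q₁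
      rw [← map_mul, mul_inv_cancel_right, neg_mul, one_mul] at h6
      rw [h6, neg_neg]
    have h6 : Sc F (ρ (s₁⁻¹ * s₂)) := by
      rw [map_mul, h5, neg_mul, ← map_mul]
      obtain ⟨a, ha⟩ := h4
      exact ⟨-a, by rw [ha, map_neg]⟩
    have h7 := sc_mul ρ (sc_mul ρ hs₁ h6) (sc_inv ρ hs₂)
    rwa [show t₁⁻¹ * s₁ * (s₁⁻¹ * s₂) * (t₂⁻¹ * s₂)⁻¹ = t₁⁻¹ * t₂ by group] at h7
  have q₁₂ := quadA ρ R z hp hp2 Q hquad (r₁ * r₂) (mul_mem hr₁ hr₂) hr12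
  obtain ⟨ε, hε⟩ := Q.cl2 r₁ hr₁ s₂ hs₂R
  have hconj : ρ (r₁ * s₂ * r₁⁻¹) = algebraMap F E ε * ρ s₂ := by
    rw [← hε, ← map_mul]
    congr 1
    rw [commutatorElement_def]
    group
  have hε2 : algebraMap F E ε * algebraMap F E ε = 1 := by
    have h1 : ρ (r₁ * (s₂ * s₂) * r₁⁻¹) = -1 := by
      rw [map_mul, map_mul, q₂, mul_neg, mul_one, neg_mul, ← map_mul, mul_inv_cancel, map_one]
    have h2 : ρ (r₁ * (s₂ * s₂) * r₁⁻¹) = ρ (r₁ * s₂ * r₁⁻¹) * ρ (r₁ * s₂ * r₁⁻¹) := by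
      rw [← map_mul]
      congr 1
      group
    rw [h2, hconj, mul_assoc, ← mul_assoc (ρ s₂), ← Algebra.commutes ε (ρ s₂), mul_assoc, ← map_mul ρ s₂ s₂,
      q₂, mul_neg, mul_one, mul_neg] at h1
    exact neg_inj.1 h1
  have h12 : ρ s₁ * ρ s₂ * (ρ s₁ * ρ s₂) = -1 := by
    have h1 : ⁅z, r₁ * r₂⁆ = s₁ * (r₁ * s₂ * r₁⁻¹) := by
      rw [hs₁d, hs₂d]
      simp only [commutatorElement_def]
      group
    rw [h1, map_mul, map_mul ρ s₁, hconj] at q₁₂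
    have h2 : ρ s₁ * (algebraMap F E ε * ρ s₂) = algebraMap F E ε * (ρ s₁ * ρ s₂) := by
      rw [← mul_assoc, ← Algebra.commutes ε (ρ s₁), mul_assoc]
    rw [h2, mul_assoc, ← mul_assoc (ρ s₁ * ρ s₂), ← Algebra.commutes ε (ρ s₁ * ρ s₂), mul_assoc,
      ← mul_assoc (algebraMap F E ε), hε2, one_mul] at q₁₂
    exact q₁₂
  have hanti : ρ s₂ * ρ s₁ = -(ρ s₁ * ρ s₂) := by
    have h1 := congrArg (fun e => ρ s₁ * e * ρ s₂) h12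
    have h2 : ρ s₁ * (ρ s₁ * ρ s₂ * (ρ s₁ * ρ s₂)) * ρ s₂
        = ρ (s₁ * s₁) * (ρ s₂ * ρ s₁) * ρ (s₂ * s₂) := by
      rw [map_mul, map_mul]
      simp only [mul_assoc]
    rw [h2, q₁, q₂] at h1
    rw [mul_neg, mul_one, neg_mul, one_mul, neg_neg, mul_neg, mul_one, neg_mul] at h1
    exact h1
  have h1 : (c₁ * c₂) • (ρ t₂ * ρ t₁) = (c₁ * c₂) • (-(ρ t₁ * ρ t₂)) := by
    rw [e₁, e₂, smul_mul_smul_comm, smul_mul_smul_comm] at hanti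
    rw [smul_neg, ← hanti, mul_comm c₁ c₂]
  rw [map_mul, map_mul]
  exact smul_right_injective E (mul_ne_zero hc₁ hc₂) h1

/-- if `z^d` fixes the class of `r` and `p ∤ d` then `z` fixes it -/
private theorem per {F E Γ : Type*} [Field F] [Ring E] [Nontrivial E] [Algebra F E] [Group Γ]
    (ρ : Γ →* E) (z : Γ) {p : ℕ} (hp : p.Prime) (hz : z ^ p = 1) (d : ℕ) (hd : ¬ p ∣ d) (r : Γ)
    (h : Sc F (ρ (r⁻¹ * (z ^ d * r * (z ^ d)⁻¹)))) : Sc F (ρ (r⁻¹ * (z * r * z⁻¹))) := by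
  have h1 : ∀ m : ℕ, Sc F (ρ (r⁻¹ * ((z ^ d) ^ m * r * ((z ^ d) ^ m)⁻¹))) := by
    intro m
    induction m with
    | zero =>
      refine ⟨1, ?_⟩
      rw [map_one, pow_zero, one_mul, inv_one, mul_one, inv_mul_cancel, map_one]
    | succ m ih =>
      have h2 := sc_mul ρ h (by
        rw [sc_conj ρ (z ^ d) ih]
        exact ih : Sc F (ρ (z ^ d * (r⁻¹ * ((z ^ d) ^ m * r * ((z ^ d) ^ m)⁻¹)) * (z ^ d)⁻¹)))
      rw [pow_succ' (z ^ d) m, mul_inv_rev]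
      have h3 : r⁻¹ * (z ^ d * (z ^ d) ^ m * r * (((z ^ d) ^ m)⁻¹ * (z ^ d)⁻¹))
          = r⁻¹ * (z ^ d * r * (z ^ d)⁻¹)
            * (z ^ d * (r⁻¹ * ((z ^ d) ^ m * r * ((z ^ d) ^ m)⁻¹)) * (z ^ d)⁻¹) := by
        simp only [mul_assoc, mul_inv_cancel_left, inv_mul_cancel_left]
      rw [h3]
      exact h2
  obtain ⟨m, -, hm⟩ := Nat.exists_mul_mod_eq_one_of_coprime
    ((Nat.Prime.coprime_iff_not_dvd hp).2 hd).symm hp.one_lt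
  have h2 := h1 m
  have h3 : (z ^ d) ^ m = z := by
    rw [← pow_mul, ← Nat.div_add_mod (d * m) p, hm, pow_add, pow_mul, hz, one_pow, one_mul, pow_one]
  rwa [h3] at h2

theorem quadB {F E Γ : Type*} [Field F] [Ring E] [Nontrivial E] [Algebra F E] [Group Γ]
    [Finite Γ] (h2 : (2 : F) ≠ 0) (ρ : Γ →* E) (R : Subgroup Γ) (z : Γ) {p : ℕ} (hp : p.Prime)
    (hp2 : p ≠ 2) (Q : QH F ρ R z p) (hquad : (ρ z - 1) * (ρ z - 1) = 0)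
    (hne : ∃ r ∈ R, ¬ Sc F (ρ r)) :
    p = 3 ∧ ∀ r ∈ R, ∀ r' ∈ R, ¬ Sc F (ρ r) → ¬ Sc F (ρ r') →
      ∃ j : ℕ, Sc F (ρ (r'⁻¹ * (z ^ j * r * (z ^ j)⁻¹))) := by
  have sym : ∀ x y : Γ, Sc F (ρ (x⁻¹ * y)) → Sc F (ρ (y⁻¹ * x)) := by
    intro x y h
    have h1 := sc_inv ρ h
    rwa [show (x⁻¹ * y)⁻¹ = y⁻¹ * x by group] at h1
  have trans' : ∀ x y w : Γ, Sc F (ρ (x⁻¹ * y)) → Sc F (ρ (y⁻¹ * w)) → Sc F (ρ (x⁻¹ * w)) := by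
    intro x y w h h'
    have h1 := sc_mul ρ h h'
    rwa [show x⁻¹ * y * (y⁻¹ * w) = x⁻¹ * w by group] at h1
  have conjz : ∀ x y : Γ, Sc F (ρ (x⁻¹ * y)) →
      Sc F (ρ ((z * x * z⁻¹)⁻¹ * (z * y * z⁻¹))) := by
    intro x y h
    have h1 := sc_conj ρ z h
    rw [show z * (x⁻¹ * y) * z⁻¹ = (z * x * z⁻¹)⁻¹ * (z * y * z⁻¹) by group] at h1
    rw [h1]
    exact h
  have conjz' : ∀ x y : Γ, Sc F (ρ ((z * x * z⁻¹)⁻¹ * (z * y * z⁻¹))) →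
      Sc F (ρ (x⁻¹ * y)) := by
    intro x y h
    have h1 := sc_conj ρ z⁻¹ h
    rw [show z⁻¹ * ((z * x * z⁻¹)⁻¹ * (z * y * z⁻¹)) * z⁻¹⁻¹ = x⁻¹ * y by group] at h1
    rw [h1]
    exact h
  have nonscz : ∀ x : Γ, ¬ Sc F (ρ x) → ¬ Sc F (ρ (z * x * z⁻¹)) := by
    intro x h h'
    apply h
    have h1 := sc_conj ρ z⁻¹ h'
    rw [show z⁻¹ * (z * x * z⁻¹) * z⁻¹⁻¹ = x by group] at h1
    rw [h1]
    exact h'
  -- claim A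
  have claimA : ∀ r ∈ R, ¬ Sc F (ρ r) → ∀ r' ∈ R, ¬ Sc F (ρ r') →
      Sc F (ρ (r'⁻¹ * r)) ∨ Sc F (ρ (r'⁻¹ * (z * r * z⁻¹))) ∨
        Sc F (ρ (r'⁻¹ * (r * (z * r * z⁻¹)))) := by
    intro r hr hrn r' hr' hrn'
    by_contra hcon
    push Not at hcon
    obtain ⟨k1, k2, k3⟩ := hcon
    have a1 := quad_anti ρ R z hp hp2 Q hquad r' r hr' hr hrn' hrn k1
    have a2 := quad_anti ρ R z hp hp2 Q hquad r' (z * r * z⁻¹) hr' (Q.zR r hr) hrn'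
      (nonscz r hrn) k2
    have a3 := quad_anti ρ R z hp hp2 Q hquad r' (r * (z * r * z⁻¹)) hr'
      (mul_mem hr (Q.zR r hr)) hrn' (z_ne ρ R z hp hp2 Q r hr hrn).2 k3
    have a4 : ρ (r * (z * r * z⁻¹) * r') = ρ (r' * (r * (z * r * z⁻¹))) := by
      rw [mul_assoc, map_mul ρ r, a2, mul_neg, ← map_mul, ← mul_assoc, map_mul, a1, neg_mul,
        neg_neg, ← map_mul, mul_assoc]
    rw [a4] at a3
    have a5 : (2 : F) • ρ (r' * (r * (z * r * z⁻¹))) = 0 := by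
      rw [two_smul]
      nth_rewrite 1 [a3]
      exact neg_add_cancel _
    have a6 := (smul_eq_zero.1 a5).resolve_left h2
    have a7 := unit_rho ρ (r' * (r * (z * r * z⁻¹)))
    rw [a6] at a7
    exact not_isUnit_zero a7
  have hp2' : ¬ p ∣ 2 := by
    intro h
    exact hp2 ((Nat.prime_dvd_prime_iff_eq hp Nat.prime_two).1 h)
  -- claim B
  have claimB : ∀ r ∈ R, ¬ Sc F (ρ r) →
      Sc F (ρ ((z * (z * r * z⁻¹) * z⁻¹)⁻¹ * (r * (z * r * z⁻¹)))) := by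
    intro r hr hrn
    have hz := z_ne ρ R z hp hp2 Q r hr hrn
    rcases claimA r hr hrn (z * (z * r * z⁻¹) * z⁻¹) (Q.zR _ (Q.zR r hr))
      (nonscz _ (nonscz _ hrn)) with h | h | h
    · exfalso
      apply hz.1
      apply per ρ z hp Q.zp 2 hp2' r
      have h1 := sym _ _ h
      rwa [show z ^ 2 * r * (z ^ 2)⁻¹ = z * (z * r * z⁻¹) * z⁻¹ by
        simp [pow_two, mul_assoc]]
    · exfalso
      apply hz.1
      exact sym _ _ (conjz' _ _ h)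
    · exact h
  have hcl : ∀ r ∈ R, ∀ r' ∈ R, ¬ Sc F (ρ r) → ¬ Sc F (ρ r') →
      ∃ j : ℕ, Sc F (ρ (r'⁻¹ * (z ^ j * r * (z ^ j)⁻¹))) := by
    intro r hr r' hr' hrn hrn'
    rcases claimA r hr hrn r' hr' hrn' with h | h | h
    · exact ⟨0, by rwa [pow_zero, one_mul, inv_one, mul_one]⟩
    · exact ⟨1, by rwa [pow_one]⟩
    · refine ⟨2, ?_⟩
      rw [show z ^ 2 * r * (z ^ 2)⁻¹ = z * (z * r * z⁻¹) * z⁻¹ by
        simp [pow_two, mul_assoc]]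
      exact trans' _ _ _ h (sym _ _ (claimB r hr hrn))
  refine ⟨?_, hcl⟩
  by_contra hp3
  obtain ⟨r, hr, hrn⟩ := hne
  have hz := z_ne ρ R z hp hp2 Q r hr hrn
  have hp3' : ¬ p ∣ 3 := by
    intro h
    exact hp3 ((Nat.prime_dvd_prime_iff_eq hp Nat.prime_three).1 h)
  apply hz.1
  apply per ρ z hp Q.zp 3 hp3' r
  -- squares are scalar
  have hsq : ∀ t ∈ R, Sc F (ρ (t * t)) := by
    intro t ht
    by_cases htn : Sc F (ρ t)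
    · exact sc_mul ρ htn htn
    obtain ⟨u, hu, hut⟩ := quad_surj ρ R z Q t ht
    have hun : ¬ Sc F (ρ u) := by
      intro h
      apply nonsc_of ρ hut htn
      rw [commutatorElement_def, map_mul, sc_conj ρ z h]
      obtain ⟨c, hc⟩ := sc_inv ρ h
      obtain ⟨d, hd⟩ := h
      exact ⟨d * c, by rw [hc, hd, map_mul]⟩
    have hq := quadA ρ R z hp hp2 Q hquad u hu hun
    obtain ⟨c, hc, e⟩ := fac ρ hut
    rw [map_mul, e, smul_mul_smul_comm] at hq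
    refine ⟨(c * c)⁻¹ * (-1), ?_⟩
    rw [map_mul ρ, map_mul (algebraMap F E), map_neg, map_one, ← hq, ← Algebra.smul_def, smul_smul,
      inv_mul_cancel₀ (mul_ne_zero hc hc), one_smul]
  -- `z³ r z⁻³ ~ r`
  have k1 := conjz _ _ (claimB r hr hrn)
  -- `z (r r1) z⁻¹ = r1 r2 ~ r1 r r1`
  have k2 : Sc F (ρ ((z * r * z⁻¹ * (z * (z * r * z⁻¹) * z⁻¹))⁻¹
      * (z * r * z⁻¹ * (r * (z * r * z⁻¹))))) := by
    have h1 := claimB r hr hrn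
    rwa [show (z * r * z⁻¹ * (z * (z * r * z⁻¹) * z⁻¹))⁻¹
      * (z * r * z⁻¹ * (r * (z * r * z⁻¹))) = (z * (z * r * z⁻¹) * z⁻¹)⁻¹ * (r * (z * r * z⁻¹)) by
        group]
  have k3 : Sc F (ρ ((z * r * z⁻¹ * (r * (z * r * z⁻¹)))⁻¹ * r)) := by
    -- `(r1 r r1)⁻¹ r = r1⁻¹ r⁻¹ r1⁻¹ r`; conjugate to a product of a square and a commutator
    have h1 := hsq _ (Q.zR r hr)
    have h3 := Q.cl2 (z * r * z⁻¹) (Q.zR r hr) (r⁻¹) (inv_mem hr)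
    have h4 := sc_inv ρ h1
    have h5 := sc_mul ρ h4 h3
    have h6 : ((z * r * z⁻¹) * (z * r * z⁻¹))⁻¹ * ⁅z * r * z⁻¹, r⁻¹⁆
        = (z * r * z⁻¹ * (r * (z * r * z⁻¹)))⁻¹ * r := by
      simp only [commutatorElement_def]
      group
    rwa [h6] at h5
  have k4 : z ^ 3 * r * (z ^ 3)⁻¹ = z * (z * (z * r * z⁻¹) * z⁻¹) * z⁻¹ := by
    simp [pow_succ, mul_assoc]
  rw [k4]
  apply sym
  refine trans' _ _ _ k1 (trans' _ _ _ ?_ k3)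
  rwa [show z * (r * (z * r * z⁻¹)) * z⁻¹ = z * r * z⁻¹ * (z * (z * r * z⁻¹) * z⁻¹) by group]

end Pool.Agent.Work.MP_b44cb1_al.HH
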