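import Pool.Agent.Work.MP_b44cb1_al.HH.A1
import Pool.Agent.Work.MP_b44cb1_al.HH.A2
import Pool.Agent.Work.MP_b44cb1_al.HH.MC
import Pool.Agent.Work.MP_b44cb1_al.HH.AlpRel

/-!
# HH/ThmA (size S-M) : Theorem A

Let `n = p^k` and `M = closure {⁅g^n, h^n⁆ | g, h ∈ P} ≤ P`, normalised by `P`. Suppose `M` does not
centralise `Q`. Apply `mc` (`T = P`, `R₀ = Q`): `R`, `Z`. Let `C = P ⊓ centralizer R`,
`E = P ⊓ centralizer Z`; `C ≤ E` (`Z ≤ R`), both normalised by `P` (`R`, `Z` are `P`-invariant).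
`alp_rel` gives `B`. For `g ∈ P`: `g^n ∈ E` by `hA` with `A = Z` (`Z` is commutative: it is central in
`R`; `cj g Z = Z` from `Nz P Z` by `cj_eq_of_mem`); `(g^n)^p = 1 ∈ C`. If `⁅g^n, b⁆ ∈ C` for all `g ∈ P`,
`b ∈ B` then all `g^n ∈ B`, so `⁅g^n, h^n⁆ ∈ C` and `M ≤ C` centralises `R`, contradiction. So there are
`g ∈ P`, `b ∈ B` with `⁅g^n, b⁆ ∉ C`. `a1` (with `z = g^n`) gives `H` and `a2` a contradiction.
-/

set_option autoImplicit false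

namespace Pool.Agent.Work.MP_b44cb1_al.HH

open Subgroup
open scoped commutatorElement

theorem thmA {G : Type*} [Group G] [Finite G] {p q : ℕ} (hp : p.Prime) (hp2 : p ≠ 2)
    (hq : q.Prime) (hpq : q ≠ p) (k : ℕ) (P Q : Subgroup G) (hP : IsPGroup p P)
    (hQ : IsPGroup q Q) (hPQ : Nz P Q) (hexp : ∀ g ∈ P, g ^ p ^ (k + 1) = 1)
    (hA : ∀ g ∈ P, ∀ A : Subgroup G, A ≤ Q → Cz A A → cj g A = A → ∀ a ∈ A,
      g ^ p ^ k * a = a * g ^ p ^ k) :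
    ∀ g ∈ P, ∀ h ∈ P, ∀ x ∈ Q, ⁅g ^ p ^ k, h ^ p ^ k⁆ * x = x * ⁅g ^ p ^ k, h ^ p ^ k⁆ := by
  set n : ℕ := p ^ k with hn
  let M : Subgroup G := closure {y | ∃ g ∈ P, ∃ h ∈ P, y = ⁅g ^ n, h ^ n⁆}
  have hgen : ∀ g ∈ P, ∀ h ∈ P, ⁅g ^ n, h ^ n⁆ ∈ M := fun g hg h hh =>
    subset_closure ⟨g, hg, h, hh, rfl⟩
  have hMP : M ≤ P := by
    rw [closure_le]
    rintro _ ⟨g, hg, h, hh, rfl⟩
    exact mul_mem (mul_mem (mul_mem (pow_mem hg _) (pow_mem hh _)) (inv_mem (pow_mem hg _)))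
      (inv_mem (pow_mem hh _))
  have hPM : Nz P M := by
    intro t ht d hd
    induction hd using closure_induction with
    | mem x hx =>
      obtain ⟨g, hg, h, hh, rfl⟩ := hx
      have h1 := hgen (t * g * t⁻¹) (mul_mem (mul_mem ht hg) (inv_mem ht)) (t * h * t⁻¹)
        (mul_mem (mul_mem ht hh) (inv_mem ht))
      have h2 : ⁅(t * g * t⁻¹) ^ n, (t * h * t⁻¹) ^ n⁆ = t * ⁅g ^ n, h ^ n⁆ * t⁻¹ := by
        rw [conj_pow, conj_pow, commutatorElement_def, commutatorElement_def]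
        group
      rwa [h2] at h1
    | one => simp
    | mul x y _ _ hx hy =>
      have := mul_mem hx hy
      have e : t * x * t⁻¹ * (t * y * t⁻¹) = t * (x * y) * t⁻¹ := by group
      rwa [e] at this
    | inv x _ hx =>
      have := inv_mem hx
      have e : (t * x * t⁻¹)⁻¹ = t * x⁻¹ * t⁻¹ := by group
      rwa [e] at this
  by_contra hcon
  have hne : ¬ ∀ m ∈ M, ∀ x ∈ Q, m * x = x * m := fun h => hcon fun g hg h' hh' x hx =>
    h _ (hgen g hg h' hh') x hx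
  obtain ⟨R, Z, hRQ, hPR, hZR, hPZ, hMR, -, -, hRZ, hZc⟩ := mc hp hq hpq P M Q hMP
    (hP.to_le hMP) hPM hQ hPQ hne
  let C : Subgroup G := P ⊓ centralizer (R : Set G)
  let E : Subgroup G := P ⊓ centralizer (Z : Set G)
  have hCm : ∀ c, c ∈ C ↔ c ∈ P ∧ ∀ r ∈ R, r * c = c * r := fun c => by
    change c ∈ P ∧ c ∈ centralizer (R : Set G) ↔ _
    rw [mem_centralizer_iff]
    rfl
  have hEm : ∀ c, c ∈ E ↔ c ∈ P ∧ ∀ r ∈ Z, r * c = c * r := fun c => by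
    change c ∈ P ∧ c ∈ centralizer (Z : Set G) ↔ _
    rw [mem_centralizer_iff]
    rfl
  have hCE : C ≤ E := by
    intro c hc
    rw [hCm] at hc
    rw [hEm]
    exact ⟨hc.1, fun r hr => hc.2 r (hZR hr)⟩
  have hgenN : ∀ R' : Subgroup G, Nz P R' → ∀ t ∈ P, ∀ c, (∀ r ∈ R', r * c = c * r) →
      ∀ r ∈ R', r * (t * c * t⁻¹) = t * c * t⁻¹ * r := by
    intro R' hR' t ht c hc r hr
    have h1 := hc _ (hR' t⁻¹ (inv_mem ht) r hr)
    rw [inv_inv] at h1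
    have h2 : r * (t * c * t⁻¹) = t * (t⁻¹ * r * t * c) * t⁻¹ := by group
    rw [h2, h1]
    group
  have hPC : Nz P C := by
    intro t ht c hc
    rw [hCm] at hc ⊢
    exact ⟨mul_mem (mul_mem ht hc.1) (inv_mem ht), hgenN R hPR t ht c hc.2⟩
  have hPE : Nz P E := by
    intro t ht c hc
    rw [hEm] at hc ⊢
    exact ⟨mul_mem (mul_mem ht hc.1) (inv_mem ht), hgenN Z hPZ t ht c hc.2⟩
  obtain ⟨B, hCB, hBE, hPB, hab, hBexp, hmax⟩ := alp_rel hp hp2 P E C hP hCE inf_le_left hPE hPC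
  have hCzZ : Cz Z Z := fun a ha b hb => hZc a ha b (hZR hb)
  have hgE : ∀ g ∈ P, g ^ n ∈ E := by
    intro g hg
    rw [hEm]
    exact ⟨pow_mem hg _, fun r hr =>
      (hA g hg Z (hZR.trans hRQ) hCzZ (cj_eq_of_mem hPZ hg) r hr).symm⟩
  have hgp : ∀ g ∈ P, (g ^ n) ^ p = 1 := by
    intro g hg
    rw [← pow_mul, hn, ← pow_succ]
    exact hexp g hg
  by_cases hall : ∀ g ∈ P, ∀ b ∈ B, ⁅g ^ n, b⁆ ∈ C
  · have hgB : ∀ g ∈ P, g ^ n ∈ B := fun g hg =>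
      hmax _ (hgE g hg) (by rw [hgp g hg]; exact one_mem _) (hall g hg)
    have hMC : M ≤ C := by
      rw [closure_le]
      rintro _ ⟨g, hg, h, hh, rfl⟩
      exact hall g hg _ (hgB h hh)
    exact hMR fun m hm x hx => (((hCm m).1 (hMC hm)).2 x hx).symm
  · push Not at hall
    obtain ⟨g, hg, b, hb, hgb⟩ := hall
    have hBP : B ≤ P := hBE.trans inf_le_left
    have hCc : ∀ c ∈ C, ∀ r ∈ R, c * r = r * c := fun c hc r hr => (((hCm c).1 hc).2 r hr).symm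
    have hC' : ∀ c ∈ B, (∀ r ∈ R, c * r = r * c) → c ∈ C := fun c hc h =>
      (hCm c).2 ⟨hBP hc, fun r hr => (h r hr).symm⟩
    obtain ⟨H, hCH, hHB, hcyc, hX, hzH⟩ := a1 hp hq hpq R B C (hQ.to_le hRQ) (hP.to_le hBP)
      (hPR.mono hBP) hCB hCc hC' hab hBexp (g ^ n) ⟨1, by rw [pow_one]; exact hgp g hg⟩
      (hPB (g ^ n) (pow_mem hg _)) ⟨b, hb, hgb⟩
    exact a2 hp hq hpq k P R Z B C H g hP (hQ.to_le hRQ) hg (hexp g hg) hPR hBP hPB hCB hCc hab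
      hBexp hRZ (fun b hb x hx => (((hEm b).1 (hBE hb)).2 x hx).symm) hCH hHB hcyc hX hzH
      (fun A hA1 hA2 hA3 => hA g hg A (hA1.trans hRQ) hA2 hA3)

end Pool.Agent.Work.MP_b44cb1_al.HH
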