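import Pool.Agent.Work.MP_b44cb1_al.HH.Defs

/-!
# HH/WtLI (size S) : vectors with distinct weights are independent

`act a (v i) = χ i a • v i`, `χ i ≠ χ j` for `i ≠ j`, `∑ v i = 0`: then all `v i = 0`.
Induction on `s` (Dedekind): suppose `v i₀ ≠ 0`. For `j ≠ i₀` in `s` choose `a` with
`χ i₀ a ≠ χ j a`; apply `act a - χ j a`: `∑_{i ∈ s \ j} (χ i a - χ j a) • v i = 0`, a shorter relation
with nonzero `i₀` term. (Induct on `s.card` with statement: for all `v` with these weights,
`∑ v i = 0 → ∀ i ∈ s, v i = 0`; the vectors `(χ i a - χ j a) • v i` have the same weights.)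
-/

set_option autoImplicit false

namespace Pool.Agent.Work.MP_b44cb1_al.HH

theorem weight_li {F V A ι : Type*} [Field F] [AddCommGroup V] [Module F V]
    (act : A → V →ₗ[F] V) (s : Finset ι) (v : ι → V) (χ : ι → A → F)
    (hv : ∀ i ∈ s, ∀ a, act a (v i) = χ i a • v i)
    (hχ : ∀ i ∈ s, ∀ j ∈ s, i ≠ j → χ i ≠ χ j) (hsum : ∑ i ∈ s, v i = 0) :
    ∀ i ∈ s, v i = 0 := by
  classical
  induction s using Finset.induction_on generalizing v with
  | empty => intro i hi; exact absurd hi (Finset.notMem_empty i)
  | insert j s hj ih =>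
    have key : ∀ i ∈ s, v i = 0 := by
      have h1 : ∀ a, ∀ i ∈ s, (χ i a - χ j a) • v i = 0 := by
        intro a
        refine ih (fun i => (χ i a - χ j a) • v i) ?_ ?_ ?_
        · intro i hi b
          rw [map_smul, hv i (Finset.mem_insert_of_mem hi) b, smul_comm]
        · intro i hi k hk hik
          exact hχ i (Finset.mem_insert_of_mem hi) k (Finset.mem_insert_of_mem hk) hik
        · have h2 := congrArg (act a) hsum
          rw [map_sum, map_zero, Finset.sum_insert hj, hv j (Finset.mem_insert_self _ _) a] at h2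
          have h3 := congrArg (fun w => χ j a • w) hsum
          rw [Finset.sum_insert hj] at h3
          simp only [smul_add, smul_zero, Finset.smul_sum] at h3
          rw [Finset.sum_congr rfl fun i hi => hv i (Finset.mem_insert_of_mem hi) a] at h2
          simp only [sub_smul, Finset.sum_sub_distrib]
          have h4 : (χ j a • v j + ∑ i ∈ s, χ i a • v i) - (χ j a • v j + ∑ i ∈ s, χ j a • v i) =
              0 := by rw [h2, h3, sub_zero]
          rw [← h4]
          abel
      intro i hi
      have hne : i ≠ j := fun h => hj (h ▸ hi)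
      have h5 := hχ i (Finset.mem_insert_of_mem hi) j (Finset.mem_insert_self _ _) hne
      obtain ⟨a, ha⟩ := Function.ne_iff.1 h5
      exact (smul_eq_zero.1 (h1 a i hi)).resolve_left (sub_ne_zero.2 ha)
    intro i hi
    rcases Finset.mem_insert.1 hi with rfl | hi
    · rw [Finset.sum_insert hj, Finset.sum_eq_zero key, add_zero] at hsum
      exact hsum
    · exact key i hi

end Pool.Agent.Work.MP_b44cb1_al.HH
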